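import Pool.Agent.P.MP_fa5791_lc.Metric

namespace Pool.Agent.P.MP_fa5791_lc

open Pool.Agent.Lib.ComputableProp

/-- `2 ^ (-n)` -/
noncomputable def q (n : ℕ) : ℝ := 1 / 2 ^ n

theorem q_pos (n : ℕ) : 0 < q n := by unfold q; positivity
theorem q_succ (n : ℕ) : q (n + 1) = q n / 2 := by unfold q; rw [pow_succ]; field_simp
theorem q_add (a b : ℕ) : q (a + b) = q a * q b := by unfold q; rw [pow_add]; field_simp
theorem q_anti {a b : ℕ} (h : a ≤ b) : q b ≤ q a :=
  one_div_le_one_div_of_le (by positivity) (pow_le_pow_right₀ (by norm_num) h)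
theorem q_zero : q 0 = 1 := by simp [q]
theorem q_le_one (n : ℕ) : q n ≤ 1 := q_zero ▸ q_anti (Nat.zero_le n)
theorem q_mul_pow (n : ℕ) : q n * 2 ^ n = 1 := by unfold q; field_simp
theorem exists_q_lt {ε : ℝ} (h : 0 < ε) : ∃ n, q n < ε := by
  obtain ⟨n, hn⟩ := exists_pow_lt_of_lt_one h (show (1 / 2 : ℝ) < 1 by norm_num)
  exact ⟨n, by rwa [one_div_pow] at hn⟩

theorem cr_q {α : Type} [Primcodable α] {g : α → ℕ} (hg : Computable g) :
    CR (fun a => q (g a)) := CR.inv_pow hg

theorem re_forall_code {α β : Type} [Primcodable α] [Primcodable β] {R : α → β → Prop}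
    {l : α → ℕ} (hl : Computable l) (h : RE (fun z : α × β => R z.1 z.2)) :
    RE (fun a => ∀ w, Encodable.encode w < l a → R a w) := by
  have h1 : RE (fun z : (α × ℕ) × β => l z.1.1 ≤ Encodable.encode z.2 ∨ R z.1.1 z.2) :=
    (RE.le (by fun_prop) (by fun_prop)).or
      (h.comp (f := fun z : (α × ℕ) × β => (z.1.1, z.2)) (by fun_prop))
  have h2 := RE.forall_mem (l := fun z : α × ℕ => (Encodable.decode (α := β) z.2).toList)
    (R := fun z w => l z.1 ≤ Encodable.encode w ∨ R z.1 w)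
    (Primrec.optionToList.to_comp.comp (by fun_prop)) h1
  refine (RE.forall_lt (R := fun a t => ∀ w ∈ (Encodable.decode (α := β) t).toList,
    l a ≤ Encodable.encode w ∨ R a w) hl h2).of_iff fun a => ⟨fun H w hw => ?_, fun H t _ w _ => ?_⟩
  · exact (H _ hw w (by simp)).resolve_left (by omega)
  · by_cases hw : Encodable.encode w < l a
    · exact Or.inr (H w hw)
    · exact Or.inl (by omega)

/-- centre, radius, slope exponent, height exponent -/
abbrev Tent := ℕ × ℕ × ℕ × ℕ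
/-- phase, current point, `b0`, `b1`, `u1`, precision -/
abbrev Dat := ℕ × ℕ × ℕ × ℕ × ℕ × ℕ
/-- frozen bound, up bumps, down bumps, cuts, data of the requirements -/
abbrev St := ℕ × List Tent × List Tent × List Tent × List (ℕ × Dat)
abbrev W0 := List ℕ × ℕ × ℕ × List ℕ × ℕ × ℕ × ℕ × List ℕ × ℕ
abbrev W1 := List ℕ × ℕ × ℕ × ℕ
abbrev W2 := List ℕ × ℕ × ℕ

variable {X : Type} [MetricSpace X] (c : ℕ → X)

noncomputable def tv (T : Tent) (x : X) : ℝ :=
  max 0 (q T.2.2.2 - |2 ^ T.2.2.1 * dist x (c T.1) - T.2.1|)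

noncomputable def tsm (L : List Tent) (x : X) : ℝ := (L.map fun T => tv c T x).sum

noncomputable def phi (st : St) (x : X) : ℝ := tsm c st.2.1 x - tsm c st.2.2.1 x

noncomputable def D0 (st : St) (x y : X) : ℝ := max (dist x y) |phi c st x - phi c st y|

noncomputable def DL (L : List Tent) (x y : X) : ℝ :=
  L.foldr (fun T acc => max |tv c T x - tv c T y| acc) (dist x y)

noncomputable def D1 (st : St) (x y : X) : ℝ := DL c st.2.2.2.1 x y

def look (R : List (ℕ × Dat)) (e : ℕ) : Dat :=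
  R.foldr (fun x acc => cond (eqb x.1 e) x.2 acc) (0, 0, 0, 0, 0, 0)

def ValW (D : X → X → ℝ) (n : ℕ) (σ : List ℕ) (m b : ℕ) : Prop :=
  ∀ i < σ.length, σ.getD i 0 < n ∧ D (c (σ.getD i 0)) (c m) + q b < q i

def NValS (D : X → X → ℝ) (n : ℕ) (σ : List ℕ) (m b : ℕ) : Prop :=
  ∃ i < σ.length, n ≤ σ.getD i 0 ∨ q i < D (c (σ.getD i 0)) (c m) + (q b + q b)

def New (st : St) (τ m m' j : ℕ) : Prop :=
  D0 c st (c m') (c m) < q τ ∧ ∀ i < st.1, q j < dist (c m') (c i)

def dec0 (r s e n : ℕ) (w : W0) : Bool :=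
  eqb (com e.unpair.1 s w.1 (e + 2)) (some w.2.2.1) && leb (w.2.2.1 + 1) n &&
  leb (e + r + 1) w.2.1 && eqb (com e.unpair.1 s w.2.2.2.1 (w.2.2.2.2.2.2.1 + 2))
    (some w.2.2.2.2.2.1) && leb (w.2.2.2.2.2.1 + 1) n && leb (w.2.1 + 3) w.2.2.2.2.1 &&
  eqb (com e.unpair.2 s w.2.2.2.2.2.2.2.1 (w.2.1 + 3)) (some w.2.2.2.2.2.2.2.2)

def Weak0 (p r s e : ℕ) (st : St) (w : W0) : Prop :=
  dec0 r s e st.1 w = true ∧ ValW c (D0 c st) st.1 w.1 p w.2.1 ∧
    ValW c (D0 c st) st.1 w.2.2.2.1 p w.2.2.2.2.1 ∧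
    ValW c (D1 c st) st.1 w.2.2.2.2.2.2.2.1 w.2.2.2.2.2.1 w.2.2.2.2.2.2.1

def NS0 (p r s e : ℕ) (st : St) (w : W0) : Prop :=
  dec0 r s e st.1 w = false ∨ NValS c (D0 c st) st.1 w.1 p w.2.1 ∨
    NValS c (D0 c st) st.1 w.2.2.2.1 p w.2.2.2.2.1 ∨
    NValS c (D1 c st) st.1 w.2.2.2.2.2.2.2.1 w.2.2.2.2.2.1 w.2.2.2.2.2.2.1

def dec1 (s e n : ℕ) (w : W1) : Bool :=
  eqb (com e.unpair.1 s w.1 w.2.2.2) (some w.2.2.1) && leb (w.2.2.1 + 1) n

def SepW (L : List Tent) (v u k a : ℕ) : Prop :=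
  q (k + 2) + (4 : ℕ) * q a < dist (c v) (c u) ∨
    ∃ T ∈ L, q (k + 2) + 2 ^ T.2.2.1 * ((4 : ℕ) * q a) < |tv c T (c v) - tv c T (c u)|

def NSepS (L : List Tent) (v u k a : ℕ) : Prop :=
  dist (c v) (c u) < q (k + 2) + (5 : ℕ) * q a ∧
    ∀ T ∈ L, |tv c T (c v) - tv c T (c u)| < q (k + 2) + 2 ^ T.2.2.1 * ((5 : ℕ) * q a)

def Weak1 (s e : ℕ) (st : St) (d : Dat) (w : W1) : Prop :=
  dec1 s e st.1 w = true ∧ ValW c (D0 c st) st.1 w.1 d.2.1 w.2.1 ∧
    SepW c st.2.2.2.1 w.2.2.1 d.2.2.2.2.1 d.2.2.2.2.2 w.2.2.2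

def NS1 (s e : ℕ) (st : St) (d : Dat) (w : W1) : Prop :=
  dec1 s e st.1 w = false ∨ NValS c (D0 c st) st.1 w.1 d.2.1 w.2.1 ∨
    NSepS c st.2.2.2.1 w.2.2.1 d.2.2.2.2.1 d.2.2.2.2.2 w.2.2.2

def Cut (n v a ρ j : ℕ) : Prop :=
  2 * 2 ^ j + 2 ^ a ≤ ρ * 2 ^ a ∧ (ρ + 1) * 2 ^ a ≤ 4 * 2 ^ j ∧
    ∀ i < n, ((1 : ℕ) : ℝ) < |2 ^ j * dist (c i) (c v) - ρ|

def dec2 (s e : ℕ) (d : Dat) (w : W2) : Bool :=
  eqb (com e.unpair.1 s w.1 d.2.2.2.2.2) (some w.2.2) && leb (d.2.2.2.1 + 1) w.2.1

def Weak2 (s e : ℕ) (st : St) (d : Dat) (w : W2) : Prop :=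
  dec2 s e d w = true ∧ ValW c (D0 c st) st.1 w.1 d.2.1 w.2.1

def NS2 (s e : ℕ) (st : St) (d : Dat) (w : W2) : Prop :=
  dec2 s e d w = false ∨ NValS c (D0 c st) st.1 w.1 d.2.1 w.2.1

def idle (st : St) : St := (st.1 + 1, st.2)

def Rel0 (p r s e : ℕ) (st st' : St) : Prop :=
  ((∀ w : W0, Encodable.encode w < s → NS0 c p r s e st w) ∧ st' = idle st) ∨
  ∃ w : W0, ∃ m' j : ℕ, Weak0 c p r s e st w ∧ New c st (w.2.2.2.2.1 + 3) p m' j ∧
    st' = (max st.1 m' + 1, (m', 0, j, w.2.1 + 1) :: st.2.1, st.2.2.1, st.2.2.2.1,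
      (e, (1, m', w.2.1, w.2.2.2.2.1, w.2.2.2.2.2.1, w.2.2.2.2.2.2.1)) :: st.2.2.2.2)

def Rel1 (s e : ℕ) (st : St) (d : Dat) (st' : St) : Prop :=
  ((∀ w : W1, Encodable.encode w < s → NS1 c s e st d w) ∧ st' = idle st) ∨
  ∃ w : W1, ∃ ρ j : ℕ, Weak1 c s e st d w ∧ Cut c st.1 w.2.2.1 w.2.2.2 ρ j ∧
    st' = (st.1 + 1, st.2.1, st.2.2.1, (w.2.2.1, ρ, j, e) :: st.2.2.2.1,
      (e, (2, d.2.1, d.2.2.1, d.2.2.2.1, d.2.2.2.2.1, e + j + 2)) :: st.2.2.2.2)

def Rel2 (p r s e : ℕ) (st : St) (d : Dat) (st' : St) : Prop :=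
  (D0 c st (c d.2.1) (c p) < q d.2.2.2.1 ∧
    st' = (st.1 + 1, st.2.1, st.2.2.1, st.2.2.2.1, (e, (3, d.2)) :: st.2.2.2.2)) ∨
  (q (r + 1) < dist (c d.2.1) (c p) ∧ st' = idle st) ∨
  ((∀ w : W2, Encodable.encode w < s → NS2 c s e st d w) ∧ st' = idle st) ∨
  (q (d.2.2.2.1 + 1) < D0 c st (c d.2.1) (c p) ∧ ∃ w : W2, ∃ m' j : ℕ, Weak2 c s e st d w ∧
    (∀ w' : W2, Encodable.encode w' < s → NS2 c s e st d w' ∨ w.2.1 ≤ w'.2.1) ∧
    New c st (w.2.1 + d.2.2.2.1 + s + 4) d.2.1 m' j ∧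
    st' = (max st.1 m' + 1, st.2.1, (m', 0, j, w.2.1 + 1) :: st.2.2.1, st.2.2.2.1,
      (e, (2, m', d.2.2)) :: st.2.2.2.2))

def Rel (p r s : ℕ) (st st' : St) : Prop :=
  ((look st.2.2.2.2 s.unpair.1).1 = 0 ∧ Rel0 c p r s s.unpair.1 st st') ∨
  ((look st.2.2.2.2 s.unpair.1).1 = 1 ∧
    Rel1 c s s.unpair.1 st (look st.2.2.2.2 s.unpair.1) st') ∨
  ((look st.2.2.2.2 s.unpair.1).1 = 2 ∧
    Rel2 c p r s s.unpair.1 st (look st.2.2.2.2 s.unpair.1) st') ∨
  (3 ≤ (look st.2.2.2.2 s.unpair.1).1 ∧ st' = idle st)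

section re
variable {c} {α : Type} [Primcodable α] (hc : CR fun z : ℕ × ℕ => dist (c z.1) (c z.2))

@[fun_prop] theorem c_look {R : α → List (ℕ × Dat)} {e : α → ℕ} (hR : Computable R)
    (he : Computable e) : Computable fun a => look (R a) (e a) := by
  unfold look; fun_prop

@[fun_prop] theorem c_idle {st : α → St} (h : Computable st) :
    Computable fun a => idle (st a) := by
  unfold idle; fun_prop

@[fun_prop] theorem c_dec0 {r s e n : α → ℕ} {w : α → W0} (hr : Computable r) (hs : Computable s)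
    (he : Computable e) (hn : Computable n) (hw : Computable w) :
    Computable fun a => dec0 (r a) (s a) (e a) (n a) (w a) := by
  unfold dec0; fun_prop

@[fun_prop] theorem c_dec1 {s e n : α → ℕ} {w : α → W1} (hs : Computable s)
    (he : Computable e) (hn : Computable n) (hw : Computable w) :
    Computable fun a => dec1 (s a) (e a) (n a) (w a) := by
  unfold dec1; fun_prop

@[fun_prop] theorem c_dec2 {s e : α → ℕ} {d : α → Dat} {w : α → W2} (hs : Computable s)
    (he : Computable e) (hn : Computable d) (hw : Computable w) :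
    Computable fun a => dec2 (s a) (e a) (d a) (w a) := by
  unfold dec2; fun_prop

include hc

theorem cr_dist {i j : α → ℕ} (hi : Computable i) (hj : Computable j) :
    CR fun a => dist (c (i a)) (c (j a)) :=
  hc.comp (f := fun a => (i a, j a)) (by fun_prop)

theorem cr_tv {T : α → Tent} {i : α → ℕ} (hT : Computable T) (hi : Computable i) :
    CR fun a => tv c (T a) (c (i a)) :=
  (cr_q (by fun_prop)).tsub (((cr_dist hc hi (by fun_prop)).pow_mul (by fun_prop)).abs_sub
    (CR.nat (by fun_prop)))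

theorem cr_tsm {L : α → List Tent} {i : α → ℕ} (hL : Computable L) (hi : Computable i) :
    CR fun a => tsm c (L a) (c (i a)) :=
  CR.list_sum (F := fun a T => tv c T (c (i a))) hL (cr_tv hc (by fun_prop) (by fun_prop))

theorem cr_D0 {st : α → St} {i j : α → ℕ} (hs : Computable st) (hi : Computable i)
    (hj : Computable j) : CR fun a => D0 c (st a) (c (i a)) (c (j a)) := by
  refine (cr_dist hc hi hj).max ?_
  refine (((cr_tsm hc (L := fun a => (st a).2.1) (by fun_prop) hi).add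
    (cr_tsm hc (L := fun a => (st a).2.2.1) (by fun_prop) hj)).abs_sub
    ((cr_tsm hc (L := fun a => (st a).2.1) (by fun_prop) hj).add
    (cr_tsm hc (L := fun a => (st a).2.2.1) (by fun_prop) hi))).of_eq fun a => ?_
  unfold phi
  ring_nf

theorem cr_D1 {st : α → St} {i j : α → ℕ} (hs : Computable st) (hi : Computable i)
    (hj : Computable j) : CR fun a => D1 c (st a) (c (i a)) (c (j a)) :=
  CR.list_max (F := fun a T => |tv c T (c (i a)) - tv c T (c (j a))|) (by fun_prop)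
    ((cr_tv hc (by fun_prop) (by fun_prop)).abs_sub (cr_tv hc (by fun_prop) (by fun_prop)))
    (cr_dist hc hi hj)

theorem re_ValW0 {st : α → St} {σ : α → List ℕ} {m b : α → ℕ} (hs : Computable st)
    (hσ : Computable σ) (hm : Computable m) (hb : Computable b) :
    RE fun a => ValW c (D0 c (st a)) (st a).1 (σ a) (m a) (b a) :=
  RE.forall_lt (by fun_prop) ((RE.lt (by fun_prop) (by fun_prop)).and
    (((cr_D0 hc (by fun_prop) (by fun_prop) (by fun_prop)).add (cr_q (by fun_prop))).lt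
      (cr_q (by fun_prop))))

theorem re_ValW1 {st : α → St} {σ : α → List ℕ} {m b : α → ℕ} (hs : Computable st)
    (hσ : Computable σ) (hm : Computable m) (hb : Computable b) :
    RE fun a => ValW c (D1 c (st a)) (st a).1 (σ a) (m a) (b a) :=
  RE.forall_lt (by fun_prop) ((RE.lt (by fun_prop) (by fun_prop)).and
    (((cr_D1 hc (by fun_prop) (by fun_prop) (by fun_prop)).add (cr_q (by fun_prop))).lt
      (cr_q (by fun_prop))))

theorem re_NValS0 {st : α → St} {σ : α → List ℕ} {m b : α → ℕ} (hs : Computable st)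
    (hσ : Computable σ) (hm : Computable m) (hb : Computable b) :
    RE fun a => NValS c (D0 c (st a)) (st a).1 (σ a) (m a) (b a) :=
  RE.exists_lt (by fun_prop) ((RE.le (by fun_prop) (by fun_prop)).or
    ((cr_q (by fun_prop)).lt ((cr_D0 hc (by fun_prop) (by fun_prop) (by fun_prop)).add
      ((cr_q (by fun_prop)).add (cr_q (by fun_prop))))))

theorem re_NValS1 {st : α → St} {σ : α → List ℕ} {m b : α → ℕ} (hs : Computable st)
    (hσ : Computable σ) (hm : Computable m) (hb : Computable b) :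
    RE fun a => NValS c (D1 c (st a)) (st a).1 (σ a) (m a) (b a) :=
  RE.exists_lt (by fun_prop) ((RE.le (by fun_prop) (by fun_prop)).or
    ((cr_q (by fun_prop)).lt ((cr_D1 hc (by fun_prop) (by fun_prop) (by fun_prop)).add
      ((cr_q (by fun_prop)).add (cr_q (by fun_prop))))))

theorem re_New {st : α → St} {τ m m' j : α → ℕ} (hs : Computable st)
    (hτ : Computable τ) (hm : Computable m) (hm' : Computable m') (hj : Computable j) :
    RE fun a => New c (st a) (τ a) (m a) (m' a) (j a) :=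
  ((cr_D0 hc hs hm' hm).lt (cr_q hτ)).and (RE.forall_lt (by fun_prop)
    ((cr_q (by fun_prop)).lt (cr_dist hc (by fun_prop) (by fun_prop))))

theorem re_Weak0 {p r : ℕ} {s e : α → ℕ} {st : α → St} {w : α → W0} (hs : Computable s)
    (he : Computable e) (hst : Computable st) (hw : Computable w) :
    RE fun a => Weak0 c p r (s a) (e a) (st a) (w a) :=
  (RE.of_bool (by fun_prop)).and ((re_ValW0 hc hst (by fun_prop) (by fun_prop) (by fun_prop)).and
    ((re_ValW0 hc hst (by fun_prop) (by fun_prop) (by fun_prop)).and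
      (re_ValW1 hc hst (by fun_prop) (by fun_prop) (by fun_prop))))

theorem re_NS0 {p r : ℕ} {s e : α → ℕ} {st : α → St} {w : α → W0} (hs : Computable s)
    (he : Computable e) (hst : Computable st) (hw : Computable w) :
    RE fun a => NS0 c p r (s a) (e a) (st a) (w a) :=
  (RE.eq (by fun_prop) (by fun_prop)).or
    ((re_NValS0 hc hst (by fun_prop) (by fun_prop) (by fun_prop)).or
    ((re_NValS0 hc hst (by fun_prop) (by fun_prop) (by fun_prop)).or
      (re_NValS1 hc hst (by fun_prop) (by fun_prop) (by fun_prop))))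

theorem re_SepW {L : α → List Tent} {v u k a : α → ℕ} (hL : Computable L) (hv : Computable v)
    (hu : Computable u) (hk : Computable k) (ha : Computable a) :
    RE fun x => SepW c (L x) (v x) (u x) (k x) (a x) :=
  (((cr_q (by fun_prop)).add ((cr_q ha).nat_mul (by fun_prop))).lt (cr_dist hc hv hu)).or
    (RE.exists_mem hL (((cr_q (by fun_prop)).add (((cr_q (by fun_prop)).nat_mul
      (by fun_prop)).pow_mul (by fun_prop))).lt
      ((cr_tv hc (by fun_prop) (by fun_prop)).abs_sub (cr_tv hc (by fun_prop) (by fun_prop)))))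

theorem re_NSepS {L : α → List Tent} {v u k a : α → ℕ} (hL : Computable L) (hv : Computable v)
    (hu : Computable u) (hk : Computable k) (ha : Computable a) :
    RE fun x => NSepS c (L x) (v x) (u x) (k x) (a x) :=
  ((cr_dist hc hv hu).lt ((cr_q (by fun_prop)).add ((cr_q ha).nat_mul (by fun_prop)))).and
    (RE.forall_mem hL (((cr_tv hc (by fun_prop) (by fun_prop)).abs_sub
      (cr_tv hc (by fun_prop) (by fun_prop))).lt ((cr_q (by fun_prop)).add
      (((cr_q (by fun_prop)).nat_mul (by fun_prop)).pow_mul (by fun_prop)))))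

theorem re_Weak1 {s e : α → ℕ} {st : α → St} {d : α → Dat} {w : α → W1} (hs : Computable s)
    (he : Computable e) (hst : Computable st) (hd : Computable d) (hw : Computable w) :
    RE fun a => Weak1 c (s a) (e a) (st a) (d a) (w a) :=
  (RE.of_bool (by fun_prop)).and ((re_ValW0 hc hst (by fun_prop) (by fun_prop) (by fun_prop)).and
    (re_SepW hc (by fun_prop) (by fun_prop) (by fun_prop) (by fun_prop) (by fun_prop)))

theorem re_NS1 {s e : α → ℕ} {st : α → St} {d : α → Dat} {w : α → W1} (hs : Computable s)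
    (he : Computable e) (hst : Computable st) (hd : Computable d) (hw : Computable w) :
    RE fun a => NS1 c (s a) (e a) (st a) (d a) (w a) :=
  (RE.eq (by fun_prop) (by fun_prop)).or
    ((re_NValS0 hc hst (by fun_prop) (by fun_prop) (by fun_prop)).or
    (re_NSepS hc (by fun_prop) (by fun_prop) (by fun_prop) (by fun_prop) (by fun_prop)))

theorem re_Cut {n v a ρ j : α → ℕ} (hn : Computable n) (hv : Computable v)
    (ha : Computable a) (hρ : Computable ρ) (hj : Computable j) :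
    RE fun x => Cut c (n x) (v x) (a x) (ρ x) (j x) :=
  (RE.le (by fun_prop) (by fun_prop)).and ((RE.le (by fun_prop) (by fun_prop)).and
    (RE.forall_lt hn ((CR.nat (f := fun _ => 1) (by fun_prop)).lt
      (((cr_dist hc (by fun_prop) (by fun_prop)).pow_mul (by fun_prop)).abs_sub
        (CR.nat (by fun_prop))))))

theorem re_Weak2 {s e : α → ℕ} {st : α → St} {d : α → Dat} {w : α → W2} (hs : Computable s)
    (he : Computable e) (hst : Computable st) (hd : Computable d) (hw : Computable w) :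
    RE fun a => Weak2 c (s a) (e a) (st a) (d a) (w a) :=
  (RE.of_bool (by fun_prop)).and (re_ValW0 hc hst (by fun_prop) (by fun_prop) (by fun_prop))

theorem re_NS2 {s e : α → ℕ} {st : α → St} {d : α → Dat} {w : α → W2} (hs : Computable s)
    (he : Computable e) (hst : Computable st) (hd : Computable d) (hw : Computable w) :
    RE fun a => NS2 c (s a) (e a) (st a) (d a) (w a) :=
  (RE.eq (by fun_prop) (by fun_prop)).or
    (re_NValS0 hc hst (by fun_prop) (by fun_prop) (by fun_prop))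

theorem re_Rel0 {p r : ℕ} {s e : α → ℕ} {st st' : α → St} (hs : Computable s)
    (he : Computable e) (hst : Computable st) (hst' : Computable st') :
    RE fun a => Rel0 c p r (s a) (e a) (st a) (st' a) :=
  ((re_forall_code hs (re_NS0 hc (by fun_prop) (by fun_prop) (by fun_prop) (by fun_prop))).and
    (RE.eq hst' (by fun_prop))).or (RE.ex (RE.ex (RE.ex
      ((re_Weak0 hc (by fun_prop) (by fun_prop) (by fun_prop) (by fun_prop)).and
      ((re_New hc (by fun_prop) (by fun_prop) (by fun_prop) (by fun_prop) (by fun_prop)).and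
      (RE.eq (by fun_prop) (by fun_prop)))))))

theorem re_Rel1 {s e : α → ℕ} {st st' : α → St} {d : α → Dat} (hs : Computable s)
    (he : Computable e) (hst : Computable st) (hd : Computable d) (hst' : Computable st') :
    RE fun a => Rel1 c (s a) (e a) (st a) (d a) (st' a) :=
  ((re_forall_code hs (re_NS1 hc (by fun_prop) (by fun_prop) (by fun_prop) (by fun_prop)
    (by fun_prop))).and (RE.eq hst' (by fun_prop))).or (RE.ex (RE.ex (RE.ex
      ((re_Weak1 hc (by fun_prop) (by fun_prop) (by fun_prop) (by fun_prop) (by fun_prop)).and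
      ((re_Cut hc (by fun_prop) (by fun_prop) (by fun_prop) (by fun_prop) (by fun_prop)).and
      (RE.eq (by fun_prop) (by fun_prop)))))))

theorem re_Rel2 {p r : ℕ} {s e : α → ℕ} {st st' : α → St} {d : α → Dat} (hs : Computable s)
    (he : Computable e) (hst : Computable st) (hd : Computable d) (hst' : Computable st') :
    RE fun a => Rel2 c p r (s a) (e a) (st a) (d a) (st' a) :=
  (((cr_D0 hc hst (by fun_prop) (by fun_prop)).lt (cr_q (by fun_prop))).and
    (RE.eq hst' (by fun_prop))).or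
  ((((cr_q (by fun_prop)).lt (cr_dist hc (by fun_prop) (by fun_prop))).and
    (RE.eq hst' (by fun_prop))).or
  (((re_forall_code hs (re_NS2 hc (by fun_prop) (by fun_prop) (by fun_prop) (by fun_prop)
    (by fun_prop))).and (RE.eq hst' (by fun_prop))).or
  (((cr_q (by fun_prop)).lt (cr_D0 hc hst (by fun_prop) (by fun_prop))).and (RE.ex (RE.ex (RE.ex
      ((re_Weak2 hc (by fun_prop) (by fun_prop) (by fun_prop) (by fun_prop) (by fun_prop)).and
      ((re_forall_code (by fun_prop) ((re_NS2 hc (by fun_prop) (by fun_prop) (by fun_prop)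
        (by fun_prop) (by fun_prop)).or (RE.le (by fun_prop) (by fun_prop)))).and
      ((re_New hc (by fun_prop) (by fun_prop) (by fun_prop) (by fun_prop) (by fun_prop)).and
      (RE.eq (by fun_prop) (by fun_prop)))))))))))

theorem re_Rel (p r : ℕ) : RE fun z : (ℕ × St) × St => Rel c p r z.1.1 z.1.2 z.2 :=
  ((RE.eq (by fun_prop) (by fun_prop)).and
    (re_Rel0 hc (by fun_prop) (by fun_prop) (by fun_prop) (by fun_prop))).or
  (((RE.eq (by fun_prop) (by fun_prop)).and
    (re_Rel1 hc (by fun_prop) (by fun_prop) (by fun_prop) (by fun_prop) (by fun_prop))).or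
  (((RE.eq (by fun_prop) (by fun_prop)).and
    (re_Rel2 hc (by fun_prop) (by fun_prop) (by fun_prop) (by fun_prop) (by fun_prop))).or
  ((RE.le (by fun_prop) (by fun_prop)).and (RE.eq (by fun_prop) (by fun_prop)))))

end re

end Pool.Agent.P.MP_fa5791_lc
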