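import Pool.Agent.P.MP_fa5791_lc.AStep

namespace Pool.Agent.P.MP_fa5791_lc

open Pool.Agent.Lib.ComputableProp Filter Topology

variable {X : Type} [MetricSpace X] {c : ℕ → X}

/-- error budget -/
noncomputable def Eb (b s : ℕ) : ℝ := q (b + 3) * (2 - q s)

theorem Eb_le (b s : ℕ) : Eb b s ≤ q b / 4 := by
  unfold Eb
  have := q_pos s
  have h := q_pos b
  rw [q_succ, q_succ, q_succ]
  nlinarith

theorem le_Eb (b s : ℕ) : q (b + 3) ≤ Eb b s := by
  unfold Eb
  have := q_le_one s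
  have h := q_pos (b + 3)
  nlinarith

theorem Eb_succ (b s : ℕ) : Eb b (s + 1) = Eb b s + q (b + s + 4) := by
  unfold Eb
  rw [show b + s + 4 = (b + 3) + (s + 1) by ring, q_add (b + 3), q_succ s]
  ring

variable (c) in
/-- geometric invariant of the walk -/
def Geo (p r e s : ℕ) (st : St) (d : Dat) (sp : ℝ) : Prop :=
  d.2.1 < st.1 ∧ e + r + 1 ≤ d.2.2.1 ∧ d.2.2.1 + 3 ≤ d.2.2.2.1 ∧
    dist (c d.2.1) (c p) ≤ Eb d.2.2.2.1 s ∧ 0 ≤ phi c st (c d.2.1) - phi c st (c p) ∧
    phi c st (c d.2.1) - phi c st (c p) ≤ q (d.2.2.1 + 1) + Eb d.2.2.2.1 s ∧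
    sp + (phi c st (c d.2.1) - phi c st (c p)) ≤ q d.2.2.1 + Eb d.2.2.2.1 s

theorem Geo.step {p r e e' s : ℕ} {st st' : St} {d : Dat} {sp : ℝ} (h : Geo c p r e s st d sp)
    (hs : Shape c e' st st') (hp : p < st.1) : Geo c p r e (s + 1) st' d sp := by
  obtain ⟨h1, h2, h3, h4, h5, h6, h7⟩ := h
  have := q_pos (d.2.2.2.1 + s + 4)
  unfold Geo
  rw [hs.phi_frozen h1, hs.phi_frozen hp, Eb_succ]
  exact ⟨h1.trans hs.1, h2, h3, by linarith, h5, by linarith, by linarith⟩

theorem Geo.sp_le {p r e s : ℕ} {st : St} {d : Dat} {sp : ℝ} (h : Geo c p r e s st d sp) :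
    sp ≤ 2 * q e := by
  obtain ⟨h1, h2, h3, h4, h5, h6, h7⟩ := h
  have := Eb_le d.2.2.2.1 s
  have := q_anti (show e ≤ d.2.2.1 by omega)
  have := q_anti (show e ≤ d.2.2.2.1 by omega)
  have := q_pos e
  linarith

theorem Geo.D0_le {p r e s : ℕ} {st : St} {d : Dat} {sp : ℝ} (h : Geo c p r e s st d sp) :
    D0 c st (c d.2.1) (c p) ≤ q d.2.2.1 := by
  obtain ⟨h1, h2, h3, h4, h5, h6, h7⟩ := h
  have := Eb_le d.2.2.2.1 s
  have := q_anti (show d.2.2.1 ≤ d.2.2.2.1 by omega)
  have := q_pos d.2.2.1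
  have := q_succ d.2.2.1
  refine max_le (by linarith) ?_
  rw [abs_of_nonneg h5]
  linarith

theorem Geo.not_escape {p r e s : ℕ} {st : St} {d : Dat} {sp : ℝ} (h : Geo c p r e s st d sp) :
    ¬ q (r + 1) < dist (c d.2.1) (c p) := by
  have h1 := h.D0_le
  have := (good_D0 c st).ge (c d.2.1) (c p)
  have := q_anti (show r + 1 ≤ d.2.2.1 by have := h.2.1; omega)
  linarith

variable (c) in
/-- structural invariant of a requirement -/
def Inv (p r e s : ℕ) (st : St) (d : Dat) (a b : ℝ) : Prop :=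
  (d.1 = 0 ∧ a = 0 ∧ b = 0) ∨
  (d.1 = 1 ∧ Geo c p r e s st d a ∧
    q (d.2.2.1 + 1) - Eb d.2.2.2.1 s ≤ phi c st (c d.2.1) - phi c st (c p) ∧ b = 0) ∨
  (d.1 = 2 ∧ Geo c p r e s st d a ∧ b = q e) ∨
  (3 ≤ d.1 ∧ a ≤ 2 * q e ∧ b ≤ q e)

theorem Inv.same {p r e e' s : ℕ} {st st' : St} {d : Dat} {a b : ℝ} (h : Inv c p r e s st d a b)
    (hs : Shape c e' st st') (hp : p < st.1) : Inv c p r e (s + 1) st' d a b := by
  rcases h with h | ⟨h1, h2, h3, h4⟩ | ⟨h1, h2, h3⟩ | h
  · exact Or.inl h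
  · refine Or.inr (Or.inl ⟨h1, h2.step hs hp, ?_, h4⟩)
    have := q_pos (d.2.2.2.1 + s + 4)
    rw [hs.phi_frozen h2.1, hs.phi_frozen hp, Eb_succ]
    linarith
  · exact Or.inr (Or.inr (Or.inl ⟨h1, h2.step hs hp, h3⟩))
  · exact Or.inr (Or.inr (Or.inr h))

theorem H0_idle (st : St) : H0 (idle st) = H0 st := rfl
theorem H1_idle (st : St) : H1 (idle st) = H1 st := rfl

theorem New.abs_phi {st : St} {τ m m' j : ℕ} (h : New c st τ m m' j) :
    |phi c st (c m') - phi c st (c m)| < q τ := (le_max_right _ _).trans_lt h.1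

theorem New.dist_lt {st : St} {τ m m' j : ℕ} (h : New c st τ m m' j) :
    dist (c m') (c m) < q τ := (le_max_left _ _).trans_lt h.1

variable (c) in
/-- the transition relation with the attended requirement and its data made explicit -/
def RelG (p r s e : ℕ) (d : Dat) (st st' : St) : Prop :=
  (d.1 = 0 ∧ Rel0 c p r s e st st') ∨ (d.1 = 1 ∧ Rel1 c s e st d st') ∨
  (d.1 = 2 ∧ Rel2 c p r s e st d st') ∨ (3 ≤ d.1 ∧ st' = idle st)

theorem Rel.g {p r s e : ℕ} {st st' : St} (hR : Rel c p r s st st') (he : s.unpair.1 = e) :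
    RelG c p r s e (look st.2.2.2.2 e) st st' := by
  subst he; exact hR

theorem Inv.step {p r s e : ℕ} {d : Dat} {st st' : St} {a b : ℝ} (hR : RelG c p r s e d st st')
    (hsh : Shape c e st st') (hl : look st.2.2.2.2 e = d) (hp : p < st.1)
    (h : Inv c p r e s st d a b) :
    Inv c p r e (s + 1) st' (look st'.2.2.2.2 e)
      (a + (H0 st' - H0 st)) (b + (H1 st' - H1 st)) := by
  have hidle : st' = idle st → Inv c p r e (s + 1) st' (look st'.2.2.2.2 e)
      (a + (H0 st' - H0 st)) (b + (H1 st' - H1 st)) := by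
    rintro rfl
    rw [H0_idle, H1_idle, sub_self, sub_self, add_zero, add_zero]
    subst hl
    exact h.same hsh hp
  rcases hR with ⟨hd, ⟨-, h'⟩ | ⟨w, m', j, hw, hN, h'⟩⟩ | ⟨hd, ⟨-, h'⟩ | ⟨w, ρ, j, -, hN, h'⟩⟩ |
    ⟨hd, ⟨-, h'⟩ | ⟨-, h'⟩ | ⟨-, h'⟩ | ⟨hgt, w, m', j, hw, -, hN, h'⟩⟩ | ⟨-, h'⟩
  · exact hidle h'
  · obtain ⟨ha, hb⟩ : a = 0 ∧ b = 0 := by
      rcases h with h | h | h | h
      · exact h.2
      all_goals omega
    have hdec := hw.1
    simp only [dec0, Bool.and_eq_true, eqb_iff, leb_iff] at hdec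
    have e1 : phi c st' (c m') = phi c st (c m') + q (w.2.1 + 1) := by
      subst h'; simp [phi, tv_center]; ring
    have e2 : phi c st' (c p) = phi c st (c p) := hsh.phi_frozen hp
    have e3 : H0 st' - H0 st = q (w.2.1 + 1) := by subst h'; simp [H0]
    have e4 : H1 st' - H1 st = 0 := by subst h'; simp [H1]
    have e5 : look st'.2.2.2.2 e = (1, m', w.2.1, w.2.2.2.2.1, w.2.2.2.2.2.1, w.2.2.2.2.2.2.1) := by
      subst h'; simp
    have h1 := abs_lt.1 hN.abs_phi
    have h2 := hN.dist_lt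
    have h3 := le_Eb w.2.2.2.2.1 (s + 1)
    have h4 := q_anti (show w.2.1 + 1 ≤ w.2.2.2.2.1 + 3 by omega)
    have h5 := q_succ w.2.1
    refine Or.inr (Or.inl ?_)
    unfold Geo
    rw [e5, e3, e4, ha, hb]
    simp only [e1, e2]
    refine ⟨trivial, ⟨by subst h'; simp, by omega, by omega, by linarith, by linarith,
      by linarith, by linarith⟩, by linarith, by simp⟩
  · exact hidle h'
  · obtain ⟨hG, hb⟩ : Geo c p r e s st d a ∧ b = 0 := by
      rcases h with h | h | h | h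
      · omega
      · exact ⟨h.2.1, h.2.2.2⟩
      all_goals omega
    have e3 : H0 st' - H0 st = 0 := by subst h'; simp [H0]
    have e4 : H1 st' - H1 st = q e := by subst h'; simp [H1]
    have e5 : look st'.2.2.2.2 e = (2, d.2.1, d.2.2.1, d.2.2.2.1, d.2.2.2.2.1, e + j + 2) := by
      subst h'; simp
    refine Or.inr (Or.inr (Or.inl ?_))
    rw [e5, e3, e4, hb, add_zero, zero_add]
    exact ⟨rfl, hG.step hsh hp, rfl⟩
  · obtain ⟨hG, hb⟩ : Geo c p r e s st d a ∧ b = q e := by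
      rcases h with h | h | h | h
      · omega
      · omega
      · exact h.2
      · omega
    have e3 : H0 st' - H0 st = 0 := by subst h'; simp [H0]
    have e4 : H1 st' - H1 st = 0 := by subst h'; simp [H1]
    have e5 : look st'.2.2.2.2 e = (3, d.2) := by subst h'; simp
    refine Or.inr (Or.inr (Or.inr ?_))
    rw [e5, e3, e4, hb, add_zero, add_zero]
    exact ⟨le_rfl, hG.sp_le, le_rfl⟩
  · exact hidle h'
  · exact hidle h'
  · obtain ⟨hG, hb⟩ : Geo c p r e s st d a ∧ b = q e := by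
      rcases h with h | h | h | h
      · omega
      · omega
      · exact h.2
      · omega
    have hdec := hw.1
    simp only [dec2, Bool.and_eq_true, eqb_iff, leb_iff] at hdec
    have e1 : phi c st' (c m') = phi c st (c m') - q (w.2.1 + 1) := by
      subst h'; simp [phi, tv_center]; ring
    have e2 : phi c st' (c p) = phi c st (c p) := hsh.phi_frozen hp
    have e3 : H0 st' - H0 st = q (w.2.1 + 1) := by subst h'; simp [H0]
    have e4 : H1 st' - H1 st = 0 := by subst h'; simp [H1]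
    have e5 : look st'.2.2.2.2 e = (2, m', d.2.2) := by subst h'; simp
    obtain ⟨g1, g2, g3, g4, g5, g6, g7⟩ := hG
    have h1 := abs_lt.1 hN.abs_phi
    have h2 := hN.dist_lt
    have h3 := Eb_succ d.2.2.2.1 s
    have h4 := q_anti (show d.2.2.2.1 + s + 4 ≤ w.2.1 + d.2.2.2.1 + s + 4 by omega)
    have h5 := q_anti (show d.2.2.2.1 + 4 ≤ d.2.2.2.1 + s + 4 by omega)
    have h6 := q_anti (show d.2.2.2.1 + 2 ≤ w.2.1 + 1 by omega)
    have h7 := Eb_le d.2.2.2.1 s
    have h8 := dist_triangle (c m') (c d.2.1) (c p)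
    have h9 := q_pos (w.2.1 + 1)
    have h10 := q_pos d.2.2.2.1
    have h11 : q (d.2.2.2.1 + 4) = q d.2.2.2.1 / 16 := by
      rw [q_succ, q_succ, q_succ, q_succ]; ring
    have h12 : q (d.2.2.2.1 + 2) = q d.2.2.2.1 / 4 := by
      rw [q_succ, q_succ]; ring
    have hx : q d.2.2.2.1 / 2 < phi c st (c d.2.1) - phi c st (c p) := by
      rw [q_succ] at hgt
      rcases lt_max_iff.1 hgt with h | h
      · exact absurd h (by linarith)
      · rwa [abs_of_nonneg g5] at h
    refine Or.inr (Or.inr (Or.inl ?_))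
    unfold Geo
    rw [e5, e3, e4, hb]
    simp only [e1, e2]
    refine ⟨trivial, ⟨by subst h'; simp, g2, g3, by linarith, by linarith,
      by linarith, by linarith⟩, by simp⟩
  · exact hidle h'

variable (c) in
/-- a run of the construction -/
structure Run (p r : ℕ) (st : ℕ → St) : Prop where
  init : st 0 = (p + 1, [], [], [], [])
  step : ∀ s, Rel c p r s (st s) (st (s + 1))

namespace Run

variable {p r : ℕ} {st : ℕ → St} (h : Run c p r st)
include h

theorem shape (s : ℕ) : Shape c s.unpair.1 (st s) (st (s + 1)) := (h.step s).shape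

theorem lt_n (s : ℕ) : p + s < (st s).1 := by
  induction s with
  | zero => rw [h.init]; simp
  | succ s ih => have := (h.shape s).1; omega

theorem n_mono {s t : ℕ} (hst : s ≤ t) : (st s).1 ≤ (st t).1 :=
  monotone_nat_of_le_succ (f := fun s => (st s).1) (fun s => (h.shape s).1.le) hst

theorem p_lt (s : ℕ) : p < (st s).1 := by have := h.lt_n s; omega

theorem D0_frozen {s t i j : ℕ} (hst : s ≤ t) (hi : i < (st s).1) (hj : j < (st s).1) :
    D0 c (st t) (c i) (c j) = D0 c (st s) (c i) (c j) := by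
  induction t, hst using Nat.le_induction with
  | base => rfl
  | succ t ht ih =>
    rw [(h.shape t).D0_frozen (hi.trans_le (h.n_mono ht)) (hj.trans_le (h.n_mono ht)), ih]

theorem D1_frozen {s t i j : ℕ} (hst : s ≤ t) (hi : i < (st s).1) (hj : j < (st s).1) :
    D1 c (st t) (c i) (c j) = D1 c (st s) (c i) (c j) := by
  induction t, hst using Nat.le_induction with
  | base => rfl
  | succ t ht ih =>
    rw [(h.shape t).D1_frozen (hi.trans_le (h.n_mono ht)) (hj.trans_le (h.n_mono ht)), ih]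

theorem cut_mem {s t : ℕ} (hst : s ≤ t) {T : Tent} (hT : T ∈ (st s).2.2.2.1) :
    T ∈ (st t).2.2.2.1 := by
  induction t, hst using Nat.le_induction with
  | base => exact hT
  | succ t ht ih => exact (h.shape t).2.2.2.1.subset T ih

omit h in
/-- amount spent by requirement `e` -/
noncomputable def sp (H : St → ℝ) (st : ℕ → St) (e s : ℕ) : ℝ :=
  ∑ t ∈ Finset.range s, if t.unpair.1 = e then H (st (t + 1)) - H (st t) else 0

theorem inv (e s : ℕ) :
    Inv c p r e s (st s) (look (st s).2.2.2.2 e) (sp H0 st e s) (sp H1 st e s) := by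
  induction s with
  | zero => rw [h.init]; exact Or.inl ⟨rfl, rfl, rfl⟩
  | succ s ih =>
    unfold sp
    rw [Finset.sum_range_succ, Finset.sum_range_succ]
    by_cases he : s.unpair.1 = e
    · subst he
      rw [if_pos rfl, if_pos rfl]
      exact Inv.step ((h.step s).g rfl) (h.shape s) rfl (h.p_lt s) ih
    · rw [if_neg he, if_neg he, add_zero, add_zero, (h.shape s).2.2.2.2 e (Ne.symm he)]
      exact ih.same (h.shape s) (h.p_lt s)

theorem sp_le (e s : ℕ) : sp H0 st e s ≤ 2 * q e ∧ sp H1 st e s ≤ 2 * q e := by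
  have := q_pos e
  rcases h.inv e s with ⟨-, h1, h2⟩ | ⟨-, h1, -, h2⟩ | ⟨-, h1, h2⟩ | ⟨-, h1, h2⟩
  · exact ⟨by linarith, by linarith⟩
  · exact ⟨h1.sp_le, by linarith⟩
  · exact ⟨h1.sp_le, by linarith⟩
  · exact ⟨h1, by linarith⟩

omit h in
theorem summable_of_sp {H : St → ℝ} (h0 : ∀ s, 0 ≤ H (st (s + 1)) - H (st s))
    (h1 : ∀ e s, sp H st e s ≤ 2 * q e) : Summable fun s => H (st (s + 1)) - H (st s) := by
  refine summable_of_sum_range_le h0 (c := 4) fun s => ?_
  have e1 : ∑ t ∈ Finset.range s, (H (st (t + 1)) - H (st t)) =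
      ∑ e ∈ Finset.range s, sp H st e s := by
    unfold sp
    rw [Finset.sum_comm]
    refine Finset.sum_congr rfl fun t ht => ?_
    rw [Finset.sum_ite_eq]
    rw [if_pos]
    have := Nat.unpair_left_le t
    simp only [Finset.mem_range] at ht ⊢
    omega
  have e2 : ∀ n, ∑ e ∈ Finset.range n, 2 * q e = 4 - 4 * q n := by
    intro n
    induction n with
    | zero => simp [q_zero]
    | succ n ih => rw [Finset.sum_range_succ, ih, q_succ]; ring
  rw [e1]
  refine (Finset.sum_le_sum fun e _ => h1 e s).trans ?_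
  rw [e2]
  linarith [q_pos s]

theorem summable0 : Summable fun s => H0 (st (s + 1)) - H0 (st s) :=
  summable_of_sp (fun s => (abs_nonneg _).trans ((h.shape s).D0_diff (c 0) (c 0)))
    fun e s => (h.sp_le e s).1

theorem summable1 : Summable fun s => H1 (st (s + 1)) - H1 (st s) :=
  summable_of_sp (fun s => (abs_nonneg _).trans ((h.shape s).D1_diff (c 0) (c 0)))
    fun e s => (h.sp_le e s).2

theorem limit0 : ∃ D, GoodD D ∧ ∀ s i j, i < (st s).1 → j < (st s).1 →
    D (c i) (c j) = D0 c (st s) (c i) (c j) := by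
  obtain ⟨D, h1, h2⟩ := GoodD.limit (Ds := fun s => D0 c (st s)) (fun s => good_D0 c _)
    h.summable0 fun s x y => (h.shape s).D0_diff x y
  refine ⟨D, h1, fun s i j hi hj => tendsto_nhds_unique (h2 _ _) ?_⟩
  refine tendsto_const_nhds.congr' ?_
  filter_upwards [eventually_ge_atTop s] with t ht
  exact (h.D0_frozen ht hi hj).symm

theorem limit1 : ∃ D, GoodD D ∧ (∀ s i j, i < (st s).1 → j < (st s).1 →
    D (c i) (c j) = D1 c (st s) (c i) (c j)) ∧
    (∀ s, ∀ T ∈ (st s).2.2.2.1, ∀ x y, |tv c T x - tv c T y| ≤ D x y) ∧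
    ∀ x y a, a < D x y → a < dist x y ∨ ∃ s, ∃ T ∈ (st s).2.2.2.1, a < |tv c T x - tv c T y| := by
  obtain ⟨D, h1, h2⟩ := GoodD.limit (Ds := fun s => D1 c (st s)) (fun s => good_D1 c _)
    h.summable1 fun s x y => (h.shape s).D1_diff x y
  refine ⟨D, h1, fun s i j hi hj => tendsto_nhds_unique (h2 _ _) ?_, fun s T hT x y => ?_,
    fun x y a ha => ?_⟩
  · refine tendsto_const_nhds.congr' ?_
    filter_upwards [eventually_ge_atTop s] with t ht
    exact (h.D1_frozen ht hi hj).symm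
  · refine ge_of_tendsto (h2 x y) ?_
    filter_upwards [eventually_ge_atTop s] with t ht
    exact le_DL c (h.cut_mem ht hT) x y
  · obtain ⟨s, hs⟩ := ((h2 x y).eventually (lt_mem_nhds ha)).exists
    rcases lt_DL c hs with h | h
    · exact Or.inl h
    · exact Or.inr ⟨s, h⟩

end Run

end Pool.Agent.P.MP_fa5791_lc
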