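import Pool.Agent.P.MP_fa5791_lc.AInv

namespace Pool.Agent.P.MP_fa5791_lc

open Pool.Agent.Lib.ComputableProp Filter Topology

variable {X : Type} [MetricSpace X] {c : ℕ → X}

theorem ball_sound {D D' Ds : X → X → ℝ} {f : X → X} {e s k w n m b : ℕ} {σ : List ℕ}
    (hD : GoodD D) (hs : SoundD c D D' f e) (hc : com e s σ k = some w) (hv : ValW c Ds n σ m b)
    (hm : m < n) (hfr : ∀ i j, i < n → j < n → D (c i) (c j) = Ds (c i) (c j)) (x : X)
    (hx : D x (c m) ≤ q b) : D' (c w) (f x) ≤ q k := by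
  refine hs s σ k w hc x fun i hi => ?_
  have h1 := hv i hi
  have h2 := hD.tri (c (σ.getD i 0)) (c m) x
  rw [hfr _ _ h1.1 hm, hD.comm (c m)] at h2
  change _ ≤ q i
  linarith [h1.2]

theorem not_nvalS {D Ds : X → X → ℝ} {n m b : ℕ} {σ : List ℕ} {x : X} (hD : GoodD D)
    (hσ : ∀ i < σ.length, D (c (σ.getD i 0)) x ≤ 1 / 2 ^ (i + 1))
    (hx : D x (c m) ≤ q (σ.length + 2)) (hb : σ.length + 2 ≤ b) (hn : σ.sum < n) (hm : m < n)
    (hfr : ∀ i j, i < n → j < n → D (c i) (c j) = Ds (c i) (c j)) : ¬ NValS c Ds n σ m b := by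
  rintro ⟨i, hi, h⟩
  have hlt : σ.getD i 0 < n := by
    refine lt_of_le_of_lt ?_ hn
    rw [List.getD_eq_getElem _ _ hi]
    exact List.single_le_sum (fun _ _ => Nat.zero_le _) _ (List.getElem_mem hi)
  rcases h with h | h
  · omega
  · rw [← hfr _ _ hlt hm] at h
    have h1 : D (c (σ.getD i 0)) x ≤ q (i + 1) := hσ i hi
    have h2 := hD.tri (c (σ.getD i 0)) x (c m)
    have h3 := q_anti hb
    have h4 := q_anti (show i + 3 ≤ σ.length + 2 by omega)
    have h5 : q (i + 3) = q i / 8 := by rw [q_succ, q_succ, q_succ]; ring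
    have h6 := q_succ i
    have := q_pos i
    linarith

theorem exists_att (e B : ℕ) : ∃ s, B ≤ s ∧ s.unpair.1 = e :=
  ⟨Nat.pair e B, Nat.right_le_pair _ _, by simp⟩

variable (c) in
/-- all the data of a hypothetical computable homeomorphism between the two limit metrics -/
structure Ctx (p r : ℕ) (st : ℕ → St) (D D' : X → X → ℝ) (f g : X → X) (e : ℕ) : Prop where
  run : Run c p r st
  hD : GoodD D
  hD' : GoodD D'
  fr : ∀ s i j, i < (st s).1 → j < (st s).1 → D (c i) (c j) = D0 c (st s) (c i) (c j)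
  fr' : ∀ s i j, i < (st s).1 → j < (st s).1 → D' (c i) (c j) = D1 c (st s) (c i) (c j)
  cutle : ∀ s, ∀ T ∈ (st s).2.2.2.1, ∀ x y, |tv c T x - tv c T y| ≤ D' x y
  cutex : ∀ x y a, a < D' x y →
    a < dist x y ∨ ∃ s, ∃ T ∈ (st s).2.2.2.1, a < |tv c T x - tv c T y|
  gf : ∀ x, g (f x) = x
  s1 : SoundD c D D' f e.unpair.1
  t1 : ComplD c D e.unpair.1
  s2 : SoundD c D' D g e.unpair.2
  t2 : ComplD c D' e.unpair.2

variable (c) in
/-- semantic invariant after the jump -/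
def S1 (p e n : ℕ) (D D' : X → X → ℝ) (f g : X → X) (d : Dat) : Prop :=
  ∃ u < n, (∀ x, D x (c p) ≤ q d.2.2.1 → D' (c u) (f x) ≤ q (e + 2)) ∧
    (∀ x, D x (c p) ≤ q d.2.2.2.1 → D' (c d.2.2.2.2.1) (f x) ≤ q (d.2.2.2.2.2 + 2)) ∧
    (∀ y, D' y (c d.2.2.2.2.1) ≤ q d.2.2.2.2.2 → D (g y) (c p) ≤ q (d.2.2.1 + 2))

variable (c) in
/-- semantic invariant after the cut -/
def S2 (p e : ℕ) (D : X → X → ℝ) (f : X → X) (d : Dat) : Prop :=
  ∃ v ρ j : ℕ, d.2.2.2.2.2 = e + j + 2 ∧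
    (∀ x, D x (c p) ≤ q d.2.2.1 → q (e + 1) < |2 ^ j * dist (f x) (c v) - ρ|) ∧
    (∀ x, D x (c p) ≤ q d.2.2.2.1 → ρ ≤ 2 ^ j * dist (f x) (c v)) ∧
    2 ^ j * dist (f (c d.2.1)) (c v) < ρ

namespace Ctx

variable {p r e : ℕ} {st : ℕ → St} {D D' : X → X → ℝ} {f g : X → X}
  (h : Ctx c p r st D D' f g e)
include h

theorem geo2 {s : ℕ} (hd : (look (st s).2.2.2.2 e).1 = 2) :
    Geo c p r e s (st s) (look (st s).2.2.2.2 e) (Run.sp H0 st e s) := by
  rcases h.run.inv e s with h | h | h | h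
  · omega
  · omega
  · exact h.2.1
  · omega

theorem geo1 {s : ℕ} (hd : (look (st s).2.2.2.2 e).1 = 1) :
    Geo c p r e s (st s) (look (st s).2.2.2.2 e) (Run.sp H0 st e s) ∧
    q ((look (st s).2.2.2.2 e).2.2.1 + 1) - Eb (look (st s).2.2.2.2 e).2.2.2.1 s ≤
      phi c (st s) (c (look (st s).2.2.2.2 e).2.1) - phi c (st s) (c p) := by
  rcases h.run.inv e s with h | h | h | h
  · omega
  · exact ⟨h.2.1, h.2.2.1⟩
  · omega
  · omega

theorem jump {s : ℕ} {w : W0} (hw : Weak0 c p r s e (st s) w) (m' n : ℕ) (hn : (st s).1 ≤ n) :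
    S1 c p e n D D' f g (1, m', w.2.1, w.2.2.2.2.1, w.2.2.2.2.2.1, w.2.2.2.2.2.2.1) := by
  obtain ⟨hdec, v0, v1, v2⟩ := hw
  simp only [dec0, Bool.and_eq_true, eqb_iff, leb_iff] at hdec
  obtain ⟨⟨⟨⟨⟨⟨c0, l0⟩, -⟩, c1⟩, l1⟩, -⟩, c2⟩ := hdec
  have a0 := ball_sound h.hD h.s1 c0 v0 (h.run.p_lt s) (h.fr s)
  have a1 := ball_sound h.hD h.s1 c1 v1 (h.run.p_lt s) (h.fr s)
  have a2 := ball_sound h.hD' h.s2 c2 v2 l1 (h.fr' s)
  refine ⟨w.2.2.1, by omega, a0, a1, fun y hy => ?_⟩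
  have b1 := a2 y hy
  have b2 := a2 (f (c p)) (by
    rw [h.hD'.comm]
    exact (a1 (c p) (by rw [h.hD.self]; exact (q_pos _).le)).trans (q_anti (by omega)))
  rw [h.gf] at b2
  have b3 := h.hD.tri (g y) (c w.2.2.2.2.2.2.2.2) (c p)
  rw [h.hD.comm (g y) (c w.2.2.2.2.2.2.2.2)] at b3
  have b4 := q_succ (w.2.1 + 2)
  change _ ≤ q (w.2.1 + 2)
  linarith

theorem cut {s ρ j : ℕ} {d : Dat} {w : W1} (hm : d.2.1 < (st s).1)
    (hS : S1 c p e (st s).1 D D' f g d)
    (hw : Weak1 c s e (st s) d w) (hC : Cut c (st s).1 w.2.2.1 w.2.2.2 ρ j)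
    (hT : (w.2.2.1, ρ, j, e) ∈ (st (s + 1)).2.2.2.1) :
    S2 c p e D f (2, d.2.1, d.2.2.1, d.2.2.2.1, d.2.2.2.2.1, e + j + 2) := by
  obtain ⟨hdec, v0, hsep⟩ := hw
  simp only [dec1, Bool.and_eq_true, eqb_iff, leb_iff] at hdec
  obtain ⟨u, hu, a0, a1, a2⟩ := hS
  have b0 := ball_sound h.hD h.s1 hdec.1 v0 hm (h.fr s) (c d.2.1)
    (by rw [h.hD.self]; exact (q_pos _).le)
  have hj : (0 : ℝ) < 2 ^ j := by positivity
  have ha := q_mul_pow w.2.2.2
  have ha' := q_pos w.2.2.2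
  have c1 : (2 : ℝ) * 2 ^ j + 2 ^ w.2.2.2 ≤ ρ * 2 ^ w.2.2.2 := by exact_mod_cast hC.1
  have c2 : ((ρ : ℝ) + 1) * 2 ^ w.2.2.2 ≤ 4 * 2 ^ j := by exact_mod_cast hC.2.1
  have c1' : 2 * 2 ^ j * q w.2.2.2 + 1 ≤ ρ := by
    have := mul_le_mul_of_nonneg_right c1 ha'.le
    rw [add_mul, mul_assoc (ρ : ℝ), mul_comm (2 ^ w.2.2.2 : ℝ), ha] at this
    linarith
  have c2' : (ρ : ℝ) + 1 ≤ 4 * 2 ^ j * q w.2.2.2 := by
    have := mul_le_mul_of_nonneg_right c2 ha'.le
    rw [mul_assoc, mul_comm (2 ^ w.2.2.2 : ℝ), ha] at this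
    linarith
  refine ⟨w.2.2.1, ρ, j, rfl, fun x hx => ?_, fun x hx => ?_, ?_⟩
  · have h1 := h.cutle _ _ hT (c u) (f x)
    rw [hC.van e u hu, zero_sub, abs_neg, abs_of_nonneg (tv_nonneg _ _ _)] at h1
    have h2 := (le_max_right _ _).trans (h1.trans (a0 x hx))
    have h3 := q_succ (e + 1)
    have h4 := q_succ e
    have := q_pos e
    change q e - _ ≤ _ at h2
    linarith
  · by_contra hlt
    have h1 : dist (f x) (c w.2.2.1) < 4 * q w.2.2.2 := by
      have : 2 ^ j * dist (f x) (c w.2.2.1) < 2 ^ j * (4 * q w.2.2.2) := by linarith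
      exact lt_of_mul_lt_mul_left this hj.le
    have h2 := a1 x hx
    rcases hsep with h3 | ⟨T, hT', h3⟩
    · have h4 := h.hD'.ge (c d.2.2.2.2.1) (f x)
      have h5 := dist_triangle (c w.2.2.1) (f x) (c d.2.2.2.2.1)
      rw [dist_comm (c w.2.2.1) (f x), dist_comm (f x) (c d.2.2.2.2.1)] at h5
      push_cast at h3
      linarith
    · have h4 := h.cutle _ _ hT' (c d.2.2.2.2.1) (f x)
      have h5 := tv_lip c T (f x) (c w.2.2.1)
      have h6 := abs_sub_le (tv c T (c w.2.2.1)) (tv c T (f x)) (tv c T (c d.2.2.2.2.1))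
      rw [abs_sub_comm (tv c T (c w.2.2.1)) (tv c T (f x)),
        abs_sub_comm (tv c T (f x)) (tv c T (c d.2.2.2.2.1))] at h6
      have h7 : (0 : ℝ) < 2 ^ T.2.2.1 := by positivity
      have h8 := mul_le_mul_of_nonneg_left h1.le h7.le
      push_cast at h3
      linarith
  · have h1 := (h.hD'.ge _ _).trans b0
    rw [dist_comm] at h1
    have h8 := mul_le_mul_of_nonneg_left h1 hj.le
    have := mul_pos hj ha'
    change 2 ^ j * dist (f (c d.2.1)) (c w.2.2.1) < ρ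
    linarith

theorem not_stop {s : ℕ} {d : Dat} (hm : d.2.1 < (st s).1) (hS : S2 c p e D f d) :
    ¬ D0 c (st s) (c d.2.1) (c p) < q d.2.2.2.1 := by
  obtain ⟨v, ρ, j, -, -, a1, a2⟩ := hS
  intro hlt
  rw [← h.fr s _ _ hm (h.run.p_lt s)] at hlt
  exact absurd (a1 _ hlt.le) (not_le.2 a2)

theorem step_dist {s m m' j τ : ℕ} (hm : m < (st s).1) (hm' : m' < (st (s + 1)).1)
    (hN : New c (st s) τ m m' j) :
    D (c m') (c m) ≤ (H0 (st (s + 1)) - H0 (st s)) + q τ := by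
  rw [h.fr (s + 1) _ _ hm' (hm.trans (h.run.shape s).1)]
  have h1 := abs_le.1 ((h.run.shape s).D0_diff (c m') (c m))
  linarith [hN.1, h1.2]

theorem walk {s m' j : ℕ} {d : Dat} {w : W2} {a : ℝ} (hG : Geo c p r e s (st s) d a)
    (hS : S2 c p e D f d) (hw : Weak2 c s e (st s) d w)
    (hN : New c (st s) (w.2.1 + d.2.2.2.1 + s + 4) d.2.1 m' j) (hm' : m' < (st (s + 1)).1)
    (hH : H0 (st (s + 1)) - H0 (st s) = q (w.2.1 + 1)) : S2 c p e D f (2, m', d.2.2) := by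
  obtain ⟨v, ρ, i, hk, a0, a1, a2⟩ := hS
  obtain ⟨hdec, v0⟩ := hw
  simp only [dec2, Bool.and_eq_true, eqb_iff, leb_iff] at hdec
  refine ⟨v, ρ, i, hk, a0, a1, ?_⟩
  have b := ball_sound h.hD h.s1 hdec.1 v0 hG.1 (h.fr s)
  have b0 := b (c d.2.1) (by rw [h.hD.self]; exact (q_pos _).le)
  have b1 := b (c m') (by
    have := h.step_dist hG.1 hm' hN
    have h2 := q_anti (show w.2.1 + 1 ≤ w.2.1 + d.2.2.2.1 + s + 4 by omega)
    have h3 := q_succ w.2.1
    linarith)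
  have b2 := a0 (c d.2.1) (by rw [h.fr s _ _ hG.1 (h.run.p_lt s)]; exact hG.D0_le)
  rw [abs_of_neg (by linarith)] at b2
  have h1 := (h.hD'.ge _ _).trans b0
  have h2 := (h.hD'.ge _ _).trans b1
  have h3 := dist_triangle4 (f (c m')) (c w.2.2) (f (c d.2.1)) (c v)
  rw [dist_comm] at h2
  have hi : (0 : ℝ) < 2 ^ i := by positivity
  have h4 : 2 ^ i * (2 * q d.2.2.2.2.2) = q (e + 1) := by
    rw [hk, show e + i + 2 = (e + 1) + (i + 1) by ring, q_add (e + 1), q_succ i]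
    have := q_mul_pow i
    linear_combination (q (e + 1)) * this
  have h5 : dist (f (c m')) (c v) ≤ 2 * q d.2.2.2.2.2 + dist (f (c d.2.1)) (c v) := by linarith
  have h6 := mul_le_mul_of_nonneg_left h5 hi.le
  change 2 ^ i * dist (f (c m')) (c v) < ρ
  linarith

theorem sinv (s : ℕ) : (look (st s).2.2.2.2 e).1 = 0 ∨
    ((look (st s).2.2.2.2 e).1 = 1 ∧ S1 c p e (st s).1 D D' f g (look (st s).2.2.2.2 e)) ∨
    ((look (st s).2.2.2.2 e).1 = 2 ∧ S2 c p e D f (look (st s).2.2.2.2 e)) := by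
  induction s with
  | zero => rw [h.run.init]; exact Or.inl rfl
  | succ s ih =>
    have hsame : look (st (s + 1)).2.2.2.2 e = look (st s).2.2.2.2 e →
        (look (st (s + 1)).2.2.2.2 e).1 = 0 ∨ ((look (st (s + 1)).2.2.2.2 e).1 = 1 ∧
          S1 c p e (st (s + 1)).1 D D' f g (look (st (s + 1)).2.2.2.2 e)) ∨
        ((look (st (s + 1)).2.2.2.2 e).1 = 2 ∧ S2 c p e D f (look (st (s + 1)).2.2.2.2 e)) := by
      intro he
      rw [he]
      rcases ih with h1 | ⟨h1, u, hu, h2⟩ | h1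
      · exact Or.inl h1
      · exact Or.inr (Or.inl ⟨h1, u, hu.trans (h.run.shape s).1, h2⟩)
      · exact Or.inr (Or.inr h1)
    by_cases he : s.unpair.1 = e
    swap
    · exact hsame ((h.run.shape s).2.2.2.2 e (Ne.symm he))
    have hidle : st (s + 1) = idle (st s) → look (st (s + 1)).2.2.2.2 e =
      look (st s).2.2.2.2 e := fun h' => by rw [h']; rfl
    have g1 := h.geo1 (s := s)
    have g2 := h.geo2 (s := s)
    have hR := (h.run.step s).g he
    generalize look (st s).2.2.2.2 e = d at ih g1 g2 hR hidle hsame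
    rcases hR with ⟨hd, ⟨-, h'⟩ | ⟨w, m', j, hw, hN, h'⟩⟩ | ⟨hd, ⟨-, h'⟩ | ⟨w, ρ, j, hw, hN, h'⟩⟩ |
      ⟨hd, ⟨hst, h'⟩ | ⟨-, h'⟩ | ⟨-, h'⟩ | ⟨hgt, w, m', j, hw, -, hN, h'⟩⟩ | ⟨-, h'⟩
    · exact hsame (hidle h')
    · have e5 : look (st (s + 1)).2.2.2.2 e =
          (1, m', w.2.1, w.2.2.2.2.1, w.2.2.2.2.2.1, w.2.2.2.2.2.2.1) := by rw [h']; simp
      rw [e5]
      exact Or.inr (Or.inl ⟨rfl, h.jump hw _ _ (h.run.shape s).1.le⟩)
    · exact hsame (hidle h')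
    · have e5 : look (st (s + 1)).2.2.2.2 e =
          (2, d.2.1, d.2.2.1, d.2.2.2.1, d.2.2.2.2.1, e + j + 2) := by rw [h']; simp
      rw [e5]
      have hS : S1 c p e (st s).1 D D' f g d := by
        rcases ih with h1 | h1 | h1
        · omega
        · exact h1.2
        · omega
      exact Or.inr (Or.inr ⟨rfl, h.cut (g1 hd).1.1 hS hw hN (by rw [h']; simp)⟩)
    · have hS : S2 c p e D f d := by
        rcases ih with h1 | h1 | h1
        · omega
        · omega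
        · exact h1.2
      exact absurd hst (h.not_stop (g2 hd).1 hS)
    · exact hsame (hidle h')
    · exact hsame (hidle h')
    · have hS : S2 c p e D f d := by
        rcases ih with h1 | h1 | h1
        · omega
        · omega
        · exact h1.2
      have e5 : look (st (s + 1)).2.2.2.2 e = (2, m', d.2.2) := by rw [h']; simp
      rw [e5]
      exact Or.inr (Or.inr ⟨rfl, h.walk (g2 hd) hS hw hN (by rw [h']; simp)
        (by rw [h']; simp [H0])⟩)
    · exact hsame (hidle h')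

theorem prog0 : ∃ s, (look (st s).2.2.2.2 e).1 ≠ 0 := by
  by_contra hne
  push Not at hne
  obtain ⟨σ0, u, s0, a0, c0⟩ := h.t1 (c p) (e + 2)
  set b0 := max (σ0.length + 2) (e + r + 1) with hb0
  obtain ⟨σ2, w2, s2, a2, c2⟩ := h.t2 (f (c p)) (b0 + 3)
  set k1 := σ2.length + 2 with hk1
  obtain ⟨σ1, u1, s1, a1, c1⟩ := h.t1 (c p) (k1 + 2)
  set b1 := max (σ1.length + 2) (b0 + 3) with hb1
  let w : W0 := (σ0, b0, u, σ1, b1, u1, k1, σ2, w2)
  obtain ⟨s, hs, he⟩ := exists_att e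
    (Encodable.encode w + 1 + s0 + s1 + s2 + σ0.sum + σ1.sum + σ2.sum + u + u1)
  have hn := h.run.lt_n s
  have hu1 : D' (f (c p)) (c u1) ≤ q (σ2.length + 2) := by
    rw [h.hD'.comm]
    refine (h.s1 s σ1 _ _ (c1 s (by omega)) (c p) fun i hi => (a1 i hi).trans ?_).trans ?_
    · exact q_anti (Nat.le_succ i)
    · exact q_anti (by omega)
  have hself : ∀ k, D (c p) (c p) ≤ q k := fun k => by rw [h.hD.self]; exact (q_pos _).le
  rcases (h.run.step s).g he with ⟨-, ⟨h1, -⟩ | ⟨w, m', j, -, -, h'⟩⟩ | ⟨hd, -⟩ | ⟨hd, -⟩ | ⟨hd, -⟩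
  · rcases h1 w (by omega) with h2 | h2 | h2 | h2
    · have : dec0 r s e (st s).1 w = true := by
        simp only [dec0, Bool.and_eq_true, eqb_iff, leb_iff, w]
        exact ⟨⟨⟨⟨⟨⟨c0 s (by omega), by omega⟩, by omega⟩, c1 s (by omega)⟩, by omega⟩,
          by omega⟩, c2 s (by omega)⟩
      rw [this] at h2
      exact absurd h2 (by simp)
    · exact not_nvalS h.hD a0 (hself _) (le_max_left _ _) (by omega) (h.run.p_lt s) (h.fr s) h2
    · exact not_nvalS h.hD a1 (hself _) (le_max_left _ _) (by omega) (h.run.p_lt s) (h.fr s) h2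
    · exact not_nvalS h.hD' a2 hu1 le_rfl (by omega) (by omega) (h.fr' s) h2
  · have := hne (s + 1)
    rw [h'] at this
    simp at this
  all_goals (have := hne s; omega)

theorem prog1 {s : ℕ} (hd : (look (st s).2.2.2.2 e).1 = 1) :
    ∃ t, (look (st t).2.2.2.2 e).1 = 2 := by
  by_contra hne
  push Not at hne
  have hconst : ∀ t ≥ s, look (st t).2.2.2.2 e = look (st s).2.2.2.2 e := by
    intro t ht
    induction t, ht using Nat.le_induction with
    | base => rfl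
    | succ t ht ih =>
      by_cases he : t.unpair.1 = e
      · rcases (h.run.step t).g he with ⟨hd', -⟩ | ⟨-, ⟨-, h'⟩ | ⟨w, ρ, j, -, -, h'⟩⟩ |
          ⟨hd', -⟩ | ⟨hd', -⟩
        · rw [ih] at hd'; omega
        · rw [h', ← ih]; rfl
        · have := hne (t + 1)
          rw [h'] at this
          simp at this
        · rw [ih] at hd'; omega
        · rw [ih] at hd'; omega
      · rw [(h.run.shape t).2.2.2.2 e (Ne.symm he), ih]
  obtain ⟨hG, hx⟩ := h.geo1 hd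
  have hS : S1 c p e (st s).1 D D' f g (look (st s).2.2.2.2 e) := by
    rcases h.sinv s with h1 | h1 | h1
    · omega
    · exact h1.2
    · omega
  generalize look (st s).2.2.2.2 e = d at hd hconst hG hx hS
  obtain ⟨u, -, -, -, a2⟩ := hS
  have hfar : q d.2.2.2.2.2 < D' (f (c d.2.1)) (c d.2.2.2.2.1) := by
    by_contra hle
    have h1 := a2 _ (not_lt.1 hle)
    rw [h.gf, h.fr s _ _ hG.1 (h.run.p_lt s)] at h1
    have h2 := (le_abs_self _).trans ((le_max_right _ _).trans h1)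
    have h3 := Eb_le d.2.2.2.1 s
    have h4 := q_anti hG.2.2.1
    have h5 := q_succ (d.2.2.1 + 2)
    have h6 := q_succ (d.2.2.1 + 1)
    have := q_pos (d.2.2.1 + 1)
    linarith
  obtain ⟨J, s1, hJ⟩ : ∃ J s1 : ℕ, ∀ t ≥ s1, ∀ v,
      D' (c v) (f (c d.2.1)) ≤ q (d.2.2.2.2.2 + 2 + J + 1) →
      ¬ NSepS c (st t).2.2.2.1 v d.2.2.2.2.1 d.2.2.2.2.2 (d.2.2.2.2.2 + 2 + J + 1) := by
    have k1 := q_succ (d.2.2.2.2.2 + 1)
    have k2 := q_succ d.2.2.2.2.2
    have k3 := q_pos d.2.2.2.2.2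
    rcases h.cutex _ _ _ hfar with h1 | ⟨s1, T, hT, h1⟩
    · refine ⟨0, 0, fun t _ v hv hN => ?_⟩
      have h2 := hN.1
      have h3 := (h.hD'.ge _ _).trans hv
      have h4 := dist_triangle (f (c d.2.1)) (c v) (c d.2.2.2.2.1)
      rw [dist_comm (f (c d.2.1)) (c v)] at h4
      have k4 := q_succ (d.2.2.2.2.2 + 2)
      push_cast at h2
      rw [add_zero] at h2 h3
      linarith
    · refine ⟨T.2.2.1, s1, fun t ht v hv hN => ?_⟩
      have h2 := hN.2 T (h.run.cut_mem ht hT)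
      have h3 := (h.cutle _ _ hT _ _).trans hv
      have h4 := abs_sub_le (tv c T (f (c d.2.1))) (tv c T (c v)) (tv c T (c d.2.2.2.2.1))
      rw [abs_sub_comm (tv c T (f (c d.2.1))) (tv c T (c v))] at h4
      have k4 : 2 ^ T.2.2.1 * q (d.2.2.2.2.2 + 2 + T.2.2.1 + 1) = q (d.2.2.2.2.2 + 2) / 2 := by
        rw [q_succ, q_add (d.2.2.2.2.2 + 2)]
        have := q_mul_pow T.2.2.1
        linear_combination (q (d.2.2.2.2.2 + 2) / 2) * this
      have k5 := q_anti (show d.2.2.2.2.2 + 2 + 1 ≤ d.2.2.2.2.2 + 2 + T.2.2.1 + 1 by omega)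
      have k6 := q_succ (d.2.2.2.2.2 + 2)
      push_cast at h2
      rw [mul_left_comm, k4] at h2
      linarith
  obtain ⟨σ, v, s0, a0, c0⟩ := h.t1 (c d.2.1) (d.2.2.2.2.2 + 2 + J + 1)
  let w : W1 := (σ, σ.length + 2, v, d.2.2.2.2.2 + 2 + J + 1)
  obtain ⟨t, ht, he⟩ := exists_att e (Encodable.encode w + 1 + s0 + s1 + s + σ.sum + v)
  have hn := h.run.lt_n t
  have hR := (h.run.step t).g he
  rw [hconst t (by omega)] at hR
  rcases hR with ⟨hd', -⟩ | ⟨-, ⟨h1, -⟩ | ⟨w, ρ, j, -, -, h'⟩⟩ | ⟨hd', -⟩ | ⟨hd', -⟩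
  · omega
  · rcases h1 w (by omega) with h2 | h2 | h2
    · have : dec1 t e (st t).1 w = true := by
        simp only [dec1, Bool.and_eq_true, eqb_iff, leb_iff, w]
        exact ⟨c0 t (by omega), by omega⟩
      rw [this] at h2
      exact absurd h2 (by simp)
    · exact not_nvalS h.hD a0 (by rw [h.hD.self]; exact (q_pos _).le) le_rfl (by omega)
        (hG.1.trans_le (h.run.n_mono (by omega))) (h.fr t) h2
    · refine hJ t (by omega) v ?_ h2
      exact h.s1 t σ _ _ (c0 t (by omega)) _ fun i hi => (a0 i hi).trans (q_anti (Nat.le_succ i))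
  · have := hne (t + 1)
    rw [h'] at this
    simp at this
  · omega
  · omega

theorem s2_of {s : ℕ} (hd : (look (st s).2.2.2.2 e).1 = 2) :
    S2 c p e D f (look (st s).2.2.2.2 e) := by
  rcases h.sinv s with h1 | h1 | h1
  · omega
  · omega
  · exact h1.2

theorem step2 {t : ℕ} (hd : (look (st t).2.2.2.2 e).1 = 2) :
    (look (st (t + 1)).2.2.2.2 e).1 = 2 ∧
    (look (st (t + 1)).2.2.2.2 e).2.2 = (look (st t).2.2.2.2 e).2.2 ∧
    D (c (look (st (t + 1)).2.2.2.2 e).2.1) (c (look (st t).2.2.2.2 e).2.1) ≤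
      (H0 (st (t + 1)) - H0 (st t)) + q t := by
  have hsame : look (st (t + 1)).2.2.2.2 e = look (st t).2.2.2.2 e →
      (look (st (t + 1)).2.2.2.2 e).1 = 2 ∧
      (look (st (t + 1)).2.2.2.2 e).2.2 = (look (st t).2.2.2.2 e).2.2 ∧
      D (c (look (st (t + 1)).2.2.2.2 e).2.1) (c (look (st t).2.2.2.2 e).2.1) ≤
        (H0 (st (t + 1)) - H0 (st t)) + q t := by
    intro h1
    rw [h1, h.hD.self]
    have := (abs_nonneg _).trans ((h.run.shape t).D0_diff (c 0) (c 0))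
    exact ⟨hd, rfl, by linarith [q_pos t]⟩
  by_cases he : t.unpair.1 = e
  swap
  · exact hsame ((h.run.shape t).2.2.2.2 e (Ne.symm he))
  have hG := h.geo2 hd
  rcases (h.run.step t).g he with ⟨hd', -⟩ | ⟨hd', -⟩ |
    ⟨-, ⟨hst, -⟩ | ⟨-, h'⟩ | ⟨-, h'⟩ | ⟨-, w, m', j, -, -, hN, h'⟩⟩ | ⟨hd', -⟩
  · omega
  · omega
  · exact absurd hst (h.not_stop hG.1 (h.s2_of hd))
  · exact hsame (by rw [h']; rfl)
  · exact hsame (by rw [h']; rfl)
  · have e5 : look (st (t + 1)).2.2.2.2 e = (2, m', (look (st t).2.2.2.2 e).2.2) := by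
      rw [h']; simp
    rw [e5]
    refine ⟨rfl, rfl, (h.step_dist hG.1 (by rw [h']; simp) hN).trans ?_⟩
    exact add_le_add le_rfl (q_anti (by omega))
  · omega

theorem prog2 [CompleteSpace X] {s : ℕ} (hd : (look (st s).2.2.2.2 e).1 = 2) : False := by
  have hconst : ∀ t ≥ s, (look (st t).2.2.2.2 e).1 = 2 ∧
      (look (st t).2.2.2.2 e).2.2 = (look (st s).2.2.2.2 e).2.2 := by
    intro t ht
    induction t, ht using Nat.le_induction with
    | base => exact ⟨hd, rfl⟩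
    | succ t ht ih => exact ⟨(h.step2 ih.1).1, (h.step2 ih.1).2.1.trans ih.2⟩
  let m : ℕ → X := fun t => c (look (st t).2.2.2.2 e).2.1
  have hq : Summable q := by
    have := summable_geometric_two
    refine this.congr fun n => ?_
    simp [q]
  have hcs : CauchySeq fun t => m (t + s) := by
    refine cauchySeq_of_dist_le_of_summable
      (fun t => (H0 (st (t + s + 1)) - H0 (st (t + s))) + q (t + s)) (fun t => ?_) ?_
    · rw [dist_comm, show t.succ + s = t + s + 1 by omega]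
      exact (h.hD.ge _ _).trans (h.step2 (hconst _ (by omega)).1).2.2
    · exact (summable_nat_add_iff
        (f := fun t => (H0 (st (t + 1)) - H0 (st t)) + q t) s).2 (h.run.summable0.add hq)
  obtain ⟨l, hl⟩ := cauchySeq_tendsto_of_complete hcs
  have hl' : Tendsto m atTop (𝓝 l) := (tendsto_add_atTop_iff_nat s).1 hl
  have hDl : Tendsto (fun t => D l (m t)) atTop (𝓝 0) := by
    have : Continuous fun y => D l y := h.hD.cont.comp (continuous_const.prodMk continuous_id)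
    have h2 := (this.tendsto l).comp hl'
    rwa [h.hD.self] at h2
  set d0 := look (st s).2.2.2.2 e with hd0
  obtain ⟨σ, w0, s0, a0, c0⟩ := h.t1 l d0.2.2.2.2.2
  let w : W2 := (σ, max (σ.length + 2) (d0.2.2.2.1 + 1), w0)
  obtain ⟨s1, hs1⟩ := eventually_atTop.1 ((hDl.eventually (gt_mem_nhds (q_pos (σ.length + 2)))).and
    (h.run.summable0.tendsto_atTop_zero.eventually (gt_mem_nhds (q_pos (w.2.1 + 1)))))
  obtain ⟨t, ht, he⟩ := exists_att e (Encodable.encode w + 1 + s0 + s1 + s + σ.sum)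
  have hn := h.run.lt_n t
  obtain ⟨hd1, hd2⟩ := hconst t (by omega)
  have hG := h.geo2 hd1
  have hns : ¬ NS2 c t e (st t) (look (st t).2.2.2.2 e) w := by
    rintro (h2 | h2)
    · have : dec2 t e (look (st t).2.2.2.2 e) w = true := by
        simp only [dec2, Bool.and_eq_true, eqb_iff, leb_iff, w, hd2]
        exact ⟨c0 t (by omega), le_max_right _ _⟩
      rw [this] at h2
      exact absurd h2 (by simp)
    · exact not_nvalS h.hD a0 (hs1 t (by omega)).1.le (le_max_left _ _) (by omega) hG.1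
        (h.fr t) h2
  rcases (h.run.step t).g he with ⟨hd', -⟩ | ⟨hd', -⟩ |
    ⟨-, ⟨hst, -⟩ | ⟨hesc, -⟩ | ⟨h1, -⟩ | ⟨-, w', m', j, -, hopt, -, h'⟩⟩ | ⟨hd', -⟩
  · omega
  · omega
  · exact absurd hst (h.not_stop hG.1 (h.s2_of hd1))
  · exact hG.not_escape hesc
  · exact hns (h1 w (by omega))
  · have h2 := (hopt w (by omega)).resolve_left hns
    have h3 := (hs1 t (by omega)).2
    have h4 : H0 (st (t + 1)) - H0 (st t) = q (w'.2.1 + 1) := by rw [h']; simp [H0]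
    have h5 := q_anti (show w'.2.1 + 1 ≤ w.2.1 + 1 by omega)
    linarith
  · omega

theorem false [CompleteSpace X] : False := by
  obtain ⟨s, hs⟩ := h.prog0
  rcases h.sinv s with h1 | h1 | h1
  · exact hs h1
  · obtain ⟨t, ht⟩ := h.prog1 h1.1
    exact h.prog2 ht
  · exact h.prog2 h1.1

end Ctx

theorem caseA [CompleteSpace X] (hc : Pres c) {p r : ℕ}
    (hp : ∀ x, dist x (c p) < q r → ∀ ε > 0, ∃ y, y ≠ x ∧ dist y x < ε) : Concl X := by
  obtain ⟨st, hst, h0, hR⟩ := RE.run (R := fun s a b => Rel c p r s a b) (re_Rel hc.2 p r)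
    (rel_total hc.1 hp) (p + 1, [], [], [], [])
  have run : Run c p r st := ⟨h0, hR⟩
  obtain ⟨D, hD, fr⟩ := run.limit0
  obtain ⟨D', hD', fr', cutle, cutex⟩ := run.limit1
  have hlt : ∀ z : ℕ × ℕ, z.1 < (st (z.1 + z.2)).1 ∧ z.2 < (st (z.1 + z.2)).1 := fun z => by
    have := run.lt_n (z.1 + z.2); omega
  refine concl_of_metrics hc.1 hD hD' ?_ ?_ fun f g e1 e2 gf s1 t1 s2 t2 => ?_
  · exact (cr_D0 hc.2 (st := fun z : ℕ × ℕ => st (z.1 + z.2)) (i := fun z => z.1)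
      (j := fun z => z.2) (by fun_prop) (by fun_prop) (by fun_prop)).of_eq
      fun z => (fr _ _ _ (hlt z).1 (hlt z).2).symm
  · exact (cr_D1 hc.2 (st := fun z : ℕ × ℕ => st (z.1 + z.2)) (i := fun z => z.1)
      (j := fun z => z.2) (by fun_prop) (by fun_prop) (by fun_prop)).of_eq
      fun z => (fr' _ _ _ (hlt z).1 (hlt z).2).symm
  · exact Ctx.false (e := Nat.pair e1 e2) ⟨run, hD, hD', fr, fr', cutle, cutex, gf,
      by simpa using s1, by simpa using t1, by simpa using s2, by simpa using t2⟩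

end Pool.Agent.P.MP_fa5791_lc
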