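import Pool.Agent.P.MP_fa5791_lc.ADefs

namespace Pool.Agent.P.MP_fa5791_lc

open Pool.Agent.Lib.ComputableProp

variable {X : Type} [MetricSpace X] (c : ℕ → X)

theorem continuous_tv (T : Tent) : Continuous (tv c T) := by unfold tv; fun_prop

theorem tv_nonneg (T : Tent) (x : X) : 0 ≤ tv c T x := le_max_left _ _

theorem tv_le (T : Tent) (x : X) : tv c T x ≤ q T.2.2.2 :=
  max_le (q_pos _).le (by linarith [abs_nonneg (2 ^ T.2.2.1 * dist x (c T.1) - (T.2.1 : ℝ))])

theorem tv_abs_sub_le (T : Tent) (x y : X) : |tv c T x - tv c T y| ≤ q T.2.2.2 := by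
  have := tv_nonneg c T x
  have := tv_nonneg c T y
  have := tv_le c T x
  have := tv_le c T y
  exact abs_le.2 ⟨by linarith, by linarith⟩

theorem tv_lip (T : Tent) (x y : X) : |tv c T x - tv c T y| ≤ 2 ^ T.2.2.1 * dist x y := by
  unfold tv
  refine (abs_max_sub_max_le_max _ _ _ _).trans (max_le (by simp) ?_)
  rw [sub_sub_sub_cancel_left]
  refine (abs_abs_sub_abs_le_abs_sub _ _).trans ?_
  rw [sub_sub_sub_cancel_right, ← mul_sub, abs_mul, abs_of_pos (by positivity), dist_comm x y]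
  exact mul_le_mul_of_nonneg_left (abs_dist_sub_le _ _ _) (by positivity)

theorem tv_eq_zero (T : Tent) (x : X) (h : 1 ≤ |2 ^ T.2.2.1 * dist x (c T.1) - T.2.1|) :
    tv c T x = 0 := max_eq_left (by linarith [q_le_one T.2.2.2])

theorem tv_center (m j h : ℕ) : tv c (m, 0, j, h) (c m) = q h := by
  simp [tv, (q_pos h).le]

@[simp] theorem tsm_nil (x : X) : tsm c [] x = 0 := rfl

@[simp] theorem tsm_cons (T : Tent) (L : List Tent) (x : X) :
    tsm c (T :: L) x = tv c T x + tsm c L x := by simp [tsm]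

theorem continuous_tsm (L : List Tent) : Continuous (tsm c L) := by
  induction L with
  | nil => exact continuous_const
  | cons T L ih => exact ((continuous_tv c T).add ih).congr fun x => (tsm_cons c T L x).symm

theorem continuous_phi (st : St) : Continuous (phi c st) :=
  (continuous_tsm c _).sub (continuous_tsm c _)

theorem good_D0 (st : St) : GoodD (D0 c st) := by
  refine ⟨fun x => by simp [D0], fun x y => by rw [D0, D0, dist_comm, abs_sub_comm],
    fun x y z => ?_, fun x y => le_max_left _ _, ?_⟩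
  · refine max_le ((dist_triangle x y z).trans (add_le_add (le_max_left _ _) (le_max_left _ _)))
      ((abs_sub_le _ (phi c st y) _).trans (add_le_add (le_max_right _ _) (le_max_right _ _)))
  · have := continuous_phi c st
    unfold D0
    fun_prop

@[simp] theorem DL_nil (x y : X) : DL c [] x y = dist x y := rfl

@[simp] theorem DL_cons (T : Tent) (L : List Tent) (x y : X) :
    DL c (T :: L) x y = max |tv c T x - tv c T y| (DL c L x y) := rfl

theorem good_DL (L : List Tent) : GoodD (DL c L) := by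
  induction L with
  | nil => exact ⟨dist_self, dist_comm, dist_triangle, fun _ _ => le_rfl, continuous_dist⟩
  | cons T L ih =>
    refine ⟨fun x => by simp [ih.self], fun x y => by rw [DL_cons, DL_cons, ih.comm, abs_sub_comm],
      fun x y z => ?_, fun x y => (ih.ge x y).trans (le_max_right _ _), ?_⟩
    · exact max_le ((abs_sub_le _ (tv c T y) _).trans
        (add_le_add (le_max_left _ _) (le_max_left _ _)))
        ((ih.tri x y z).trans (add_le_add (le_max_right _ _) (le_max_right _ _)))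
    · have := continuous_tv c T
      have h2 := ih.cont
      simp only [DL_cons]
      fun_prop

theorem good_D1 (st : St) : GoodD (D1 c st) := good_DL c _

theorem le_DL {L : List Tent} {T : Tent} (hT : T ∈ L) (x y : X) :
    |tv c T x - tv c T y| ≤ DL c L x y := by
  induction L with
  | nil => simp at hT
  | cons T' L ih =>
    rcases List.mem_cons.1 hT with rfl | h
    · exact le_max_left _ _
    · exact (ih h).trans (le_max_right _ _)

theorem lt_DL {L : List Tent} {x y : X} {a : ℝ} (h : a < DL c L x y) :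
    a < dist x y ∨ ∃ T ∈ L, a < |tv c T x - tv c T y| := by
  induction L with
  | nil => exact Or.inl h
  | cons T L ih =>
    rcases lt_max_iff.1 h with h | h
    · exact Or.inr ⟨T, List.mem_cons_self, h⟩
    · rcases ih h with h | ⟨T', h1, h2⟩
      · exact Or.inl h
      · exact Or.inr ⟨T', List.mem_cons_of_mem _ h1, h2⟩

variable {c}

theorem exists_New (hc : DenseRange c) {m : ℕ} (hm : ∀ ε > 0, ∃ y, y ≠ c m ∧ dist y (c m) < ε)
    (st : St) (τ : ℕ) : ∃ m' j, New c st τ m m' j := by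
  classical
  have hcont : Continuous fun y => D0 c st y (c m) :=
    (good_D0 c st).cont.comp (continuous_id.prodMk continuous_const)
  have hU : IsOpen {y | D0 c st y (c m) < q τ} := isOpen_lt hcont continuous_const
  have hF : (c '' Set.Iio st.1).Finite := (Set.finite_Iio _).image _
  have hU2 : IsOpen ({y | D0 c st y (c m) < q τ} \ (c '' Set.Iio st.1 \ {c m})) :=
    hU.sdiff (hF.subset Set.sdiff_subset).isClosed
  obtain ⟨ε, hε, hb⟩ := Metric.isOpen_iff.1 hU2 (c m)
    ⟨by simp [(good_D0 c st).self, q_pos], by simp⟩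
  obtain ⟨y, hy, hyd⟩ := hm ε hε
  have hy2 := hb hyd
  obtain ⟨m', hm'⟩ := hc.exists_mem_open (hU.sdiff hF.isClosed)
    ⟨y, hy2.1, fun h => hy2.2 ⟨h, hy⟩⟩
  have : ∀ n ≤ st.1, ∃ j, ∀ i < n, q j < dist (c m') (c i) := by
    intro n
    induction n with
    | zero => intro _; exact ⟨0, by simp⟩
    | succ n ih =>
      intro hn
      obtain ⟨j, hj⟩ := ih (by omega)
      have hne : c m' ≠ c n := fun h => hm'.2 ⟨n, show n < st.1 by omega, h.symm⟩
      obtain ⟨j', hj'⟩ := exists_q_lt (dist_pos.2 hne)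
      refine ⟨max j j', fun i hi => ?_⟩
      rcases (by omega : i < n ∨ i = n) with h | rfl
      · exact (q_anti (le_max_left _ _)).trans_lt (hj i h)
      · exact (q_anti (le_max_right _ _)).trans_lt hj'
  obtain ⟨j, hj⟩ := this _ le_rfl
  exact ⟨m', j, hm'.1, hj⟩

theorem exists_Cut (n v a : ℕ) : ∃ ρ j, Cut c n v a ρ j := by
  classical
  have h2 : n + 1 ≤ 2 ^ n := Nat.lt_two_pow_self
  obtain ⟨k, hk, hgood⟩ : ∃ k < n + 1, ∀ i < n, ((1 : ℕ) : ℝ) <
      |2 ^ (a + (n + 2)) * dist (c i) (c v) - ((2 * 2 ^ (n + 2) + 1 + 3 * k : ℕ) : ℝ)| := by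
    by_contra hne
    push Not at hne
    choose! f hf1 hf2 using hne
    have := Finset.card_le_card_of_injOn (s := Finset.range (n + 1)) (t := Finset.range n) f
      (fun k hk => by simpa using hf1 k (by simpa using hk)) (by
        intro k hk l hl hkl
        have h1 := abs_le.1 (hf2 k (by simpa using hk))
        have h2 := abs_le.1 (hf2 l (by simpa using hl))
        rw [hkl] at h1
        push_cast at h1 h2
        have h3 : (3 : ℝ) * k < 3 * l + 3 := by linarith
        have h4 : (3 : ℝ) * l < 3 * k + 3 := by linarith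
        have h3' : 3 * k < 3 * l + 3 := by exact_mod_cast h3
        have h4' : 3 * l < 3 * k + 3 := by exact_mod_cast h4
        omega)
    simp at this
  refine ⟨2 * 2 ^ (n + 2) + 1 + 3 * k, a + (n + 2), ?_, ?_, hgood⟩
  · rw [pow_add 2 a]
    nlinarith [Nat.zero_le (k * 2 ^ a)]
  · rw [pow_add 2 a, mul_comm (2 ^ a), ← mul_assoc]
    refine Nat.mul_le_mul_right _ ?_
    rw [pow_add]
    omega

omit [MetricSpace X] in
theorem valW_of_not {D : X → X → ℝ} {n : ℕ} {σ : List ℕ} {m b : ℕ} (h : ¬ NValS c D n σ m b) :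
    ValW c D n σ m b := by
  intro i hi
  unfold NValS at h
  push Not at h
  have := h i hi
  exact ⟨this.1, by linarith [this.2, q_pos b]⟩

theorem sepW_of_not {L : List Tent} {v u k a : ℕ} (h : ¬ NSepS c L v u k a) :
    SepW c L v u k a := by
  unfold NSepS at h
  have := q_pos a
  rcases not_and_or.1 h with h | h
  · left
    push_cast at h ⊢
    linarith
  · right
    push Not at h
    obtain ⟨T, hT, h⟩ := h
    refine ⟨T, hT, lt_of_lt_of_le ?_ h⟩
    push_cast
    have : (0 : ℝ) < 2 ^ T.2.2.1 := by positivity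
    nlinarith

theorem weak2_of_not {s e : ℕ} {st : St} {d : Dat} {w : W2} (h : ¬ NS2 c s e st d w) :
    Weak2 c s e st d w := by
  unfold NS2 at h
  push Not at h
  exact ⟨by simpa using h.1, valW_of_not h.2⟩

theorem rel_total (hc : DenseRange c) {p r : ℕ}
    (hp : ∀ x, dist x (c p) < q r → ∀ ε > 0, ∃ y, y ≠ x ∧ dist y x < ε) (s : ℕ) (st : St) :
    ∃ st', Rel c p r s st st' := by
  set e := s.unpair.1
  set d := look st.2.2.2.2 e
  rcases (by omega : d.1 = 0 ∨ d.1 = 1 ∨ d.1 = 2 ∨ 3 ≤ d.1) with h | h | h | h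
  · by_cases h0 : ∀ w : W0, Encodable.encode w < s → NS0 c p r s e st w
    · exact ⟨_, Or.inl ⟨h, Or.inl ⟨h0, rfl⟩⟩⟩
    · push Not at h0
      obtain ⟨w, -, hw⟩ := h0
      unfold NS0 at hw
      push Not at hw
      obtain ⟨m', j, hN⟩ := exists_New hc (hp (c p) (by simp [q_pos])) st (w.2.2.2.2.1 + 3)
      exact ⟨_, Or.inl ⟨h, Or.inr ⟨w, m', j, ⟨by simpa using hw.1, valW_of_not hw.2.1,
        valW_of_not hw.2.2.1, valW_of_not hw.2.2.2⟩, hN, rfl⟩⟩⟩
  · by_cases h0 : ∀ w : W1, Encodable.encode w < s → NS1 c s e st d w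
    · exact ⟨_, Or.inr (Or.inl ⟨h, Or.inl ⟨h0, rfl⟩⟩)⟩
    · push Not at h0
      obtain ⟨w, -, hw⟩ := h0
      unfold NS1 at hw
      push Not at hw
      obtain ⟨ρ, j, hN⟩ := exists_Cut (c := c) st.1 w.2.2.1 w.2.2.2
      exact ⟨_, Or.inr (Or.inl ⟨h, Or.inr ⟨w, ρ, j, ⟨by simpa using hw.1, valW_of_not hw.2.1,
        sepW_of_not hw.2.2⟩, hN, rfl⟩⟩)⟩
  · by_cases h1 : D0 c st (c d.2.1) (c p) < q d.2.2.2.1
    · exact ⟨_, Or.inr (Or.inr (Or.inl ⟨h, Or.inl ⟨h1, rfl⟩⟩))⟩
    by_cases h2 : q (r + 1) < dist (c d.2.1) (c p)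
    · exact ⟨_, Or.inr (Or.inr (Or.inl ⟨h, Or.inr (Or.inl ⟨h2, rfl⟩)⟩))⟩
    by_cases h0 : ∀ w : W2, Encodable.encode w < s → NS2 c s e st d w
    · exact ⟨_, Or.inr (Or.inr (Or.inl ⟨h, Or.inr (Or.inr (Or.inl ⟨h0, rfl⟩))⟩))⟩
    push Not at h0
    classical
    have hex : ∃ b, ∃ w : W2, Encodable.encode w < s ∧ ¬ NS2 c s e st d w ∧ w.2.1 = b := by
      obtain ⟨w, h1, h2⟩ := h0
      exact ⟨_, w, h1, h2, rfl⟩
    obtain ⟨w, -, hw, hb⟩ := Nat.find_spec hex
    have hm : dist (c d.2.1) (c p) < q r := by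
      have := q_succ r
      have := q_pos r
      linarith [not_lt.1 h2]
    obtain ⟨m', j, hN⟩ := exists_New hc (hp _ hm) st (w.2.1 + d.2.2.2.1 + s + 4)
    refine ⟨_, Or.inr (Or.inr (Or.inl ⟨h, Or.inr (Or.inr (Or.inr ⟨?_, w, m', j, weak2_of_not hw,
      fun w' hw' => ?_, hN, rfl⟩))⟩))⟩
    · have := q_succ d.2.2.2.1
      have := q_pos d.2.2.2.1
      linarith [not_lt.1 h1]
    · by_cases h3 : NS2 c s e st d w'
      · exact Or.inl h3
      · right
        rw [hb]
        exact Nat.find_min' hex ⟨w', hw', h3, rfl⟩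
  · exact ⟨_, Or.inr (Or.inr (Or.inr ⟨h, rfl⟩))⟩

variable (c) in
/-- the tent vanishes on the frozen points -/
def Van (n : ℕ) (T : Tent) : Prop := ∀ i < n, tv c T (c i) = 0

variable (c) in
/-- a list grows by at most one tent vanishing on the frozen points -/
def Grow (n : ℕ) (L L' : List Tent) : Prop := L' = L ∨ ∃ T, Van c n T ∧ L' = T :: L

/-- total height -/
noncomputable def hts (L : List Tent) : ℝ := (L.map fun T => q T.2.2.2).sum

@[simp] theorem hts_nil : hts [] = 0 := rfl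
@[simp] theorem hts_cons (T : Tent) (L : List Tent) : hts (T :: L) = q T.2.2.2 + hts L := by
  simp [hts]

theorem New.van {st : St} {τ m m' j : ℕ} (h : New c st τ m m' j) (k : ℕ) :
    Van c st.1 (m', 0, j, k) := by
  intro i hi
  refine tv_eq_zero c _ _ ?_
  have := h.2 i hi
  have h2 := q_mul_pow j
  have h3 : (0 : ℝ) < 2 ^ j := by positivity
  simp only [Nat.cast_zero, sub_zero]
  rw [abs_of_nonneg (by positivity), dist_comm]
  nlinarith

theorem Cut.van {n v a ρ j : ℕ} (h : Cut c n v a ρ j) (k : ℕ) : Van c n (v, ρ, j, k) := by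
  intro i hi
  refine tv_eq_zero c _ _ ?_
  have := h.2.2 i hi
  push_cast at this
  exact this.le

@[simp] theorem look_cons (e e' : ℕ) (d : Dat) (R : List (ℕ × Dat)) :
    look ((e, d) :: R) e' = if e = e' then d else look R e' := by
  unfold look
  by_cases h : e = e' <;> simp [h, eqb]

variable (c) in
/-- shape of a transition -/
def Shape (e : ℕ) (st st' : St) : Prop :=
  st.1 < st'.1 ∧ Grow c st.1 st.2.1 st'.2.1 ∧ Grow c st.1 st.2.2.1 st'.2.2.1 ∧
    Grow c st.1 st.2.2.2.1 st'.2.2.2.1 ∧ ∀ e' ≠ e, look st'.2.2.2.2 e' = look st.2.2.2.2 e'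

theorem shape_idle (e : ℕ) (st : St) : Shape c e st (idle st) :=
  ⟨Nat.lt_succ_self _, Or.inl rfl, Or.inl rfl, Or.inl rfl, fun _ _ => rfl⟩

theorem Rel.shape {p r s : ℕ} {st st' : St} (h : Rel c p r s st st') :
    Shape c s.unpair.1 st st' := by
  rcases h with ⟨-, ⟨-, rfl⟩ | ⟨w, m', j, -, hN, rfl⟩⟩ | ⟨-, ⟨-, rfl⟩ | ⟨w, ρ, j, -, hN, rfl⟩⟩ |
    ⟨-, ⟨-, rfl⟩ | ⟨-, rfl⟩ | ⟨-, rfl⟩ | ⟨-, w, m', j, -, -, hN, rfl⟩⟩ | ⟨-, rfl⟩
  · exact shape_idle _ _
  · exact ⟨by simp, Or.inr ⟨_, hN.van _, rfl⟩, Or.inl rfl, Or.inl rfl,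
      fun e' he => by simp [he.symm]⟩
  · exact shape_idle _ _
  · exact ⟨by simp, Or.inl rfl, Or.inl rfl, Or.inr ⟨_, hN.van _, rfl⟩,
      fun e' he => by simp [he.symm]⟩
  · exact ⟨by simp, Or.inl rfl, Or.inl rfl, Or.inl rfl, fun e' he => by simp [he.symm]⟩
  · exact shape_idle _ _
  · exact shape_idle _ _
  · exact ⟨by simp, Or.inl rfl, Or.inr ⟨_, hN.van _, rfl⟩, Or.inl rfl,
      fun e' he => by simp [he.symm]⟩
  · exact shape_idle _ _

theorem Grow.tsm_frozen {n : ℕ} {L L' : List Tent} (h : Grow c n L L') {i : ℕ} (hi : i < n) :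
    tsm c L' (c i) = tsm c L (c i) := by
  rcases h with rfl | ⟨T, hT, rfl⟩
  · rfl
  · simp [hT i hi]

theorem Grow.DL_frozen {n : ℕ} {L L' : List Tent} (h : Grow c n L L') {i j : ℕ} (hi : i < n)
    (hj : j < n) : DL c L' (c i) (c j) = DL c L (c i) (c j) := by
  rcases h with rfl | ⟨T, hT, rfl⟩
  · rfl
  · rw [DL_cons, hT i hi, hT j hj, sub_zero, abs_zero]
    exact max_eq_right (dist_nonneg.trans ((good_DL c L).ge _ _))

theorem Grow.hts_le {n : ℕ} {L L' : List Tent} (h : Grow c n L L') : hts L ≤ hts L' := by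
  rcases h with rfl | ⟨T, hT, rfl⟩
  · rfl
  · simp [(q_pos _).le]

theorem Grow.tsm_diff {n : ℕ} {L L' : List Tent} (h : Grow c n L L') (x y : X) :
    |(tsm c L' x - tsm c L' y) - (tsm c L x - tsm c L y)| ≤ hts L' - hts L := by
  rcases h with rfl | ⟨T, hT, rfl⟩
  · simp
  · have := tv_abs_sub_le c T x y
    simp only [tsm_cons, hts_cons]
    rwa [show tv c T x + tsm c L x - (tv c T y + tsm c L y) - (tsm c L x - tsm c L y) =
      tv c T x - tv c T y by ring, add_sub_cancel_right]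

theorem Grow.DL_diff {n : ℕ} {L L' : List Tent} (h : Grow c n L L') (x y : X) :
    |DL c L' x y - DL c L x y| ≤ hts L' - hts L := by
  rcases h with rfl | ⟨T, hT, rfl⟩
  · simp
  · have := tv_abs_sub_le c T x y
    have h0 : 0 ≤ DL c L x y := dist_nonneg.trans ((good_DL c L).ge _ _)
    have := q_pos T.2.2.2
    simp only [DL_cons, hts_cons, add_sub_cancel_right]
    rw [abs_of_nonneg (sub_nonneg.2 (le_max_right _ _)), sub_le_iff_le_add]
    exact max_le (by linarith) (by linarith)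

theorem Grow.subset {n : ℕ} {L L' : List Tent} (h : Grow c n L L') : ∀ T ∈ L, T ∈ L' := by
  rcases h with rfl | ⟨T, hT, rfl⟩
  · exact fun _ h => h
  · exact fun _ h => List.mem_cons_of_mem _ h

/-- total height of the bumps -/
noncomputable def H0 (st : St) : ℝ := hts st.2.1 + hts st.2.2.1
/-- total height of the cuts -/
noncomputable def H1 (st : St) : ℝ := hts st.2.2.2.1

theorem Shape.phi_frozen {e : ℕ} {st st' : St} (h : Shape c e st st') {i : ℕ} (hi : i < st.1) :
    phi c st' (c i) = phi c st (c i) := by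
  unfold phi
  rw [h.2.1.tsm_frozen hi, h.2.2.1.tsm_frozen hi]

theorem Shape.D0_frozen {e : ℕ} {st st' : St} (h : Shape c e st st') {i j : ℕ} (hi : i < st.1)
    (hj : j < st.1) : D0 c st' (c i) (c j) = D0 c st (c i) (c j) := by
  unfold D0
  rw [h.phi_frozen hi, h.phi_frozen hj]

theorem Shape.D1_frozen {e : ℕ} {st st' : St} (h : Shape c e st st') {i j : ℕ} (hi : i < st.1)
    (hj : j < st.1) : D1 c st' (c i) (c j) = D1 c st (c i) (c j) := h.2.2.2.1.DL_frozen hi hj

theorem Shape.D0_diff {e : ℕ} {st st' : St} (h : Shape c e st st') (x y : X) :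
    |D0 c st' x y - D0 c st x y| ≤ H0 st' - H0 st := by
  have h1 := h.2.1.tsm_diff x y
  have h2 := h.2.2.1.tsm_diff x y
  have h3 := h.2.1.hts_le
  have h4 := h.2.2.1.hts_le
  unfold D0 H0
  refine (abs_max_sub_max_le_max _ _ _ _).trans (max_le (by simp; linarith) ?_)
  refine (abs_abs_sub_abs_le_abs_sub _ _).trans ?_
  unfold phi
  rw [abs_le] at h1 h2 ⊢
  constructor <;> linarith [h1.1, h1.2, h2.1, h2.2]

theorem Shape.D1_diff {e : ℕ} {st st' : St} (h : Shape c e st st') (x y : X) :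
    |D1 c st' x y - D1 c st x y| ≤ H1 st' - H1 st := h.2.2.2.1.DL_diff x y

end Pool.Agent.P.MP_fa5791_lc
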