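import Mathlib

namespace Pool.Agent.P.MP_fa5791_lc

open Filter Topology Set

theorem exists_cpt (X : Type) [MetricSpace X] [TopologicalSpace.SeparableSpace X] :
    ∃ (K : Type) (_ : MetricSpace K) (_ : CompactSpace K) (F : X → K), IsEmbedding F := by
  obtain ⟨F, hF⟩ := Metric.PiNatEmbed.exists_embedding_to_hilbert_cube (X := X)
  exact ⟨ℕ → unitInterval, TopologicalSpace.metrizableSpaceMetric _, inferInstance, F, hF⟩

theorem contAt_of_finite {A K : Type} [TopologicalSpace A] [T1Space A] [MetricSpace K]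
    {f g : A → K} {a : A} (hg : ContinuousAt g a) (ha : f a = g a)
    (h : ∀ ε > 0, {x | ε ≤ dist (f x) (g x)}.Finite) : ContinuousAt f a := by
  rw [ContinuousAt, ha]
  refine hg.congr_dist ?_
  rw [Metric.tendsto_nhds]
  intro ε hε
  have h1 : {x | ε ≤ dist (f x) (g x)}ᶜ ∈ 𝓝 a :=
    (h ε hε).isClosed.isOpen_compl.mem_nhds (by simp [ha, hε])
  filter_upwards [h1] with x hx
  simpa [dist_comm] using hx

theorem contAt_of_iso {A K : Type} [TopologicalSpace A] [TopologicalSpace K]
    (f : A → K) {a : A} (h : IsOpen {a}) : ContinuousAt f a := by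
  rw [ContinuousAt, (isOpen_singleton_iff_nhds_eq_pure a).1 h]
  exact tendsto_pure_nhds f a

theorem exists_inj_choice {β : Type} [Countable β] (S : ℕ → Set β) (h : ∀ n, (S n).Infinite) :
    ∃ g : ℕ → β, Function.Injective g ∧ ∀ n, g n ∈ S n := by
  obtain ⟨ι, hι⟩ := Countable.exists_injective_nat β
  have key : ∀ n m : ℕ, ∃ b ∈ S n, m < ι b := by
    intro n m
    by_contra hne
    push Not at hne
    exact h n ((Set.finite_Iic m).preimage hι.injOn |>.subset fun b hb => hne b hb)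
  choose nx h1 h2 using key
  let g : ℕ → β := fun n => Nat.rec (nx 0 0) (fun k b => nx (k + 1) (ι b)) n
  refine ⟨g, ?_, fun n => ?_⟩
  · have : StrictMono (ι ∘ g) := strictMono_nat_of_lt_succ fun n => h2 _ _
    exact Function.Injective.of_comp this.injective
  · cases n with
    | zero => exact h1 _ _
    | succ n => exact h1 _ _

variable {X : Type} [MetricSpace X]

theorem inf_iso (hI : Dense {x : X | IsOpen {x}}) {U : Set X} (hU : IsOpen U)
    (h : U.Infinite) : (U ∩ {x : X | IsOpen {x}}).Infinite := by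
  intro hf
  refine h (hf.subset fun x hx => ?_)
  by_contra hn
  obtain ⟨y, hy1, hy2⟩ := hI.inter_open_nonempty _ (hU.sdiff hf.isClosed) ⟨x, hx, hn⟩
  exact hy1.2 ⟨hy1.1, hy2⟩

theorem exists_E [Infinite X] (hI : Dense {x : X | IsOpen {x}}) {K : Type} [MetricSpace K]
    [CompactSpace K] {F : X → K} (hF : IsEmbedding F) :
    ∃ E : X → ℝ, (∀ ε > 0, {y | ε ≤ E y}.Finite) ∧
      ∀ y δ, E y < δ → {b | IsOpen {b} ∧ dist (F y) (F b) < δ}.Infinite := by
  let T : X → Set ℝ := fun y => {ε | 0 ≤ ε ∧ {b | IsOpen {b} ∧ dist (F y) (F b) < ε}.Infinite}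
  have hne : ∀ y, (T y).Nonempty := by
    intro y
    obtain ⟨C, hC⟩ := Metric.isBounded_iff.1 (isCompact_univ (X := K)).isBounded
    refine ⟨max C 0 + 1, by positivity, ?_⟩
    refine (inf_iso hI isOpen_univ Set.infinite_univ).mono fun b hb => ⟨hb.2, ?_⟩
    have := hC (mem_univ (F y)) (mem_univ (F b))
    have := le_max_left C 0
    linarith
  refine ⟨fun y => sInf (T y), fun ε hε => ?_, fun y δ h => ?_⟩
  · by_contra hinf
    have h1 : (F '' {y | ε ≤ sInf (T y)}).Infinite := Set.Infinite.image hF.injective.injOn hinf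
    obtain ⟨k, -, hk⟩ := h1.exists_accPt_of_subset_isCompact isCompact_univ (subset_univ _)
    have h2 := (accPt_iff_frequently.1 hk)
    have h3 : (Metric.ball k (ε / 4) ∩ F '' {y | ε ≤ sInf (T y)}).Infinite :=
      Set.Infinite.of_accPt ((AccPt.nhds_inter hk (Metric.ball_mem_nhds k (by positivity))))
    have h4 : (F ⁻¹' Metric.ball k (ε / 4)).Infinite := by
      intro hf
      refine h3 ((hf.image F).subset ?_)
      rintro _ ⟨h5, y, -, rfl⟩
      exact ⟨y, h5, rfl⟩
    obtain ⟨_, h5, y, hy, rfl⟩ := h3.nonempty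
    have h6 : ε / 2 ∈ T y := by
      refine ⟨by positivity, (inf_iso hI (Metric.isOpen_ball.preimage hF.continuous) h4).mono
        fun b hb => ⟨hb.2, ?_⟩⟩
      have h7 : dist (F b) k < ε / 4 := hb.1
      have h8 : dist (F y) k < ε / 4 := h5
      have := dist_triangle_right (F y) (F b) k
      linarith
    have h9 : sInf (T y) ≤ ε / 2 := csInf_le ⟨0, fun a ha => ha.1⟩ h6
    have : ε ≤ sInf (T y) := hy
    linarith
  · obtain ⟨a, ha, hlt⟩ := exists_lt_of_csInf_lt (hne y) h
    exact ha.2.mono fun b hb => ⟨hb.1, hb.2.trans hlt⟩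

/-- the non-isolated points at height zero together with the points of `J` -/
def ZZ (J : Set (X × ℝ)) : Set (X × ℝ) := {p | (p.2 = 0 ∧ ¬ IsOpen {p.1}) ∨ p ∈ J}

/-- a family of new isolated points above `X` -/
structure Lift (z : ℕ → X × ℝ) : Prop where
  pos : ∀ n, 0 < (z n).2
  small : ∀ ε > 0, {p | p ∈ range z ∧ ε ≤ p.2}.Finite
  fib : ∀ x, {p | p ∈ range z ∧ p.1 = x}.Finite
  sec : ∀ x, IsOpen {x} → ∃ n, (z n).1 = x

namespace Lift

variable {z : ℕ → X × ℝ} (h : Lift z)
include h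

theorem closed : IsClosed (ZZ (range z)) := by
  rw [← isOpen_compl_iff, isOpen_iff_mem_nhds]
  intro p hp
  have hp1 : ¬ (p.2 = 0 ∧ ¬ IsOpen {p.1}) := fun h => hp (Or.inl h)
  have hp2 : p ∉ range z := fun h => hp (Or.inr h)
  by_cases h0 : p.2 = 0
  · have hI : IsOpen {p.1} := by by_contra hn; exact hp1 ⟨h0, hn⟩
    have h1 : IsOpen ((Prod.fst ⁻¹' {p.1}) \ {p' | p' ∈ range z ∧ p'.1 = p.1}) :=
      (hI.preimage continuous_fst).sdiff (h.fib _).isClosed
    refine mem_of_superset (h1.mem_nhds ⟨rfl, fun h => hp2 h.1⟩) ?_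
    rintro y ⟨hy1, hy2⟩ (hy | hy)
    · have : y.1 = p.1 := hy1
      exact hy.2 (this ▸ hI)
    · exact hy2 ⟨hy, hy1⟩
  · have hpos : 0 < |p.2| := abs_pos.2 h0
    have h1 : IsOpen ({y : X × ℝ | |p.2| / 2 < |y.2|} \ {p' | p' ∈ range z ∧ |p.2| / 2 ≤ p'.2}) :=
      (isOpen_lt continuous_const (by fun_prop)).sdiff (h.small _ (by positivity)).isClosed
    refine mem_of_superset (h1.mem_nhds ⟨by simpa using hpos, fun h => hp2 h.1⟩) ?_
    rintro y ⟨hy1, hy2⟩ (hy | ⟨n, rfl⟩)
    · have : |p.2| / 2 < |y.2| := hy1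
      rw [hy.1, abs_zero] at this
      linarith
    · have : |p.2| / 2 < |(z n).2| := hy1
      rw [abs_of_pos (h.pos n)] at this
      exact hy2 ⟨⟨n, rfl⟩, this.le⟩

theorem iso (p : ZZ (range z)) (hp : p.1 ∈ range z) : IsOpen {p} := by
  have hpos : 0 < p.1.2 := by obtain ⟨n, hn⟩ := hp; rw [← hn]; exact h.pos n
  have h1 : IsOpen {y : ZZ (range z) | p.1.2 / 2 < y.1.2} :=
    isOpen_lt continuous_const (by fun_prop)
  have h2 : {y : ZZ (range z) | p.1.2 / 2 < y.1.2}.Finite := by
    refine ((h.small (p.1.2 / 2) (by positivity)).preimage Subtype.val_injective.injOn).subset ?_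
    intro y hy
    have hy' : p.1.2 / 2 < y.1.2 := hy
    rcases y.2 with h3 | h3
    · rw [h3.1] at hy'; linarith
    · exact ⟨h3, hy'.le⟩
  have h3 := h1.sdiff (h2.subset (sdiff_subset (t := {p}))).isClosed
  rwa [sdiff_sdiff_cancel_left] at h3
  simpa using hpos

theorem matching [Infinite X] (hI : Dense {x : X | IsOpen {x}}) {K : Type} [MetricSpace K]
    [CompactSpace K] {F : X → K} (hF : IsEmbedding F) :
    ∃ φ : range z ≃ {x : X | IsOpen {x}},
      ∀ ε > 0, {j : range z | ε ≤ dist (F j.1.1) (F (φ j))}.Finite := by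
  obtain ⟨E, hE1, hE2⟩ := exists_E hI hF
  choose sec hsec using h.sec
  let g : {x : X | IsOpen {x}} → range z := fun b => ⟨z (sec b.1 b.2), _, rfl⟩
  have hg1 : ∀ b, (g b).1.1 = b := fun b => hsec b.1 b.2
  have hg : Function.Injective g := fun a b hab => Subtype.ext (by rw [← hg1 a, hab, hg1])
  have : Countable (range z) := (countable_range z).to_subtype
  have : Countable {x : X | IsOpen {x}} := hg.countable
  obtain ⟨f, hf, hf1⟩ := exists_inj_choice (β := {x : X | IsOpen {x}})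
    (fun n => {b | dist (F (z n).1) (F b) < E (z n).1 + (z n).2}) (fun n => by
      have := hE2 (z n).1 (E (z n).1 + (z n).2) (by linarith [h.pos n])
      intro hfin
      exact this ((hfin.image Subtype.val).subset fun b hb => ⟨⟨b, hb.1⟩, hb.2, rfl⟩))
  let i : range z → ℕ := fun j => j.2.choose
  have hi : ∀ j, z (i j) = j.1 := fun j => j.2.choose_spec
  have hi' : Function.Injective i := fun a b hab => Subtype.ext (by rw [← hi a, hab, hi])
  obtain ⟨φ, hφ, hR⟩ := Function.Embedding.schroeder_bernstein_of_rel (hf.comp hi') hg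
    (fun j b => dist (F j.1.1) (F b) < E j.1.1 + j.1.2 ∨ j.1.1 = b)
    (fun j => Or.inl (by have := hf1 (i j); rw [← hi j]; exact this))
    (fun b => Or.inr (hg1 b))
  refine ⟨Equiv.ofBijective φ hφ, fun ε hε => ?_⟩
  have h1 := (hE1 (ε / 2) (by positivity)).biUnion fun x _ => h.fib x
  have h2 := h.small (ε / 2) (by positivity)
  refine ((h1.union h2).preimage Subtype.val_injective.injOn).subset fun j hj => ?_
  have hj' : ε ≤ dist (F j.1.1) (F (φ j)) := hj
  rcases hR j with h3 | h3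
  · by_cases h4 : ε / 2 ≤ j.1.2
    · exact Or.inr ⟨j.2, h4⟩
    · refine Or.inl (mem_biUnion (x := j.1.1) ?_ ⟨j.2, rfl⟩)
      show ε / 2 ≤ E j.1.1
      linarith
  · rw [h3, dist_self] at hj'
    linarith

theorem homeo [Infinite X] [TopologicalSpace.SeparableSpace X]
    (hI : Dense {x : X | IsOpen {x}}) :
    Nonempty (ZZ (range z) ≃ₜ X) ∧
      DenseRange (fun n => (⟨z n, Or.inr ⟨n, rfl⟩⟩ : ZZ (range z))) := by
  classical
  obtain ⟨K, _, _, F, hF⟩ := exists_cpt X
  obtain ⟨φ, hφ⟩ := h.matching hI hF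
  have h0 : ∀ x : X, (x, (0 : ℝ)) ∉ range z := by
    rintro x ⟨n, hn⟩
    have := h.pos n
    rw [hn] at this
    exact lt_irrefl _ this
  let Φ : ZZ (range z) → X := fun p => if hp : p.1 ∈ range z then φ ⟨p.1, hp⟩ else p.1.1
  let Ψ : X → ZZ (range z) := fun x => if hx : IsOpen {x} then
    ⟨(φ.symm ⟨x, hx⟩).1, Or.inr (φ.symm ⟨x, hx⟩).2⟩ else ⟨(x, 0), Or.inl ⟨rfl, hx⟩⟩
  have l1 : ∀ p, Ψ (Φ p) = p := by
    intro p
    by_cases hp : p.1 ∈ range z
    · have e1 : Φ p = φ ⟨p.1, hp⟩ := dif_pos hp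
      have e2 : IsOpen {(φ ⟨p.1, hp⟩ : X)} := (φ ⟨p.1, hp⟩).2
      rw [e1]
      simp only [Ψ, dif_pos e2]
      simp
    · have e1 : Φ p = p.1.1 := dif_neg hp
      have e2 := p.2.resolve_right hp
      rw [e1]
      simp only [Ψ, dif_neg e2.2]
      exact Subtype.ext (Prod.ext rfl e2.1.symm)
  have l2 : ∀ x, Φ (Ψ x) = x := by
    intro x
    by_cases hx : IsOpen {x}
    · simp only [Ψ, dif_pos hx, Φ, dif_pos (φ.symm ⟨x, hx⟩).2]
      simp
    · simp only [Ψ, dif_neg hx, Φ, dif_neg (h0 x)]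
  have c0 : ∀ ε > 0, {p : ZZ (range z) | ε ≤ dist (F (Φ p)) (F p.1.1)}.Finite := by
    intro ε hε
    refine (((hφ ε hε).image Subtype.val).preimage Subtype.val_injective.injOn).subset ?_
    intro p hp
    have hp' : ε ≤ dist (F (Φ p)) (F p.1.1) := hp
    by_cases hq : p.1 ∈ range z
    · refine ⟨⟨p.1, hq⟩, ?_, rfl⟩
      rw [show Φ p = φ ⟨p.1, hq⟩ from dif_pos hq, dist_comm] at hp'
      exact hp'
    · rw [show Φ p = p.1.1 from dif_neg hq, dist_self] at hp'
      linarith
  have c1 : Continuous Φ := by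
    refine continuous_iff_continuousAt.2 fun p => ?_
    by_cases hq : p.1 ∈ range z
    · exact contAt_of_iso _ (h.iso p hq)
    · rw [hF.isInducing.continuousAt_iff]
      refine contAt_of_finite (g := fun p : ZZ (range z) => F p.1.1)
        (hF.continuous.comp (by fun_prop)).continuousAt ?_ c0
      exact congrArg F (dif_neg hq)
  have c2 : Continuous Ψ := by
    refine continuous_iff_continuousAt.2 fun x => ?_
    by_cases hx : IsOpen {x}
    · exact contAt_of_iso _ hx
    · have hind : IsInducing (fun p : ZZ (range z) => (F p.1.1, p.1.2)) :=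
        (hF.isInducing.prodMap IsInducing.id).comp IsInducing.subtypeVal
      rw [hind.continuousAt_iff]
      refine contAt_of_finite (g := fun y => (F y, (0 : ℝ)))
        (hF.continuous.prodMk continuous_const).continuousAt ?_ fun ε hε => ?_
      · simp only [Function.comp, Ψ, dif_neg hx]
      · have hs : {p : ZZ (range z) | ε ≤ p.1.2}.Finite := by
          refine ((h.small ε hε).preimage Subtype.val_injective.injOn).subset fun p hp => ?_
          have hp' : ε ≤ p.1.2 := hp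
          rcases p.2 with h3 | h3
          · rw [h3.1] at hp'; linarith
          · exact ⟨h3, hp'⟩
        refine (((c0 ε hε).union hs).image Φ).subset fun y hy => ⟨Ψ y, ?_, l2 y⟩
        have hy' : ε ≤ max (dist (F (Ψ y).1.1) (F y)) (dist (Ψ y).1.2 0) := hy
        rcases le_max_iff.1 hy' with h3 | h3
        · left
          show ε ≤ dist (F (Φ (Ψ y))) (F (Ψ y).1.1)
          rwa [l2, dist_comm]
        · right
          have : 0 ≤ (Ψ y).1.2 := by
            rcases (Ψ y).2 with h4 | ⟨n, h4⟩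
            · exact h4.1.ge
            · rw [← h4]; exact (h.pos n).le
          rwa [Real.dist_eq, sub_zero, abs_of_nonneg this] at h3
  refine ⟨⟨⟨⟨Φ, Ψ, l1, l2⟩, c1, c2⟩⟩, ?_⟩
  have hsurj : Function.Surjective Ψ := fun p => ⟨Φ p, l1 p⟩
  refine (hsurj.denseRange.dense_image c2 hI).mono ?_
  rintro _ ⟨x, hx, rfl⟩
  have hx' : IsOpen {x} := hx
  obtain ⟨n, hn⟩ := (φ.symm ⟨x, hx'⟩).2
  refine ⟨n, Subtype.ext ?_⟩
  simp only [Ψ, dif_pos hx']
  exact hn

end Lift

end Pool.Agent.P.MP_fa5791_lc
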