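import Pool.Agent.P.MP_fa5791_lc.AMain
import Pool.Agent.P.MP_fa5791_lc.BTop

namespace Pool.Agent.P.MP_fa5791_lc

open Pool.Agent.Lib.ComputableProp Filter Topology Set

variable {X : Type} [MetricSpace X] {c : ℕ → X}

theorem exists_inj [Infinite X] (hc : Pres c) :
    ∃ c' : ℕ → X, Pres c' ∧ Function.Injective c' := by
  let R : ℕ → List ℕ → List ℕ → Prop := fun n l l' => ∃ j, l' = j :: l ∧
    (∀ m ∈ l, ((0 : ℕ) : ℝ) < dist (c j) (c m)) ∧
    ((∃ m ∈ l, dist (c m) (c n.unpair.1) < q n.unpair.2) ∨ j = n.unpair.1)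
  have hR : RE fun z : (ℕ × List ℕ) × List ℕ => R z.1.1 z.1.2 z.2 :=
    RE.ex ((RE.eq (by fun_prop) (by fun_prop)).and ((RE.forall_mem (by fun_prop)
      ((CR.nat (f := fun _ => 0) (by fun_prop)).lt
        (cr_dist hc.2 (by fun_prop) (by fun_prop)))).and
      ((RE.exists_mem (by fun_prop) ((cr_dist hc.2 (by fun_prop) (by fun_prop)).lt
        (cr_q (by fun_prop)))).or (RE.eq (by fun_prop) (by fun_prop)))))
  have hinf : (range c).Infinite := fun hf => by
    have := hc.1.closure_range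
    rw [hf.isClosed.closure_eq] at this
    exact Set.infinite_univ (this ▸ hf)
  have tot : ∀ n l, ∃ l', R n l l' := by
    intro n l
    by_cases h : ∃ m ∈ l, c m = c n.unpair.1
    · obtain ⟨m, hm, h⟩ := h
      obtain ⟨_, ⟨j, rfl⟩, hj⟩ := hinf.exists_notMem_finite ((List.finite_toSet l).image c)
      refine ⟨_, j, rfl, fun k hk => ?_, Or.inl ⟨m, hm, by rw [h, dist_self]; exact q_pos _⟩⟩
      rw [Nat.cast_zero, dist_pos]
      exact fun e => hj ⟨k, hk, e.symm⟩
    · refine ⟨_, _, rfl, fun k hk => ?_, Or.inr rfl⟩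
      rw [Nat.cast_zero, dist_pos]
      exact fun e => h ⟨k, hk, e.symm⟩
  obtain ⟨st, hst, h0, hs⟩ := RE.run hR tot []
  let κ : ℕ → ℕ := fun n => (st (n + 1)).getD 0 0
  have hκ : Computable κ := by fun_prop
  have h1 : ∀ n, st (n + 1) = κ n :: st n ∧ (∀ m ∈ st n, 0 < dist (c (κ n)) (c m)) ∧
      ((∃ m ∈ st n, dist (c m) (c n.unpair.1) < q n.unpair.2) ∨ κ n = n.unpair.1) := by
    intro n
    obtain ⟨j, e, h2, h3⟩ := hs n
    have : κ n = j := by simp [κ, e]
    rw [this]
    exact ⟨e, by simpa using h2, h3⟩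
  have h2 : ∀ n m, m ∈ st n ↔ ∃ k < n, κ k = m := by
    intro n m
    induction n with
    | zero => simp [h0]
    | succ n ih =>
      rw [(h1 n).1, List.mem_cons, ih]
      constructor
      · rintro (rfl | ⟨k, hk, rfl⟩)
        · exact ⟨n, by omega, rfl⟩
        · exact ⟨k, by omega, rfl⟩
      · rintro ⟨k, hk, rfl⟩
        rcases (by omega : k = n ∨ k < n) with rfl | h
        · exact Or.inl rfl
        · exact Or.inr ⟨k, h, rfl⟩
  refine ⟨fun n => c (κ n), ⟨?_, cr_dist hc.2 (by fun_prop) (by fun_prop)⟩, ?_⟩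
  · refine Metric.denseRange_iff.2 fun x ε hε => ?_
    obtain ⟨i, hi⟩ := hc.1.exists_dist_lt x (half_pos hε)
    obtain ⟨k, hk⟩ := exists_q_lt (half_pos hε)
    rcases (h1 (Nat.pair i k)).2.2 with ⟨m, hm, h3⟩ | h3
    · obtain ⟨j, -, rfl⟩ := (h2 _ _).1 hm
      simp only [Nat.unpair_pair] at h3
      refine ⟨j, ?_⟩
      have := dist_triangle_right x (c (κ j)) (c i)
      linarith
    · simp only [Nat.unpair_pair] at h3
      exact ⟨Nat.pair i k, by rw [h3]; linarith⟩
  · refine Function.Injective.of_lt_imp_ne fun a b hab e => ?_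
    have := (h1 b).2.1 (κ a) ((h2 _ _).2 ⟨a, hab, rfl⟩)
    rw [show c (κ a) = c (κ b) from e, dist_self] at this
    exact lt_irrefl _ this

/-- extra height added when machine `e` halts on input `e` within `s` steps -/
noncomputable def ex (e s : ℕ) : ℝ :=
  ((Nat.Partrec.Code.evaln s (Denumerable.ofNat Nat.Partrec.Code e) e).toList.map
    fun b => q (b + e + 1)).sum

theorem ex_some {e s b : ℕ}
    (h : Nat.Partrec.Code.evaln s (Denumerable.ofNat Nat.Partrec.Code e) e = some b) :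
    ex e s = q (b + e + 1) := by simp [ex, h]

theorem ex_zero (e : ℕ) : ex e 0 = 0 := by simp [ex, Nat.Partrec.Code.evaln]

theorem ex_two (e : ℕ) : ∃ a, 0 ≤ a ∧ a ≤ q e ∧ ∀ s, ex e s = 0 ∨ ex e s = a := by
  by_cases h : ∃ s b, Nat.Partrec.Code.evaln s (Denumerable.ofNat Nat.Partrec.Code e) e = some b
  · obtain ⟨s0, b0, h⟩ := h
    refine ⟨q (b0 + e + 1), (q_pos _).le, q_anti (by omega), fun s => ?_⟩
    cases hs : Nat.Partrec.Code.evaln s (Denumerable.ofNat Nat.Partrec.Code e) e with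
    | none => left; simp [ex, hs]
    | some b =>
      right
      rw [ex_some hs, Part.mem_unique (Nat.Partrec.Code.evaln_sound hs)
        (Nat.Partrec.Code.evaln_sound h)]
  · refine ⟨0, le_rfl, (q_pos _).le, fun s => Or.inl ?_⟩
    cases hs : Nat.Partrec.Code.evaln s (Denumerable.ofNat Nat.Partrec.Code e) e with
    | none => simp [ex, hs]
    | some b => exact absurd ⟨s, b, hs⟩ h

theorem cr_ex {α : Type} [Primcodable α] {e s : α → ℕ} (he : Computable e) (hs : Computable s) :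
    CR fun a => ex (e a) (s a) :=
  CR.list_sum (F := fun a b => q (b + e a + 1))
    (Primrec.optionToList.to_comp.comp (c_evaln hs (c_ofNat _ he) he)) (cr_q (by fun_prop))

theorem lift_of (hd : DenseRange c) (hi : Function.Injective c) {z : ℕ → X × ℝ} {ρ : ℕ → ℕ}
    (hρ : Function.Surjective ρ) {a : ℕ → ℝ} (ha : ∀ e, 0 ≤ a e ∧ a e ≤ q e)
    (hz : ∀ n, z n = (c (ρ n), q (ρ n)) ∨ z n = (c (ρ n), q (ρ n) + a (ρ n))) : Lift z := by
  have hfin : ∀ S : Set ℕ, S.Finite → {p | ∃ n, ρ n ∈ S ∧ z n = p}.Finite := by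
    intro S hS
    refine ((hS.image fun e => (c e, q e)).union (hS.image fun e => (c e, q e + a e))).subset ?_
    rintro _ ⟨n, hn, rfl⟩
    rcases hz n with h | h
    · exact Or.inl ⟨_, hn, h.symm⟩
    · exact Or.inr ⟨_, hn, h.symm⟩
  refine ⟨fun n => ?_, fun ε hε => ?_, fun x => ?_, fun x hx => ?_⟩
  · have := q_pos (ρ n)
    have := (ha (ρ n)).1
    rcases hz n with h | h <;> rw [h] <;> dsimp only <;> linarith
  · obtain ⟨k, hk⟩ := exists_q_lt (half_pos hε)
    refine (hfin _ (finite_Iic k)).subset ?_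
    rintro _ ⟨⟨n, rfl⟩, hn⟩
    refine ⟨n, ?_, rfl⟩
    by_contra hlt
    have h1 := q_anti (not_le.1 hlt).le
    have h2 := (ha (ρ n)).2
    have h3 := q_pos (ρ n)
    rcases hz n with h | h <;> rw [h] at hn <;> dsimp only at hn <;> linarith
  · refine (hfin (c ⁻¹' {x}) ((finite_singleton x).preimage hi.injOn)).subset ?_
    rintro _ ⟨⟨n, rfl⟩, hn⟩
    refine ⟨n, ?_, rfl⟩
    rcases hz n with h | h <;> rw [h] at hn <;> exact hn
  · obtain ⟨i, hi⟩ := hd.exists_mem_open hx (singleton_nonempty x)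
    obtain ⟨n, rfl⟩ := hρ i
    refine ⟨n, ?_⟩
    rcases hz n with h | h <;> rw [h] <;> exact hi

theorem q_sep {n m : ℕ} (h : |q m - q n| < q (n + 1)) : m = n := by
  by_contra hne
  have h1 := abs_lt.1 h
  have h2 := q_succ n
  have h3 := q_pos n
  rcases lt_or_gt_of_ne hne with h4 | h4
  · have h5 := q_anti (show m + 1 ≤ n by omega)
    have h6 := q_succ m
    linarith [h1.2]
  · have h5 := q_anti (show n + 1 ≤ m by omega)
    linarith [h1.1]

theorem diag {Y Z : Type} [MetricSpace Y] [MetricSpace Z] {y : ℕ → Y} {z : ℕ → Z}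
    (hy : Pres y) (hz : DenseRange z) (hiso : ∀ n, IsOpen {y n})
    (hsep : ∀ n p, dist (z n) p ≤ q (n + 2) → p = z n)
    (hw : ∀ n m, dist (z m) (z n) ≤ q (n + 2) → m = n)
    (hd : ∀ e s, dist (y (Nat.pair e s)) (y (Nat.pair e 0)) = ex e s)
    (h : Y ≃ₜ Z) : ¬ CompMap y z h := by
  intro hc
  obtain ⟨e, hs, ht⟩ := exists_com hy.1 hc
  let R : ℕ → ℕ → Prop := fun a b => ∃ w : List ℕ × ℕ × ℕ,
    com e w.2.2 w.1 (w.2.1 + 2) = some w.2.1 ∧
      ∀ i < w.1.length, dist (y (w.1.getD i 0)) (y (Nat.pair a 0)) + q b < q i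
  have hR : RE fun v : ℕ × ℕ => R v.1 v.2 :=
    RE.ex ((RE.eq (by fun_prop) (by fun_prop)).and (RE.forall_lt (by fun_prop)
      (((cr_dist hy.2 (by fun_prop) (by fun_prop)).add (cr_q (by fun_prop))).lt
        (cr_q (by fun_prop)))))
  have tot : ∀ a, ∃ b, R a b := by
    intro a
    have h1 : IsOpen {h (y (Nat.pair a 0))} := by
      rw [← image_singleton]
      exact h.isOpenMap _ (hiso _)
    obtain ⟨n, hn⟩ := hz.exists_mem_open h1 (singleton_nonempty _)
    obtain ⟨σ, w, s0, h2, h3⟩ := ht (y (Nat.pair a 0)) (n + 2)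
    have h4 := hs s0 σ _ w (h3 s0 le_rfl) _ fun i hi => (h2 i hi).trans (q_anti (Nat.le_succ i))
    rw [← show z n = _ from hn] at h4
    obtain rfl := hw _ _ h4
    refine ⟨σ.length + 1, (σ, w, s0), h3 s0 le_rfl, fun i hi => ?_⟩
    have h5 : _ ≤ q (i + 1) := h2 i hi
    have h6 := q_anti (show i + 1 + 1 ≤ σ.length + 1 from Nat.succ_le_succ hi)
    have h7 := q_succ i
    have h8 := q_succ (i + 1)
    have := q_pos i
    linarith
  obtain ⟨β, hβ, hb⟩ := hR.uniformize tot
  obtain ⟨code, hcode⟩ := Nat.Partrec.Code.exists_code.1 (Partrec.nat_iff.1 hβ.partrec)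
  set a := Encodable.encode code with ha
  have h1 : β a ∈ code.eval a := by rw [hcode]; exact Part.mem_some _
  obtain ⟨s, h2⟩ := Nat.Partrec.Code.evaln_complete.1 h1
  have h3 : ex a s = q (β a + a + 1) := ex_some (by rw [ha, Denumerable.ofNat_encode]; exact h2)
  obtain ⟨⟨σ, n, s0⟩, h4, h5⟩ := hb a
  have h6 : ∀ x, dist x (y (Nat.pair a 0)) ≤ q (β a) → h x = z n := by
    intro x hx
    refine hsep n _ (hs s0 σ _ n h4 x fun i hi => ?_)
    have h7 := h5 i hi
    have h8 := dist_triangle_right (y (σ.getD i 0)) x (y (Nat.pair a 0))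
    change _ ≤ q i
    dsimp only at h7
    linarith
  have h7 := h6 (y (Nat.pair a s)) (by rw [hd, h3]; exact q_anti (by omega))
  have h8 := h6 (y (Nat.pair a 0)) (by rw [dist_self]; exact (q_pos _).le)
  have h9 := hd a s
  rw [h.injective (h7.trans h8.symm), dist_self, h3] at h9
  exact (q_pos _).ne h9

theorem caseB [CompleteSpace X] [Infinite X] (hc : Pres c) (hi : Function.Injective c)
    (hI : Dense {x : X | IsOpen {x}}) : Concl X := by
  have : TopologicalSpace.SeparableSpace X := ⟨⟨_, countable_range c, hc.1⟩⟩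
  choose a a0 a1 a2 using ex_two
  let z0 : ℕ → X × ℝ := fun n => (c n, q n)
  let z1 : ℕ → X × ℝ := fun n => (c n.unpair.1, q n.unpair.1 + ex n.unpair.1 n.unpair.2)
  have L0 : Lift z0 := lift_of hc.1 hi Function.surjective_id (fun e => ⟨a0 e, a1 e⟩)
    fun n => Or.inl rfl
  have L1 : Lift z1 := lift_of hc.1 hi (ρ := fun n => n.unpair.1)
    (fun e => ⟨Nat.pair e 0, by simp⟩) (fun e => ⟨a0 e, a1 e⟩) fun n => by
      rcases a2 n.unpair.1 n.unpair.2 with h | h
      · left; simp [z1, h]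
      · right; simp [z1, h]
  obtain ⟨e0, d0⟩ := L0.homeo hI
  obtain ⟨e1, d1⟩ := L1.homeo hI
  have P0 : Pres fun n => (⟨z0 n, Or.inr ⟨n, rfl⟩⟩ : ZZ (range z0)) :=
    ⟨d0, (cr_dist hc.2 (i := fun z : ℕ × ℕ => z.1) (j := fun z => z.2) (by fun_prop)
      (by fun_prop)).max ((cr_q (by fun_prop)).abs_sub (cr_q (by fun_prop)))⟩
  have P1 : Pres fun n => (⟨z1 n, Or.inr ⟨n, rfl⟩⟩ : ZZ (range z1)) :=
    ⟨d1, (cr_dist hc.2 (i := fun z : ℕ × ℕ => z.1.unpair.1) (j := fun z => z.2.unpair.1)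
      (by fun_prop) (by fun_prop)).max
      (((cr_q (by fun_prop)).add (cr_ex (by fun_prop) (by fun_prop))).abs_sub
        ((cr_q (by fun_prop)).add (cr_ex (by fun_prop) (by fun_prop))))⟩
  have hlt : ∀ n, q (n + 2) < q (n + 1) := fun n => by
    have := q_succ (n + 1); have := q_pos (n + 1); linarith
  refine ⟨_, _, inferInstance, inferInstance, _, _, L1.closed.completeSpace_coe,
    L0.closed.completeSpace_coe, P1, P0, e1, e0, fun h hh => ?_⟩
  refine diag P1 d0 (fun n => L1.iso _ ⟨n, rfl⟩) ?_ ?_ ?_ h hh.1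
  · rintro n ⟨p, hp⟩ hd
    have h1 : |q n - p.2| ≤ q (n + 2) := (le_max_right _ _).trans hd
    rcases hp with h2 | ⟨m, rfl⟩
    · rw [h2.1, sub_zero, abs_of_pos (q_pos n)] at h1
      have := hlt n
      have := q_anti (Nat.le_succ n)
      linarith
    · rw [abs_sub_comm] at h1
      obtain rfl := q_sep (h1.trans_lt (hlt n))
      rfl
  · intro n m hd
    have h1 : |q m - q n| ≤ q (n + 2) := (le_max_right _ _).trans hd
    exact q_sep (h1.trans_lt (hlt n))
  · intro e s
    have h0 : 0 ≤ ex e s := by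
      rcases a2 e s with h | h
      · exact h.ge
      · rw [h]; exact a0 e
    simp [Subtype.dist_eq, z1, Prod.dist_eq, ex_zero, abs_of_nonneg h0, h0]

theorem concl [CompleteSpace X] [Infinite X] (hc : Pres c) : Concl X := by
  obtain ⟨c', hc', hi⟩ := exists_inj hc
  by_cases hI : Dense {x : X | IsOpen {x}}
  · exact caseB hc' hi hI
  · rw [Metric.dense_iff] at hI
    push Not at hI
    obtain ⟨x, ε, hε, hx⟩ := hI
    obtain ⟨p, hp⟩ := hc.1.exists_dist_lt x (half_pos hε)
    obtain ⟨r, hr⟩ := exists_q_lt (half_pos hε)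
    refine caseA hc (p := p) (r := r) fun y hy δ hδ => ?_
    by_contra hne
    push Not at hne
    have h1 : IsOpen {y} := by
      have : ({y} : Set X) = Metric.ball y δ := by
        ext w
        simp only [mem_singleton_iff, Metric.mem_ball]
        exact ⟨fun h => by rw [h, dist_self]; exact hδ, fun h => by
          by_contra h2; exact absurd h (not_lt.2 (hne w h2))⟩
      rw [this]
      exact Metric.isOpen_ball
    have h2 : y ∈ Metric.ball x ε ∩ {x : X | IsOpen {x}} := by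
      refine ⟨?_, h1⟩
      have := dist_triangle_right y x (c p)
      rw [Metric.mem_ball]
      linarith
    rw [hx] at h2
    exact h2

end Pool.Agent.P.MP_fa5791_lc
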