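import Mathlib

namespace Pool.Agent.P.MP_fa5791_lc

/-- Oracle machines: the functionals `F` (oracle `o`, input `n`) generated uniformly in the
oracle by the same schemes as Mathlib's `Nat.RecursiveIn`. -/
inductive OracleRec : ((ℕ →. ℕ) → ℕ →. ℕ) → Prop
  | cZero : OracleRec fun _ _ => Part.some 0
  | cSucc : OracleRec fun _ n => Part.some (n + 1)
  | cLeft : OracleRec fun _ n => Part.some (Nat.unpair n).1
  | cRight : OracleRec fun _ n => Part.some (Nat.unpair n).2
  | cOracle : OracleRec fun o n => o n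
  | cPair {F G : (ℕ →. ℕ) → ℕ →. ℕ} : OracleRec F → OracleRec G →
      OracleRec fun o n => (F o n).bind fun a => (G o n).map fun b => Nat.pair a b
  | cComp {F G : (ℕ →. ℕ) → ℕ →. ℕ} : OracleRec F → OracleRec G →
      OracleRec fun o n => (G o n).bind (F o)
  | cPrec {F G : (ℕ →. ℕ) → ℕ →. ℕ} : OracleRec F → OracleRec G →
      OracleRec fun o p => Nat.rec (F o (Nat.unpair p).1)
        (fun y IH => IH.bind fun i => G o (Nat.pair (Nat.unpair p).1 (Nat.pair y i)))
        (Nat.unpair p).2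
  | cRfind {F : (ℕ →. ℕ) → ℕ →. ℕ} : OracleRec F →
      OracleRec fun o a => Nat.rfind fun n => (F o (Nat.pair a n)).map fun m => decide (m = 0)

/-- `M = {c 0, c 1, ...}` and the distances are computable reals uniformly in `i, j`. -/
def IsCompMetric (M : Type) [MetricSpace M] (c : ℕ → M) : Prop :=
  Function.Surjective c ∧ ∃ a : ℕ × ℕ × ℕ → ℕ, Computable a ∧
    ∀ i j n : ℕ, |dist (c i) (c j) - (a (i, j, n) : ℝ) / 2 ^ n| ≤ 1 / 2 ^ n

/-- `p` is a name of the point `x`. -/
def IsName {Y : Type} [MetricSpace Y] (c : ℕ → Y) (p : ℕ → ℕ) (x : Y) : Prop :=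
  ∀ k : ℕ, dist (c (p k)) x ≤ 1 / 2 ^ k

/-- One oracle machine turns every name of every `x` into a name of `f x`. -/
def CompMap {Y Z : Type} [MetricSpace Y] [MetricSpace Z] (c : ℕ → Y) (e : ℕ → Z)
    (f : Y → Z) : Prop :=
  ∃ F, OracleRec F ∧ ∀ (x : Y) (p : ℕ → ℕ), IsName c p x →
    ∃ q : ℕ → ℕ, (∀ k, q k ∈ F (fun n => Part.some (p n)) k) ∧ IsName e q (f x)

end Pool.Agent.P.MP_fa5791_lc
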