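import Pool.Agent.P.MP_fa5791_lc.ICtx

namespace Pool.Agent.P.MP_fa5791_lc.Inf

open Pool.Agent.Lib.ComputableProp Filter Topology

variable {X : Type} [MetricSpace X] {c : ℕ → X}

/-- the conclusion: infinitely many presentations without computable homeomorphisms -/
def ConclI (X : Type) [TopologicalSpace X] : Prop :=
  ∃ (Y : ℕ → Type) (_ : ∀ i, MetricSpace (Y i)) (c : ∀ i, ℕ → Y i),
    (∀ i, CompleteSpace (Y i) ∧ Pres (c i) ∧ Nonempty (Y i ≃ₜ X)) ∧
    ∀ i j, j < i → ∀ h : Y i ≃ₜ Y j, ¬ (CompMap (c i) (c j) h ∧ CompMap (c j) (c i) h.symm)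

/-- a computable modulus of the inverse at the image of a special point -/
theorem exists_nu {A B : X → X → ℝ} (hA : GoodD A) (hB : GoodD B)
    (cA : CR fun z : ℕ × ℕ => A (c z.1) (c z.2)) (cB : CR fun z : ℕ × ℕ => B (c z.1) (c z.2))
    {f g : X → X} (gf : ∀ x, g (f x) = x) {e1 e2 : ℕ} (s1 : SoundD c A B f e1)
    (t1 : ComplD c A e1) (s2 : SoundD c B A g e2) (t2 : ComplD c B e2) (p : ℕ) :
    ∃ ν : ℕ → ℕ, Computable ν ∧ ∀ b z, B z (f (c p)) ≤ q (ν b) → A (g z) (c p) ≤ q b := by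
  let R : ℕ → ℕ → Prop := fun b k => ∃ v : List ℕ × ℕ × ℕ, ∃ w : List ℕ × ℕ × ℕ,
    com e2 v.2.2 v.1 (b + 1) = some v.2.1 ∧ com e1 w.2.2 w.1 k = some w.2.1 ∧
      (∀ i < w.1.length, A (c (w.1.getD i 0)) (c p) < q i) ∧
      ∀ i < v.1.length, B (c (v.1.getD i 0)) (c w.2.1) + (q k + q k) < q i
  have hR : RE fun v : ℕ × ℕ => R v.1 v.2 :=
    RE.ex (RE.ex ((RE.eq (by fun_prop) (by fun_prop)).and ((RE.eq (by fun_prop) (by fun_prop)).and
      ((RE.forall_lt (by fun_prop) ((cA.comp (f := fun z :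
          (((ℕ × ℕ) × (List ℕ × ℕ × ℕ)) × (List ℕ × ℕ × ℕ)) × ℕ => (z.1.2.1.getD z.2 0, p))
          (by fun_prop)).lt (cr_q (by fun_prop)))).and
      (RE.forall_lt (by fun_prop) (((cB.comp (f := fun z :
          (((ℕ × ℕ) × (List ℕ × ℕ × ℕ)) × (List ℕ × ℕ × ℕ)) × ℕ =>
            (z.1.1.2.1.getD z.2 0, z.1.2.2.1)) (by fun_prop)).add
          ((cr_q (by fun_prop)).add (cr_q (by fun_prop)))).lt (cr_q (by fun_prop))))))))
  have tot : ∀ b, ∃ k, R b k := by
    intro b
    obtain ⟨σ, w, s0, h1, h2⟩ := t2 (f (c p)) (b + 1)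
    obtain ⟨σ', u, s0', h3, h4⟩ := t1 (c p) (σ.length + 3)
    have h5 : B (c u) (f (c p)) ≤ q (σ.length + 3) :=
      s1 s0' σ' _ u (h4 s0' le_rfl) _ fun i hi => (h3 i hi).trans (q_anti (Nat.le_succ i))
    refine ⟨σ.length + 3, (σ, w, s0), (σ', u, s0'), h2 s0 le_rfl, h4 s0' le_rfl,
      fun i hi => ?_, fun i hi => ?_⟩
    · have h6 : _ ≤ q (i + 1) := h3 i hi
      have h7 := q_succ i
      have := q_pos i
      dsimp only
      linarith
    · have h6 : _ ≤ q (i + 1) := h1 i hi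
      have h7 := hB.tri (c (σ.getD i 0)) (f (c p)) (c u)
      rw [hB.comm (f (c p))] at h7
      have h8 := q_anti (show i + 1 + 1 + 1 ≤ σ.length + 3 by dsimp only at hi; omega)
      have h9 := q_succ i
      have h10 := q_succ (i + 1)
      have h11 := q_succ (i + 1 + 1)
      have := q_pos i
      dsimp only
      linarith
  obtain ⟨ν, hν, hb⟩ := hR.uniformize tot
  refine ⟨ν, hν, fun b z hz => ?_⟩
  obtain ⟨⟨σ, w, s0⟩, ⟨σ', u, s0'⟩, h1, h2, h3, h4⟩ := hb b
  dsimp only at h1 h2 h3 h4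
  have h5 : B (c u) (f (c p)) ≤ q (ν b) := s1 s0' σ' _ u h2 _ fun i hi => (h3 i hi).le
  have key : ∀ y, B y (f (c p)) ≤ q (ν b) → A (c w) (g y) ≤ q (b + 1) := by
    intro y hy
    refine s2 s0 σ _ w h1 y fun i hi => ?_
    have h6 := h4 i hi
    have h7 := hB.tri (c (σ.getD i 0)) (c u) y
    have h8 := hB.tri (c u) (f (c p)) y
    rw [hB.comm (f (c p))] at h8
    change _ ≤ q i
    linarith
  have h6 := key z hz
  have h7 := key (f (c p)) (by rw [hB.self]; exact (q_pos _).le)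
  rw [gf] at h7
  have h8 := hA.tri (g z) (c w) (c p)
  rw [hA.comm (g z) (c w)] at h8
  have h9 := q_succ b
  linarith

theorem exists_P (hc : Pres c) {p0 r : ℕ} (hp : ∀ ε > 0, ∃ y, y ≠ c p0 ∧ dist y (c p0) < ε) :
    ∃ P : ℕ → ℕ, Computable P ∧ StrictMono P ∧ ∀ a, dist (c (P a)) (c p0) < q r := by
  have hR : RE fun z : (ℕ × ℕ) × ℕ => z.1.2 < z.2 ∧ dist (c z.2) (c p0) < q r :=
    (RE.lt (by fun_prop) (by fun_prop)).and
      ((cr_dist hc.2 (by fun_prop) (by fun_prop)).lt (cr_q (by fun_prop)))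
  have tot : ∀ (_ a : ℕ), ∃ b, a < b ∧ dist (c b) (c p0) < q r := by
    intro _ a
    obtain ⟨m, j, h1, h2⟩ := exists_NewI hc.1 hp 0 (a + 1, [], [], [], []) r
    refine ⟨m, ?_, ((good_DW c _ _).ge _ _).trans_lt h1⟩
    by_contra hle
    have := h2 m (by dsimp only; omega)
    rw [dist_self] at this
    exact absurd this (not_lt.2 (q_pos _).le)
  obtain ⟨st, hst, -, hs⟩ := RE.run (R := fun _ a b => a < b ∧ dist (c b) (c p0) < q r) hR tot 0
  exact ⟨fun a => st (a + 1), by fun_prop, strictMono_nat_of_lt_succ fun n => (hs _).1,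
    fun a => (hs a).2⟩

theorem caseA [CompleteSpace X] (hc : Pres c) (hi : Function.Injective c) {p0 r : ℕ}
    (hp : ∀ x, dist x (c p0) < q r → ∀ ε > 0, ∃ y, y ≠ x ∧ dist y x < ε) : ConclI X := by
  obtain ⟨P, cP, mP, hP⟩ := exists_P hc (r := r + 2) (hp (c p0) (by simp [q_pos]))
  obtain ⟨st, hst, h0, hR⟩ := RE.run (R := fun s a b => Rl c P p0 r s a b) (re_Rl hc.2 cP p0 r)
    (rl_total hc.1 hp hP) (0, [], [], [], [])
  have run : Run c P p0 r st := ⟨h0, hR⟩
  choose D hD lim fr using run.limitW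
  obtain ⟨D', hD', lim', cutle, cutex⟩ := run.limitC
  have hlt : ∀ z : ℕ × ℕ, z.1 < (st (z.1 + z.2 + 1)).1 ∧ z.2 < (st (z.1 + z.2 + 1)).1 :=
    fun z => by have := run.le_n (z.1 + z.2 + 1); omega
  have cD : ∀ i, CR fun z : ℕ × ℕ => D i (c z.1) (c z.2) := fun i =>
    (cr_DW hc.2 (st := fun z : ℕ × ℕ => st (z.1 + z.2 + 1)) (t := fun _ => i) (i := fun z => z.1)
      (j := fun z => z.2) (by fun_prop) (by fun_prop) (by fun_prop) (by fun_prop)).of_eq
      fun z => (fr i _ _ _ (hlt z).1 (hlt z).2).symm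
  have hle : ∀ i x y, D' x y ≤ D i x y := fun i x y =>
    le_of_tendsto_of_tendsto' (lim' x y) (lim i x y) fun s => le_max_left _ _
  choose Y mY hY E hE using fun i => (hD i).exists_space
  have dn : ∀ i, DenseRange (fun n => E i (c n)) := fun i =>
    (E i).surjective.denseRange.comp hc.1 (E i).continuous
  refine ⟨Y, mY, fun i n => E i (c n), fun i => ⟨hY i,
    ⟨dn i, (cD i).of_eq fun z => (hE i _ _).symm⟩, ⟨(E i).symm⟩⟩, ?_⟩
  rintro i j hij h ⟨k1, k2⟩
  obtain ⟨e1, s1, t1⟩ := exists_com (dn i) k1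
  obtain ⟨e2, s2, t2⟩ := exists_com (dn j) k2
  let f : X → X := fun x => (E j).symm (h (E i x))
  let g : X → X := fun y => (E i).symm (h.symm (E j y))
  have gf : ∀ x, g (f x) = x := fun x => by simp [f, g]
  have s1' : SoundD c (D i) (D j) f e1 := by
    intro s σ k w hw x hx
    have := s1 s σ k w hw (E i x) (by simpa only [hE] using hx)
    rw [← hE]
    simpa [f] using this
  have t1' : ComplD c (D i) e1 := fun x k => by simpa only [hE] using t1 (E i x) k
  have s2' : SoundD c (D j) (D i) g e2 := by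
    intro s σ k w hw x hx
    have := s2 s σ k w hw (E j x) (by simpa only [hE] using hx)
    rw [← hE]
    simpa [g] using this
  have t2' : ComplD c (D j) e2 := fun x k => by simpa only [hE] using t2 (E j x) k
  obtain ⟨a, ha, hy⟩ : ∃ a < i, ∀ a' < j, c (P a') ≠ f (c (P a)) := by
    by_contra hne
    push Not at hne
    choose! φ h1 h2 using hne
    have := Finset.card_le_card_of_injOn (s := Finset.range i) (t := Finset.range j) φ
      (fun k hk => by simpa using h1 k (by simpa using hk)) (by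
        intro k hk l hl hkl
        have h3 := h2 k (by simpa using hk)
        rw [hkl, h2 l (by simpa using hl)] at h3
        have h4 := congrArg g h3
        rw [gf, gf] at h4
        exact (mP.injective (hi h4)).symm)
    simp only [Finset.card_range] at this
    omega
  obtain ⟨μ, cμ, hμ⟩ := run.modulus hst j hD' (lim j) cutle _ hy
  obtain ⟨ν, cν, hν⟩ := exists_nu (hD i) (hD j) (cD i) (cD j) gf s1' t1' s2' t2' (P a)
  obtain ⟨code, hcode⟩ := Nat.Partrec.Code.exists_code.1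
    (Partrec.nat_iff.1 (cμ.comp cν).partrec)
  have hmem : ∀ n k, k ∈ code.eval n ↔ k = μ (ν n) := fun n k => by
    rw [hcode]; exact Part.mem_some_iff
  let e := Nat.pair (Nat.pair a (i - a - 1)) (Nat.pair e1 (Encodable.encode code))
  have b1 : ba e = a := by simp [ba, e]
  have b2 : tg e = i := by simp only [tg, e, Nat.unpair_pair]; omega
  have b3 : m1 e = e1 := by simp [m1, e]
  have b4 : m2 e = Encodable.encode code := by simp [m2, e]
  refine Ctx.false (c := c) (P := P) (p0 := p0) (r := r) (st := st) (D := D i) (D' := D')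
    (f := f) (g := g) (κ := fun n => μ (ν n)) (e := e) (p := P a)
    ⟨run, by rw [b1], hP a, hD i, hD', by rw [b2]; exact fr i, cutle, cutex, gf,
      (E j).symm.continuous.comp (h.continuous.comp (E i).continuous), ?_, by rw [b3]; exact t1',
      fun s n k hk => ?_, fun n => ?_, fun b y hy' => hν b y (hμ _ y hy')⟩
  · rw [b3]
    exact fun s σ k w hw x hx => (hle j _ _).trans (s1' s σ k w hw x hx)
  · rw [b4, Denumerable.ofNat_encode] at hk
    exact (hmem n k).1 (Nat.Partrec.Code.evaln_sound hk)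
  · obtain ⟨s0, hs0⟩ := Nat.Partrec.Code.evaln_complete.1 ((hmem n _).2 rfl)
    refine ⟨s0, fun s hs => ?_⟩
    rw [b4, Denumerable.ofNat_encode]
    exact Nat.Partrec.Code.evaln_mono hs hs0

end Pool.Agent.P.MP_fa5791_lc.Inf
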