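import Pool.Agent.P.MP_fa5791_lc.ICaseA

namespace Pool.Agent.P.MP_fa5791_lc.Inf

open Pool.Agent.Lib.ComputableProp Filter Topology Set

variable {X : Type} [MetricSpace X] {c : ℕ → X}

theorem lift_fin (hd : DenseRange c) (hi : Function.Injective c) {z : ℕ → X × ℝ} {ρ : ℕ → ℕ}
    (hρ : Function.Surjective ρ) {S : ℕ → Set ℝ} (hS : ∀ e, (S e).Finite)
    (h1 : ∀ n, (z n).1 = c (ρ n)) (h2 : ∀ n, (z n).2 ∈ S (ρ n))
    (h3 : ∀ n, q (ρ n) ≤ (z n).2 ∧ (z n).2 ≤ 2 * q (ρ n)) : Lift z := by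
  have hfin : ∀ T : Set ℕ, T.Finite → {p | ∃ n, ρ n ∈ T ∧ z n = p}.Finite := by
    intro T hT
    refine (hT.biUnion fun e _ => (hS e).image fun v => (c e, v)).subset ?_
    rintro _ ⟨n, hn, rfl⟩
    exact mem_biUnion hn ⟨_, h2 n, Prod.ext (h1 n).symm rfl⟩
  refine ⟨fun n => (q_pos _).trans_le (h3 n).1, fun ε hε => ?_, fun x => ?_, fun x hx => ?_⟩
  · obtain ⟨k, hk⟩ := exists_q_lt (half_pos hε)
    refine (hfin _ (finite_Iic k)).subset ?_
    rintro _ ⟨⟨n, rfl⟩, hn⟩
    refine ⟨n, ?_, rfl⟩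
    by_contra hlt
    have h4 := q_anti (not_le.1 hlt).le
    have h5 := (h3 n).2
    linarith
  · refine (hfin (c ⁻¹' {x}) ((finite_singleton x).preimage hi.injOn)).subset ?_
    rintro _ ⟨⟨n, rfl⟩, hn⟩
    exact ⟨n, by rw [mem_preimage, ← h1]; exact hn, rfl⟩
  · obtain ⟨i, hi⟩ := hd.exists_mem_open hx (singleton_nonempty x)
    obtain ⟨n, rfl⟩ := hρ i
    exact ⟨n, (h1 n).trans hi⟩

theorem diagI {Y Z : Type} [MetricSpace Y] [MetricSpace Z] {y : ℕ → Y} {z : ℕ → Z} {i j : ℕ}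
    (hij : j < i) (hy : Pres y) (hz : DenseRange z) (hiso : ∀ n, IsOpen {y n})
    (hw : ∀ n m, dist (z m) (z n) ≤ q (n.unpair.1 + 3) → m.unpair.1 = n.unpair.1)
    (hsep : ∀ n, ∃ S : ℕ → Z, ∀ p, dist (z n) p ≤ q (n.unpair.1 + 3) → ∃ t ≤ j, S t = p)
    (hd : ∀ a s b, ex a s = q (b + a + 1) → ∃ T : ℕ → Y,
      (∀ t ≤ i, dist (T t) (y (Nat.pair a 0)) ≤ q b) ∧ ∀ t ≤ i, ∀ t' ≤ i, T t = T t' → t = t')
    (h : Y ≃ₜ Z) : ¬ CompMap y z h := by
  intro hc
  obtain ⟨e, hs, ht⟩ := exists_com hy.1 hc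
  let R : ℕ → ℕ → Prop := fun a b => ∃ w : List ℕ × ℕ × ℕ,
    com e w.2.2 w.1 (w.2.1.unpair.1 + 3) = some w.2.1 ∧
      ∀ i < w.1.length, dist (y (w.1.getD i 0)) (y (Nat.pair a 0)) + q b < q i
  have hR : RE fun v : ℕ × ℕ => R v.1 v.2 :=
    RE.ex ((RE.eq (by fun_prop) (by fun_prop)).and (RE.forall_lt (by fun_prop)
      (((cr_dist hy.2 (by fun_prop) (by fun_prop)).add (cr_q (by fun_prop))).lt
        (cr_q (by fun_prop)))))
  have tot : ∀ a, ∃ b, R a b := by
    intro a
    have h1 : IsOpen {h (y (Nat.pair a 0))} := by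
      rw [← image_singleton]
      exact h.isOpenMap _ (hiso _)
    obtain ⟨n, hn⟩ := hz.exists_mem_open h1 (singleton_nonempty _)
    obtain ⟨σ, w, s0, h2, h3⟩ := ht (y (Nat.pair a 0)) (n.unpair.1 + 3)
    have h4 := hs s0 σ _ w (h3 s0 le_rfl) _ fun i hi => (h2 i hi).trans (q_anti (Nat.le_succ i))
    rw [← show z n = _ from hn] at h4
    have h4' := hw _ _ h4
    refine ⟨σ.length + 1, (σ, w, s0), by rw [h4']; exact h3 s0 le_rfl, fun i hi => ?_⟩
    have h5 : _ ≤ q (i + 1) := h2 i hi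
    have h6 := q_anti (show i + 1 + 1 ≤ σ.length + 1 from Nat.succ_le_succ hi)
    have h7 := q_succ i
    have h8 := q_succ (i + 1)
    have := q_pos i
    linarith
  obtain ⟨β, hβ, hb⟩ := hR.uniformize tot
  obtain ⟨code, hcode⟩ := Nat.Partrec.Code.exists_code.1 (Partrec.nat_iff.1 hβ.partrec)
  set a := Encodable.encode code with ha
  have h1 : β a ∈ code.eval a := by rw [hcode]; exact Part.mem_some _
  obtain ⟨s, h2⟩ := Nat.Partrec.Code.evaln_complete.1 h1
  have h3 : ex a s = q (β a + a + 1) := ex_some (by rw [ha, Denumerable.ofNat_encode]; exact h2)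
  obtain ⟨⟨σ, n, s0⟩, h4, h5⟩ := hb a
  obtain ⟨S, hS⟩ := hsep n
  obtain ⟨T, hT1, hT2⟩ := hd a s _ h3
  have h6 : ∀ t ≤ i, ∃ u ≤ j, S u = h (T t) := by
    intro t hti
    refine hS _ (hs s0 σ _ n h4 _ fun l hl => ?_)
    have h7 := h5 l hl
    have h8 := dist_triangle_right (y (σ.getD l 0)) (T t) (y (Nat.pair a 0))
    have h9 := hT1 t hti
    change _ ≤ q l
    dsimp only at h7
    linarith
  choose! φ h7 h8 using h6
  have := Finset.card_le_card_of_injOn (s := Finset.range (i + 1)) (t := Finset.range (j + 1)) φ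
    (fun k hk => by
      have := h7 k (by simpa [Nat.lt_succ_iff] using hk)
      simpa [Nat.lt_succ_iff] using this) (by
      intro k hk l hl hkl
      have hk' : k ≤ i := by simpa [Nat.lt_succ_iff] using hk
      have hl' : l ≤ i := by simpa [Nat.lt_succ_iff] using hl
      have h9 := h8 k hk'
      rw [hkl, h8 l hl'] at h9
      exact hT2 k hk' l hl' (h.injective h9).symm)
  simp only [Finset.card_range] at this
  omega

/-- extra height of point number `n` in space number `i` -/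
noncomputable def exi (i n : ℕ) : ℝ :=
  if n.unpair.2.unpair.1 < i then
    ex n.unpair.1 n.unpair.2.unpair.2 * q (n.unpair.2.unpair.1 + 1) else 0

theorem cr_exi {α : Type} [Primcodable α] (i : ℕ) {n : α → ℕ} (hn : Computable n) :
    CR fun a => exi i (n a) := by
  have h1 : Computable fun a => (Nat.Partrec.Code.evaln (n a).unpair.2.unpair.2
      (Denumerable.ofNat Nat.Partrec.Code (n a).unpair.1) (n a).unpair.1).toList :=
    Primrec.optionToList.to_comp.comp (c_ev (by fun_prop) (by fun_prop) (by fun_prop))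
  refine (CR.list_sum (l := fun a => cond (leb ((n a).unpair.2.unpair.1 + 1) i)
    (Nat.Partrec.Code.evaln (n a).unpair.2.unpair.2
      (Denumerable.ofNat Nat.Partrec.Code (n a).unpair.1) (n a).unpair.1).toList [])
    (F := fun a b => q (b + (n a).unpair.1 + 1 + ((n a).unpair.2.unpair.1 + 1)))
    (c_cond (by fun_prop) h1 (by fun_prop)) (cr_q (by fun_prop))).of_eq fun a => ?_
  unfold exi ex
  by_cases h : (n a).unpair.2.unpair.1 < i
  · have h2 : leb ((n a).unpair.2.unpair.1 + 1) i = true := by simpa using h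
    rw [h2, if_pos h, cond_true, ← List.sum_map_mul_right]
    simp only [q_add _ ((n a).unpair.2.unpair.1 + 1)]
  · have h2 : leb ((n a).unpair.2.unpair.1 + 1) i = false := by
      simpa [leb] using h
    rw [h2, if_neg h, cond_false]
    rfl

theorem ex_two' (e : ℕ) : ∃ a, 0 ≤ a ∧ a ≤ q (e + 1) ∧ ∀ s, ex e s = 0 ∨ ex e s = a := by
  obtain ⟨a, -, -, h⟩ := ex_two e
  by_cases h1 : ∃ s, ex e s ≠ 0
  · obtain ⟨s, hs⟩ := h1
    have h2 := (h s).resolve_left hs
    cases h3 : Nat.Partrec.Code.evaln s (Denumerable.ofNat Nat.Partrec.Code e) e with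
    | none => exact absurd (by simp [ex, h3]) hs
    | some b =>
      rw [ex_some h3] at h2
      exact ⟨a, h2 ▸ (q_pos _).le, h2 ▸ q_anti (by omega), h⟩
  · push Not at h1
    exact ⟨0, le_rfl, (q_pos _).le, fun s => Or.inl (h1 s)⟩

theorem hgt_sep {n m : ℕ} {u v : ℝ} (hu : q n ≤ u ∧ u ≤ 5 / 4 * q n)
    (hv : q m ≤ v ∧ v ≤ 5 / 4 * q m) (h : |v - u| ≤ q (n + 3)) : m = n := by
  by_contra hne
  have h1 := abs_le.1 h
  have h2 : q (n + 3) = q n / 8 := by rw [q_succ, q_succ, q_succ]; ring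
  have h3 := q_pos n
  rcases lt_or_gt_of_ne hne with h4 | h4
  · have h5 := q_anti (show m + 1 ≤ n by omega)
    have h6 := q_succ m
    linarith [h1.2, hu.2, hv.1]
  · have h5 := q_anti (show n + 1 ≤ m by omega)
    have h6 := q_succ n
    linarith [h1.1, hu.1, hv.2]

theorem caseB [CompleteSpace X] [Infinite X] (hc : Pres c) (hi : Function.Injective c)
    (hI : Dense {x : X | IsOpen {x}}) : ConclI X := by
  have : TopologicalSpace.SeparableSpace X := ⟨⟨_, countable_range c, hc.1⟩⟩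
  choose a a0 a1 a2 using ex_two'
  let z : ℕ → ℕ → X × ℝ := fun i n => (c n.unpair.1, q n.unpair.1 + exi i n)
  let H : ℕ → ℕ → ℕ → ℝ := fun i m t => q m + if t < i then a m * q (t + 1) else 0
  have hH : ∀ i n, ∃ t ≤ i, (z i n).2 = H i n.unpair.1 t := by
    intro i n
    by_cases h : n.unpair.2.unpair.1 < i
    · rcases a2 n.unpair.1 n.unpair.2.unpair.2 with h1 | h1
      · exact ⟨i, le_rfl, by simp [z, H, exi, h1]⟩
      · exact ⟨_, h.le, by simp [z, H, exi, h1, h]⟩
    · exact ⟨i, le_rfl, by simp [z, H, exi, h]⟩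
  have hb : ∀ i m t, q m ≤ H i m t ∧ H i m t ≤ 5 / 4 * q m := by
    intro i m t
    have h1 := q_pos m
    have h2 := mul_nonneg (a0 m) (q_pos (t + 1)).le
    have h3 : a m * q (t + 1) ≤ q (m + 1) * q (0 + 1) :=
      mul_le_mul (a1 m) (q_anti (by omega)) (q_pos _).le (q_pos _).le
    rw [q_succ m, q_succ 0, q_zero] at h3
    simp only [H]
    split_ifs <;> constructor <;> linarith
  have hb' : ∀ i n, q n.unpair.1 ≤ (z i n).2 ∧ (z i n).2 ≤ 5 / 4 * q n.unpair.1 := by
    intro i n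
    obtain ⟨t, -, h⟩ := hH i n
    rw [h]
    exact hb _ _ _
  have L : ∀ i, Lift (z i) := fun i => lift_fin hc.1 hi (ρ := fun n => n.unpair.1)
    (fun e => ⟨Nat.pair e 0, by simp⟩) (S := fun m => H i m '' Iic i)
    (fun m => (finite_Iic i).image _) (fun n => rfl)
    (fun n => by obtain ⟨t, h1, h2⟩ := hH i n; exact ⟨t, h1, h2.symm⟩)
    fun n => ⟨(hb' i n).1, by linarith [(hb' i n).2, q_pos n.unpair.1]⟩
  have P : ∀ i, Pres fun n => (⟨z i n, Or.inr ⟨n, rfl⟩⟩ : ZZ (range (z i))) := fun i =>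
    ⟨((L i).homeo hI).2, (cr_dist hc.2 (i := fun z : ℕ × ℕ => z.1.unpair.1)
      (j := fun z => z.2.unpair.1) (by fun_prop) (by fun_prop)).max
      (((cr_q (by fun_prop)).add (cr_exi i (by fun_prop))).abs_sub
        ((cr_q (by fun_prop)).add (cr_exi i (by fun_prop))))⟩
  refine ⟨fun i => ZZ (range (z i)), inferInstance, fun i n => ⟨z i n, Or.inr ⟨n, rfl⟩⟩,
    fun i => ⟨(L i).closed.completeSpace_coe, P i, ((L i).homeo hI).1⟩, fun i j hij h hh => ?_⟩
  have hw : ∀ n m, |(z j m).2 - (z j n).2| ≤ q (n.unpair.1 + 3) → m.unpair.1 = n.unpair.1 :=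
    fun n m hd => hgt_sep (hb' j n) (hb' j m) hd
  refine diagI hij (P i) (P j).1 (fun n => (L i).iso _ ⟨n, rfl⟩)
    (fun n m hd => hw n m ((le_max_right _ _).trans hd)) (fun n => ?_) ?_ h hh.1
  · classical
    refine ⟨fun t => if ht : (c n.unpair.1, H j n.unpair.1 t) ∈ ZZ (range (z j)) then ⟨_, ht⟩
      else ⟨z j n, Or.inr ⟨n, rfl⟩⟩, ?_⟩
    rintro ⟨p, hp⟩ hd
    have h1 : |(z j n).2 - p.2| ≤ q (n.unpair.1 + 3) := (le_max_right _ _).trans hd
    rcases id hp with h2 | ⟨m, rfl⟩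
    · exfalso
      rw [h2.1, sub_zero] at h1
      have h3 := (hb' j n).1.trans ((le_abs_self _).trans h1)
      have h4 := q_anti (show n.unpair.1 + 1 ≤ n.unpair.1 + 3 by omega)
      have h5 := q_succ n.unpair.1
      linarith [q_pos n.unpair.1]
    · rw [abs_sub_comm] at h1
      have h3 := hw n m h1
      obtain ⟨t, h4, h5⟩ := hH j m
      have h6 : (c n.unpair.1, H j n.unpair.1 t) = z j m := by
        rw [← h3, ← h5]
      refine ⟨t, h4, ?_⟩
      simp only [dif_pos (h6 ▸ hp)]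
      exact Subtype.ext h6
  · intro e s b hex
    have hz : ∀ t, z i (Nat.pair e (Nat.pair t s)) =
        (c e, q e + if t < i then q (b + e + 1) * q (t + 1) else 0) := fun t => by
      simp [z, exi, hex]
    have hz0 : z i (Nat.pair e 0) = (c e, q e) := by
      simp [z, exi, ex_zero]
    refine ⟨fun t => ⟨z i (Nat.pair e (Nat.pair t s)), Or.inr ⟨_, rfl⟩⟩, fun t _ => ?_,
      fun t ht t' ht' htt => ?_⟩
    · rw [Subtype.dist_eq]
      dsimp only
      rw [hz, hz0, Prod.dist_eq, dist_self, Real.dist_eq, add_sub_cancel_left]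
      refine max_le (q_pos _).le ?_
      split_ifs
      · rw [← q_add, abs_of_pos (q_pos _)]
        exact q_anti (by omega)
      · rw [abs_zero]; exact (q_pos _).le
    · have h1 := congrArg (fun p : ZZ (range (z i)) => p.1.2) htt
      simp only [hz, add_right_inj] at h1
      have h2 := q_pos (b + e + 1)
      split_ifs at h1 with h3 h4 h4
      · have h5 := mul_left_cancel₀ h2.ne' h1
        have := q_sep (n := t' + 1) (m := t + 1) (by rw [h5, sub_self, abs_zero]; exact q_pos _)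
        omega
      · exact absurd h1 (mul_pos h2 (q_pos _)).ne'
      · exact absurd h1.symm (mul_pos h2 (q_pos _)).ne'
      · omega

theorem concl [CompleteSpace X] [Infinite X] (hc : Pres c) : ConclI X := by
  obtain ⟨c', hc', hi⟩ := exists_inj hc
  by_cases hI : Dense {x : X | IsOpen {x}}
  · exact caseB hc' hi hI
  · rw [Metric.dense_iff] at hI
    push Not at hI
    obtain ⟨x, ε, hε, hx⟩ := hI
    obtain ⟨p, hp⟩ := hc'.1.exists_dist_lt x (half_pos hε)
    obtain ⟨r, hr⟩ := exists_q_lt (half_pos hε)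
    refine caseA hc' hi (p0 := p) (r := r) fun y hy δ hδ => ?_
    by_contra hne
    push Not at hne
    have h1 : IsOpen {y} := by
      have : ({y} : Set X) = Metric.ball y δ := by
        ext w
        simp only [mem_singleton_iff, Metric.mem_ball]
        exact ⟨fun h => by rw [h, dist_self]; exact hδ, fun h => by
          by_contra h2; exact absurd h (not_lt.2 (hne w h2))⟩
      rw [this]
      exact Metric.isOpen_ball
    have h2 : y ∈ Metric.ball x ε ∩ {x : X | IsOpen {x}} := by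
      refine ⟨?_, h1⟩
      have := dist_triangle_right y x (c' p)
      rw [Metric.mem_ball]
      linarith
    rw [hx] at h2
    exact h2

end Pool.Agent.P.MP_fa5791_lc.Inf
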