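import Pool.Agent.P.MP_fa5791_lc.IRun

namespace Pool.Agent.P.MP_fa5791_lc.Inf

open Pool.Agent.Lib.ComputableProp Filter Topology

variable {X : Type} [MetricSpace X] {c : ℕ → X}

variable (c) in
/-- all the data of a hypothetical computable homeomorphism -/
structure Ctx (P : ℕ → ℕ) (p0 r : ℕ) (st : ℕ → IS) (D D' : X → X → ℝ) (f g : X → X)
    (κ : ℕ → ℕ) (e p : ℕ) : Prop where
  run : Run c P p0 r st
  hp : P (ba e) = p
  near : dist (c p) (c p0) < q (r + 2)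
  hD : GoodD D
  hD' : GoodD D'
  fr : ∀ s i j, i < (st s).1 → j < (st s).1 → D (c i) (c j) = DW c (tg e) (st s) (c i) (c j)
  cutle : ∀ s, ∀ T ∈ (st s).2.2.2.1, ∀ x y, |tv c T x - tv c T y| ≤ D' x y
  cutex : ∀ x y a, a < D' x y →
    a < dist x y ∨ ∃ s, ∃ T ∈ (st s).2.2.2.1, a < |tv c T x - tv c T y|
  gf : ∀ x, g (f x) = x
  cont : Continuous f
  s1 : SoundD c D D' f (m1 e)
  t1 : ComplD c D (m1 e)
  s2 : ∀ s n k, Nat.Partrec.Code.evaln s (Denumerable.ofNat Nat.Partrec.Code (m2 e)) n = some k →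
    k = κ n
  t2 : ∀ n, ∃ s0, ∀ s ≥ s0,
    Nat.Partrec.Code.evaln s (Denumerable.ofNat Nat.Partrec.Code (m2 e)) n = some (κ n)
  hκ : ∀ b y, D' y (f (c p)) ≤ q (κ b) → D (g y) (c p) ≤ q b

variable (c) in
/-- semantic invariant after the jump -/
def S1 (p e n : ℕ) (D D' : X → X → ℝ) (f g : X → X) (d : Dt) : Prop :=
  ∃ u < n, (∀ x, D x (c p) ≤ q d.2.1.2.1 → D' (c u) (f x) ≤ q (e + 2)) ∧
    (∀ x, D x (c p) ≤ q d.2.2.1.2.1 → D' (c d.2.2.2.1) (f x) ≤ q (d.2.2.2.2.1 + 2)) ∧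
    (∀ y, D' y (c d.2.2.2.1) ≤ q d.2.2.2.2.1 → D (g y) (c p) ≤ q (d.2.1.2.1 + 3))

variable (c) in
/-- the image lies inside the cut -/
def Ins (f : X → X) (a : ℕ × ℕ × ℕ) (x : X) : Prop :=
  2 ^ a.2.2 * dist (f x) (c a.1) < (a.2.1 : ℝ)

variable (c) in
/-- semantic invariant after the cut -/
def S2 (p e : ℕ) (D : X → X → ℝ) (f : X → X) (d : Dt) : Prop :=
  (∀ x, D x (c p) ≤ q d.2.1.2.1 →
    q (e + 1) < |2 ^ d.2.2.2.2.2 * dist (f x) (c d.2.2.2.1) - (d.2.2.2.2.1 : ℝ)|) ∧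
  (∀ x, D x (c d.2.2.1.2.2.1) ≤ q d.2.2.1.2.2.2.1 →
    (Ins c f d.2.2.2 x ↔ d.2.2.1.2.2.2.2 = 1)) ∧
  (((Ins c f d.2.2.2 (c d.2.1.1) ↔ d.2.2.1.2.2.2.2 = 1) ∨ 1 ≤ d.2.1.2.2) →
    ∀ x, D x (c d.2.2.1.1) ≤ q d.2.2.1.2.1 → ¬ (Ins c f d.2.2.2 x ↔ d.2.2.1.2.2.2.2 = 1))

namespace Ctx

variable {P : ℕ → ℕ} {p0 r e p : ℕ} {st : ℕ → IS} {D D' : X → X → ℝ} {f g : X → X} {κ : ℕ → ℕ}
  (h : Ctx c P p0 r st D D' f g κ e p)
include h

theorem inv (s : ℕ) : Inv c p r e s (st s) (lk (st s).2.2.2.2 e) := h.hp ▸ h.run.inv e s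

theorem rg {s : ℕ} (he : s.unpair.1 = e) :
    RlG c p p0 r s e (lk (st s).2.2.2.2 e) (st s) (st (s + 1)) := h.hp ▸ h.run.g he

theorem geo2 {s : ℕ} (hd : 2 ≤ (lk (st s).2.2.2.2 e).1) :
    (lk (st s).2.2.2.2 e).1 = 2 ∧ Geo c p r e s (st s) (lk (st s).2.2.2.2 e) := by
  rcases h.inv s with h | h | h
  · omega
  · omega
  · exact h

theorem jump {s : ℕ} {w : V0} (hw : Wk0 c p r s e (st s) w) (m' n : ℕ) (hn : (st s).1 ≤ n) :
    S1 c p e n D D' f g (1, (m', w.2.1, 0), (p, w.2.2.2.2.2.1, p, w.2.2.2.2.2.1, 0),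
      (w.2.2.2.2.2.2, w.2.2.2.1 + 1, 0)) := by
  obtain ⟨hdec, v0, v1⟩ := hw
  simp only [de0, Bool.and_eq_true, eqb_iff, leb_iff] at hdec
  obtain ⟨⟨⟨⟨⟨⟨⟨c0, l0⟩, -⟩, c2⟩, c1⟩, l1⟩, -⟩, l2⟩ := hdec
  have a0 := ball_sound h.hD h.s1 c0 v0 l2 (h.fr s)
  have a1 := ball_sound h.hD h.s1 c1 v1 l2 (h.fr s)
  refine ⟨w.2.2.1, by omega, a0, a1, fun y hy => ?_⟩
  refine h.hκ _ y ?_
  rw [← h.s2 _ _ _ c2]
  have b1 := a1 (c p) (by rw [h.hD.self]; exact (q_pos _).le)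
  have b2 := h.hD'.tri y (c w.2.2.2.2.2.2) (f (c p))
  have b3 := q_anti (show w.2.2.2.1 + 1 ≤ w.2.2.2.1 + 3 by omega)
  have b4 := q_succ w.2.2.2.1
  change D' y (c w.2.2.2.2.2.2) ≤ q (w.2.2.2.1 + 1) at hy
  linarith

theorem cut {s ρ j : ℕ} {d : Dt} {w : W1} (hm : d.2.1.1 < (st s).1) (ht : d.2.1.2.2 = 0)
    (hO : d.2.2.1 = (p, d.2.2.1.2.1, p, d.2.2.1.2.1, 0))
    (hS : S1 c p e (st s).1 D D' f g d)
    (hw : Wk1 c s e (st s) d w) (hC : Cut c (st s).1 w.2.2.1 w.2.2.2 ρ j)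
    (hT : (w.2.2.1, ρ, j, e) ∈ (st (s + 1)).2.2.2.1) :
    S2 c p e D f (2, d.2.1, d.2.2.1, (w.2.2.1, ρ, j)) := by
  obtain ⟨hdec, v0, hsep⟩ := hw
  simp only [de1, Bool.and_eq_true, eqb_iff, leb_iff] at hdec
  obtain ⟨u, hu, a0, a1, a2⟩ := hS
  have b0 := ball_sound h.hD h.s1 hdec.1 v0 hm (h.fr s) (c d.2.1.1)
    (by rw [h.hD.self]; exact (q_pos _).le)
  have hj : (0 : ℝ) < 2 ^ j := by positivity
  have ha := q_mul_pow w.2.2.2
  have ha' := q_pos w.2.2.2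
  have c1 : (2 : ℝ) * 2 ^ j + 2 ^ w.2.2.2 ≤ ρ * 2 ^ w.2.2.2 := by exact_mod_cast hC.1
  have c2 : ((ρ : ℝ) + 1) * 2 ^ w.2.2.2 ≤ 4 * 2 ^ j := by exact_mod_cast hC.2.1
  have c1' : 2 * 2 ^ j * q w.2.2.2 + 1 ≤ ρ := by
    have := mul_le_mul_of_nonneg_right c1 ha'.le
    rw [add_mul, mul_assoc (ρ : ℝ), mul_comm (2 ^ w.2.2.2 : ℝ), ha] at this
    linarith
  have c2' : (ρ : ℝ) + 1 ≤ 4 * 2 ^ j * q w.2.2.2 := by
    have := mul_le_mul_of_nonneg_right c2 ha'.le
    rw [mul_assoc, mul_comm (2 ^ w.2.2.2 : ℝ), ha] at this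
    linarith
  have hY1 : d.2.2.1.2.2.1 = p := by rw [hO]
  have hY2 : d.2.2.1.2.2.2.1 = d.2.2.1.2.1 := by rw [hO]
  have hY3 : d.2.2.1.2.2.2.2 = 0 := by rw [hO]
  refine ⟨fun x hx => ?_, fun x hx => ?_, fun hh => ?_⟩
  · have h1 := h.cutle _ _ hT (c u) (f x)
    rw [hC.van e u hu, zero_sub, abs_neg, abs_of_nonneg (tv_nonneg _ _ _)] at h1
    have h2 := (le_max_right _ _).trans (h1.trans (a0 x hx))
    have h3 := q_succ (e + 1)
    have h4 := q_succ e
    have := q_pos e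
    change q e - _ ≤ _ at h2
    change q (e + 1) < |2 ^ j * dist (f x) (c w.2.2.1) - (ρ : ℝ)|
    linarith
  · simp only [hY1, hY2, hY3] at hx ⊢
    refine ⟨fun hlt => ?_, fun h0 => absurd h0 (by omega)⟩
    exfalso
    change 2 ^ j * dist (f x) (c w.2.2.1) < (ρ : ℝ) at hlt
    have h1 : dist (f x) (c w.2.2.1) < 4 * q w.2.2.2 := by
      have : 2 ^ j * dist (f x) (c w.2.2.1) < 2 ^ j * (4 * q w.2.2.2) := by linarith
      exact lt_of_mul_lt_mul_left this hj.le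
    have h2 := a1 x hx
    rcases hsep with h3 | ⟨T, hT', h3⟩
    · have h4 := h.hD'.ge (c d.2.2.2.1) (f x)
      have h5 := dist_triangle (c w.2.2.1) (f x) (c d.2.2.2.1)
      rw [dist_comm (c w.2.2.1) (f x), dist_comm (f x) (c d.2.2.2.1)] at h5
      push_cast at h3
      linarith
    · have h4 := h.cutle _ _ hT' (c d.2.2.2.1) (f x)
      have h5 := tv_lip c T (f x) (c w.2.2.1)
      have h6 := abs_sub_le (tv c T (c w.2.2.1)) (tv c T (f x)) (tv c T (c d.2.2.2.1))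
      rw [abs_sub_comm (tv c T (c w.2.2.1)) (tv c T (f x)),
        abs_sub_comm (tv c T (f x)) (tv c T (c d.2.2.2.1))] at h6
      have h7 : (0 : ℝ) < 2 ^ T.2.2.1 := by positivity
      have h8 := mul_le_mul_of_nonneg_left h1.le h7.le
      push_cast at h3
      linarith
  · exfalso
    simp only [hY3, ht] at hh
    rcases hh with hh | hh
    · refine absurd (hh.1 ?_) (by omega)
      have h1 := (h.hD'.ge _ _).trans b0
      rw [dist_comm] at h1
      have h8 := mul_le_mul_of_nonneg_left h1 hj.le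
      have := mul_pos hj ha'
      change 2 ^ j * dist (f (c d.2.1.1)) (c w.2.2.1) < (ρ : ℝ)
      linarith
    · omega

theorem side {s sz : ℕ} {d : Dt} {w : W2} (hG : Geo c p r e s (st s) d)
    (hS : S2 c p e D f d) (hw : Wk2 c s e (st s) d w) (hsd : SideC c e d w.2.2 sz) :
    ∀ x, D x (c d.2.1.1) ≤ q w.2.1 → (Ins c f d.2.2.2 x ↔ sz = 1) := by
  obtain ⟨hdec, v0⟩ := hw
  simp only [de2, Bool.and_eq_true, eqb_iff, leb_iff] at hdec
  intro x hx
  have b1 := (h.hD'.ge _ _).trans (ball_sound h.hD h.s1 hdec.1 v0 hG.hz (h.fr s) x hx)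
  have b2 := hS.1 x (by
    have h1 := h.hD.tri x (c d.2.1.1) (c p)
    rw [h.fr s _ _ hG.hz hG.hp] at h1
    have h2 := hG.DW_le
    have h3 := q_anti hdec.2
    have h4 := q_succ (d.2.1.2.1 + 1)
    have h5 := q_succ d.2.1.2.1
    linarith)
  have hi : (0 : ℝ) < 2 ^ d.2.2.2.2.2 := by positivity
  have h4 : 2 ^ d.2.2.2.2.2 * q (e + d.2.2.2.2.2 + 2) = q (e + 2) := by
    rw [show e + d.2.2.2.2.2 + 2 = (e + 2) + d.2.2.2.2.2 by ring, q_add (e + 2)]
    have := q_mul_pow d.2.2.2.2.2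
    linear_combination (q (e + 2)) * this
  have h5 := mul_le_mul_of_nonneg_left
    ((abs_dist_sub_le (c w.2.2) (f x) (c d.2.2.2.1)).trans b1) hi.le
  rw [h4, ← abs_of_pos hi, ← abs_mul, mul_sub, abs_le] at h5
  have h6 := q_succ (e + 1)
  have h7 := q_succ (e + 2)
  have h8 := q_pos (e + 2)
  unfold Ins
  rcases hsd with ⟨rfl, h9⟩ | ⟨rfl, h9⟩
  · refine ⟨fun _ => rfl, fun _ => ?_⟩
    rcases lt_abs.1 b2 with h0 | h0 <;> linarith [h5.1, h5.2]
  · refine ⟨fun h0 => ?_, fun h0 => absurd h0 (by omega)⟩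
    exfalso
    rcases lt_abs.1 b2 with h1 | h1 <;> linarith [h5.1, h5.2]

theorem walk {s sz m' : ℕ} {d : Dt} {w : W2} (hG : Geo c p r e s (st s) d)
    (hS : S2 c p e D f d) (hw : Wk2 c s e (st s) d w) (hsd : SideC c e d w.2.2 sz) :
    S2 c p e D f (2, (m', d.2.1.2.1, d.2.1.2.2 + 1),
      ((pick d sz).1, (pick d sz).2, d.2.1.1, w.2.1, sz), d.2.2.2) := by
  have hs := h.side hG hS hw hsd
  have hsz : sz ≤ 1 := by rcases hsd with h | h <;> omega
  refine ⟨hS.1, hs, fun _ x hx => ?_⟩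
  simp only at hx ⊢
  rcases pick_cases d sz with ⟨h1, h2⟩ | ⟨h1, h2⟩ <;> rw [h2] at hx
  · rw [h1]
    refine hS.2.2 (Or.inl ?_) x hx
    rw [← h1]
    exact hs _ (by rw [h.hD.self]; exact (q_pos _).le)
  · rw [hS.2.1 x hx]
    have := hG.hs
    omega

theorem sinv (s : ℕ) : (lk (st s).2.2.2.2 e).1 = 0 ∨
    ((lk (st s).2.2.2.2 e).1 = 1 ∧ S1 c p e (st s).1 D D' f g (lk (st s).2.2.2.2 e)) ∨
    ((lk (st s).2.2.2.2 e).1 = 2 ∧ S2 c p e D f (lk (st s).2.2.2.2 e)) := by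
  induction s with
  | zero => rw [h.run.init]; exact Or.inl rfl
  | succ s ih =>
    have hsame : lk (st (s + 1)).2.2.2.2 e = lk (st s).2.2.2.2 e →
        (lk (st (s + 1)).2.2.2.2 e).1 = 0 ∨ ((lk (st (s + 1)).2.2.2.2 e).1 = 1 ∧
          S1 c p e (st (s + 1)).1 D D' f g (lk (st (s + 1)).2.2.2.2 e)) ∨
        ((lk (st (s + 1)).2.2.2.2 e).1 = 2 ∧ S2 c p e D f (lk (st (s + 1)).2.2.2.2 e)) := by
      intro he
      rw [he]
      rcases ih with h1 | ⟨h1, u, hu, h2⟩ | h1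
      · exact Or.inl h1
      · exact Or.inr (Or.inl ⟨h1, u, hu.trans (h.run.shp s).lt, h2⟩)
      · exact Or.inr (Or.inr h1)
    by_cases he : s.unpair.1 = e
    swap
    · exact hsame ((h.run.shp s).2 e (Ne.symm he))
    have hidle : st (s + 1) = idl (st s) → lk (st (s + 1)).2.2.2.2 e =
      lk (st s).2.2.2.2 e := fun h' => by rw [h']; rfl
    have g1 := h.inv s
    have hR := h.rg he
    generalize lk (st s).2.2.2.2 e = d at ih g1 hR hidle hsame
    rcases hR with ⟨hd, ⟨-, h'⟩ | ⟨w, m', j, hw, hN, h'⟩⟩ | ⟨hd, ⟨-, h'⟩ | ⟨w, ρ, j, hw, hN, h'⟩⟩ |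
      ⟨hd, ⟨-, h'⟩ | ⟨-, h'⟩ | ⟨w, y, hw, hsd, -, -, h'⟩⟩
    · exact hsame (hidle h')
    · have e5 : lk (st (s + 1)).2.2.2.2 e = (1, (m', w.2.1, 0),
          (p, w.2.2.2.2.2.1, p, w.2.2.2.2.2.1, 0), (w.2.2.2.2.2.2, w.2.2.2.1 + 1, 0)) := by
        rw [h']; simp [nx0]
      rw [e5]
      exact Or.inr (Or.inl ⟨rfl, h.jump hw _ _ (h.run.shp s).lt.le⟩)
    · exact hsame (hidle h')
    · have e5 : lk (st (s + 1)).2.2.2.2 e = (2, d.2.1, d.2.2.1, (w.2.2.1, ρ, j)) := by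
        rw [h']; simp [nx1]
      rw [e5]
      have hS : S1 c p e (st s).1 D D' f g d := by
        rcases ih with h1 | h1 | h1
        · omega
        · exact h1.2
        · omega
      rcases g1 with g1 | ⟨-, g1, g2, g3, -⟩ | g1
      · omega
      · exact Or.inr (Or.inr ⟨rfl, h.cut g1.hz g2 g3 hS hw hN (by rw [h']; simp [nx1])⟩)
      · omega
    · exact hsame (hidle h')
    · exact hsame (hidle h')
    · have hS : S2 c p e D f d := by
        rcases ih with h1 | h1 | h1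
        · omega
        · omega
        · exact h1.2
      have e5 : lk (st (s + 1)).2.2.2.2 e = (2, (y.2.2.1, d.2.1.2.1, d.2.1.2.2 + 1),
          ((pick d y.1).1, (pick d y.1).2, d.2.1.1, w.2.1, y.1), d.2.2.2) := by
        rw [h']; simp [nx2]
      rw [e5]
      rcases g1 with g1 | g1 | ⟨-, g1⟩
      · omega
      · omega
      · exact Or.inr (Or.inr ⟨rfl, h.walk g1 hS hw hsd⟩)

theorem prog0 : ∃ s, (lk (st s).2.2.2.2 e).1 ≠ 0 := by
  by_contra hne
  push Not at hne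
  obtain ⟨σ0, u, s0, a0, c0⟩ := h.t1 (c p) (e + 2)
  set b0 := max (σ0.length + 2) (e + r + 2) with hb0
  obtain ⟨s2, c2⟩ := h.t2 (b0 + 3)
  obtain ⟨σ1, u1, s1, a1, c1⟩ := h.t1 (c p) (κ (b0 + 3) + 3)
  set b1 := max (σ1.length + 2) (b0 + 5) with hb1
  let w : V0 := (σ0, b0, u, κ (b0 + 3), σ1, b1, u1)
  obtain ⟨s, hs, he⟩ := exists_att e
    (Encodable.encode w + 1 + s0 + s1 + s2 + σ0.sum + σ1.sum + u + u1 + p)
  have hn := h.run.le_n s
  have hself : ∀ k, D (c p) (c p) ≤ q k := fun k => by rw [h.hD.self]; exact (q_pos _).le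
  rcases h.rg he with ⟨-, ⟨h1, -⟩ | ⟨w, m', j, -, -, h'⟩⟩ | ⟨hd, -⟩ | ⟨hd, -⟩
  · rcases h1 w (by omega) with h2 | h2 | h2
    · have : de0 r s e (st s).1 p w = true := by
        simp only [de0, Bool.and_eq_true, eqb_iff, leb_iff, w]
        exact ⟨⟨⟨⟨⟨⟨⟨c0 s (by omega), by omega⟩, by omega⟩, c2 s (by omega)⟩,
          c1 s (by omega)⟩, by omega⟩, by omega⟩, by omega⟩
      rw [this] at h2
      exact absurd h2 (by simp)
    · exact not_nvalS h.hD a0 (hself _) (le_max_left _ _) (by omega) (by omega) (h.fr s) h2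
    · exact not_nvalS h.hD a1 (hself _) (le_max_left _ _) (by omega) (by omega) (h.fr s) h2
  · have := hne (s + 1)
    rw [h'] at this
    simp [nx0] at this
  all_goals (have := hne s; omega)

theorem prog1 {s : ℕ} (hd : (lk (st s).2.2.2.2 e).1 = 1) :
    ∃ t, (lk (st t).2.2.2.2 e).1 = 2 := by
  by_contra hne
  push Not at hne
  have hconst : ∀ t ≥ s, lk (st t).2.2.2.2 e = lk (st s).2.2.2.2 e := by
    intro t ht
    induction t, ht using Nat.le_induction with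
    | base => rfl
    | succ t ht ih =>
      by_cases he : t.unpair.1 = e
      · rcases h.rg he with ⟨hd', -⟩ | ⟨-, ⟨-, h'⟩ | ⟨w, ρ, j, -, -, h'⟩⟩ | ⟨hd', -⟩
        · rw [ih] at hd'; omega
        · rw [h', ← ih]; rfl
        · have := hne (t + 1)
          rw [h'] at this
          simp [nx1] at this
        · rw [ih] at hd'; omega
      · rw [(h.run.shp t).2 e (Ne.symm he), ih]
  obtain ⟨hG, hx⟩ : Geo c p r e s (st s) (lk (st s).2.2.2.2 e) ∧
      q ((lk (st s).2.2.2.2 e).2.1.2.1 + 3) <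
        |ph c (tg e) (st s) (c (lk (st s).2.2.2.2 e).2.1.1) - ph c (tg e) (st s) (c p)| := by
    rcases h.inv s with h1 | h1 | h1
    · omega
    · exact ⟨h1.2.1, h1.2.2.2.2⟩
    · omega
  have hS : S1 c p e (st s).1 D D' f g (lk (st s).2.2.2.2 e) := by
    rcases h.sinv s with h1 | h1 | h1
    · omega
    · exact h1.2
    · omega
  generalize lk (st s).2.2.2.2 e = d at hd hconst hG hx hS
  obtain ⟨u, -, -, -, a2⟩ := hS
  have hfar : q d.2.2.2.2.1 < D' (f (c d.2.1.1)) (c d.2.2.2.1) := by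
    by_contra hle
    have h1 := a2 _ (not_lt.1 hle)
    rw [h.gf, h.fr s _ _ hG.hz hG.hp] at h1
    exact absurd ((le_max_right _ _).trans h1) (not_le.2 hx)
  obtain ⟨J, s1, hJ⟩ : ∃ J s1 : ℕ, ∀ t ≥ s1, ∀ v,
      D' (c v) (f (c d.2.1.1)) ≤ q (d.2.2.2.2.1 + 2 + J + 1) →
      ¬ NSepS c (st t).2.2.2.1 v d.2.2.2.1 d.2.2.2.2.1 (d.2.2.2.2.1 + 2 + J + 1) := by
    have k1 := q_succ (d.2.2.2.2.1 + 1)
    have k2 := q_succ d.2.2.2.2.1
    have k3 := q_pos d.2.2.2.2.1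
    rcases h.cutex _ _ _ hfar with h1 | ⟨s1, T, hT, h1⟩
    · refine ⟨0, 0, fun t _ v hv hN => ?_⟩
      have h2 := hN.1
      have h3 := (h.hD'.ge _ _).trans hv
      have h4 := dist_triangle (f (c d.2.1.1)) (c v) (c d.2.2.2.1)
      rw [dist_comm (f (c d.2.1.1)) (c v)] at h4
      have k4 := q_succ (d.2.2.2.2.1 + 2)
      push_cast at h2
      rw [add_zero] at h2 h3
      linarith
    · refine ⟨T.2.2.1, s1, fun t ht v hv hN => ?_⟩
      have h2 := hN.2 T (h.run.cut_mem ht hT)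
      have h3 := (h.cutle _ _ hT _ _).trans hv
      have h4 := abs_sub_le (tv c T (f (c d.2.1.1))) (tv c T (c v)) (tv c T (c d.2.2.2.1))
      rw [abs_sub_comm (tv c T (f (c d.2.1.1))) (tv c T (c v))] at h4
      have k4 : 2 ^ T.2.2.1 * q (d.2.2.2.2.1 + 2 + T.2.2.1 + 1) = q (d.2.2.2.2.1 + 2) / 2 := by
        rw [q_succ, q_add (d.2.2.2.2.1 + 2)]
        have := q_mul_pow T.2.2.1
        linear_combination (q (d.2.2.2.2.1 + 2) / 2) * this
      have k5 := q_anti (show d.2.2.2.2.1 + 2 + 1 ≤ d.2.2.2.2.1 + 2 + T.2.2.1 + 1 by omega)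
      have k6 := q_succ (d.2.2.2.2.1 + 2)
      push_cast at h2
      rw [mul_left_comm, k4] at h2
      linarith
  obtain ⟨σ, v, s0, a0, c0⟩ := h.t1 (c d.2.1.1) (d.2.2.2.2.1 + 2 + J + 1)
  let w : W1 := (σ, σ.length + 2, v, d.2.2.2.2.1 + 2 + J + 1)
  obtain ⟨t, ht, he⟩ := exists_att e (Encodable.encode w + 1 + s0 + s1 + s + σ.sum + v)
  have hn := h.run.le_n t
  have hR := h.rg he
  rw [hconst t (by omega)] at hR
  rcases hR with ⟨hd', -⟩ | ⟨-, ⟨h1, -⟩ | ⟨w, ρ, j, -, -, h'⟩⟩ | ⟨hd', -⟩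
  · omega
  · rcases h1 w (by omega) with h2 | h2 | h2
    · have : de1 t e (st t).1 w = true := by
        simp only [de1, Bool.and_eq_true, eqb_iff, leb_iff, w]
        exact ⟨c0 t (by omega), by omega⟩
      rw [this] at h2
      exact absurd h2 (by simp)
    · exact not_nvalS h.hD a0 (by rw [h.hD.self]; exact (q_pos _).le) le_rfl (by omega)
        (hG.hz.trans_le (h.run.n_mono (by omega))) (h.fr t) h2
    · refine hJ t (by omega) v ?_ h2
      exact h.s1 t σ _ _ (c0 t (by omega)) _ fun i hi => (a0 i hi).trans (q_anti (Nat.le_succ i))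
  · have := hne (t + 1)
    rw [h'] at this
    simp [nx1] at this
  · omega

theorem s2_of {s : ℕ} (hd : (lk (st s).2.2.2.2 e).1 = 2) :
    S2 c p e D f (lk (st s).2.2.2.2 e) := by
  rcases h.sinv s with h1 | h1 | h1
  · omega
  · omega
  · exact h1.2

theorem step2 {t : ℕ} {d : Dt} (hl : lk (st t).2.2.2.2 e = d) (hd : d.1 = 2) :
    lk (st (t + 1)).2.2.2.2 e = d ∨ ∃ m' bz sz : ℕ,
      lk (st (t + 1)).2.2.2.2 e = (2, (m', d.2.1.2.1, d.2.1.2.2 + 1),
        ((pick d sz).1, (pick d sz).2, d.2.1.1, bz, sz), d.2.2.2) ∧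
      dist (c m') (c d.2.1.1) ≤ q t ∧ (Ins c f d.2.2.2 (c d.2.1.1) ↔ sz = 1) ∧ sz ≤ 1 := by
  by_cases he : t.unpair.1 = e
  swap
  · exact Or.inl (((h.run.shp t).2 e (Ne.symm he)).trans hl)
  have hG := (h.geo2 (s := t) (by rw [hl]; omega)).2
  have hS := h.s2_of (s := t) (by rw [hl]; omega)
  have hR := h.rg he
  have hidle : st (t + 1) = idl (st t) → lk (st (t + 1)).2.2.2.2 e = d :=
    fun h' => by rw [h', ← hl]; rfl
  rw [hl] at hG hS hR
  rcases hR with ⟨hd', -⟩ | ⟨hd', -⟩ | ⟨-, ⟨-, h'⟩ | ⟨-, h'⟩ | ⟨w, y, hw, hsd, -, hN, h'⟩⟩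
  · omega
  · omega
  · exact Or.inl (hidle h')
  · exact Or.inl (hidle h')
  · refine Or.inr ⟨y.2.2.1, w.2.1, y.1, by rw [h']; simp [nx2], ?_,
      h.side hG hS hw hsd _ (by rw [h.hD.self]; exact (q_pos _).le),
      by rcases hsd with h | h <;> omega⟩
    refine (((good_DC c _).ge _ _).trans hN.DC_lt.le).trans (q_anti ?_)
    unfold tau
    omega

theorem moves {s : ℕ} (hd : (lk (st s).2.2.2.2 e).1 = 2) :
    ∃ t ≥ s, lk (st (t + 1)).2.2.2.2 e ≠ lk (st t).2.2.2.2 e := by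
  by_contra hne
  push Not at hne
  have hconst : ∀ t ≥ s, lk (st t).2.2.2.2 e = lk (st s).2.2.2.2 e := by
    intro t ht
    induction t, ht using Nat.le_induction with
    | base => rfl
    | succ t ht ih => rw [hne t ht, ih]
  have hG := (h.geo2 hd.ge).2
  generalize lk (st s).2.2.2.2 e = d at hd hconst hG
  obtain ⟨σ, w0, s0, a0, c0⟩ := h.t1 (c d.2.1.1) (e + d.2.2.2.2.2 + 2)
  let w : W2 := (σ, max (σ.length + 2) (d.2.1.2.1 + 2), w0)
  obtain ⟨t, ht, he⟩ := exists_att e (Encodable.encode w + 1 + s0 + s + σ.sum)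
  have hn := h.run.le_n t
  have hR := h.rg he
  rw [hconst t (by omega)] at hR
  rcases hR with ⟨hd', -⟩ | ⟨hd', -⟩ | ⟨-, ⟨hesc, -⟩ | ⟨h1, -⟩ | ⟨w', y, -, -, -, -, h'⟩⟩
  · omega
  · omega
  · have h1 := hG.dist_le
    have h2 := h.near
    have h3 := q_anti (show r + 2 ≤ d.2.1.2.1 by have := hG.hb; omega)
    have h4 := q_succ (r + 1)
    have h5 := q_pos (r + 2)
    have h6 := dist_triangle (c d.2.1.1) (c p) (c p0)
    linarith
  · rcases h1 w (by omega) with h2 | h2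
    · have : de2 t e d w = true := by
        simp only [de2, Bool.and_eq_true, eqb_iff, leb_iff, w]
        exact ⟨c0 t (by omega), le_max_right _ _⟩
      rw [this] at h2
      exact absurd h2 (by simp)
    · exact not_nvalS h.hD a0 (by rw [h.hD.self]; exact (q_pos _).le) (le_max_left _ _)
        (by omega) (hG.hz.trans_le (h.run.n_mono (by omega))) (h.fr t) h2
  · have h1 := hconst (t + 1) (by omega)
    rw [h'] at h1
    have h2 := congrArg (fun d : Dt => d.2.1.2.2) h1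
    simp [nx2] at h2

theorem prog2 [CompleteSpace X] {s : ℕ} (hd : (lk (st s).2.2.2.2 e).1 = 2) : False := by
  let d : ℕ → Dt := fun t => lk (st t).2.2.2.2 e
  have hconst : ∀ t ≥ s, (d t).1 = 2 ∧ (d t).2.2.2 = (d s).2.2.2 := by
    intro t ht
    induction t, ht using Nat.le_induction with
    | base => exact ⟨hd, rfl⟩
    | succ t ht ih =>
      rcases h.step2 (t := t) (d := d t) rfl ih.1 with h1 | ⟨m', bz, sz, h1, -⟩
      · change d (t + 1) = _ at h1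
        rw [h1]; exact ih
      · change d (t + 1) = _ at h1
        rw [h1]; exact ⟨rfl, ih.2⟩
  let m : ℕ → X := fun t => c (d t).2.1.1
  have hq : Summable q := by
    have := summable_geometric_two
    refine this.congr fun n => ?_
    simp [q]
  have hcs : CauchySeq fun t => m (t + s) := by
    refine cauchySeq_of_dist_le_of_summable (fun t => q (t + s)) (fun t => ?_) ?_
    · rw [dist_comm, show t.succ + s = t + s + 1 by omega]
      rcases h.step2 (t := t + s) (d := d (t + s)) rfl (hconst _ (by omega)).1 with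
        h1 | ⟨m', bz, sz, h1, h2, -⟩
      · change d (t + s + 1) = _ at h1
        simp only [m, h1, dist_self]
        exact (q_pos _).le
      · change d (t + s + 1) = _ at h1
        simp only [m, h1]
        exact h2
    · exact (summable_nat_add_iff s).2 hq
  obtain ⟨l, hl⟩ := cauchySeq_tendsto_of_complete hcs
  have hl' : Tendsto m atTop (𝓝 l) := (tendsto_add_atTop_iff_nat s).1 hl
  set a := (d s).2.2.2 with ha
  let G : X → ℝ := fun x => 2 ^ a.2.2 * dist (f x) (c a.1) - (a.2.1 : ℝ)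
  have hGc : Continuous G := by
    have := h.cont
    fun_prop
  have hGl : Tendsto (fun t => G (m t)) atTop (𝓝 (G l)) := (hGc.tendsto l).comp hl'
  have hsep : ∀ t ≥ s, q (e + 1) < |G (m t)| := by
    intro t ht
    have hG := (h.geo2 (hconst t ht).1.ge).2
    have h1 := (h.s2_of (hconst t ht).1).1 (m t) (by
      rw [h.fr t _ _ hG.hz hG.hp]
      have := hG.DW_le
      have := q_pos (d t).2.1.2.1
      linarith)
    change q (e + 1) < |2 ^ (d t).2.2.2.2.2 * dist (f (m t)) (c (d t).2.2.2.1) -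
      ((d t).2.2.2.2.1 : ℝ)| at h1
    rw [(hconst t ht).2] at h1
    exact h1
  obtain ⟨s1, hs1⟩ := (Metric.tendsto_atTop.1 hGl) (q (e + 1) / 2) (half_pos (q_pos _))
  have hside : ∀ t ≥ max s s1, ∀ t' ≥ max s s1, (Ins c f a (m t) ↔ Ins c f a (m t')) := by
    have key : ∀ t ≥ max s s1, ∀ t' ≥ max s s1, Ins c f a (m t) → Ins c f a (m t') := by
      intro t ht t' ht' hI
      have h1 := abs_lt.1 (hs1 t (le_of_max_le_right ht))
      have h2 := abs_lt.1 (hs1 t' (le_of_max_le_right ht'))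
      have h3 := hsep t (le_of_max_le_left ht)
      have h4 := hsep t' (le_of_max_le_left ht')
      have h5 : G (m t) < 0 := sub_neg.2 hI
      refine sub_neg.1 (show G (m t') < 0 from ?_)
      rw [abs_of_neg h5] at h3
      rcases lt_abs.1 h4 with h6 | h6 <;> linarith [h1.1, h1.2, h2.1, h2.2, q_pos (e + 1)]
    exact fun t ht t' ht' => ⟨key t ht t' ht', key t' ht' t ht⟩
  obtain ⟨s2, hs2, hmv⟩ := h.moves (hconst (max s s1) (le_max_left _ _)).1
  have hgood : ∀ t ≥ s2 + 1, (Ins c f a (m (max s s1)) ↔ (d t).2.2.1.2.2.2.2 = 1) ∧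
      1 ≤ (d t).2.1.2.2 ∧ (d t).2.2.1.1 = (d (s2 + 1)).2.2.1.1 ∧
      (d t).2.2.1.2.1 = (d (s2 + 1)).2.2.1.2.1 := by
    intro t ht
    induction t, ht using Nat.le_induction with
    | base =>
      have hc := hconst s2 (le_of_max_le_left hs2)
      rcases h.step2 (t := s2) (d := d s2) rfl hc.1 with h1 | ⟨m', bz, sz, h1, -, h2, -⟩
      · exact absurd h1 hmv
      · change d (s2 + 1) = _ at h1
        refine ⟨?_, by rw [h1]; simp, rfl, rfl⟩
        rw [h1, hside _ le_rfl s2 hs2, ← hc.2]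
        exact h2
    | succ t ht ih =>
      have ht' : max s s1 ≤ t := by omega
      have hc := hconst t (le_of_max_le_left ht')
      rcases h.step2 (t := t) (d := d t) rfl hc.1 with h1 | ⟨m', bz, sz, h1, -, h2, h3⟩
      · change d (t + 1) = _ at h1
        rw [h1]; exact ih
      · change d (t + 1) = _ at h1
        have h4 : Ins c f a (m (max s s1)) ↔ sz = 1 := by
          rw [hside _ le_rfl t ht', ← hc.2]
          exact h2
        have h5 := (h.geo2 hc.1.ge).2.hs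
        have h6 : sz = (d t).2.2.1.2.2.2.2 := by
          have := h4.symm.trans ih.1
          change (d t).2.2.1.2.2.2.2 ≤ 1 at h5
          omega
        rcases pick_cases (d t) sz with ⟨-, h7⟩ | ⟨h7, -⟩
        · rw [h1, h7]
          exact ⟨h4, by simp, ih.2.2⟩
        · exact absurd h6 h7
  have hmono : ∀ t ≥ s, ∀ t' ≥ t, (d t).2.1.2.2 ≤ (d t').2.1.2.2 := by
    intro t ht t' ht'
    induction t', ht' using Nat.le_induction with
    | base => exact le_rfl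
    | succ u hu ih =>
      rcases h.step2 (t := u) (d := d u) rfl (hconst u (by omega)).1 with
        h1 | ⟨m', bz, sz, h1, -⟩
      · change d (u + 1) = _ at h1
        rw [h1]; exact ih
      · change d (u + 1) = _ at h1
        rw [h1]; exact ih.trans (Nat.le_succ _)
  have hbig : ∀ N, ∃ t ≥ s2 + 1, N ≤ (d t).2.1.2.2 := by
    intro N
    induction N with
    | zero => exact ⟨s2 + 1, le_rfl, Nat.zero_le _⟩
    | succ N ih =>
      obtain ⟨t, ht, hN⟩ := ih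
      have hst : s ≤ t := by have := le_of_max_le_left hs2; omega
      obtain ⟨u, hu, hmv'⟩ := h.moves (hconst t hst).1
      refine ⟨u + 1, by omega, ?_⟩
      rcases h.step2 (t := u) (d := d u) rfl (hconst u (by omega)).1 with
        h1 | ⟨m', bz, sz, h1, -⟩
      · exact absurd h1 hmv'
      · change d (u + 1) = _ at h1
        rw [h1]
        exact Nat.succ_le_succ (hN.trans (hmono t hst u hu))
  obtain ⟨t, ht, hN⟩ := hbig (d (s2 + 1)).2.2.1.2.1
  have ht' : max s s1 ≤ t := by omega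
  have hc := hconst t (le_of_max_le_left ht')
  obtain ⟨g1, g2, -, g4⟩ := hgood t ht
  have hG : Geo c p r e t (st t) (d t) := (h.geo2 hc.1.ge).2
  refine (h.s2_of hc.1).2.2 (Or.inr g2) (m t) ?_ ?_
  · change D (c (d t).2.1.1) (c (d t).2.2.1.1) ≤ q (d t).2.2.1.2.1
    rw [h.fr t _ _ hG.hz hG.hO]
    have h1 := Eb_le (d t).2.2.1.2.1 t
    have h2 := q_pos (d t).2.2.1.2.1
    have h3 := q_anti (show (d t).2.2.1.2.1 + 1 ≤ (d t).2.1.2.1 + 2 + (d t).2.1.2.2 by omega)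
    have h4 := q_succ (d t).2.2.1.2.1
    exact max_le (by linarith [hG.dO]) (by linarith [hG.fO])
  · change Ins c f (d t).2.2.2 (m t) ↔ (d t).2.2.1.2.2.2.2 = 1
    rw [hc.2, ← hside _ le_rfl t ht']
    exact g1

theorem false [CompleteSpace X] : False := by
  obtain ⟨s, hs⟩ := h.prog0
  rcases h.sinv s with h1 | h1 | h1
  · exact hs h1
  · obtain ⟨t, ht⟩ := h.prog1 h1.1
    exact h.prog2 ht
  · exact h.prog2 h1.1

end Ctx

end Pool.Agent.P.MP_fa5791_lc.Inf
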