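import Pool.Agent.P.MP_fa5791_lc.BMain

namespace Pool.Agent.P.MP_fa5791_lc.Inf

open Pool.Agent.Lib.ComputableProp

/-- a tent with the number of the space it belongs to -/
abbrev TT := ℕ × Tent
/-- phase, (current point, scale, step), (older point, radius, younger point, radius, side),
auxiliary data -/
abbrev Dt := ℕ × (ℕ × ℕ × ℕ) × (ℕ × ℕ × ℕ × ℕ × ℕ) × (ℕ × ℕ × ℕ)
/-- frozen bound, up bumps, down bumps, cuts, data of the requirements -/
abbrev IS := ℕ × List TT × List TT × List Tent × List (ℕ × Dt)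
abbrev V0 := List ℕ × ℕ × ℕ × ℕ × List ℕ × ℕ × ℕ

def sel (i : ℕ) (L : List TT) : List Tent :=
  L.foldr (fun x acc => cond (eqb x.1 i) (x.2 :: acc) acc) []

def view (i : ℕ) (st : IS) : St := (st.1, sel i st.2.1, sel i st.2.2.1, st.2.2.2.1, [])

def lk (R : List (ℕ × Dt)) (e : ℕ) : Dt :=
  R.foldr (fun x acc => cond (eqb x.1 e) x.2 acc) (0, (0, 0, 0), (0, 0, 0, 0, 0), (0, 0, 0))

/-- number of the base point -/
def ba (e : ℕ) : ℕ := e.unpair.1.unpair.1
/-- number of the space -/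
def tg (e : ℕ) : ℕ := e.unpair.1.unpair.1 + 1 + e.unpair.1.unpair.2
/-- the machine for the map -/
def m1 (e : ℕ) : ℕ := e.unpair.2.unpair.1
/-- the machine for the modulus of the inverse -/
def m2 (e : ℕ) : ℕ := e.unpair.2.unpair.2

variable {X : Type} [MetricSpace X] (c : ℕ → X)

noncomputable def ph (i : ℕ) (st : IS) (x : X) : ℝ := phi c (view i st) x

noncomputable def DC (st : IS) (x y : X) : ℝ := DL c st.2.2.2.1 x y

noncomputable def DW (i : ℕ) (st : IS) (x y : X) : ℝ :=
  max (DC c st x y) |ph c i st x - ph c i st y|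

def NewI (i : ℕ) (st : IS) (τ m m' j : ℕ) : Prop :=
  DW c i st (c m') (c m) < q τ ∧ ∀ l < st.1, q j < dist (c m') (c l)

def de0 (r s e n p : ℕ) (w : V0) : Bool :=
  eqb (com (m1 e) s w.1 (e + 2)) (some w.2.2.1) && leb (w.2.2.1 + 1) n &&
  leb (e + r + 2) w.2.1 &&
  eqb (Nat.Partrec.Code.evaln s (Denumerable.ofNat Nat.Partrec.Code (m2 e)) (w.2.1 + 3))
    (some w.2.2.2.1) &&
  eqb (com (m1 e) s w.2.2.2.2.1 (w.2.2.2.1 + 3)) (some w.2.2.2.2.2.2) &&
  leb (w.2.2.2.2.2.2 + 1) n && leb (w.2.1 + 5) w.2.2.2.2.2.1 && leb (p + 1) n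

def Wk0 (p r s e : ℕ) (st : IS) (w : V0) : Prop :=
  de0 r s e st.1 p w = true ∧ ValW c (DW c (tg e) st) st.1 w.1 p w.2.1 ∧
    ValW c (DW c (tg e) st) st.1 w.2.2.2.2.1 p w.2.2.2.2.2.1

def Ns0 (p r s e : ℕ) (st : IS) (w : V0) : Prop :=
  de0 r s e st.1 p w = false ∨ NValS c (DW c (tg e) st) st.1 w.1 p w.2.1 ∨
    NValS c (DW c (tg e) st) st.1 w.2.2.2.2.1 p w.2.2.2.2.2.1

def de1 (s e n : ℕ) (w : W1) : Bool :=
  eqb (com (m1 e) s w.1 w.2.2.2) (some w.2.2.1) && leb (w.2.2.1 + 1) n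

def Wk1 (s e : ℕ) (st : IS) (d : Dt) (w : W1) : Prop :=
  de1 s e st.1 w = true ∧ ValW c (DW c (tg e) st) st.1 w.1 d.2.1.1 w.2.1 ∧
    SepW c st.2.2.2.1 w.2.2.1 d.2.2.2.1 d.2.2.2.2.1 w.2.2.2

def Ns1 (s e : ℕ) (st : IS) (d : Dt) (w : W1) : Prop :=
  de1 s e st.1 w = false ∨ NValS c (DW c (tg e) st) st.1 w.1 d.2.1.1 w.2.1 ∨
    NSepS c st.2.2.2.1 w.2.2.1 d.2.2.2.1 d.2.2.2.2.1 w.2.2.2

def de2 (s e : ℕ) (d : Dt) (w : W2) : Bool :=
  eqb (com (m1 e) s w.1 (e + d.2.2.2.2.2 + 2)) (some w.2.2) && leb (d.2.1.2.1 + 2) w.2.1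

def Wk2 (s e : ℕ) (st : IS) (d : Dt) (w : W2) : Prop :=
  de2 s e d w = true ∧ ValW c (DW c (tg e) st) st.1 w.1 d.2.1.1 w.2.1

def Ns2 (s e : ℕ) (st : IS) (d : Dt) (w : W2) : Prop :=
  de2 s e d w = false ∨ NValS c (DW c (tg e) st) st.1 w.1 d.2.1.1 w.2.1

/-- on which side of the cut the committed point lies -/
def SideC (e : ℕ) (d : Dt) (w sz : ℕ) : Prop :=
  (sz = 1 ∧ 2 ^ d.2.2.2.2.2 * dist (c w) (c d.2.2.2.1) < (d.2.2.2.2.1 : ℕ) + q (e + 3)) ∨
  (sz = 0 ∧ ((d.2.2.2.2.1 : ℕ) : ℝ) < 2 ^ d.2.2.2.2.2 * dist (c w) (c d.2.2.2.1) + q (e + 3))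

/-- the point on the other side, with its radius -/
def pick (d : Dt) (sz : ℕ) : ℕ × ℕ :=
  cond (eqb sz d.2.2.1.2.2.2.2) (d.2.2.1.1, d.2.2.1.2.1) (d.2.2.1.2.2.1, d.2.2.1.2.2.2.1)

/-- direction of the next bump -/
def SignC (i : ℕ) (st : IS) (z o τ up : ℕ) : Prop :=
  (up = 1 ∧ tsm c (sel i st.2.1) (c z) + tsm c (sel i st.2.2.1) (c o) <
    tsm c (sel i st.2.1) (c o) + tsm c (sel i st.2.2.1) (c z) + q τ) ∨
  (up = 0 ∧ tsm c (sel i st.2.1) (c o) + tsm c (sel i st.2.2.1) (c z) <
    tsm c (sel i st.2.1) (c z) + tsm c (sel i st.2.2.1) (c o) + q τ)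

def idl (st : IS) : IS := (st.1 + 1, st.2)

def nx0 (p e : ℕ) (st : IS) (w : V0) (m' j : ℕ) : IS :=
  (max st.1 m' + 1, (tg e, (m', 0, j, w.2.1 + 2)) :: st.2.1, st.2.2.1, st.2.2.2.1,
    (e, (1, (m', w.2.1, 0), (p, w.2.2.2.2.2.1, p, w.2.2.2.2.2.1, 0),
      (w.2.2.2.2.2.2, w.2.2.2.1 + 1, 0))) :: st.2.2.2.2)

def nx1 (e : ℕ) (st : IS) (d : Dt) (v ρ j : ℕ) : IS :=
  (st.1 + 1, st.2.1, st.2.2.1, (v, ρ, j, e) :: st.2.2.2.1,
    (e, (2, d.2.1, d.2.2.1, (v, ρ, j))) :: st.2.2.2.2)

def tau (s : ℕ) (d : Dt) (bz sz : ℕ) : ℕ := (pick d sz).2 + bz + d.2.1.2.1 + s + 5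

def nx2 (e : ℕ) (st : IS) (d : Dt) (bz sz up m' j : ℕ) : IS :=
  (max st.1 m' + 1,
    cond (eqb up 1) ((tg e, (m', 0, j, d.2.1.2.1 + 2 + (d.2.1.2.2 + 1))) :: st.2.1) st.2.1,
    cond (eqb up 1) st.2.2.1 ((tg e, (m', 0, j, d.2.1.2.1 + 2 + (d.2.1.2.2 + 1))) :: st.2.2.1),
    st.2.2.2.1,
    (e, (2, (m', d.2.1.2.1, d.2.1.2.2 + 1), ((pick d sz).1, (pick d sz).2, d.2.1.1, bz, sz),
      d.2.2.2)) :: st.2.2.2.2)

def Rl0 (p r s e : ℕ) (st st' : IS) : Prop :=
  ((∀ w : V0, Encodable.encode w < s → Ns0 c p r s e st w) ∧ st' = idl st) ∨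
  ∃ w : V0, ∃ m' j : ℕ, Wk0 c p r s e st w ∧ NewI c (tg e) st (w.2.2.2.2.2.1 + 3) p m' j ∧
    st' = nx0 p e st w m' j

def Rl1 (s e : ℕ) (st : IS) (d : Dt) (st' : IS) : Prop :=
  ((∀ w : W1, Encodable.encode w < s → Ns1 c s e st d w) ∧ st' = idl st) ∨
  ∃ w : W1, ∃ ρ j : ℕ, Wk1 c s e st d w ∧ Cut c st.1 w.2.2.1 w.2.2.2 ρ j ∧
    st' = nx1 e st d w.2.2.1 ρ j

def Rl2 (p0 r s e : ℕ) (st : IS) (d : Dt) (st' : IS) : Prop :=
  (q (r + 1) < dist (c d.2.1.1) (c p0) ∧ st' = idl st) ∨
  ((∀ w : W2, Encodable.encode w < s → Ns2 c s e st d w) ∧ st' = idl st) ∨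
  ∃ w : W2, ∃ y : ℕ × ℕ × ℕ × ℕ, Wk2 c s e st d w ∧ SideC c e d w.2.2 y.1 ∧
    SignC c (tg e) st d.2.1.1 (pick d y.1).1 (tau s d w.2.1 y.1) y.2.1 ∧
    NewI c (tg e) st (tau s d w.2.1 y.1) d.2.1.1 y.2.2.1 y.2.2.2 ∧
    st' = nx2 e st d w.2.1 y.1 y.2.1 y.2.2.1 y.2.2.2

def RlG (p p0 r s e : ℕ) (d : Dt) (st st' : IS) : Prop :=
  (d.1 = 0 ∧ Rl0 c p r s e st st') ∨ (d.1 = 1 ∧ Rl1 c s e st d st') ∨
  (2 ≤ d.1 ∧ Rl2 c p0 r s e st d st')

def Rl (P : ℕ → ℕ) (p0 r s : ℕ) (st st' : IS) : Prop :=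
  RlG c (P (ba s.unpair.1)) p0 r s s.unpair.1 (lk st.2.2.2.2 s.unpair.1) st st'

section re
variable {c} {α : Type} [Primcodable α] (hc : CR fun z : ℕ × ℕ => dist (c z.1) (c z.2))

@[fun_prop] theorem c_sel {i : α → ℕ} {L : α → List TT} (hi : Computable i) (hL : Computable L) :
    Computable fun a => sel (i a) (L a) := by
  unfold sel; fun_prop

@[fun_prop] theorem c_view {i : α → ℕ} {st : α → IS} (hi : Computable i) (hs : Computable st) :
    Computable fun a => view (i a) (st a) := by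
  unfold view; fun_prop

@[fun_prop] theorem c_lk {R : α → List (ℕ × Dt)} {e : α → ℕ} (hR : Computable R)
    (he : Computable e) : Computable fun a => lk (R a) (e a) := by
  unfold lk; fun_prop

@[fun_prop] theorem c_ba {e : α → ℕ} (he : Computable e) : Computable fun a => ba (e a) := by
  unfold ba; fun_prop

@[fun_prop] theorem c_tg {e : α → ℕ} (he : Computable e) : Computable fun a => tg (e a) := by
  unfold tg; fun_prop

@[fun_prop] theorem c_m1 {e : α → ℕ} (he : Computable e) : Computable fun a => m1 (e a) := by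
  unfold m1; fun_prop

@[fun_prop] theorem c_m2 {e : α → ℕ} (he : Computable e) : Computable fun a => m2 (e a) := by
  unfold m2; fun_prop

@[fun_prop] theorem c_idl {st : α → IS} (h : Computable st) :
    Computable fun a => idl (st a) := by
  unfold idl; fun_prop

@[fun_prop] theorem c_ev {s e n : α → ℕ} (hs : Computable s) (he : Computable e)
    (hn : Computable n) : Computable fun a =>
      Nat.Partrec.Code.evaln (s a) (Denumerable.ofNat Nat.Partrec.Code (e a)) (n a) :=
  c_evaln hs (c_ofNat _ he) hn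

@[fun_prop] theorem c_de0 {r s e n p : α → ℕ} {w : α → V0} (hr : Computable r)
    (hs : Computable s) (he : Computable e) (hn : Computable n) (hp : Computable p)
    (hw : Computable w) : Computable fun a => de0 (r a) (s a) (e a) (n a) (p a) (w a) := by
  have h1 : Computable fun a => Nat.Partrec.Code.evaln (s a)
      (Denumerable.ofNat Nat.Partrec.Code (m2 (e a))) ((w a).2.1 + 3) :=
    c_ev hs (by fun_prop) (by fun_prop)
  unfold de0
  refine c_and (c_and (c_and (c_and (c_and (c_and (c_and ?_ ?_) ?_) (c_eqb h1 ?_)) ?_) ?_) ?_) ?_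
  all_goals fun_prop

@[fun_prop] theorem c_de1 {s e n : α → ℕ} {w : α → W1} (hs : Computable s)
    (he : Computable e) (hn : Computable n) (hw : Computable w) :
    Computable fun a => de1 (s a) (e a) (n a) (w a) := by
  unfold de1; fun_prop

@[fun_prop] theorem c_de2 {s e : α → ℕ} {d : α → Dt} {w : α → W2} (hs : Computable s)
    (he : Computable e) (hn : Computable d) (hw : Computable w) :
    Computable fun a => de2 (s a) (e a) (d a) (w a) := by
  unfold de2; fun_prop

@[fun_prop] theorem c_pick {d : α → Dt} {sz : α → ℕ} (hd : Computable d) (hs : Computable sz) :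
    Computable fun a => pick (d a) (sz a) := by
  unfold pick; fun_prop

@[fun_prop] theorem c_tau {s bz sz : α → ℕ} {d : α → Dt} (hs : Computable s) (hd : Computable d)
    (hb : Computable bz) (hz : Computable sz) :
    Computable fun a => tau (s a) (d a) (bz a) (sz a) := by
  unfold tau; fun_prop

@[fun_prop] theorem c_nx0 {p e m' j : α → ℕ} {st : α → IS} {w : α → V0} (hp : Computable p)
    (he : Computable e) (hs : Computable st) (hw : Computable w) (hm : Computable m')
    (hj : Computable j) : Computable fun a => nx0 (p a) (e a) (st a) (w a) (m' a) (j a) := by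
  unfold nx0; fun_prop

@[fun_prop] theorem c_nx1 {e v ρ j : α → ℕ} {st : α → IS} {d : α → Dt} (he : Computable e)
    (hs : Computable st) (hd : Computable d) (hv : Computable v) (hρ : Computable ρ)
    (hj : Computable j) : Computable fun a => nx1 (e a) (st a) (d a) (v a) (ρ a) (j a) := by
  unfold nx1; fun_prop

@[fun_prop] theorem c_nx2 {e bz sz up m' j : α → ℕ} {st : α → IS} {d : α → Dt}
    (he : Computable e) (hs : Computable st) (hd : Computable d) (hb : Computable bz)
    (hz : Computable sz) (hu : Computable up) (hm : Computable m') (hj : Computable j) :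
    Computable fun a => nx2 (e a) (st a) (d a) (bz a) (sz a) (up a) (m' a) (j a) := by
  unfold nx2; fun_prop

include hc

theorem cr_DC {st : α → IS} {i j : α → ℕ} (hs : Computable st) (hi : Computable i)
    (hj : Computable j) : CR fun a => DC c (st a) (c (i a)) (c (j a)) :=
  cr_D1 hc (st := fun a => view 0 (st a)) (by fun_prop) hi hj

theorem cr_DW {st : α → IS} {t i j : α → ℕ} (ht : Computable t) (hs : Computable st)
    (hi : Computable i) (hj : Computable j) :
    CR fun a => DW c (t a) (st a) (c (i a)) (c (j a)) := by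
  refine (cr_DC hc hs hi hj).max ?_
  refine (((cr_tsm hc (L := fun a => sel (t a) (st a).2.1) (by fun_prop) hi).add
    (cr_tsm hc (L := fun a => sel (t a) (st a).2.2.1) (by fun_prop) hj)).abs_sub
    ((cr_tsm hc (L := fun a => sel (t a) (st a).2.1) (by fun_prop) hj).add
    (cr_tsm hc (L := fun a => sel (t a) (st a).2.2.1) (by fun_prop) hi))).of_eq fun a => ?_
  unfold ph phi view
  ring_nf

theorem re_Val {st : α → IS} {σ : α → List ℕ} {t m b : α → ℕ} (ht : Computable t)
    (hs : Computable st) (hσ : Computable σ) (hm : Computable m) (hb : Computable b) :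
    RE fun a => ValW c (DW c (t a) (st a)) (st a).1 (σ a) (m a) (b a) :=
  RE.forall_lt (by fun_prop) ((RE.lt (by fun_prop) (by fun_prop)).and
    (((cr_DW hc (by fun_prop) (by fun_prop) (by fun_prop) (by fun_prop)).add
      (cr_q (by fun_prop))).lt (cr_q (by fun_prop))))

theorem re_NVal {st : α → IS} {σ : α → List ℕ} {t m b : α → ℕ} (ht : Computable t)
    (hs : Computable st) (hσ : Computable σ) (hm : Computable m) (hb : Computable b) :
    RE fun a => NValS c (DW c (t a) (st a)) (st a).1 (σ a) (m a) (b a) :=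
  RE.exists_lt (by fun_prop) ((RE.le (by fun_prop) (by fun_prop)).or
    ((cr_q (by fun_prop)).lt ((cr_DW hc (by fun_prop) (by fun_prop) (by fun_prop)
      (by fun_prop)).add ((cr_q (by fun_prop)).add (cr_q (by fun_prop))))))

theorem re_NewI {st : α → IS} {t τ m m' j : α → ℕ} (ht : Computable t) (hs : Computable st)
    (hτ : Computable τ) (hm : Computable m) (hm' : Computable m') (hj : Computable j) :
    RE fun a => NewI c (t a) (st a) (τ a) (m a) (m' a) (j a) :=
  ((cr_DW hc ht hs hm' hm).lt (cr_q hτ)).and (RE.forall_lt (by fun_prop)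
    ((cr_q (by fun_prop)).lt (cr_dist hc (by fun_prop) (by fun_prop))))

theorem re_Wk0 {r : ℕ} {p s e : α → ℕ} {st : α → IS} {w : α → V0} (hp : Computable p)
    (hs : Computable s) (he : Computable e) (hst : Computable st) (hw : Computable w) :
    RE fun a => Wk0 c (p a) r (s a) (e a) (st a) (w a) :=
  (RE.of_bool (by fun_prop)).and
    ((re_Val hc (by fun_prop) hst (by fun_prop) (by fun_prop) (by fun_prop)).and
      (re_Val hc (by fun_prop) hst (by fun_prop) (by fun_prop) (by fun_prop)))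

theorem re_Ns0 {r : ℕ} {p s e : α → ℕ} {st : α → IS} {w : α → V0} (hp : Computable p)
    (hs : Computable s) (he : Computable e) (hst : Computable st) (hw : Computable w) :
    RE fun a => Ns0 c (p a) r (s a) (e a) (st a) (w a) :=
  (RE.eq (by fun_prop) (by fun_prop)).or
    ((re_NVal hc (by fun_prop) hst (by fun_prop) (by fun_prop) (by fun_prop)).or
      (re_NVal hc (by fun_prop) hst (by fun_prop) (by fun_prop) (by fun_prop)))

theorem re_Wk1 {s e : α → ℕ} {st : α → IS} {d : α → Dt} {w : α → W1} (hs : Computable s)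
    (he : Computable e) (hst : Computable st) (hd : Computable d) (hw : Computable w) :
    RE fun a => Wk1 c (s a) (e a) (st a) (d a) (w a) :=
  (RE.of_bool (by fun_prop)).and
    ((re_Val hc (by fun_prop) hst (by fun_prop) (by fun_prop) (by fun_prop)).and
    (re_SepW hc (by fun_prop) (by fun_prop) (by fun_prop) (by fun_prop) (by fun_prop)))

theorem re_Ns1 {s e : α → ℕ} {st : α → IS} {d : α → Dt} {w : α → W1} (hs : Computable s)
    (he : Computable e) (hst : Computable st) (hd : Computable d) (hw : Computable w) :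
    RE fun a => Ns1 c (s a) (e a) (st a) (d a) (w a) :=
  (RE.eq (by fun_prop) (by fun_prop)).or
    ((re_NVal hc (by fun_prop) hst (by fun_prop) (by fun_prop) (by fun_prop)).or
    (re_NSepS hc (by fun_prop) (by fun_prop) (by fun_prop) (by fun_prop) (by fun_prop)))

theorem re_Wk2 {s e : α → ℕ} {st : α → IS} {d : α → Dt} {w : α → W2} (hs : Computable s)
    (he : Computable e) (hst : Computable st) (hd : Computable d) (hw : Computable w) :
    RE fun a => Wk2 c (s a) (e a) (st a) (d a) (w a) :=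
  (RE.of_bool (by fun_prop)).and
    (re_Val hc (by fun_prop) hst (by fun_prop) (by fun_prop) (by fun_prop))

theorem re_Ns2 {s e : α → ℕ} {st : α → IS} {d : α → Dt} {w : α → W2} (hs : Computable s)
    (he : Computable e) (hst : Computable st) (hd : Computable d) (hw : Computable w) :
    RE fun a => Ns2 c (s a) (e a) (st a) (d a) (w a) :=
  (RE.eq (by fun_prop) (by fun_prop)).or
    (re_NVal hc (by fun_prop) hst (by fun_prop) (by fun_prop) (by fun_prop))

theorem re_SideC {e w sz : α → ℕ} {d : α → Dt} (he : Computable e) (hd : Computable d)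
    (hw : Computable w) (hz : Computable sz) : RE fun a => SideC c (e a) (d a) (w a) (sz a) :=
  ((RE.eq hz (by fun_prop)).and
    (((cr_dist hc hw (by fun_prop)).pow_mul (by fun_prop)).lt
      ((CR.nat (by fun_prop)).add (cr_q (by fun_prop))))).or
  ((RE.eq hz (by fun_prop)).and ((CR.nat (by fun_prop)).lt
    (((cr_dist hc hw (by fun_prop)).pow_mul (by fun_prop)).add (cr_q (by fun_prop)))))

theorem re_SignC {i z o τ up : α → ℕ} {st : α → IS} (hi : Computable i) (hs : Computable st)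
    (hz : Computable z) (ho : Computable o) (hτ : Computable τ) (hu : Computable up) :
    RE fun a => SignC c (i a) (st a) (z a) (o a) (τ a) (up a) := by
  have a1 := cr_tsm hc (L := fun a => sel (i a) (st a).2.1) (by fun_prop) hz
  have a2 := cr_tsm hc (L := fun a => sel (i a) (st a).2.1) (by fun_prop) ho
  have a3 := cr_tsm hc (L := fun a => sel (i a) (st a).2.2.1) (by fun_prop) hz
  have a4 := cr_tsm hc (L := fun a => sel (i a) (st a).2.2.1) (by fun_prop) ho
  exact ((RE.eq hu (by fun_prop)).and ((a1.add a4).lt ((a2.add a3).add (cr_q hτ)))).or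
    ((RE.eq hu (by fun_prop)).and ((a2.add a3).lt ((a1.add a4).add (cr_q hτ))))

theorem re_Rl0 {r : ℕ} {p s e : α → ℕ} {st st' : α → IS} (hp : Computable p) (hs : Computable s)
    (he : Computable e) (hst : Computable st) (hst' : Computable st') :
    RE fun a => Rl0 c (p a) r (s a) (e a) (st a) (st' a) :=
  ((re_forall_code hs (re_Ns0 hc (by fun_prop) (by fun_prop) (by fun_prop) (by fun_prop)
    (by fun_prop))).and (RE.eq hst' (by fun_prop))).or (RE.ex (RE.ex (RE.ex
      ((re_Wk0 hc (by fun_prop) (by fun_prop) (by fun_prop) (by fun_prop) (by fun_prop)).and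
      ((re_NewI hc (by fun_prop) (by fun_prop) (by fun_prop) (by fun_prop) (by fun_prop)
        (by fun_prop)).and (RE.eq (by fun_prop) (by fun_prop)))))))

theorem re_Rl1 {s e : α → ℕ} {st st' : α → IS} {d : α → Dt} (hs : Computable s)
    (he : Computable e) (hst : Computable st) (hd : Computable d) (hst' : Computable st') :
    RE fun a => Rl1 c (s a) (e a) (st a) (d a) (st' a) :=
  ((re_forall_code hs (re_Ns1 hc (by fun_prop) (by fun_prop) (by fun_prop) (by fun_prop)
    (by fun_prop))).and (RE.eq hst' (by fun_prop))).or (RE.ex (RE.ex (RE.ex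
      ((re_Wk1 hc (by fun_prop) (by fun_prop) (by fun_prop) (by fun_prop) (by fun_prop)).and
      ((re_Cut hc (by fun_prop) (by fun_prop) (by fun_prop) (by fun_prop) (by fun_prop)).and
      (RE.eq (by fun_prop) (by fun_prop)))))))

theorem re_Rl2 {p0 r : ℕ} {s e : α → ℕ} {st st' : α → IS} {d : α → Dt} (hs : Computable s)
    (he : Computable e) (hst : Computable st) (hd : Computable d) (hst' : Computable st') :
    RE fun a => Rl2 c p0 r (s a) (e a) (st a) (d a) (st' a) :=
  (((cr_q (by fun_prop)).lt (cr_dist hc (by fun_prop) (by fun_prop))).and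
    (RE.eq hst' (by fun_prop))).or
  (((re_forall_code hs (re_Ns2 hc (by fun_prop) (by fun_prop) (by fun_prop) (by fun_prop)
    (by fun_prop))).and (RE.eq hst' (by fun_prop))).or
  (RE.ex (RE.ex
      ((re_Wk2 hc (by fun_prop) (by fun_prop) (by fun_prop) (by fun_prop) (by fun_prop)).and
      ((re_SideC hc (by fun_prop) (by fun_prop) (by fun_prop) (by fun_prop)).and
      ((re_SignC hc (by fun_prop) (by fun_prop) (by fun_prop) (by fun_prop) (by fun_prop)
        (by fun_prop)).and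
      ((re_NewI hc (by fun_prop) (by fun_prop) (by fun_prop) (by fun_prop) (by fun_prop)
        (by fun_prop)).and (RE.eq (by fun_prop) (by fun_prop)))))))))

theorem re_Rl {P : ℕ → ℕ} (hP : Computable P) (p0 r : ℕ) :
    RE fun z : (ℕ × IS) × IS => Rl c P p0 r z.1.1 z.1.2 z.2 :=
  ((RE.eq (by fun_prop) (by fun_prop)).and
    (re_Rl0 hc (hP.comp (by fun_prop)) (by fun_prop) (by fun_prop) (by fun_prop)
      (by fun_prop))).or
  (((RE.eq (by fun_prop) (by fun_prop)).and
    (re_Rl1 hc (by fun_prop) (by fun_prop) (by fun_prop) (by fun_prop) (by fun_prop))).or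
  ((RE.le (by fun_prop) (by fun_prop)).and
    (re_Rl2 hc (by fun_prop) (by fun_prop) (by fun_prop) (by fun_prop) (by fun_prop))))

end re

end Pool.Agent.P.MP_fa5791_lc.Inf
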