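import Pool.Agent.P.MP_fa5791_lc.BMain

namespace Pool.Agent.P.MP_fa5791_lc

open Pool.Agent.Lib.ComputableProp UniformSpace Set

theorem pres_of_comp {M : Type} [MetricSpace M] {c : ℕ → M} (h : IsCompMetric M c) :
    Pres fun i => (c i : Completion M) := by
  obtain ⟨hs, a, ha, H⟩ := h
  refine ⟨Completion.denseRange_coe.comp hs.denseRange (Completion.continuous_coe M),
    fun z => a (z.1.1, z.1.2, z.2), by fun_prop, fun x n => ?_⟩
  simpa only [Completion.dist_eq] using H x.1 x.2 n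

theorem exists_model {Y : Type} [MetricSpace Y] [CompleteSpace Y] {c : ℕ → Y} (h : Pres c) :
    ∃ (M : Type) (_ : MetricSpace M) (c' : ℕ → M), IsCompMetric M c' ∧
      ∃ j : Completion M ≃ᵢ Y, ∀ i, j (c' i) = c i := by
  obtain ⟨hd, a, ha, H⟩ := h
  have hv : Isometry (Subtype.val : range c → Y) := isometry_subtype_coe
  have hj := hv.completion_extension
  have he : ∀ x : range c, Completion.extension (Subtype.val : range c → Y) x = x :=
    Completion.extension_coe hv.uniformContinuous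
  have hsurj : Function.Surjective (Completion.extension (Subtype.val : range c → Y)) := by
    rw [← range_eq_univ, ← hj.isClosedEmbedding.isClosed_range.closure_eq]
    refine Dense.closure_eq (hd.mono ?_)
    rintro _ ⟨i, rfl⟩
    exact ⟨_, he ⟨c i, i, rfl⟩⟩
  refine ⟨range c, inferInstance, fun i => ⟨c i, i, rfl⟩, ⟨?_, fun z => a ((z.1, z.2.1), z.2.2),
    by fun_prop, fun i j n => H (i, j) n⟩, ⟨Equiv.ofBijective _ ⟨hj.injective, hsurj⟩, hj⟩,
    fun i => he _⟩
  rintro ⟨_, i, rfl⟩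
  exact ⟨i, rfl⟩

theorem CompMap.transfer {Y Z Y' Z' : Type} [MetricSpace Y] [MetricSpace Z] [MetricSpace Y']
    [MetricSpace Z'] {c : ℕ → Y} {e : ℕ → Z} {c' : ℕ → Y'} {e' : ℕ → Z'} (j : Y ≃ᵢ Y')
    (k : Z ≃ᵢ Z') (hj : ∀ i, j (c i) = c' i) (hk : ∀ i, k (e i) = e' i) {f : Y → Z}
    (h : CompMap c e f) : CompMap c' e' fun x => k (f (j.symm x)) := by
  obtain ⟨F, hF, h⟩ := h
  refine ⟨F, hF, fun x p hp => ?_⟩
  obtain ⟨q, h1, h2⟩ := h (j.symm x) p fun n => by
    rw [← j.dist_eq, hj, j.apply_symm_apply]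
    exact hp n
  refine ⟨q, h1, fun n => ?_⟩
  rw [← hk, k.dist_eq]
  exact h2 n

theorem main (X : Type) [TopologicalSpace X] [Infinite X]
    (hX : ∃ (M : Type) (_ : MetricSpace M) (c : ℕ → M),
      IsCompMetric M c ∧ Nonempty (Completion M ≃ₜ X)) :
    ∃ (M N : Type) (_ : MetricSpace M) (_ : MetricSpace N) (c : ℕ → M) (e : ℕ → N),
      IsCompMetric M c ∧ IsCompMetric N e ∧
      Nonempty (Completion M ≃ₜ X) ∧ Nonempty (Completion N ≃ₜ X) ∧
      ∀ h : Completion M ≃ₜ Completion N,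
        ¬ (CompMap (fun i => (c i : Completion M)) (fun i => (e i : Completion N)) h ∧
          CompMap (fun i => (e i : Completion N)) (fun i => (c i : Completion M)) h.symm) := by
  obtain ⟨M0, _, c, hc, ⟨φ⟩⟩ := hX
  have : Infinite (Completion M0) := Infinite.of_surjective φ φ.surjective
  obtain ⟨Y, Z, _, _, c0, c1, _, _, P0, P1, ⟨e0⟩, ⟨e1⟩, H⟩ := concl (pres_of_comp hc)
  obtain ⟨M, _, a, ha, j, hj⟩ := exists_model P0
  obtain ⟨N, _, b, hb, k, hk⟩ := exists_model P1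
  refine ⟨M, N, inferInstance, inferInstance, a, b, ha, hb,
    ⟨j.toHomeomorph.trans (e0.trans φ)⟩, ⟨k.toHomeomorph.trans (e1.trans φ)⟩, ?_⟩
  rintro h ⟨h1, h2⟩
  exact H (j.symm.toHomeomorph.trans (h.trans k.toHomeomorph))
    ⟨h1.transfer j k hj hk, h2.transfer k j hk hj⟩

end Pool.Agent.P.MP_fa5791_lc
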