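import Pool.Agent.P.MP_fa5791_lc.ICaseB
import Pool.Agent.P.MP_fa5791_lc.Main

namespace Pool.Agent.P.MP_fa5791_lc.Inf

open Pool.Agent.Lib.ComputableProp UniformSpace Set

theorem main (X : Type) [TopologicalSpace X] [Infinite X]
    (hX : ∃ (M : Type) (_ : MetricSpace M) (c : ℕ → M),
      IsCompMetric M c ∧ Nonempty (Completion M ≃ₜ X)) :
    ∃ (M : ℕ → Type) (_ : ∀ i, MetricSpace (M i)) (c : ∀ i, ℕ → M i),
      (∀ i, IsCompMetric (M i) (c i) ∧ Nonempty (Completion (M i) ≃ₜ X)) ∧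
      ∀ i j, i ≠ j → ∀ h : Completion (M i) ≃ₜ Completion (M j),
        ¬ (CompMap (fun n => (c i n : Completion (M i))) (fun n => (c j n : Completion (M j))) h ∧
          CompMap (fun n => (c j n : Completion (M j))) (fun n => (c i n : Completion (M i)))
            h.symm) := by
  obtain ⟨M0, _, c, hc, ⟨φ⟩⟩ := hX
  have : Infinite (Completion M0) := Infinite.of_surjective φ φ.surjective
  obtain ⟨Y, mY, y, hY, H⟩ := concl (pres_of_comp hc)
  choose M mM a ha J hJ using fun i => @exists_model (Y i) (mY i) (hY i).1 _ (hY i).2.1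
  refine ⟨M, mM, a, fun i => ⟨ha i, ?_⟩, ?_⟩
  · obtain ⟨e⟩ := (hY i).2.2
    exact ⟨(J i).toHomeomorph.trans (e.trans φ)⟩
  · rintro i j hij h ⟨h1, h2⟩
    have k1 := h1.transfer (J i) (J j) (hJ i) (hJ j)
    have k2 := h2.transfer (J j) (J i) (hJ j) (hJ i)
    rcases lt_or_gt_of_ne hij with h3 | h3
    · exact H j i h3 ((J j).symm.toHomeomorph.trans (h.symm.trans (J i).toHomeomorph)) ⟨k2, k1⟩
    · exact H i j h3 ((J i).symm.toHomeomorph.trans (h.trans (J j).toHomeomorph)) ⟨k1, k2⟩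

end Pool.Agent.P.MP_fa5791_lc.Inf
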