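import Pool.Agent.P.MP_fa5791_lc.IStep

namespace Pool.Agent.P.MP_fa5791_lc.Inf

open Pool.Agent.Lib.ComputableProp Filter Topology

variable {X : Type} [MetricSpace X] {c : ℕ → X}

/-- number of bumps placed so far -/
def cnt (d : Dt) : ℕ := cond (eqb d.1 0) 0 (d.2.1.2.2 + 1)

/-- bound for the heights still to come -/
noncomputable def Pot (e : ℕ) (d : Dt) : ℝ :=
  (if d.1 = 0 then q e else q (d.2.1.2.1 + 2 + d.2.1.2.2)) + (if d.1 ≤ 1 then q e else 0)

theorem Pot_nonneg (e : ℕ) (d : Dt) : 0 ≤ Pot e d := by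
  unfold Pot
  have := q_pos e
  have := q_pos (d.2.1.2.1 + 2 + d.2.1.2.2)
  split_ifs <;> linarith

theorem Inv.pot_le {p r e s : ℕ} {st : IS} {d : Dt} (h : Inv c p r e s st d) (h2 : 2 ≤ cnt d) :
    Pot e d ≤ q (cnt d) := by
  rcases h with h | h | h
  · simp [cnt, eqb, h] at h2
  · simp [cnt, eqb, h.1, h.2.2.1] at h2
  · have : cnt d = d.2.1.2.2 + 1 := by simp [cnt, eqb, h.1]
    rw [this]
    simp only [Pot, h.1]
    norm_num
    exact q_anti (by omega)

theorem tv_supp {m j k : ℕ} {x : X} (h : tv c (m, 0, j, k) x ≠ 0) : dist x (c m) ≤ q k := by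
  by_contra hlt
  apply h
  refine max_eq_left ?_
  have h1 : (1 : ℝ) ≤ 2 ^ j := one_le_pow₀ (by norm_num)
  have h2 := dist_nonneg (x := x) (y := c m)
  simp only [Nat.cast_zero, sub_zero]
  rw [abs_of_nonneg (by positivity)]
  nlinarith [not_le.1 hlt]

variable (c) in
/-- what one transition of requirement `e` changes -/
structure Info (p e : ℕ) (st st' : IS) (d d' : Dt) : Prop where
  hh : ∀ i, HH i st' - HH i st ≤ Pot e d - Pot e d'
  pa : ∀ i x, |ph c i st' x - ph c i st x| ≤ Pot e d - Pot e d'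
  pb : ∀ i x, ph c i st' x ≠ ph c i st x →
    tg e = i ∧ dist x (c p) ≤ 2 * q e ∧ cnt d' = cnt d + 1
  mono : cnt d ≤ cnt d'

theorem info_bump {p e m' j k : ℕ} {st st' : IS} {d d' : Dt}
    (hl : (st'.2.1 = (tg e, (m', 0, j, k)) :: st.2.1 ∧ st'.2.2.1 = st.2.2.1) ∨
      (st'.2.1 = st.2.1 ∧ st'.2.2.1 = (tg e, (m', 0, j, k)) :: st.2.2.1))
    (hcut : st'.2.2.2.1 = st.2.2.2.1) (hk : e ≤ k) (hd : dist (c m') (c p) ≤ q e)
    (hpot : q k ≤ Pot e d - Pot e d') (hc : cnt d' = cnt d + 1) : Info c p e st st' d d' := by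
  have hq := q_pos k
  have key : ∀ i x, (tg e ≠ i ∧ ph c i st' x = ph c i st x) ∨
      (tg e = i ∧ |ph c i st' x - ph c i st x| = tv c (m', 0, j, k) x) := by
    intro i x
    by_cases hi : tg e = i
    · right
      refine ⟨hi, ?_⟩
      rcases hl with ⟨h1, h2⟩ | ⟨h1, h2⟩
      · rw [ph_eq, ph_eq, h1, h2, sel_cons, if_pos hi, tsm_cons,
          ← abs_of_nonneg (tv_nonneg c (m', 0, j, k) x)]
        congr 1
        rw [abs_of_nonneg (tv_nonneg c (m', 0, j, k) x)]
        ring
      · rw [ph_eq, ph_eq, h1, h2, sel_cons, if_pos hi, tsm_cons,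
          ← abs_of_nonneg (tv_nonneg c (m', 0, j, k) x), ← abs_neg]
        congr 1
        rw [abs_of_nonneg (tv_nonneg c (m', 0, j, k) x)]
        ring
    · left
      refine ⟨hi, ?_⟩
      rcases hl with ⟨h1, h2⟩ | ⟨h1, h2⟩ <;> rw [ph_eq, ph_eq, h1, h2, sel_cons, if_neg hi]
  refine ⟨fun i => ?_, fun i x => ?_, fun i x hx => ?_, by omega⟩
  · refine le_trans ?_ hpot
    simp only [HH, H0, H1, view, hcut]
    rcases hl with ⟨h1, h2⟩ | ⟨h1, h2⟩ <;> rw [h1, h2, sel_cons] <;> split_ifs <;>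
      (try simp only [hts_cons]) <;> linarith
  · rcases key i x with ⟨-, h⟩ | ⟨-, h⟩
    · rw [h, sub_self, abs_zero]; linarith
    · rw [h]; exact (tv_le c _ x).trans hpot
  · rcases key i x with ⟨-, h⟩ | ⟨hi, h⟩
    · exact absurd h hx
    · refine ⟨hi, ?_, hc⟩
      have h1 : tv c (m', 0, j, k) x ≠ 0 := by
        rw [← h]
        exact abs_ne_zero.2 (sub_ne_zero.2 hx)
      have h2 := tv_supp h1
      have h3 := q_anti hk
      linarith [dist_triangle x (c m') (c p)]

theorem RlG.info {p p0 r s e : ℕ} {d : Dt} {st st' : IS} (hR : RlG c p p0 r s e d st st')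
    (hl : lk st.2.2.2.2 e = d) (h : Inv c p r e s st d) :
    Info c p e st st' d (lk st'.2.2.2.2 e) := by
  have hI := h.step hR hl
  have hidle : st' = idl st → Info c p e st st' d (lk st'.2.2.2.2 e) := by
    rintro rfl
    subst hl
    exact ⟨fun i => by simp [HH, H0, H1, view, idl], fun i x => by simp [ph_eq, idl],
      fun i x hx => absurd rfl hx, le_rfl⟩
  rcases hR with ⟨hd, ⟨-, h'⟩ | ⟨w, m', j, hw, hN, h'⟩⟩ | ⟨hd, ⟨-, h'⟩ | ⟨w, ρ, j, -, hN, h'⟩⟩ |
    ⟨hd, ⟨-, h'⟩ | ⟨-, h'⟩ | ⟨w, y, hw, hsd, hsg, hN, h'⟩⟩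
  · exact hidle h'
  · have e5 : lk st'.2.2.2.2 e = (1, (m', w.2.1, 0), (p, w.2.2.2.2.2.1, p, w.2.2.2.2.2.1, 0),
        (w.2.2.2.2.2.2, w.2.2.2.1 + 1, 0)) := by subst h'; simp [nx0]
    rw [e5] at hI ⊢
    have hG : Geo c p r e (s + 1) st' (1, (m', w.2.1, 0),
        (p, w.2.2.2.2.2.1, p, w.2.2.2.2.2.1, 0), (w.2.2.2.2.2.2, w.2.2.2.1 + 1, 0)) := by
      rcases hI with h | h | h
      · simp at h
      · exact h.2.1
      · exact h.2
    have hb : e + r + 2 ≤ w.2.1 := hG.hb
    have h1 : dist (c m') (c p) ≤ q w.2.1 / 4 := hG.dist_le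
    have h2 := q_anti (show e ≤ w.2.1 by omega)
    have h3 := q_pos e
    refine info_bump (m' := m') (j := j) (k := w.2.1 + 2) (Or.inl (by subst h'; exact ⟨rfl, rfl⟩))
      (by subst h'; rfl) (by omega) (by linarith) ?_ (by simp [cnt, eqb, hd])
    have h4 := q_anti (show e + 1 ≤ w.2.1 + 2 by omega)
    have h5 := q_succ e
    simp only [Pot, hd]
    norm_num
    linarith
  · exact hidle h'
  · have e5 : lk st'.2.2.2.2 e = (2, d.2.1, d.2.2.1, (w.2.2.1, ρ, j)) := by subst h'; simp [nx1]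
    rw [e5]
    have hp : Pot e d - Pot e (2, d.2.1, d.2.2.1, (w.2.2.1, ρ, j)) = q e := by
      simp [Pot, hd]
    have := q_pos e
    refine ⟨fun i => ?_, fun i x => ?_, fun i x hx => ?_, by simp [cnt, eqb, hd]⟩
    · rw [hp]; subst h'; simp [HH, H0, H1, view, nx1]
    · rw [hp]; subst h'; simp [ph_eq, nx1, this.le]
    · subst h'; exact absurd rfl hx
  · exact hidle h'
  · exact hidle h'
  · obtain ⟨sz, up, m', j⟩ := y
    simp only at hsd hsg hN h'
    have hd2 : d.1 = 2 := by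
      rcases h with h | h | h
      · omega
      · omega
      · exact h.1
    have e5 : lk st'.2.2.2.2 e = (2, (m', d.2.1.2.1, d.2.1.2.2 + 1),
        ((pick d sz).1, (pick d sz).2, d.2.1.1, w.2.1, sz), d.2.2.2) := by subst h'; simp [nx2]
    rw [e5] at hI ⊢
    have hG : Geo c p r e (s + 1) st' (2, (m', d.2.1.2.1, d.2.1.2.2 + 1),
        ((pick d sz).1, (pick d sz).2, d.2.1.1, w.2.1, sz), d.2.2.2) := by
      rcases hI with h | h | h
      · simp at h
      · simp at h
      · exact h.2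
    have hb : e + r + 2 ≤ d.2.1.2.1 := hG.hb
    have h1 : dist (c m') (c p) ≤ q d.2.1.2.1 / 4 := hG.dist_le
    have h2 := q_anti (show e ≤ d.2.1.2.1 by omega)
    have h3 := q_pos e
    refine info_bump (m' := m') (j := j) (k := d.2.1.2.1 + 2 + (d.2.1.2.2 + 1)) ?_
      (by subst h'; rfl) (by omega) (by linarith) ?_ (by simp [cnt, eqb, hd2])
    · subst h'
      simp only [nx2]
      cases eqb up 1
      · exact Or.inr ⟨rfl, rfl⟩
      · exact Or.inl ⟨rfl, rfl⟩
    · have h4 : q (d.2.1.2.1 + 2 + (d.2.1.2.2 + 1)) = q (d.2.1.2.1 + 2 + d.2.1.2.2) / 2 :=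
        q_succ _
      simp only [Pot, hd2]
      norm_num
      linarith

theorem sum_drop {S : Finset ℕ} {F G : ℕ → ℝ} {e : ℕ} (he : e ∈ S)
    (h : ∀ e' ≠ e, G e' = F e') : ∑ i ∈ S, G i = ∑ i ∈ S, F i - (F e - G e) := by
  classical
  rw [← Finset.add_sum_erase S G he, ← Finset.add_sum_erase S F he,
    Finset.sum_congr rfl fun i hi => h i (Finset.ne_of_mem_erase hi)]
  ring

/-- exponent of a Lipschitz constant -/
def lam (L : List Tent) : ℕ := (L.map fun T => T.2.2.1 + 1).sum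

theorem tsm_lip (L : List Tent) (x y : X) : |tsm c L x - tsm c L y| ≤ 2 ^ lam L * dist x y := by
  induction L with
  | nil => simp [lam]
  | cons T L ih =>
    have h1 := tv_lip c T x y
    have h2 : (2 : ℝ) ^ T.2.2.1 + 2 ^ lam L ≤ 2 ^ lam (T :: L) := by
      have a1 : (1 : ℝ) ≤ 2 ^ T.2.2.1 := one_le_pow₀ (by norm_num)
      have a2 : (1 : ℝ) ≤ 2 ^ lam L := one_le_pow₀ (by norm_num)
      have : lam (T :: L) = T.2.2.1 + 1 + lam L := by simp [lam]
      rw [this, pow_add, pow_succ]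
      nlinarith
    have h3 := mul_le_mul_of_nonneg_right h2 (dist_nonneg (x := x) (y := y))
    rw [tsm_cons, tsm_cons, show tv c T x + tsm c L x - (tv c T y + tsm c L y) =
      (tv c T x - tv c T y) + (tsm c L x - tsm c L y) by ring]
    refine (abs_add_le _ _).trans ?_
    linarith

theorem ph_lip (i : ℕ) (st : IS) (x y : X) : |ph c i st x - ph c i st y| ≤
    2 ^ (lam (sel i st.2.1) + lam (sel i st.2.2.1) + 1) * dist x y := by
  have h1 := abs_le.1 (tsm_lip (c := c) (sel i st.2.1) x y)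
  have h2 := abs_le.1 (tsm_lip (c := c) (sel i st.2.2.1) x y)
  have a1 : (1 : ℝ) ≤ 2 ^ lam (sel i st.2.1) := one_le_pow₀ (by norm_num)
  have a2 : (1 : ℝ) ≤ 2 ^ lam (sel i st.2.2.1) := one_le_pow₀ (by norm_num)
  have h3 : (2 : ℝ) ^ lam (sel i st.2.1) + 2 ^ lam (sel i st.2.2.1) ≤
      2 ^ (lam (sel i st.2.1) + lam (sel i st.2.2.1) + 1) := by
    rw [pow_succ, pow_add]
    nlinarith
  have h4 := mul_le_mul_of_nonneg_right h3 (dist_nonneg (x := x) (y := y))
  rw [ph_eq, ph_eq, abs_le]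
  constructor <;> linarith [h1.1, h1.2, h2.1, h2.2]

variable (c) in
/-- a run of the construction -/
structure Run (P : ℕ → ℕ) (p0 r : ℕ) (st : ℕ → IS) : Prop where
  init : st 0 = (0, [], [], [], [])
  step : ∀ s, Rl c P p0 r s (st s) (st (s + 1))

namespace Run

variable {P : ℕ → ℕ} {p0 r : ℕ} {st : ℕ → IS} (h : Run c P p0 r st)
include h

theorem g {s e : ℕ} (he : s.unpair.1 = e) :
    RlG c (P (ba e)) p0 r s e (lk (st s).2.2.2.2 e) (st s) (st (s + 1)) := by
  subst he; exact h.step s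

theorem shp (s : ℕ) : Shp c s.unpair.1 (st s) (st (s + 1)) := (h.g rfl).shp

theorem le_n (s : ℕ) : s ≤ (st s).1 := by
  induction s with
  | zero => exact Nat.zero_le _
  | succ s ih => have := (h.shp s).lt; omega

theorem n_mono {s t : ℕ} (hst : s ≤ t) : (st s).1 ≤ (st t).1 :=
  monotone_nat_of_le_succ (f := fun s => (st s).1) (fun s => (h.shp s).lt.le) hst

theorem DW_fr (i : ℕ) {s t l m : ℕ} (hst : s ≤ t) (hl : l < (st s).1) (hm : m < (st s).1) :
    DW c i (st t) (c l) (c m) = DW c i (st s) (c l) (c m) := by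
  induction t, hst using Nat.le_induction with
  | base => rfl
  | succ t ht ih =>
    rw [(h.shp t).DW_fr i (hl.trans_le (h.n_mono ht)) (hm.trans_le (h.n_mono ht)), ih]

theorem cut_mem {s t : ℕ} (hst : s ≤ t) {T : Tent} (hT : T ∈ (st s).2.2.2.1) :
    T ∈ (st t).2.2.2.1 := by
  induction t, hst using Nat.le_induction with
  | base => exact hT
  | succ t ht ih => exact ((h.shp t).1 0).2.2.2.1.subset T ih

theorem inv (e s : ℕ) : Inv c (P (ba e)) r e s (st s) (lk (st s).2.2.2.2 e) := by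
  induction s with
  | zero => rw [h.init]; exact Or.inl rfl
  | succ s ih =>
    by_cases he : s.unpair.1 = e
    · exact ih.step (h.g he) rfl
    · rw [(h.shp s).2 e (Ne.symm he)]
      exact ih.same (h.shp s)

theorem info {s e : ℕ} (he : s.unpair.1 = e) : Info c (P (ba e)) e (st s) (st (s + 1))
    (lk (st s).2.2.2.2 e) (lk (st (s + 1)).2.2.2.2 e) := (h.g he).info rfl (h.inv e s)

theorem cnt_mono (e : ℕ) : Monotone fun s => cnt (lk (st s).2.2.2.2 e) := by
  refine monotone_nat_of_le_succ fun s => ?_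
  by_cases he : s.unpair.1 = e
  · exact (h.info he).mono
  · rw [(h.shp s).2 e (Ne.symm he)]

theorem summable (i : ℕ) : Summable fun s => HH i (st (s + 1)) - HH i (st s) := by
  refine summable_of_sum_range_le
    (fun s => (abs_nonneg _).trans ((h.shp s).DW_diff i (c 0) (c 0))) (c := 4) fun N => ?_
  have key : ∀ s ≤ N, ∑ t ∈ Finset.range s, (HH i (st (t + 1)) - HH i (st t)) +
      ∑ e ∈ Finset.range N, Pot e (lk (st s).2.2.2.2 e) ≤ ∑ e ∈ Finset.range N, 2 * q e := by
    intro s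
    induction s with
    | zero =>
      intro _
      rw [h.init]
      simp only [Finset.range_zero, Finset.sum_empty, zero_add]
      refine Finset.sum_le_sum fun e _ => ?_
      simp [Pot, lk, two_mul]
    | succ s ih =>
      intro hs
      have h1 := ih (by omega)
      have h2 : s.unpair.1 ∈ Finset.range N := by
        have := Nat.unpair_left_le s
        simp only [Finset.mem_range]
        omega
      have h3 := sum_drop (F := fun e => Pot e (lk (st s).2.2.2.2 e))
        (G := fun e => Pot e (lk (st (s + 1)).2.2.2.2 e)) h2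
        (fun e' he' => by rw [(h.shp s).2 e' he'])
      have h4 := (h.info (s := s) rfl).hh i
      rw [Finset.sum_range_succ, h3]
      linarith
  have e2 : ∀ n, ∑ e ∈ Finset.range n, 2 * q e = 4 - 4 * q n := by
    intro n
    induction n with
    | zero => simp [q_zero]
    | succ n ih => rw [Finset.sum_range_succ, ih, q_succ]; ring
  have h1 := key N le_rfl
  have h2 : 0 ≤ ∑ e ∈ Finset.range N, Pot e (lk (st N).2.2.2.2 e) :=
    Finset.sum_nonneg fun e _ => Pot_nonneg _ _
  rw [e2] at h1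
  linarith [q_pos N]

theorem limitW (i : ℕ) : ∃ D, GoodD D ∧
    (∀ x y, Tendsto (fun s => DW c i (st s) x y) atTop (𝓝 (D x y))) ∧
    ∀ s l m, l < (st s).1 → m < (st s).1 → D (c l) (c m) = DW c i (st s) (c l) (c m) := by
  obtain ⟨D, h1, h2⟩ := GoodD.limit (Ds := fun s => DW c i (st s)) (fun s => good_DW c i _)
    (h.summable i) fun s x y => (h.shp s).DW_diff i x y
  refine ⟨D, h1, h2, fun s l m hl hm => tendsto_nhds_unique (h2 _ _) ?_⟩
  refine tendsto_const_nhds.congr' ?_
  filter_upwards [eventually_ge_atTop s] with t ht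
  exact (h.DW_fr i ht hl hm).symm

theorem limitC : ∃ D, GoodD D ∧
    (∀ x y, Tendsto (fun s => DC c (st s) x y) atTop (𝓝 (D x y))) ∧
    (∀ s, ∀ T ∈ (st s).2.2.2.1, ∀ x y, |tv c T x - tv c T y| ≤ D x y) ∧
    ∀ x y a, a < D x y → a < dist x y ∨ ∃ s, ∃ T ∈ (st s).2.2.2.1, a < |tv c T x - tv c T y| := by
  obtain ⟨D, h1, h2⟩ := GoodD.limit (Ds := fun s => DC c (st s)) (fun s => good_DC c _)
    (h.summable 0) fun s x y => (h.shp s).DC_diff 0 x y
  refine ⟨D, h1, h2, fun s T hT x y => ?_, fun x y a ha => ?_⟩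
  · refine ge_of_tendsto (h2 x y) ?_
    filter_upwards [eventually_ge_atTop s] with t ht
    exact le_DL c (h.cut_mem ht hT) x y
  · obtain ⟨s, hs⟩ := ((h2 x y).eventually (lt_mem_nhds ha)).exists
    rcases lt_DL c hs with h | h
    · exact Or.inl h
    · exact Or.inr ⟨s, h⟩

/-- away from the base points the metric of space `j` has a computable modulus with respect to
the metric of the cuts -/
theorem modulus (hst : Computable st) (j : ℕ) {D D' : X → X → ℝ} (hD' : GoodD D')
    (hD : ∀ x y, Tendsto (fun s => DW c j (st s) x y) atTop (𝓝 (D x y)))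
    (hcut : ∀ s, ∀ T ∈ (st s).2.2.2.1, ∀ x y, |tv c T x - tv c T y| ≤ D' x y)
    (y : X) (hy : ∀ a < j, c (P a) ≠ y) :
    ∃ μ : ℕ → ℕ, Computable μ ∧ ∀ k z, D' z y ≤ q (μ k) → D z y ≤ q k := by
  classical
  obtain ⟨E, hE⟩ : ∃ E, ∀ a < j, 4 * q E < dist (c (P a)) y := by
    have : ∀ n ≤ j, ∃ E, ∀ a < n, 4 * q E < dist (c (P a)) y := by
      intro n
      induction n with
      | zero => exact fun _ => ⟨0, by simp⟩
      | succ n ih =>
        intro hn
        obtain ⟨E, hE⟩ := ih (by omega)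
        obtain ⟨E', hE'⟩ := exists_q_lt (show 0 < dist (c (P n)) y / 4 from
          div_pos (dist_pos.2 (hy n (by omega))) (by norm_num))
        refine ⟨max E E', fun a ha => ?_⟩
        have h1 := q_anti (le_max_left E E')
        have h2 := q_anti (le_max_right E E')
        rcases (by omega : a < n ∨ a = n) with h3 | rfl
        · linarith [hE a h3]
        · linarith
    exact this j le_rfl
  let F : Finset ℕ := (Finset.range E).filter fun e => ∀ N, ∃ s, N ≤ cnt (lk (st s).2.2.2.2 e)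
  obtain ⟨s0, hs0⟩ : ∃ s0, ∀ e < E, e ∉ F → ∀ t ≥ s0,
      cnt (lk (st (t + 1)).2.2.2.2 e) = cnt (lk (st t).2.2.2.2 e) := by
    have : ∀ e, ∃ s1, e < E → e ∉ F → ∀ t ≥ s1,
        cnt (lk (st (t + 1)).2.2.2.2 e) = cnt (lk (st t).2.2.2.2 e) := by
      intro e
      by_cases he : e < E ∧ e ∉ F
      · have h1 : ¬ ∀ N, ∃ s, N ≤ cnt (lk (st s).2.2.2.2 e) := fun h1 =>
          he.2 (Finset.mem_filter.2 ⟨Finset.mem_range.2 he.1, h1⟩)
        push Not at h1
        obtain ⟨N, hN⟩ := h1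
        obtain ⟨b, s1, hs1⟩ := converges_of_monotone_of_bounded (h.cnt_mono e) (c := N)
          fun s => (hN s).le
        exact ⟨s1, fun _ _ t ht => by rw [hs1 t ht, hs1 (t + 1) (by omega)]⟩
      · exact ⟨0, fun h1 h2 => absurd ⟨h1, h2⟩ he⟩
    choose s1 hs1 using this
    refine ⟨(Finset.range E).sup s1, fun e he he' t ht => hs1 e he he' t ?_⟩
    exact le_trans (Finset.le_sup (f := s1) (Finset.mem_range.2 he)) ht
  have hcc : Computable cnt := by unfold cnt; fun_prop
  let R : ℕ → ℕ → Prop := fun k s => s0 ≤ s ∧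
    ∀ e ∈ F.toList, k + E + 4 ≤ cnt (lk (st s).2.2.2.2 e)
  have hR : RE fun v : ℕ × ℕ => R v.1 v.2 :=
    (RE.le (by fun_prop) (by fun_prop)).and (RE.forall_mem (by fun_prop)
      (RE.le (by fun_prop) (hcc.comp (by fun_prop))))
  have tot : ∀ k, ∃ s, R k s := by
    intro k
    have : ∀ e, ∃ s, e ∈ F → k + E + 4 ≤ cnt (lk (st s).2.2.2.2 e) := by
      intro e
      by_cases he : e ∈ F
      · obtain ⟨s, hs⟩ := (Finset.mem_filter.1 he).2 (k + E + 4)
        exact ⟨s, fun _ => hs⟩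
      · exact ⟨0, fun h1 => absurd h1 he⟩
    choose s1 hs1 using this
    refine ⟨max s0 (F.sup s1), le_max_left _ _, fun e he => ?_⟩
    have he' := Finset.mem_toList.1 he
    exact (hs1 e he').trans (h.cnt_mono e
      (le_trans (Finset.le_sup (f := s1) he') (le_max_right _ _)))
  obtain ⟨β, hβ, hb⟩ := hR.uniformize tot
  have hlam : Computable lam := by unfold lam; fun_prop
  refine ⟨fun k => lam (sel j (st (β k)).2.1) + lam (sel j (st (β k)).2.2.1) + 1 + (k + E + 2),
    by fun_prop, fun k z hz => ?_⟩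
  beta_reduce at hz
  obtain ⟨hb1, hb2⟩ := hb k
  have tail : ∀ x, dist x y ≤ q E → ∀ t ≥ β k, |ph c j (st t) x - ph c j (st (β k)) x| ≤
      ∑ e ∈ F, Pot e (lk (st (β k)).2.2.2.2 e) - ∑ e ∈ F, Pot e (lk (st t).2.2.2.2 e) := by
    intro x hx t ht
    induction t, ht using Nat.le_induction with
    | base => simp
    | succ t ht ih =>
      have hI := h.info (s := t) rfl
      have h1 := abs_sub_le (ph c j (st (t + 1)) x) (ph c j (st t) x) (ph c j (st (β k)) x)
      by_cases he : t.unpair.1 ∈ F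
      · have h3 := sum_drop (F := fun e => Pot e (lk (st t).2.2.2.2 e))
          (G := fun e => Pot e (lk (st (t + 1)).2.2.2.2 e)) he
          (fun e' he' => by rw [(h.shp t).2 e' he'])
        have h4 := hI.pa j x
        rw [h3]
        linarith
      · have h3 : ∑ e ∈ F, Pot e (lk (st (t + 1)).2.2.2.2 e) =
            ∑ e ∈ F, Pot e (lk (st t).2.2.2.2 e) :=
          Finset.sum_congr rfl fun e he' => by
            rw [(h.shp t).2 e (fun h' => he (h' ▸ he'))]
        have h4 : ph c j (st (t + 1)) x = ph c j (st t) x := by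
          by_contra hne
          obtain ⟨a1, a2, a3⟩ := hI.pb j x hne
          by_cases hlt : t.unpair.1 < E
          · have := hs0 _ hlt he t (by omega)
            omega
          · have a4 := hE (ba t.unpair.1) (by rw [← a1]; unfold tg ba; omega)
            have a5 := q_anti (not_lt.1 hlt)
            have a6 := dist_triangle_left (c (P (ba t.unpair.1))) y x
            have := q_pos E
            linarith
        rw [h3, h4]
        exact ih
  have hsum : ∑ e ∈ F, Pot e (lk (st (β k)).2.2.2.2 e) ≤ q (k + 4) := by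
    have h1 : ∀ e ∈ F, Pot e (lk (st (β k)).2.2.2.2 e) ≤ q (k + E + 4) := fun e he => by
      have := hb2 e (Finset.mem_toList.2 he)
      exact ((h.inv e (β k)).pot_le (by omega)).trans (q_anti this)
    refine (Finset.sum_le_card_nsmul _ _ _ h1).trans ?_
    have h2 : F.card ≤ 2 ^ E := by
      refine (Finset.card_filter_le _ _).trans ?_
      rw [Finset.card_range]
      exact Nat.lt_two_pow_self.le
    have h3 : (F.card : ℝ) ≤ 2 ^ E := by exact_mod_cast h2
    rw [nsmul_eq_mul, show k + E + 4 = (k + 4) + E by ring, q_add (k + 4) E]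
    have h4 := q_mul_pow E
    have h5 := mul_le_mul_of_nonneg_right h3 (mul_pos (q_pos (k + 4)) (q_pos E)).le
    calc _ ≤ 2 ^ E * (q (k + 4) * q E) := h5
      _ = q (k + 4) * (q E * 2 ^ E) := by ring
      _ = q (k + 4) := by rw [h4, mul_one]
  have hd := (hD'.ge z y).trans hz
  refine le_of_tendsto (hD z y) ?_
  filter_upwards [eventually_ge_atTop (β k)] with t ht
  refine max_le ?_ ?_
  · refine le_trans ?_ (hz.trans (q_anti (by omega)))
    by_contra hlt
    rcases lt_DL c (not_le.1 hlt) with h1 | ⟨T, hT, h1⟩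
    · exact absurd (hD'.ge z y) (not_le.2 h1)
    · exact absurd (hcut t T hT z y) (not_le.2 h1)
  · have h0 : 0 ≤ ∑ e ∈ F, Pot e (lk (st t).2.2.2.2 e) :=
      Finset.sum_nonneg fun e _ => Pot_nonneg _ _
    have h1 := abs_le.1 (tail z (hd.trans (q_anti (by omega))) t ht)
    have h2 := abs_le.1 (tail y (by rw [dist_self]; exact (q_pos _).le) t ht)
    have h3 := ph_lip (c := c) j (st (β k)) z y
    have h4 := mul_le_mul_of_nonneg_left hd (show (0 : ℝ) ≤
      2 ^ (lam (sel j (st (β k)).2.1) + lam (sel j (st (β k)).2.2.1) + 1) by positivity)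
    rw [q_add, ← mul_assoc, mul_comm (2 ^ _ : ℝ) (q _), q_mul_pow, one_mul] at h4
    have h5 := abs_le.1 (h3.trans h4)
    have h6 := q_anti (show k + 1 ≤ k + E + 2 by omega)
    have h7 := q_anti (show k + 1 + 1 ≤ k + 4 by omega)
    have h8 := q_succ k
    have h9 := q_succ (k + 1)
    rw [abs_le]
    constructor <;> linarith [h1.1, h1.2, h2.1, h2.2, h5.1, h5.2]

end Run

end Pool.Agent.P.MP_fa5791_lc.Inf
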