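import Pool.Agent.P.MP_fa5791_lc.IDefs

namespace Pool.Agent.P.MP_fa5791_lc.Inf

open Pool.Agent.Lib.ComputableProp Filter Topology

variable {X : Type} [MetricSpace X] (c : ℕ → X)

theorem continuous_ph (i : ℕ) (st : IS) : Continuous (ph c i st) := continuous_phi c _

theorem good_DC (st : IS) : GoodD (DC c st) := good_DL c _

theorem good_DW (i : ℕ) (st : IS) : GoodD (DW c i st) := by
  have h := good_DC c st
  refine ⟨fun x => by simp [DW, h.self], fun x y => by rw [DW, DW, h.comm, abs_sub_comm],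
    fun x y z => ?_, fun x y => (h.ge x y).trans (le_max_left _ _), ?_⟩
  · exact max_le ((h.tri x y z).trans (add_le_add (le_max_left _ _) (le_max_left _ _)))
      ((abs_sub_le _ (ph c i st y) _).trans (add_le_add (le_max_right _ _) (le_max_right _ _)))
  · have := continuous_ph c i st
    have h2 := h.cont
    unfold DW
    fun_prop

@[simp] theorem sel_cons (i t : ℕ) (T : Tent) (L : List TT) :
    sel i ((t, T) :: L) = if t = i then T :: sel i L else sel i L := by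
  unfold sel
  by_cases h : t = i <;> simp [h, eqb]

@[simp] theorem lk_cons (e e' : ℕ) (d : Dt) (R : List (ℕ × Dt)) :
    lk ((e, d) :: R) e' = if e = e' then d else lk R e' := by
  unfold lk
  by_cases h : e = e' <;> simp [h, eqb]

variable {c}

theorem exists_NewI (hc : DenseRange c) {m : ℕ} (hm : ∀ ε > 0, ∃ y, y ≠ c m ∧ dist y (c m) < ε)
    (i : ℕ) (st : IS) (τ : ℕ) : ∃ m' j, NewI c i st τ m m' j := by
  classical
  have hcont : Continuous fun y => DW c i st y (c m) :=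
    (good_DW c i st).cont.comp (continuous_id.prodMk continuous_const)
  have hU : IsOpen {y | DW c i st y (c m) < q τ} := isOpen_lt hcont continuous_const
  have hF : (c '' Set.Iio st.1).Finite := (Set.finite_Iio _).image _
  have hU2 : IsOpen ({y | DW c i st y (c m) < q τ} \ (c '' Set.Iio st.1 \ {c m})) :=
    hU.sdiff (hF.subset Set.sdiff_subset).isClosed
  obtain ⟨ε, hε, hb⟩ := Metric.isOpen_iff.1 hU2 (c m)
    ⟨by simp [(good_DW c i st).self, q_pos], by simp⟩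
  obtain ⟨y, hy, hyd⟩ := hm ε hε
  have hy2 := hb hyd
  obtain ⟨m', hm'⟩ := hc.exists_mem_open (hU.sdiff hF.isClosed)
    ⟨y, hy2.1, fun h => hy2.2 ⟨h, hy⟩⟩
  have : ∀ n ≤ st.1, ∃ j, ∀ i < n, q j < dist (c m') (c i) := by
    intro n
    induction n with
    | zero => intro _; exact ⟨0, by simp⟩
    | succ n ih =>
      intro hn
      obtain ⟨j, hj⟩ := ih (by omega)
      have hne : c m' ≠ c n := fun h => hm'.2 ⟨n, show n < st.1 by omega, h.symm⟩
      obtain ⟨j', hj'⟩ := exists_q_lt (dist_pos.2 hne)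
      refine ⟨max j j', fun i hi => ?_⟩
      rcases (by omega : i < n ∨ i = n) with h | rfl
      · exact (q_anti (le_max_left _ _)).trans_lt (hj i h)
      · exact (q_anti (le_max_right _ _)).trans_lt hj'
  obtain ⟨j, hj⟩ := this _ le_rfl
  exact ⟨m', j, hm'.1, hj⟩

theorem rl_total (hc : DenseRange c) {P : ℕ → ℕ} {p0 r : ℕ}
    (hp : ∀ x, dist x (c p0) < q r → ∀ ε > 0, ∃ y, y ≠ x ∧ dist y x < ε)
    (hP : ∀ a, dist (c (P a)) (c p0) < q (r + 2)) (s : ℕ) (st : IS) :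
    ∃ st', Rl c P p0 r s st st' := by
  unfold Rl
  set e := s.unpair.1
  set d := lk st.2.2.2.2 e
  set p := P (ba e)
  rcases (by omega : d.1 = 0 ∨ d.1 = 1 ∨ 2 ≤ d.1) with h | h | h
  · by_cases h0 : ∀ w : V0, Encodable.encode w < s → Ns0 c p r s e st w
    · exact ⟨_, Or.inl ⟨h, Or.inl ⟨h0, rfl⟩⟩⟩
    · push Not at h0
      obtain ⟨w, -, hw⟩ := h0
      unfold Ns0 at hw
      push Not at hw
      obtain ⟨m', j, hN⟩ := exists_NewI hc
        (hp (c p) ((hP _).trans_le (q_anti (by omega)))) (tg e) st (w.2.2.2.2.2.1 + 3)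
      exact ⟨_, Or.inl ⟨h, Or.inr ⟨w, m', j, ⟨by simpa using hw.1, valW_of_not hw.2.1,
        valW_of_not hw.2.2⟩, hN, rfl⟩⟩⟩
  · by_cases h0 : ∀ w : W1, Encodable.encode w < s → Ns1 c s e st d w
    · exact ⟨_, Or.inr (Or.inl ⟨h, Or.inl ⟨h0, rfl⟩⟩)⟩
    · push Not at h0
      obtain ⟨w, -, hw⟩ := h0
      unfold Ns1 at hw
      push Not at hw
      obtain ⟨ρ, j, hN⟩ := exists_Cut (c := c) st.1 w.2.2.1 w.2.2.2
      exact ⟨_, Or.inr (Or.inl ⟨h, Or.inr ⟨w, ρ, j, ⟨by simpa using hw.1, valW_of_not hw.2.1,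
        sepW_of_not hw.2.2⟩, hN, rfl⟩⟩)⟩
  · by_cases h2 : q (r + 1) < dist (c d.2.1.1) (c p0)
    · exact ⟨_, Or.inr (Or.inr ⟨h, Or.inl ⟨h2, rfl⟩⟩)⟩
    by_cases h0 : ∀ w : W2, Encodable.encode w < s → Ns2 c s e st d w
    · exact ⟨_, Or.inr (Or.inr ⟨h, Or.inr (Or.inl ⟨h0, rfl⟩)⟩)⟩
    push Not at h0
    obtain ⟨w, -, hw⟩ := h0
    unfold Ns2 at hw
    push Not at hw
    have hm : dist (c d.2.1.1) (c p0) < q r := by
      have := q_succ r
      have := q_pos r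
      linarith [not_lt.1 h2]
    obtain ⟨sz, hsz⟩ : ∃ sz, SideC c e d w.2.2 sz := by
      have := q_pos (e + 3)
      by_cases h3 : 2 ^ d.2.2.2.2.2 * dist (c w.2.2) (c d.2.2.2.1) <
        (d.2.2.2.2.1 : ℕ) + q (e + 3)
      · exact ⟨1, Or.inl ⟨rfl, h3⟩⟩
      · exact ⟨0, Or.inr ⟨rfl, by linarith [not_lt.1 h3]⟩⟩
    obtain ⟨up, hup⟩ : ∃ up, SignC c (tg e) st d.2.1.1 (pick d sz).1 (tau s d w.2.1 sz) up := by
      have := q_pos (tau s d w.2.1 sz)
      by_cases h3 : tsm c (sel (tg e) st.2.1) (c d.2.1.1) +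
          tsm c (sel (tg e) st.2.2.1) (c (pick d sz).1) <
        tsm c (sel (tg e) st.2.1) (c (pick d sz).1) + tsm c (sel (tg e) st.2.2.1) (c d.2.1.1) +
          q (tau s d w.2.1 sz)
      · exact ⟨1, Or.inl ⟨rfl, h3⟩⟩
      · exact ⟨0, Or.inr ⟨rfl, by linarith [not_lt.1 h3]⟩⟩
    obtain ⟨m', j, hN⟩ := exists_NewI hc (hp _ hm) (tg e) st (tau s d w.2.1 sz)
    exact ⟨_, Or.inr (Or.inr ⟨h, Or.inr (Or.inr ⟨w, (sz, up, m', j),
      ⟨by simpa using hw.1, valW_of_not hw.2⟩, hsz, hup, hN, rfl⟩)⟩)⟩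

theorem NewI.van {i : ℕ} {st : IS} {τ m m' j : ℕ} (h : NewI c i st τ m m' j) (k : ℕ) :
    Van c st.1 (m', 0, j, k) := by
  intro l hl
  refine tv_eq_zero c _ _ ?_
  have := h.2 l hl
  have h2 := q_mul_pow j
  have h3 : (0 : ℝ) < 2 ^ j := by positivity
  simp only [Nat.cast_zero, sub_zero]
  rw [abs_of_nonneg (by positivity), dist_comm]
  nlinarith

theorem grow_sel {n i t : ℕ} {T : Tent} (hT : Van c n T) (L : List TT) :
    Grow c n (sel i L) (sel i ((t, T) :: L)) := by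
  rw [sel_cons]
  split_ifs
  · exact Or.inr ⟨T, hT, rfl⟩
  · exact Or.inl rfl

variable (c) in
/-- shape of a transition -/
def Shp (e : ℕ) (st st' : IS) : Prop :=
  (∀ i, Shape c e (view i st) (view i st')) ∧ ∀ e' ≠ e, lk st'.2.2.2.2 e' = lk st.2.2.2.2 e'

theorem shp_idl (e : ℕ) (st : IS) : Shp c e st (idl st) :=
  ⟨fun _ => ⟨Nat.lt_succ_self _, Or.inl rfl, Or.inl rfl, Or.inl rfl, fun _ _ => rfl⟩,
    fun _ _ => rfl⟩

theorem RlG.shp {p p0 r s e : ℕ} {d : Dt} {st st' : IS} (h : RlG c p p0 r s e d st st') :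
    Shp c e st st' := by
  rcases h with ⟨-, ⟨-, rfl⟩ | ⟨w, m', j, -, hN, rfl⟩⟩ | ⟨-, ⟨-, rfl⟩ | ⟨w, ρ, j, -, hN, rfl⟩⟩ |
    ⟨-, ⟨-, rfl⟩ | ⟨-, rfl⟩ | ⟨w, y, -, -, -, hN, rfl⟩⟩
  · exact shp_idl _ _
  · exact ⟨fun i => ⟨by simp [view, nx0], grow_sel (hN.van _) _, Or.inl rfl, Or.inl rfl,
      fun _ _ => rfl⟩, fun e' he => by simp [nx0, he.symm]⟩
  · exact shp_idl _ _
  · exact ⟨fun i => ⟨by simp [view, nx1], Or.inl rfl, Or.inl rfl, Or.inr ⟨_, hN.van _, rfl⟩,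
      fun _ _ => rfl⟩, fun e' he => by simp [nx1, he.symm]⟩
  · exact shp_idl _ _
  · exact shp_idl _ _
  · refine ⟨fun i => ⟨by simp [view, nx2], ?_, ?_, Or.inl rfl, fun _ _ => rfl⟩,
      fun e' he => by simp [nx2, he.symm]⟩
    · simp only [view, nx2]
      cases eqb y.2.1 1
      · exact Or.inl rfl
      · exact grow_sel (hN.van _) _
    · simp only [view, nx2]
      cases eqb y.2.1 1
      · exact grow_sel (hN.van _) _
      · exact Or.inl rfl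

namespace Shp

variable {e : ℕ} {st st' : IS} (h : Shp c e st st')
include h

theorem lt : st.1 < st'.1 := (h.1 0).1

theorem ph_fr (i : ℕ) {l : ℕ} (hl : l < st.1) : ph c i st' (c l) = ph c i st (c l) :=
  (h.1 i).phi_frozen hl

theorem DC_fr {l m : ℕ} (hl : l < st.1) (hm : m < st.1) :
    DC c st' (c l) (c m) = DC c st (c l) (c m) := (h.1 0).D1_frozen hl hm

theorem DW_fr (i : ℕ) {l m : ℕ} (hl : l < st.1) (hm : m < st.1) :
    DW c i st' (c l) (c m) = DW c i st (c l) (c m) := by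
  unfold DW
  rw [h.DC_fr hl hm, h.ph_fr i hl, h.ph_fr i hm]

end Shp

/-- total height in space `i` -/
noncomputable def HH (i : ℕ) (st : IS) : ℝ := H0 (view i st) + H1 (view i st)

theorem Shp.DC_diff {e : ℕ} {st st' : IS} (h : Shp c e st st') (i : ℕ) (x y : X) :
    |DC c st' x y - DC c st x y| ≤ HH i st' - HH i st := by
  have h1 := (h.1 i).D1_diff x y
  have h3 := (h.1 i).2.1.hts_le
  have h4 := (h.1 i).2.2.1.hts_le
  unfold HH H0
  change |DC c st' x y - DC c st x y| ≤ _ at h1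
  linarith

theorem Shp.DW_diff {e : ℕ} {st st' : IS} (h : Shp c e st st') (i : ℕ) (x y : X) :
    |DW c i st' x y - DW c i st x y| ≤ HH i st' - HH i st := by
  have h1 := (h.1 i).2.1.tsm_diff x y
  have h2 := (h.1 i).2.2.1.tsm_diff x y
  have h5 := (h.1 i).2.2.2.1.hts_le
  unfold DW
  refine (abs_max_sub_max_le_max _ _ _ _).trans (max_le (h.DC_diff i x y) ?_)
  refine (abs_abs_sub_abs_le_abs_sub _ _).trans ?_
  unfold ph phi HH H0 H1
  rw [abs_le] at h1 h2 ⊢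
  constructor <;> linarith [h1.1, h1.2, h2.1, h2.2]

variable (c) in
/-- geometric invariant of the search -/
structure Geo (p r e s : ℕ) (st : IS) (d : Dt) : Prop where
  hp : p < st.1
  hz : d.2.1.1 < st.1
  hO : d.2.2.1.1 < st.1
  hY : d.2.2.1.2.2.1 < st.1
  hb : e + r + 2 ≤ d.2.1.2.1
  hs : d.2.2.1.2.2.2.2 ≤ 1
  dp : DC c st (c d.2.1.1) (c p) ≤ Eb d.2.1.2.1 s
  fp : |ph c (tg e) st (c d.2.1.1) - ph c (tg e) st (c p)| + q (d.2.1.2.1 + 2 + d.2.1.2.2) ≤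
    q (d.2.1.2.1 + 1) + Eb d.2.1.2.1 s
  dO : DC c st (c d.2.1.1) (c d.2.2.1.1) ≤ Eb d.2.2.1.2.1 s
  fO : |ph c (tg e) st (c d.2.1.1) - ph c (tg e) st (c d.2.2.1.1)| ≤
    q (d.2.1.2.1 + 2 + d.2.1.2.2) + Eb d.2.2.1.2.1 s
  dY : DC c st (c d.2.1.1) (c d.2.2.1.2.2.1) ≤ Eb d.2.2.1.2.2.2.1 s
  fY : |ph c (tg e) st (c d.2.1.1) - ph c (tg e) st (c d.2.2.1.2.2.1)| ≤
    q (d.2.1.2.1 + 2 + d.2.1.2.2) + Eb d.2.2.1.2.2.2.1 s

theorem Eb_mono (b s : ℕ) : Eb b s ≤ Eb b (s + 1) := by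
  rw [Eb_succ]; linarith [q_pos (b + s + 4)]

theorem Geo.step {p r e e' s : ℕ} {st st' : IS} {d : Dt} (h : Geo c p r e s st d)
    (hs : Shp c e' st st') : Geo c p r e (s + 1) st' d := by
  have := Eb_mono d.2.1.2.1 s
  have := Eb_mono d.2.2.1.2.1 s
  have := Eb_mono d.2.2.1.2.2.2.1 s
  refine ⟨h.hp.trans hs.lt, h.hz.trans hs.lt, h.hO.trans hs.lt, h.hY.trans hs.lt, h.hb, h.hs,
    ?_, ?_, ?_, ?_, ?_, ?_⟩
  · rw [hs.DC_fr h.hz h.hp]; linarith [h.dp]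
  · rw [hs.ph_fr _ h.hz, hs.ph_fr _ h.hp]; linarith [h.fp]
  · rw [hs.DC_fr h.hz h.hO]; linarith [h.dO]
  · rw [hs.ph_fr _ h.hz, hs.ph_fr _ h.hO]; linarith [h.fO]
  · rw [hs.DC_fr h.hz h.hY]; linarith [h.dY]
  · rw [hs.ph_fr _ h.hz, hs.ph_fr _ h.hY]; linarith [h.fY]

theorem Geo.DW_le {p r e s : ℕ} {st : IS} {d : Dt} (h : Geo c p r e s st d) :
    DW c (tg e) st (c d.2.1.1) (c p) ≤ 3 / 4 * q d.2.1.2.1 := by
  have := Eb_le d.2.1.2.1 s
  have := q_pos d.2.1.2.1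
  have := q_succ d.2.1.2.1
  have := q_pos (d.2.1.2.1 + 2 + d.2.1.2.2)
  exact max_le (by linarith [h.dp]) (by linarith [h.fp])

theorem Geo.dist_le {p r e s : ℕ} {st : IS} {d : Dt} (h : Geo c p r e s st d) :
    dist (c d.2.1.1) (c p) ≤ q d.2.1.2.1 / 4 :=
  ((good_DC c st).ge _ _).trans (h.dp.trans (Eb_le _ _))

variable (c) in
/-- structural invariant of a requirement -/
def Inv (p r e s : ℕ) (st : IS) (d : Dt) : Prop :=
  d.1 = 0 ∨
  (d.1 = 1 ∧ Geo c p r e s st d ∧ d.2.1.2.2 = 0 ∧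
    d.2.2.1 = (p, d.2.2.1.2.1, p, d.2.2.1.2.1, 0) ∧
    q (d.2.1.2.1 + 3) < |ph c (tg e) st (c d.2.1.1) - ph c (tg e) st (c p)|) ∨
  (d.1 = 2 ∧ Geo c p r e s st d)

theorem Inv.same {p r e e' s : ℕ} {st st' : IS} {d : Dt} (h : Inv c p r e s st d)
    (hs : Shp c e' st st') : Inv c p r e (s + 1) st' d := by
  rcases h with h | ⟨h1, h2, h3, h4, h5⟩ | ⟨h1, h2⟩
  · exact Or.inl h
  · refine Or.inr (Or.inl ⟨h1, h2.step hs, h3, h4, ?_⟩)
    rwa [hs.ph_fr _ h2.hz, hs.ph_fr _ h2.hp]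
  · exact Or.inr (Or.inr ⟨h1, h2.step hs⟩)

theorem NewI.abs_ph {i : ℕ} {st : IS} {τ m m' j : ℕ} (h : NewI c i st τ m m' j) :
    |ph c i st (c m') - ph c i st (c m)| < q τ := (le_max_right _ _).trans_lt h.1

theorem NewI.DC_lt {i : ℕ} {st : IS} {τ m m' j : ℕ} (h : NewI c i st τ m m' j) :
    DC c st (c m') (c m) < q τ := (le_max_left _ _).trans_lt h.1

theorem ph_eq (i : ℕ) (st : IS) (x : X) :
    ph c i st x = tsm c (sel i st.2.1) x - tsm c (sel i st.2.2.1) x := rfl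

theorem pick_cases (d : Dt) (sz : ℕ) :
    (sz = d.2.2.1.2.2.2.2 ∧ pick d sz = (d.2.2.1.1, d.2.2.1.2.1)) ∨
    (sz ≠ d.2.2.1.2.2.2.2 ∧ pick d sz = (d.2.2.1.2.2.1, d.2.2.1.2.2.2.1)) := by
  by_cases h : sz = d.2.2.1.2.2.2.2
  · exact Or.inl ⟨h, by simp [pick, eqb, h]⟩
  · exact Or.inr ⟨h, by simp [pick, eqb, h]⟩

theorem Inv.step {p p0 r s e : ℕ} {d : Dt} {st st' : IS} (hR : RlG c p p0 r s e d st st')
    (hl : lk st.2.2.2.2 e = d) (h : Inv c p r e s st d) :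
    Inv c p r e (s + 1) st' (lk st'.2.2.2.2 e) := by
  have hsh := hR.shp
  have hidle : st' = idl st → Inv c p r e (s + 1) st' (lk st'.2.2.2.2 e) := by
    rintro rfl
    subst hl
    exact h.same hsh
  rcases hR with ⟨hd, ⟨-, h'⟩ | ⟨w, m', j, hw, hN, h'⟩⟩ | ⟨hd, ⟨-, h'⟩ | ⟨w, ρ, j, -, hN, h'⟩⟩ |
    ⟨hd, ⟨-, h'⟩ | ⟨-, h'⟩ | ⟨w, y, hw, hsd, hsg, hN, h'⟩⟩
  · exact hidle h'
  · have hdec := hw.1
    simp only [de0, Bool.and_eq_true, eqb_iff, leb_iff] at hdec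
    have hp : p < st.1 := by omega
    have e1 : ph c (tg e) st' (c m') = ph c (tg e) st (c m') + q (w.2.1 + 2) := by
      subst h'; simp [ph_eq, nx0, tv_center]; ring
    have e2 : ph c (tg e) st' (c p) = ph c (tg e) st (c p) := hsh.ph_fr _ hp
    have e3 : DC c st' (c m') (c p) = DC c st (c m') (c p) := by subst h'; rfl
    have e5 : lk st'.2.2.2.2 e = (1, (m', w.2.1, 0), (p, w.2.2.2.2.2.1, p, w.2.2.2.2.2.1, 0),
        (w.2.2.2.2.2.2, w.2.2.2.1 + 1, 0)) := by subst h'; simp [nx0]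
    have hz : m' < st'.1 := by subst h'; simp [nx0]
    have h1 := abs_lt.1 hN.abs_ph
    have h2 := hN.DC_lt
    have h3 := le_Eb w.2.2.2.2.2.1 (s + 1)
    have h4 := le_Eb w.2.1 (s + 1)
    have h5 := q_anti (show w.2.1 + 3 + 1 ≤ w.2.2.2.2.2.1 + 3 by omega)
    have h6 := q_succ (w.2.1 + 1)
    have h7 := q_succ (w.2.1 + 2)
    have h8 := q_succ (w.2.1 + 3)
    have h9 := q_pos (w.2.1 + 3)
    have ha : |ph c (tg e) st' (c m') - ph c (tg e) st' (c p)| ≤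
        q (w.2.1 + 2) + q (w.2.2.2.2.2.1 + 3) := by
      rw [e1, e2, abs_le]
      constructor <;> linarith [h1.1, h1.2]
    rw [e5]
    refine Or.inr (Or.inl ⟨rfl, ⟨hp.trans hsh.lt, hz, hp.trans hsh.lt, hp.trans hsh.lt,
      by simp only; omega, by simp, ?_, ?_, ?_, ?_, ?_, ?_⟩, rfl, rfl, ?_⟩)
    all_goals simp only [add_zero]
    · rw [e3]; linarith
    · linarith
    · rw [e3]; linarith
    · linarith
    · rw [e3]; linarith
    · linarith
    · refine lt_of_lt_of_le ?_ (le_abs_self _)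
      rw [e1, e2]
      linarith [h1.1]
  · exact hidle h'
  · obtain ⟨hG, -⟩ : Geo c p r e s st d ∧ True := by
      rcases h with h | h | h
      · omega
      · exact ⟨h.2.1, trivial⟩
      · omega
    have e5 : lk st'.2.2.2.2 e = (2, d.2.1, d.2.2.1, (w.2.2.1, ρ, j)) := by subst h'; simp [nx1]
    rw [e5]
    have := hG.step hsh
    exact Or.inr (Or.inr ⟨rfl, ⟨this.hp, this.hz, this.hO, this.hY, this.hb, this.hs, this.dp,
      this.fp, this.dO, this.fO, this.dY, this.fY⟩⟩)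
  · exact hidle h'
  · exact hidle h'
  · obtain ⟨hG, -⟩ : Geo c p r e s st d ∧ True := by
      rcases h with h | h | h
      · omega
      · omega
      · exact ⟨h.2, trivial⟩
    obtain ⟨sz, up, m', j⟩ := y
    simp only at hsd hsg hN h'
    have e3 : ∀ x, DC c st' (c m') x = DC c st (c m') x := by subst h'; exact fun _ => rfl
    have e5 : lk st'.2.2.2.2 e = (2, (m', d.2.1.2.1, d.2.1.2.2 + 1),
        ((pick d sz).1, (pick d sz).2, d.2.1.1, w.2.1, sz), d.2.2.2) := by subst h'; simp [nx2]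
    have hz : m' < st'.1 := by subst h'; simp [nx2]
    have hsz : sz ≤ 1 := by rcases hsd with h | h <;> omega
    obtain ⟨o1, o2, o3⟩ : (pick d sz).1 < st.1 ∧
        DC c st (c d.2.1.1) (c (pick d sz).1) ≤ Eb (pick d sz).2 s ∧
        |ph c (tg e) st (c d.2.1.1) - ph c (tg e) st (c (pick d sz).1)| ≤
          q (d.2.1.2.1 + 2 + d.2.1.2.2) + Eb (pick d sz).2 s := by
      rcases pick_cases d sz with ⟨-, h⟩ | ⟨-, h⟩ <;> rw [h]
      · exact ⟨hG.hO, hG.dO, hG.fO⟩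
      · exact ⟨hG.hY, hG.dY, hG.fY⟩
    have h1 := abs_lt.1 hN.abs_ph
    have h2 := hN.DC_lt
    have t1 : 2 * q (tau s d w.2.1 sz) ≤ q ((pick d sz).2 + s + 4) := by
      have := q_anti (show (pick d sz).2 + s + 4 + 1 ≤ tau s d w.2.1 sz by unfold tau; omega)
      rw [q_succ] at this
      linarith
    have t2 : q (tau s d w.2.1 sz) ≤ q (w.2.1 + 3) := q_anti (by unfold tau; omega)
    have t3 : q (tau s d w.2.1 sz) ≤ q (d.2.1.2.1 + s + 4) := q_anti (by unfold tau; omega)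
    have t4 := q_pos (tau s d w.2.1 sz)
    have b1 := Eb_succ (pick d sz).2 s
    have b2 := Eb_succ d.2.1.2.1 s
    have b3 := le_Eb w.2.1 (s + 1)
    have b4 := (q_pos _).trans_le (le_Eb (pick d sz).2 s)
    have hh : q (d.2.1.2.1 + 2 + (d.2.1.2.2 + 1)) = q (d.2.1.2.1 + 2 + d.2.1.2.2) / 2 :=
      q_succ _
    have hh0 := q_pos (d.2.1.2.1 + 2 + d.2.1.2.2)
    have tri1 := (good_DC c st).tri (c m') (c d.2.1.1) (c p)
    have tri2 := (good_DC c st).tri (c m') (c d.2.1.1) (c (pick d sz).1)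
    have e1 : (ph c (tg e) st' (c m') =
          ph c (tg e) st (c m') + q (d.2.1.2.1 + 2 + (d.2.1.2.2 + 1)) ∧
        ph c (tg e) st (c d.2.1.1) < ph c (tg e) st (c (pick d sz).1) + q (tau s d w.2.1 sz)) ∨
        (ph c (tg e) st' (c m') =
          ph c (tg e) st (c m') - q (d.2.1.2.1 + 2 + (d.2.1.2.2 + 1)) ∧
        ph c (tg e) st (c (pick d sz).1) < ph c (tg e) st (c d.2.1.1) + q (tau s d w.2.1 sz)) := by
      rcases hsg with ⟨rfl, h⟩ | ⟨rfl, h⟩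
      · left
        refine ⟨?_, by rw [ph_eq, ph_eq]; linarith⟩
        subst h'; simp [ph_eq, nx2, eqb, tv_center]; ring
      · right
        refine ⟨?_, by rw [ph_eq, ph_eq]; linarith⟩
        subst h'; simp [ph_eq, nx2, eqb, tv_center]; ring
    have f1 := abs_le.1 o3
    have f2 := hG.fp
    have f3 := le_abs_self (ph c (tg e) st (c d.2.1.1) - ph c (tg e) st (c p))
    have f4 := neg_abs_le (ph c (tg e) st (c d.2.1.1) - ph c (tg e) st (c p))
    rw [e5]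
    refine Or.inr (Or.inr ⟨rfl, ⟨hG.hp.trans hsh.lt, hz, o1.trans hsh.lt, hG.hz.trans hsh.lt,
      hG.hb, hsz, ?_, ?_, ?_, ?_, ?_, ?_⟩⟩)
    all_goals simp only
    · rw [e3]; linarith [hG.dp]
    · rw [hsh.ph_fr _ hG.hp, ← le_sub_iff_add_le, abs_le]
      rcases e1 with ⟨e1, -⟩ | ⟨e1, -⟩ <;> rw [e1] <;> constructor <;> linarith [h1.1, h1.2]
    · rw [e3]; linarith
    · rw [hsh.ph_fr _ o1, abs_le]
      rcases e1 with ⟨e1, e2⟩ | ⟨e1, e2⟩ <;> rw [e1] <;> constructor <;>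
        linarith [h1.1, h1.2, f1.1, f1.2]
    · rw [e3]; linarith
    · rw [hsh.ph_fr _ hG.hz, abs_le]
      rcases e1 with ⟨e1, -⟩ | ⟨e1, -⟩ <;> rw [e1] <;> constructor <;> linarith [h1.1, h1.2]

end Pool.Agent.P.MP_fa5791_lc.Inf
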