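import Pool.Agent.P.MP_fa5791_lc.Oracle

namespace Pool.Agent.P.MP_fa5791_lc

open Pool.Agent.Lib.ComputableProp Filter Topology

/-- a continuous metric dominating the given one -/
structure GoodD {X : Type} [MetricSpace X] (D : X → X → ℝ) : Prop where
  self : ∀ x, D x x = 0
  comm : ∀ x y, D x y = D y x
  tri : ∀ x y z, D x z ≤ D x y + D y z
  ge : ∀ x y, dist x y ≤ D x y
  cont : Continuous fun z : X × X => D z.1 z.2

theorem GoodD.limit {X : Type} [MetricSpace X] {Ds : ℕ → X → X → ℝ} (h : ∀ s, GoodD (Ds s))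
    {u : ℕ → ℝ} (hu : Summable u) (hd : ∀ s x y, |Ds (s + 1) x y - Ds s x y| ≤ u s) :
    ∃ D, GoodD D ∧ ∀ x y, Tendsto (fun s => Ds s x y) atTop (𝓝 (D x y)) := by
  let D : X → X → ℝ := fun x y => Ds 0 x y + ∑' s, (Ds (s + 1) x y - Ds s x y)
  have hT : ∀ x y, Tendsto (fun s => Ds s x y) atTop (𝓝 (D x y)) := by
    intro x y
    have hs : Summable fun s => Ds (s + 1) x y - Ds s x y :=
      Summable.of_norm_bounded hu fun s => hd s x y
    have := hs.hasSum.tendsto_sum_nat.const_add (Ds 0 x y)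
    refine this.congr fun s => ?_
    rw [Finset.sum_range_sub (fun s => Ds s x y)]
    ring
  refine ⟨D, ⟨fun x => ?_, fun x y => ?_, fun x y z => ?_, fun x y => ?_, ?_⟩, hT⟩
  · refine tendsto_nhds_unique (hT x x) ?_
    simp only [(h _).self]
    exact tendsto_const_nhds
  · refine tendsto_nhds_unique (hT x y) ?_
    simp only [fun s => (h s).comm x y]
    exact hT y x
  · exact le_of_tendsto_of_tendsto' (hT x z) ((hT x y).add (hT y z)) fun s => (h s).tri x y z
  · exact ge_of_tendsto' (hT x y) fun s => (h s).ge x y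
  · refine (h 0).cont.add (continuous_tsum (fun s => (h (s + 1)).cont.sub (h s).cont) hu ?_)
    intro s z
    exact hd s z.1 z.2

/-- type synonym carrying a new metric -/
def Syn (X : Type) : Type := X

theorem GoodD.exists_space {X : Type} [MetricSpace X] [CompleteSpace X] {D : X → X → ℝ}
    (h : GoodD D) : ∃ (Y : Type) (_ : MetricSpace Y), CompleteSpace Y ∧
      ∃ e : X ≃ₜ Y, ∀ x y, dist (e x) (e y) = D x y := by
  let m : MetricSpace (Syn X) :=
    { dist := fun x y => D x y
      dist_self := h.self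
      dist_comm := h.comm
      dist_triangle := h.tri
      eq_of_dist_eq_zero := fun {x y} hxy => by
        have h1 : @dist X _ x y ≤ D x y := h.ge x y
        have h2 : D x y = 0 := hxy
        exact @eq_of_dist_eq_zero X _ x y (le_antisymm (h2 ▸ h1) dist_nonneg) }
  let e0 : X ≃ Syn X := Equiv.refl X
  have hd : ∀ x y, dist (e0 x) (e0 y) = D x y := fun _ _ => rfl
  have hl : LipschitzWith 1 e0.symm := LipschitzWith.of_dist_le_mul fun x y => by
    rw [NNReal.coe_one, one_mul]
    exact h.ge x y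
  have hc : Continuous e0 := by
    refine continuous_iff_continuousAt.2 fun x => ?_
    rw [ContinuousAt, tendsto_iff_dist_tendsto_zero]
    simp only [hd]
    have : Continuous fun y => D y x := h.cont.comp (continuous_id.prodMk continuous_const)
    have h2 := this.tendsto x
    rwa [h.self] at h2
  refine ⟨Syn X, m, ?_, ⟨e0, hc, hl.continuous⟩, hd⟩
  refine Metric.complete_of_cauchySeq_tendsto fun v hv => ?_
  obtain ⟨a, ha⟩ := cauchySeq_tendsto_of_complete (hl.uniformContinuous.comp_cauchySeq hv)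
  exact ⟨e0 a, (hc.tendsto a).comp ha⟩

/-- presentation of a complete space by a dense sequence with computable distances -/
def Pres {Y : Type} [MetricSpace Y] (c : ℕ → Y) : Prop :=
  DenseRange c ∧ CR (fun z : ℕ × ℕ => dist (c z.1) (c z.2))

/-- the conclusion: two presentations without a computable homeomorphism -/
def Concl (X : Type) [TopologicalSpace X] : Prop :=
  ∃ (Y Z : Type) (_ : MetricSpace Y) (_ : MetricSpace Z) (c0 : ℕ → Y) (c1 : ℕ → Z),
    CompleteSpace Y ∧ CompleteSpace Z ∧ Pres c0 ∧ Pres c1 ∧ Nonempty (Y ≃ₜ X) ∧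
    Nonempty (Z ≃ₜ X) ∧ ∀ h : Y ≃ₜ Z, ¬ (CompMap c0 c1 h ∧ CompMap c1 c0 h.symm)

/-- soundness, for two metrics on the same set -/
def SoundD {X : Type} (c : ℕ → X) (D D' : X → X → ℝ) (f : X → X) (e : ℕ) : Prop :=
  ∀ s σ k w, com e s σ k = some w → ∀ x,
    (∀ i < σ.length, D (c (σ.getD i 0)) x ≤ 1 / 2 ^ i) → D' (c w) (f x) ≤ 1 / 2 ^ k

/-- totality, for a metric given as a function -/
def ComplD {X : Type} (c : ℕ → X) (D : X → X → ℝ) (e : ℕ) : Prop :=
  ∀ (x : X) (k : ℕ), ∃ (σ : List ℕ) (w s0 : ℕ),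
    (∀ i < σ.length, D (c (σ.getD i 0)) x ≤ 1 / 2 ^ (i + 1)) ∧
      ∀ s ≥ s0, com e s σ k = some w

theorem concl_of_metrics {X : Type} [MetricSpace X] [CompleteSpace X] {c : ℕ → X}
    (hc : DenseRange c) {D D' : X → X → ℝ} (hD : GoodD D) (hD' : GoodD D')
    (h1 : CR fun z : ℕ × ℕ => D (c z.1) (c z.2)) (h2 : CR fun z : ℕ × ℕ => D' (c z.1) (c z.2))
    (H : ∀ (f g : X → X) (e1 e2 : ℕ), (∀ x, g (f x) = x) → SoundD c D D' f e1 → ComplD c D e1 →
      SoundD c D' D g e2 → ComplD c D' e2 → False) : Concl X := by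
  obtain ⟨Y, mY, hY, e, he⟩ := hD.exists_space
  obtain ⟨Z, mZ, hZ, e', he'⟩ := hD'.exists_space
  have d1 : DenseRange (fun i => e (c i)) := e.surjective.denseRange.comp hc e.continuous
  have d2 : DenseRange (fun i => e' (c i)) := e'.surjective.denseRange.comp hc e'.continuous
  refine ⟨Y, Z, mY, mZ, fun i => e (c i), fun i => e' (c i), hY, hZ,
    ⟨d1, h1.of_eq fun z => (he _ _).symm⟩, ⟨d2, h2.of_eq fun z => (he' _ _).symm⟩,
    ⟨e.symm⟩, ⟨e'.symm⟩, ?_⟩
  rintro h ⟨k1, k2⟩
  obtain ⟨e1, s1, t1⟩ := exists_com d1 k1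
  obtain ⟨e2, s2, t2⟩ := exists_com d2 k2
  refine H (fun x => e'.symm (h (e x))) (fun y => e.symm (h.symm (e' y))) e1 e2
    (fun x => by simp) ?_ ?_ ?_ ?_
  · intro s σ k w hw x hx
    have := s1 s σ k w hw (e x) (by simpa only [he] using hx)
    rw [← he']
    simpa using this
  · intro x k
    simpa only [he] using t1 (e x) k
  · intro s σ k w hw x hx
    have := s2 s σ k w hw (e' x) (by simpa only [he'] using hx)
    rw [← he]
    simpa using this
  · intro x k
    simpa only [he'] using t2 (e' x) k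

end Pool.Agent.P.MP_fa5791_lc
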