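import Pool.Agent.P.MP_fa5791_lc.Defs
import Pool.Agent.Lib.ComputableProp.Basic

namespace Pool.Agent.P.MP_fa5791_lc

open Pool.Agent.Lib.ComputableProp

theorem OracleRec.mono {F : (ℕ →. ℕ) → ℕ →. ℕ} (hF : OracleRec F) {o o' : ℕ →. ℕ}
    (h : ∀ n w, w ∈ o n → w ∈ o' n) : ∀ k w, w ∈ F o k → w ∈ F o' k := by
  induction hF with
  | cZero | cSucc | cLeft | cRight => exact fun _ _ h => h
  | cOracle => exact h
  | cPair _ _ ihF ihG =>
    intro k w hw
    obtain ⟨a, ha, hb0⟩ := Part.mem_bind_iff.1 hw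
    obtain ⟨b, hb, rfl⟩ := (Part.mem_map_iff _).1 hb0
    exact Part.mem_bind_iff.2 ⟨a, ihF _ _ ha, (Part.mem_map_iff _).2 ⟨b, ihG _ _ hb, rfl⟩⟩
  | cComp _ _ ihF ihG =>
    intro k w hw
    obtain ⟨a, ha, hb⟩ := Part.mem_bind_iff.1 hw
    exact Part.mem_bind_iff.2 ⟨a, ihG _ _ ha, ihF _ _ hb⟩
  | cPrec _ _ ihF ihG =>
    intro k
    beta_reduce
    generalize (Nat.unpair k).2 = m
    induction m with
    | zero => exact fun w hw => ihF _ _ hw
    | succ m ih =>
      intro w hw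
      obtain ⟨a, ha, hb⟩ := Part.mem_bind_iff.1 hw
      exact Part.mem_bind_iff.2 ⟨a, ih _ ha, ihG _ _ hb⟩
  | cRfind _ ihF =>
    intro k w hw
    obtain ⟨h1, h2⟩ := Nat.mem_rfind.1 hw
    obtain ⟨a, ha, h1⟩ := (Part.mem_map_iff _).1 h1
    refine Nat.mem_rfind.2 ⟨(Part.mem_map_iff _).2 ⟨a, ihF _ _ ha, h1⟩, fun {m} hm => ?_⟩
    obtain ⟨b, hb, h3⟩ := (Part.mem_map_iff _).1 (h2 hm)
    exact (Part.mem_map_iff _).2 ⟨b, ihF _ _ hb, h3⟩

/-- restriction of an oracle to an initial segment -/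
def restr (o : ℕ →. ℕ) (L : ℕ) : ℕ →. ℕ := fun n => if n < L then o n else Part.none

theorem restr_mono (o : ℕ →. ℕ) {L L' : ℕ} (h : L ≤ L') :
    ∀ n w, w ∈ restr o L n → w ∈ restr o L' n := by
  intro n w hw
  unfold restr at hw ⊢
  split_ifs at hw with h1
  · rw [if_pos (by omega)]; exact hw
  · exact absurd hw (Part.notMem_none _)

theorem OracleRec.compact {F : (ℕ →. ℕ) → ℕ →. ℕ} (hF : OracleRec F) (o : ℕ →. ℕ) :
    ∀ k w, w ∈ F o k → ∃ L, w ∈ F (restr o L) k := by
  induction hF with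
  | cZero | cSucc | cLeft | cRight => exact fun _ _ h => ⟨0, h⟩
  | cOracle => exact fun k w hw => ⟨k + 1, by simpa [restr] using hw⟩
  | cPair hF hG ihF ihG =>
    intro k w hw
    obtain ⟨a, ha, hb0⟩ := Part.mem_bind_iff.1 hw
    obtain ⟨b, hb, rfl⟩ := (Part.mem_map_iff _).1 hb0
    obtain ⟨L1, h1⟩ := ihF _ _ ha
    obtain ⟨L2, h2⟩ := ihG _ _ hb
    exact ⟨max L1 L2, Part.mem_bind_iff.2 ⟨a, hF.mono (restr_mono o (le_max_left _ _)) _ _ h1,
      (Part.mem_map_iff _).2 ⟨b, hG.mono (restr_mono o (le_max_right _ _)) _ _ h2, rfl⟩⟩⟩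
  | cComp hF hG ihF ihG =>
    intro k w hw
    obtain ⟨a, ha, hb⟩ := Part.mem_bind_iff.1 hw
    obtain ⟨L1, h1⟩ := ihG _ _ ha
    obtain ⟨L2, h2⟩ := ihF _ _ hb
    exact ⟨max L1 L2, Part.mem_bind_iff.2 ⟨a, hG.mono (restr_mono o (le_max_left _ _)) _ _ h1,
      hF.mono (restr_mono o (le_max_right _ _)) _ _ h2⟩⟩
  | @cPrec F G hF hG ihF ihG =>
    intro k
    have hm := fun L L' (h : L ≤ L') (m : ℕ) => (OracleRec.cPrec hF hG).mono (restr_mono o h)
      (Nat.pair (Nat.unpair k).1 m)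
    simp only [Nat.unpair_pair] at hm
    beta_reduce
    generalize (Nat.unpair k).2 = m
    induction m with
    | zero => exact fun w hw => ihF _ _ hw
    | succ m ih =>
      intro w hw
      obtain ⟨a, ha, hb⟩ := Part.mem_bind_iff.1 hw
      obtain ⟨L1, h1⟩ := ih _ ha
      obtain ⟨L2, h2⟩ := ihG _ _ hb
      exact ⟨max L1 L2, Part.mem_bind_iff.2 ⟨a, hm _ _ (le_max_left _ _) _ _ h1,
        hG.mono (restr_mono o (le_max_right _ _)) _ _ h2⟩⟩
  | @cRfind F hF ihF =>
    intro k w hw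
    obtain ⟨h1, h2⟩ := Nat.mem_rfind.1 hw
    obtain ⟨a, ha, h1⟩ := (Part.mem_map_iff _).1 h1
    obtain ⟨L1, h3⟩ := ihF _ _ ha
    have key : ∀ n ≤ w, ∃ L, ∀ m < n, ∃ b ∈ F (restr o L) (Nat.pair k m),
        decide (b = 0) = false := by
      intro n
      induction n with
      | zero => intro _; exact ⟨0, by simp⟩
      | succ n ih =>
        intro hn
        obtain ⟨L, hL⟩ := ih (by omega)
        obtain ⟨b, hb, h4⟩ := (Part.mem_map_iff _).1 (h2 (show n < w by omega))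
        obtain ⟨L', h5⟩ := ihF _ _ hb
        refine ⟨max L L', fun m hm => ?_⟩
        rcases (by omega : m < n ∨ m = n) with h | rfl
        · obtain ⟨b', hb', h6⟩ := hL m h
          exact ⟨b', hF.mono (restr_mono o (le_max_left _ _)) _ _ hb', h6⟩
        · exact ⟨b, hF.mono (restr_mono o (le_max_right _ _)) _ _ h5, h4⟩
    obtain ⟨L2, h4⟩ := key w le_rfl
    refine ⟨max L1 L2, Nat.mem_rfind.2 ⟨(Part.mem_map_iff _).2
      ⟨a, hF.mono (restr_mono o (le_max_left _ _)) _ _ h3, h1⟩, fun {m} hm => ?_⟩⟩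
    obtain ⟨b, hb, h5⟩ := h4 m hm
    exact (Part.mem_map_iff _).2 ⟨b, hF.mono (restr_mono o (le_max_right _ _)) _ _ hb, h5⟩

/-- the finite oracle given by a list -/
def orc (σ : List ℕ) : ℕ →. ℕ := fun n => Part.ofOption σ[n]?

theorem OracleRec.partrec {F : (ℕ →. ℕ) → ℕ →. ℕ} (hF : OracleRec F) :
    Partrec (fun z : List ℕ × ℕ => F (orc z.1) z.2) := by
  induction hF with
  | cZero => exact (Computable.const 0).partrec
  | cSucc => exact Computable.partrec (f := fun z : List ℕ × ℕ => z.2 + 1) (by fun_prop)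
  | cLeft => exact Computable.partrec (f := fun z : List ℕ × ℕ => (Nat.unpair z.2).1) (by fun_prop)
  | cRight => exact Computable.partrec (f := fun z : List ℕ × ℕ => (Nat.unpair z.2).2) (by fun_prop)
  | cOracle => exact Computable.ofOption (f := fun z : List ℕ × ℕ => z.1[z.2]?) (by fun_prop)
  | cPair _ _ ihF ihG =>
    refine ihF.bind ?_
    refine Partrec.map (ihG.comp Computable.fst) ?_
    unfold Computable₂
    fun_prop
  | cComp _ _ ihF ihG =>
    refine ihG.bind ?_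
    exact ihF.comp (g := fun z : (List ℕ × ℕ) × ℕ => (z.1.1, z.2)) (by fun_prop)
  | @cPrec F G _ _ ihF ihG =>
    refine Partrec.nat_rec (f := fun z : List ℕ × ℕ => (Nat.unpair z.2).2)
      (g := fun z => F (orc z.1) (Nat.unpair z.2).1)
      (h := fun z p => G (orc z.1) (Nat.pair (Nat.unpair z.2).1 (Nat.pair p.1 p.2)))
      (by fun_prop) ?_ ?_
    · exact ihF.comp (g := fun z : List ℕ × ℕ => (z.1, (Nat.unpair z.2).1)) (by fun_prop)
    · exact ihG.comp (g := fun z : (List ℕ × ℕ) × ℕ × ℕ =>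
        (z.1.1, Nat.pair (Nat.unpair z.1.2).1 (Nat.pair z.2.1 z.2.2))) (by fun_prop)
  | @cRfind F _ ihF =>
    refine Partrec.rfind (p := fun (z : List ℕ × ℕ) n =>
      (F (orc z.1) (Nat.pair z.2 n)).map fun m => decide (m = 0)) ?_
    refine Partrec.map (ihF.comp (g := fun z : (List ℕ × ℕ) × ℕ => (z.1.1, Nat.pair z.1.2 z.2))
      (by fun_prop)) ?_
    have : Computable (fun z : ((List ℕ × ℕ) × ℕ) × ℕ => eqb z.2 0) := by fun_prop
    exact this

/-- stage `s` commitment of machine number `e` on the finite word `σ` at precision `k` -/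
def com (e s : ℕ) (σ : List ℕ) (k : ℕ) : Option ℕ :=
  Nat.Partrec.Code.evaln s (Denumerable.ofNat Nat.Partrec.Code e) (Encodable.encode (σ, k))

@[fun_prop] theorem c_com {α : Type} [Primcodable α] {e s k : α → ℕ} {σ : α → List ℕ}
    (he : Computable e) (hs : Computable s) (hσ : Computable σ) (hk : Computable k) :
    Computable (fun a => com (e a) (s a) (σ a) (k a)) := by
  unfold com
  exact c_evaln hs (c_ofNat _ he) (by fun_prop)

variable {Y Z : Type} [MetricSpace Y] [MetricSpace Z]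

/-- soundness of the commitments of machine `e` for the map `f` -/
def Sound (c : ℕ → Y) (c' : ℕ → Z) (f : Y → Z) (e : ℕ) : Prop :=
  ∀ s σ k w, com e s σ k = some w → ∀ x,
    (∀ i < σ.length, dist (c (σ.getD i 0)) x ≤ 1 / 2 ^ i) → dist (c' w) (f x) ≤ 1 / 2 ^ k

/-- machine `e` commits around every point -/
def Compl (c : ℕ → Y) (e : ℕ) : Prop :=
  ∀ (x : Y) (k : ℕ), ∃ (σ : List ℕ) (w s0 : ℕ),
    (∀ i < σ.length, dist (c (σ.getD i 0)) x ≤ 1 / 2 ^ (i + 1)) ∧
      ∀ s ≥ s0, com e s σ k = some w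

theorem exists_com {c : ℕ → Y} {c' : ℕ → Z} {f : Y → Z} (hc : DenseRange c)
    (h : CompMap c c' f) : ∃ e, Sound c c' f e ∧ Compl c e := by
  obtain ⟨F, hF, h⟩ := h
  obtain ⟨code, hcode⟩ := Nat.Partrec.Code.exists_code.1 hF.partrec
  have hmem : ∀ σ k w, w ∈ code.eval (Encodable.encode (σ, k)) ↔ w ∈ F (orc σ) k := by
    intro σ k w
    rw [hcode]
    simp only [Encodable.encodek, Part.coe_some, Part.bind_some, Part.mem_map_iff]
    simp
  have happ : ∀ x : Y, ∃ p : ℕ → ℕ, ∀ i, dist (c (p i)) x ≤ 1 / 2 ^ (i + 1) := by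
    intro x
    have : ∀ i : ℕ, ∃ j, dist (c j) x ≤ 1 / 2 ^ (i + 1) := by
      intro i
      obtain ⟨j, hj⟩ := hc.exists_dist_lt x (show (0 : ℝ) < 1 / 2 ^ (i + 1) by positivity)
      exact ⟨j, by rw [dist_comm]; exact hj.le⟩
    choose p hp using this
    exact ⟨p, hp⟩
  have hle : ∀ i : ℕ, (1 : ℝ) / 2 ^ (i + 1) ≤ 1 / 2 ^ i := fun i =>
    one_div_le_one_div_of_le (by positivity) (pow_le_pow_right₀ (by norm_num) (by omega))
  refine ⟨Encodable.encode code, ?_, ?_⟩
  · intro s σ k w hw x hx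
    have hw' : w ∈ F (orc σ) k := by
      rw [← hmem]
      unfold com at hw
      rw [Denumerable.ofNat_encode] at hw
      exact Nat.Partrec.Code.evaln_sound hw
    obtain ⟨p, hp⟩ := happ x
    let p' : ℕ → ℕ := fun i => if i < σ.length then σ.getD i 0 else p i
    have hp' : IsName c p' x := by
      intro i
      simp only [p']
      split_ifs with hi
      · exact hx i hi
      · exact (hp i).trans (hle i)
    obtain ⟨q, hq1, hq2⟩ := h x p' hp'
    have : w ∈ F (fun n => Part.some (p' n)) k := by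
      refine hF.mono ?_ k w hw'
      intro n v hv
      simp only [orc, Part.mem_ofOption, Option.mem_def] at hv
      obtain ⟨hn, rfl⟩ := List.getElem?_eq_some_iff.1 hv
      simp [p', hn]
    rw [Part.mem_unique this (hq1 k)]
    exact hq2 k
  · intro x k
    obtain ⟨p, hp⟩ := happ x
    obtain ⟨q, hq1, -⟩ := h x p (fun i => (hp i).trans (hle i))
    obtain ⟨L, hL⟩ := hF.compact _ k _ (hq1 k)
    have : q k ∈ F (orc ((List.range L).map p)) k := by
      refine hF.mono ?_ k _ hL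
      intro n v hv
      unfold restr at hv
      split_ifs at hv with hn
      · simp only [Part.mem_some_iff] at hv
        simp [orc, hn, hv]
      · exact absurd hv (Part.notMem_none _)
    rw [← hmem, Nat.Partrec.Code.evaln_complete] at this
    obtain ⟨s0, hs0⟩ := this
    refine ⟨(List.range L).map p, q k, s0, fun i hi => ?_, fun s hs => ?_⟩
    · have hi' : i < L := by simpa using hi
      simpa [hi'] using hp i
    · unfold com
      rw [Denumerable.ofNat_encode]
      exact Nat.Partrec.Code.evaln_mono hs hs0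

end Pool.Agent.P.MP_fa5791_lc
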