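import Pool.Agent.P.MP_fa5791_lc.TConcl

namespace Pool.Agent.P.MP_fa5791_lc.Two

open Pool.Agent.Lib.ComputableProp Filter Topology Set

/-- requirement, witness column, radius, killed column, stage -/
abbrev Act := ℕ × ℕ × ℕ × ℕ × ℕ
/-- word, radius, witness column, target column, output -/
abbrev WB := List ℕ × ℕ × ℕ × ℕ × ℕ

def acted (L : List Act) (e : ℕ) : Bool := L.any fun x => eqb x.1 e

def killed (L : List Act) (i a : ℕ) : Bool :=
  L.any fun x => eqb ((x.1 + 1) % 2) i && eqb x.2.2.2.1 a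

def hit (x : Act) (i m : ℕ) : Bool :=
  eqb (x.1 % 2) i && eqb x.2.1 m.unpair.1 && leb m.unpair.2.unpair.1 x.2.2.2.2 &&
    leb (x.2.2.2.2 + 1) m.unpair.2.unpair.2

/-- exponent of the extra height of point `m` on side `i`, zero for no extra height -/
def xp (L : List Act) (i m : ℕ) : ℕ :=
  L.foldr (fun x acc => cond (hit x i m) (x.2.2.1 + x.2.1 + 4 + m.unpair.2.unpair.1) acc) 0

noncomputable def qz (k : ℕ) : ℝ := ((cond (eqb k 0) 0 1 : ℕ) : ℝ) * q k

def brk (L : List Act) (e n : ℕ) : Bool :=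
  (List.range e).all fun e' =>
    !(leb (4 ^ e') n && leb (n + 1) (4 ^ (e' + 1)) && eqb (e' % 2) ((e + 1) % 2)) || acted L e'

def decB (s : ℕ) (L : List Act) (w : WB) : Bool :=
  !(acted L s.unpair.1) && leb (4 ^ s.unpair.1) w.2.2.1 &&
    leb (w.2.2.1 + 1) (4 ^ (s.unpair.1 + 1)) && !(killed L (s.unpair.1 % 2) w.2.2.1) &&
    brk L s.unpair.1 w.2.2.2.1 &&
    eqb (com (s.unpair.1 / 2) s w.1 (w.2.2.2.1 + 3)) (some w.2.2.2.2) &&
    eqb w.2.2.2.2.unpair.1 w.2.2.2.1

variable {X : Type} [MetricSpace X] (c : ℕ → X)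

noncomputable def dz (L : List Act) (i m n : ℕ) : ℝ :=
  max (dist (c m.unpair.1) (c n.unpair.1))
    |(q m.unpair.1 + qz (xp L i m)) - (q n.unpair.1 + qz (xp L i n))|

def WeakB (s : ℕ) (L : List Act) (w : WB) : Prop :=
  decB s L w = true ∧ ∀ l < w.1.length, w.1.getD l 0 ≤ s ∧
    dz c L (s.unpair.1 % 2) (w.1.getD l 0) (Nat.pair w.2.2.1 0) + q w.2.1 < q l

def NSB (s : ℕ) (L : List Act) (w : WB) : Prop :=
  decB s L w = false ∨ ∃ l < w.1.length, s < w.1.getD l 0 ∨
    q l < dz c L (s.unpair.1 % 2) (w.1.getD l 0) (Nat.pair w.2.2.1 0) + (q w.2.1 + q w.2.1)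

def RelB (s : ℕ) (L L' : List Act) : Prop :=
  ((∀ w : WB, Encodable.encode w < s → NSB c s L w) ∧ L' = L) ∨
    ∃ w : WB, WeakB c s L w ∧ L' = (s.unpair.1, w.2.2.1, w.2.1, w.2.2.2.1, s) :: L

section re
variable {c} {α : Type} [Primcodable α]

@[fun_prop] theorem c_acted {L : α → List Act} {e : α → ℕ} (hL : Computable L)
    (he : Computable e) : Computable fun a => acted (L a) (e a) := by
  unfold acted; fun_prop

@[fun_prop] theorem c_killed {L : α → List Act} {i e : α → ℕ} (hL : Computable L)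
    (hi : Computable i) (he : Computable e) : Computable fun a => killed (L a) (i a) (e a) := by
  unfold killed; fun_prop

@[fun_prop] theorem c_hit {x : α → Act} {i m : α → ℕ} (hx : Computable x)
    (hi : Computable i) (hm : Computable m) : Computable fun a => hit (x a) (i a) (m a) := by
  unfold hit; fun_prop

@[fun_prop] theorem c_xp {L : α → List Act} {i m : α → ℕ} (hL : Computable L)
    (hi : Computable i) (hm : Computable m) : Computable fun a => xp (L a) (i a) (m a) := by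
  unfold xp; fun_prop

@[fun_prop] theorem c_brk {L : α → List Act} {e n : α → ℕ} (hL : Computable L)
    (he : Computable e) (hn : Computable n) : Computable fun a => brk (L a) (e a) (n a) := by
  unfold brk; fun_prop

@[fun_prop] theorem c_decB {s : α → ℕ} {L : α → List Act} {w : α → WB} (hs : Computable s)
    (hL : Computable L) (hw : Computable w) : Computable fun a => decB (s a) (L a) (w a) := by
  unfold decB; fun_prop

theorem cr_qz {k : α → ℕ} (hk : Computable k) : CR fun a => qz (k a) :=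
  (cr_q hk).nat_mul (by fun_prop)

variable (hc : CR fun z : ℕ × ℕ => dist (c z.1) (c z.2))
include hc

theorem cr_dz {L : α → List Act} {i m n : α → ℕ} (hL : Computable L) (hi : Computable i)
    (hm : Computable m) (hn : Computable n) : CR fun a => dz c (L a) (i a) (m a) (n a) :=
  (cr_dist hc (by fun_prop) (by fun_prop)).max
    (((cr_q (by fun_prop)).add (cr_qz (by fun_prop))).abs_sub
      ((cr_q (by fun_prop)).add (cr_qz (by fun_prop))))

theorem re_WeakB {s : α → ℕ} {L : α → List Act} {w : α → WB} (hs : Computable s)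
    (hL : Computable L) (hw : Computable w) : RE fun a => WeakB c (s a) (L a) (w a) :=
  (RE.of_bool (by fun_prop)).and (RE.forall_lt (by fun_prop)
    ((RE.le (by fun_prop) (by fun_prop)).and
      (((cr_dz hc (by fun_prop) (by fun_prop) (by fun_prop) (by fun_prop)).add
        (cr_q (by fun_prop))).lt (cr_q (by fun_prop)))))

theorem re_NSB {s : α → ℕ} {L : α → List Act} {w : α → WB} (hs : Computable s)
    (hL : Computable L) (hw : Computable w) : RE fun a => NSB c (s a) (L a) (w a) :=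
  (RE.eq (by fun_prop) (by fun_prop)).or (RE.exists_lt (by fun_prop)
    ((RE.lt (by fun_prop) (by fun_prop)).or ((cr_q (by fun_prop)).lt
      ((cr_dz hc (by fun_prop) (by fun_prop) (by fun_prop) (by fun_prop)).add
        ((cr_q (by fun_prop)).add (cr_q (by fun_prop)))))))

theorem re_RelB' {s : α → ℕ} {L L' : α → List Act} (hs : Computable s) (hL : Computable L)
    (hL' : Computable L') : RE fun a => RelB c (s a) (L a) (L' a) :=
  ((re_forall_code hs (re_NSB hc (by fun_prop) (by fun_prop) (by fun_prop))).and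
    (RE.eq hL' hL)).or
  (RE.ex ((re_WeakB hc (by fun_prop) (by fun_prop) (by fun_prop)).and
    (RE.eq (by fun_prop) (by fun_prop))))

theorem re_RelB : RE fun z : (ℕ × List Act) × List Act => RelB c z.1.1 z.1.2 z.2 :=
  re_RelB' hc (by fun_prop) (by fun_prop) (by fun_prop)

end re

theorem relB_total (s : ℕ) (L : List Act) : ∃ L', RelB c s L L' := by
  by_cases h : ∀ w : WB, Encodable.encode w < s → NSB c s L w
  · exact ⟨L, Or.inl ⟨h, rfl⟩⟩
  · push Not at h
    obtain ⟨w, -, hw⟩ := h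
    unfold NSB at hw
    push Not at hw
    refine ⟨_, Or.inr ⟨w, ⟨by simpa using hw.1, fun l hl => ?_⟩, rfl⟩⟩
    have h1 := hw.2 l hl
    exact ⟨h1.1, by linarith [h1.2, q_pos w.2.1]⟩

theorem qz_zero : qz 0 = 0 := by simp [qz, eqb]

theorem qz_pos {k : ℕ} (h : k ≠ 0) : qz k = q k := by simp [qz, eqb, h]

theorem q_inj {a b : ℕ} (h : q a = q b) : a = b :=
  q_sep (n := b) (m := a) (by rw [h, sub_self, abs_zero]; exact q_pos _)

theorem qz_inj {a b : ℕ} (h : qz a = qz b) : a = b := by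
  by_cases ha : a = 0 <;> by_cases hb : b = 0
  · omega
  · rw [ha, qz_zero, qz_pos hb] at h; exact absurd h (q_pos _).ne
  · rw [hb, qz_zero, qz_pos ha] at h; exact absurd h (q_pos _).ne'
  · rw [qz_pos ha, qz_pos hb] at h; exact q_inj h

theorem acted_iff {L : List Act} {e : ℕ} : acted L e = true ↔ ∃ x ∈ L, x.1 = e := by
  simp only [acted, List.any_eq_true, eqb_iff]

theorem killed_iff {L : List Act} {i a : ℕ} :
    killed L i a = true ↔ ∃ x ∈ L, (x.1 + 1) % 2 = i ∧ x.2.2.2.1 = a := by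
  simp only [killed, List.any_eq_true, Bool.and_eq_true, eqb_iff]

theorem hit_iff {x : Act} {i m : ℕ} : hit x i m = true ↔ x.1 % 2 = i ∧ x.2.1 = m.unpair.1 ∧
    m.unpair.2.unpair.1 ≤ x.2.2.2.2 ∧ x.2.2.2.2 < m.unpair.2.unpair.2 := by
  simp only [hit, Bool.and_eq_true, eqb_iff, leb_iff, and_assoc, Nat.succ_le_iff]

theorem brk_iff {L : List Act} {e n : ℕ} : brk L e n = true ↔ ∀ e' < e, 4 ^ e' ≤ n →
    n < 4 ^ (e' + 1) → e' % 2 = (e + 1) % 2 → ∃ x ∈ L, x.1 = e' := by
  simp only [brk, List.all_eq_true, List.mem_range, Bool.or_eq_true, Bool.not_eq_true',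
    acted_iff, ← Bool.not_eq_true, Bool.and_eq_true, eqb_iff, leb_iff, Nat.succ_le_iff]
  refine forall₂_congr fun e' _ => ?_
  tauto

theorem decB_iff {s : ℕ} {L : List Act} {w : WB} : decB s L w = true ↔
    (¬ ∃ x ∈ L, x.1 = s.unpair.1) ∧ 4 ^ s.unpair.1 ≤ w.2.2.1 ∧ w.2.2.1 < 4 ^ (s.unpair.1 + 1) ∧
    (¬ ∃ x ∈ L, (x.1 + 1) % 2 = s.unpair.1 % 2 ∧ x.2.2.2.1 = w.2.2.1) ∧
    brk L s.unpair.1 w.2.2.2.1 = true ∧
    com (s.unpair.1 / 2) s w.1 (w.2.2.2.1 + 3) = some w.2.2.2.2 ∧
    w.2.2.2.2.unpair.1 = w.2.2.2.1 := by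
  simp only [decB, Bool.and_eq_true, Bool.not_eq_true', eqb_iff, leb_iff, and_assoc,
    Nat.succ_le_iff, ← acted_iff, ← killed_iff, Bool.not_eq_true]

theorem xp_spec (L : List Act) (i m : ℕ) : (xp L i m = 0 ∧ ∀ x ∈ L, ¬ hit x i m = true) ∨
    ∃ x ∈ L, hit x i m = true ∧ xp L i m = x.2.2.1 + x.2.1 + 4 + m.unpair.2.unpair.1 := by
  induction L with
  | nil => exact Or.inl ⟨rfl, by simp⟩
  | cons y L ih =>
    by_cases hy : hit y i m = true
    · exact Or.inr ⟨y, List.mem_cons_self, hy, by simp [xp, hy]⟩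
    · have e : xp (y :: L) i m = xp L i m := by simp [xp, hy]
      rw [e]
      rcases ih with ⟨h1, h2⟩ | ⟨x, h1, h2⟩
      · refine Or.inl ⟨h1, fun x hx => ?_⟩
        rcases List.mem_cons.1 hx with rfl | hx
        · exact hy
        · exact h2 x hx
      · exact Or.inr ⟨x, List.mem_cons_of_mem _ h1, h2⟩

theorem own_unique {e e' a : ℕ} (h1 : 4 ^ e ≤ a) (h2 : a < 4 ^ (e + 1)) (h3 : 4 ^ e' ≤ a)
    (h4 : a < 4 ^ (e' + 1)) : e = e' := by
  have k1 := (Nat.pow_lt_pow_iff_right (a := 4) (by norm_num)).1 (h1.trans_lt h4)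
  have k2 := (Nat.pow_lt_pow_iff_right (a := 4) (by norm_num)).1 (h3.trans_lt h2)
  omega

end Pool.Agent.P.MP_fa5791_lc.Two
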