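import Pool.Agent.P.MP_fa5791_lc.TBRun

namespace Pool.Agent.P.MP_fa5791_lc.Two

open Pool.Agent.Lib.ComputableProp Filter Topology Set

variable {X : Type} [MetricSpace X] {c : ℕ → X}

variable (c) in
/-- the listed points as points of the lifted space -/
noncomputable def yy (st : ℕ → List Act) (i m : ℕ) : ZZ (range (zz c st i)) :=
  ⟨zz c st i m, Or.inr ⟨m, rfl⟩⟩

theorem col {st : ℕ → List Act} {j w : ℕ} {p : ZZ (range (zz c st j))}
    (hd : dist (yy c st j w) p ≤ q (w.unpair.1 + 3)) :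
    ∃ m : ℕ, m.unpair.1 = w.unpair.1 ∧ p.1 = zz c st j m := by
  obtain ⟨p, hp⟩ := p
  have h1 : |(zz c st j w).2 - p.2| ≤ q (w.unpair.1 + 3) := (le_max_right _ _).trans hd
  rcases hp with h2 | ⟨m, rfl⟩
  · exfalso
    rw [h2.1, sub_zero] at h1
    have h3 := (RunB.hgt (c := c) (st := st) j w).1.trans ((le_abs_self _).trans h1)
    have h4 := q_anti (show w.unpair.1 + 1 ≤ w.unpair.1 + 3 by omega)
    have h5 := q_succ w.unpair.1
    linarith [q_pos w.unpair.1]
  · rw [abs_sub_comm] at h1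
    exact ⟨m, hgt_sep (RunB.hgt j w) (RunB.hgt j m) h1, rfl⟩

namespace RunB

variable {st : ℕ → List Act} (h : RunB c st) {e i j : ℕ} (he : e % 2 = i) (hj : (e + 1) % 2 = j)
  {f : ZZ (range (zz c st i)) → ZZ (range (zz c st j))} (hf : Function.Injective f)
  (hs : Sound (yy c st i) (yy c st j) f (e / 2))
include h he hj hf hs

theorem never : ¬ ∃ x, In st x ∧ x.1 = e := by
  rintro ⟨x, hx, rfl⟩
  obtain ⟨s, hxs⟩ := id hx
  obtain ⟨-, -, w, hw, e1, e2, e3, e4⟩ := h.birth hxs
  obtain ⟨-, -, -, -, -, d1, d2⟩ := decB_iff.1 hw.1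
  have hv := hw.2
  rw [← e1, ← e4] at d1
  rw [← e1, he, ← e2, ← e3] at hv
  rw [← e4] at d2
  have hball : ∀ p, dist p (yy c st i (Nat.pair x.2.1 0)) ≤ q x.2.2.1 →
      ∃ m : ℕ, m.unpair.1 = x.2.2.2.1 ∧ (f p).1 = zz c st j m := by
    intro p hp
    rw [← d2]
    refine col ?_
    rw [d2]
    refine hs _ _ _ _ d1 p fun l hl => ?_
    obtain ⟨h1, h2⟩ := hv l hl
    rw [h.dz_eq h1 (by simp)] at h2
    have h3 := dist_triangle_right (yy c st i (w.1.getD l 0)) p (yy c st i (Nat.pair x.2.1 0))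
    have h4 : dist (yy c st i (w.1.getD l 0)) (yy c st i (Nat.pair x.2.1 0)) =
      dist (zz c st i (w.1.getD l 0)) (zz c st i (Nat.pair x.2.1 0)) := rfl
    change _ ≤ q l
    linarith
  let μ : ℕ → ℕ := fun t => Nat.pair x.2.1 (Nat.pair t (x.2.2.2.2 + 1))
  have hμ1 : ∀ t ≤ x.2.2.2.2, XP st i (μ t) = x.2.2.1 + x.2.1 + 4 + t := by
    intro t ht
    have := h.XP_hit (i := i) (m := μ t) hx (hit_iff.2 (by simpa [μ, he] using ht))
    simpa [μ] using this
  have hμ2 : XP st i (μ (x.2.2.2.2 + 1)) = 0 := by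
    rcases XP_cases (st := st) i (μ (x.2.2.2.2 + 1)) with h1 | ⟨y, hy, h1, -⟩
    · exact h1
    · have h2 := hit_iff.1 h1
      simp only [μ, Nat.unpair_pair] at h2
      obtain rfl := h.uniq_col hy hx h2.2.1
      omega
  have hz : ∀ t, zz c st i (μ t) = (c x.2.1, q x.2.1 + qz (XP st i (μ t))) := fun t => by
    simp [zz, μ]
  have hz0 : zz c st i (Nat.pair x.2.1 0) = (c x.2.1, q x.2.1) := by
    simp [zz, h.XP_base, qz_zero]
  have hnear : ∀ t ≤ x.2.2.2.2 + 1,
      dist (yy c st i (μ t)) (yy c st i (Nat.pair x.2.1 0)) ≤ q x.2.2.1 := by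
    intro t ht
    change dist (zz c st i (μ t)) (zz c st i (Nat.pair x.2.1 0)) ≤ _
    rw [hz, hz0, Prod.dist_eq, dist_self, Real.dist_eq, add_sub_cancel_left]
    refine max_le (q_pos _).le ?_
    rcases (by omega : t ≤ x.2.2.2.2 ∨ t = x.2.2.2.2 + 1) with h1 | rfl
    · rw [hμ1 t h1, qz_pos (by omega), abs_of_pos (q_pos _)]
      exact q_anti (by omega)
    · rw [hμ2, qz_zero, abs_zero]
      exact (q_pos _).le
  have hinj : ∀ t ≤ x.2.2.2.2 + 1, ∀ t' ≤ x.2.2.2.2 + 1,
      yy c st i (μ t) = yy c st i (μ t') → t = t' := by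
    intro t ht t' ht' htt
    have h1 : zz c st i (μ t) = zz c st i (μ t') := congrArg Subtype.val htt
    rw [hz, hz] at h1
    have h2 := qz_inj (add_left_cancel (congrArg Prod.snd h1))
    rcases (by omega : t ≤ x.2.2.2.2 ∨ t = x.2.2.2.2 + 1) with h3 | rfl <;>
      rcases (by omega : t' ≤ x.2.2.2.2 ∨ t' = x.2.2.2.2 + 1) with h4 | rfl
    · rw [hμ1 t h3, hμ1 t' h4] at h2; omega
    · rw [hμ1 t h3, hμ2] at h2; omega
    · rw [hμ1 t' h4, hμ2] at h2; omega
    · rfl
  obtain ⟨β, τ, k1, k2⟩ := h.col_fin j x.2.2.2.1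
  have k3 := k1 x hx hj rfl
  choose! m m1 m2 using fun t (ht : t ≤ x.2.2.2.2 + 1) => hball _ (hnear t ht)
  have := Finset.card_le_card_of_injOn (s := Finset.range (x.2.2.2.2 + 2))
    (t := Finset.range (x.2.2.2.2 + 1))
    (fun t => if XP st j (m t) = 0 then x.2.2.2.2 else XP st j (m t) - β)
    (fun t ht => by
      have ht' : t ≤ x.2.2.2.2 + 1 := by simpa [Nat.lt_succ_iff] using ht
      simp only [Finset.coe_range, mem_Iio]
      rcases k2 _ (m1 t ht') with h1 | ⟨u, hu, h1⟩ <;> split_ifs <;> omega) (by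
      intro t ht t' ht' htt
      have h1 : t ≤ x.2.2.2.2 + 1 := by simpa [Nat.lt_succ_iff] using ht
      have h2 : t' ≤ x.2.2.2.2 + 1 := by simpa [Nat.lt_succ_iff] using ht'
      have h3 : XP st j (m t) = XP st j (m t') := by
        dsimp only at htt
        rcases k2 _ (m1 t h1) with h4 | ⟨u, hu, h4⟩ <;>
          rcases k2 _ (m1 t' h2) with h5 | ⟨u', hu', h5⟩ <;> split_ifs at htt <;> omega
      refine hinj t h1 t' h2 (hf (Subtype.ext ?_))
      rw [m2 t h1, m2 t' h2, zz, zz, h3, m1 t h1, m1 t' h2])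
  simp only [Finset.card_range] at this
  omega

theorem diagB (hL : Lift (zz c st i)) (hd : DenseRange (yy c st j)) (ho : IsOpenMap f)
    (ht : Compl (yy c st i) (e / 2)) : False := by
  have hn := h.never he hj hf hs
  obtain ⟨S, hS⟩ : ∃ S : ℕ, ∀ x, In st x → x.1 < e → x.2.2.2.2 < S := by
    have : ∀ k : ℕ, ∃ S : ℕ, ∀ x, In st x → x.1 < k → x.2.2.2.2 < S := by
      intro k
      induction k with
      | zero => exact ⟨0, fun _ _ h => absurd h (Nat.not_lt_zero _)⟩
      | succ k ih =>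
        obtain ⟨S, hS⟩ := ih
        by_cases hy : ∃ y, In st y ∧ y.1 = k
        · obtain ⟨y, hy, e1⟩ := hy
          refine ⟨S + y.2.2.2.2 + 1, fun x hx hk => ?_⟩
          rcases (by omega : x.1 < k ∨ x.1 = k) with h1 | h1
          · have := hS x hx h1; omega
          · rw [h.uniq hx hy (h1.trans e1.symm)]; omega
        · refine ⟨S, fun x hx hk => hS x hx ?_⟩
          have : x.1 ≠ k := fun h1 => hy ⟨x, hx, h1⟩
          omega
    exact this e
  have key : ∀ a, 4 ^ e ≤ a → a < 4 ^ (e + 1) → ∃ v < 4 ^ e + e,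
      (4 ^ e ≤ v ∧ ∃ x, In st x ∧ x.1 = v - 4 ^ e ∧ x.2.2.2.1 = a) ∨
      (v < 4 ^ e ∧ (f (yy c st i (Nat.pair a 0))).1 = (c v, q v)) := by
    intro a a1 a2
    by_cases hk : ∃ x, In st x ∧ (x.1 + 1) % 2 = i ∧ x.2.2.2.1 = a
    · obtain ⟨x, hx, k1, k2⟩ := hk
      have k3 : x.1 < e := by
        by_contra hle
        rcases (by omega : x.1 = e ∨ e < x.1) with h1 | h1
        · exact hn ⟨x, hx, h1⟩
        · obtain ⟨y, hy, h2⟩ := brk_iff.1 (h.dec hx).2.2.2.2 e h1 (k2 ▸ a1) (k2 ▸ a2)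
            (he.trans k1.symm)
          exact hn ⟨y, ⟨_, hy⟩, h2⟩
      exact ⟨4 ^ e + x.1, by omega, Or.inl ⟨by omega, x, hx, by omega, k2⟩⟩
    · have h1 : IsOpen {f (yy c st i (Nat.pair a 0))} := by
        rw [← image_singleton]
        exact ho _ (hL.iso _ ⟨_, rfl⟩)
      obtain ⟨m, hm⟩ := hd.exists_mem_open h1 (singleton_nonempty _)
      have hm' : yy c st j m = f (yy c st i (Nat.pair a 0)) := hm
      obtain ⟨σ, w0, s0, h2, h3⟩ := ht (yy c st i (Nat.pair a 0)) (m.unpair.1 + 3)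
      have h4 := hs s0 σ _ w0 (h3 s0 le_rfl) _ fun l hl =>
        (h2 l hl).trans (q_anti (Nat.le_succ l))
      rw [← hm', dist_comm] at h4
      have h7 : w0.unpair.1 = m.unpair.1 := by
        refine hgt_sep (hgt (c := c) (st := st) j m) (hgt (c := c) (st := st) j w0) ?_
        rw [abs_sub_comm]
        exact (le_max_right _ _).trans h4
      let w : WB := (σ, σ.length + 2, a, m.unpair.1, w0)
      obtain ⟨s, s1, s2⟩ := exists_att e (Encodable.encode w + 1 + s0 + S + σ.sum)
      have hb : ¬ brk (st s) e m.unpair.1 = true := by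
        intro hb
        rcases h.step s with ⟨h8, -⟩ | ⟨w', -, h8⟩
        · rcases h8 w (by omega) with h9 | ⟨l, hl, h9 | h9⟩
          · have : decB s (st s) w = true := by
              rw [decB_iff, s2]
              exact ⟨fun ⟨x, k1, k2⟩ => hn ⟨x, ⟨_, k1⟩, k2⟩, a1, a2,
                fun ⟨x, k1, k2⟩ => hk ⟨x, ⟨_, k1⟩, k2.1.trans he, k2.2⟩, hb, h3 s (by omega), h7⟩
            rw [this] at h9
            exact absurd h9 (by simp)
          · have : σ.getD l 0 ≤ σ.sum := by
              rw [List.getD_eq_getElem _ _ hl]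
              exact List.single_le_sum (fun _ _ => Nat.zero_le _) _ (List.getElem_mem hl)
            change s < σ.getD l 0 at h9
            omega
          · have k1 : σ.getD l 0 ≤ σ.sum := by
              rw [List.getD_eq_getElem _ _ hl]
              exact List.single_le_sum (fun _ _ => Nat.zero_le _) _ (List.getElem_mem hl)
            rw [s2, he, h.dz_eq (show w.1.getD l 0 ≤ s from k1.trans (by omega)) (by simp)] at h9
            have k2 : dist (zz c st i (σ.getD l 0)) (zz c st i (Nat.pair a 0)) ≤ q (l + 1) :=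
              h2 l hl
            have k3 := q_anti (show l + 3 ≤ σ.length + 2 from by
              have : l < σ.length := hl
              omega)
            have k4 : q (l + 3) = q l / 8 := by rw [q_succ, q_succ, q_succ]; ring
            have k5 := q_succ l
            change q l < dist (zz c st i (σ.getD l 0)) (zz c st i (Nat.pair a 0)) +
              (q (σ.length + 2) + q (σ.length + 2)) at h9
            linarith [q_pos l]
        · exact hn ⟨_, ⟨s + 1, by rw [h8]; exact List.mem_cons_self⟩, s2⟩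
      rw [brk_iff] at hb
      push Not at hb
      obtain ⟨e', b1, b2, b3, b4, b5⟩ := hb
      have b6 : m.unpair.1 < 4 ^ e := b3.trans_le (Nat.pow_le_pow_right (by norm_num) b1)
      refine ⟨m.unpair.1, by omega, Or.inr ⟨b6, ?_⟩⟩
      rw [← hm']
      have b7 : XP st j m = 0 := by
        rcases XP_cases (st := st) j m with k1 | ⟨x, hx, k1, -⟩
        · exact k1
        · have k2 := (hit_iff.1 k1).2.1
          have k3 : x.1 = e' := own_unique (h.dec hx).2.1 (h.dec hx).2.2.1 (k2 ▸ b2) (k2 ▸ b3)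
          exact absurd k3 (b5 x (h.mem_of_lt hx ((hS x hx (by omega)).trans_le (by omega))))
      simp [yy, zz, b7, qz_zero]
  choose! v v1 v2 using key
  have := Finset.card_le_card_of_injOn (s := Finset.Ico (4 ^ e) (4 ^ (e + 1)))
    (t := Finset.range (4 ^ e + e)) v
    (fun a ha => by
      have := Finset.mem_Ico.1 ha
      simpa using v1 a this.1 this.2) (by
      intro a ha a' ha' hv
      have h1 := Finset.mem_Ico.1 ha
      have h2 := Finset.mem_Ico.1 ha'
      rcases v2 a h1.1 h1.2 with ⟨k1, x, hx, k2, k3⟩ | ⟨k1, k2⟩ <;>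
        rcases v2 a' h2.1 h2.2 with ⟨l1, y, hy, l2, l3⟩ | ⟨l1, l2⟩
      · rw [← k3, ← l3, h.uniq hx hy (by rw [k2, l2, hv])]
      · omega
      · omega
      · rw [hv, ← l2] at k2
        have k3 := congrArg (fun p : ZZ (range (zz c st i)) => p.1.2) (hf (Subtype.ext k2))
        simp only [yy, zz, h.XP_base, qz_zero, add_zero, Nat.unpair_pair] at k3
        exact q_inj k3)
  rw [Nat.card_Ico, Finset.card_range, pow_succ] at this
  have h1 : e < 4 ^ e := Nat.lt_pow_self (by norm_num)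
  omega

end RunB

theorem caseB [CompleteSpace X] [Infinite X] (hc : Pres c) (hi : Function.Injective c)
    (hI : Dense {x : X | IsOpen {x}}) : ConclT X := by
  have : TopologicalSpace.SeparableSpace X := ⟨⟨_, countable_range c, hc.1⟩⟩
  obtain ⟨st, hst, h0, hR⟩ := RE.run (R := fun s a b => RelB c s a b) (re_RelB hc.2)
    (relB_total c) []
  have h : RunB c st := ⟨h0, hR⟩
  have L := h.lift hc.1 hi
  have P : ∀ i, Pres (yy c st i) := fun i => ⟨((L i).homeo hI).2,
    (cr_dz hc.2 (L := fun z : ℕ × ℕ => st (z.1 + z.2)) (i := fun _ => i) (m := fun z => z.1)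
      (n := fun z => z.2) (by fun_prop) (by fun_prop) (by fun_prop) (by fun_prop)).of_eq
      fun z => h.dz_eq (Nat.le_add_right _ _) ((Nat.unpair_right_le _).trans
        ((Nat.unpair_right_le _).trans (Nat.le_add_left _ _)))⟩
  refine ⟨_, _, inferInstance, inferInstance, yy c st 0, yy c st 1,
    (L 0).closed.completeSpace_coe, (L 1).closed.completeSpace_coe, P 0, P 1,
    ((L 0).homeo hI).1, ((L 1).homeo hI).1, fun f hf ho hm => ?_, fun f hf ho hm => ?_⟩
  · obtain ⟨k, hs, ht⟩ := exists_com (P 0).1 hm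
    have e : 2 * k / 2 = k := by omega
    exact h.diagB (e := 2 * k) (by omega) (by omega) hf (by rw [e]; exact hs) (L 0) (P 1).1 ho
      (by rw [e]; exact ht)
  · obtain ⟨k, hs, ht⟩ := exists_com (P 1).1 hm
    have e : (2 * k + 1) / 2 = k := by omega
    exact h.diagB (e := 2 * k + 1) (by omega) (by omega) hf (by rw [e]; exact hs) (L 1) (P 0).1 ho
      (by rw [e]; exact ht)

end Pool.Agent.P.MP_fa5791_lc.Two
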