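import Pool.Agent.P.MP_fa5791_lc.TBDefs

namespace Pool.Agent.P.MP_fa5791_lc.Two

open Pool.Agent.Lib.ComputableProp Filter Topology Set

variable {X : Type} [MetricSpace X] {c : ℕ → X}

variable (c) in
structure RunB (st : ℕ → List Act) : Prop where
  init : st 0 = []
  step : ∀ s, RelB c s (st s) (st (s + 1))

/-- the action is carried out at some stage -/
def In (st : ℕ → List Act) (x : Act) : Prop := ∃ s, x ∈ st s

/-- final exponent of the extra height -/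
def XP (st : ℕ → List Act) (i m : ℕ) : ℕ := xp (st m.unpair.2.unpair.2) i m

variable (c) in
/-- the listed points of side `i` -/
noncomputable def zz (st : ℕ → List Act) (i m : ℕ) : X × ℝ :=
  (c m.unpair.1, q m.unpair.1 + qz (XP st i m))

namespace RunB

variable {st : ℕ → List Act} (h : RunB c st)
include h

theorem mono {s t : ℕ} (hst : s ≤ t) {x : Act} (hx : x ∈ st s) : x ∈ st t := by
  induction t, hst using Nat.le_induction with
  | base => exact hx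
  | succ t ht ih =>
    rcases h.step t with ⟨-, h1⟩ | ⟨w, -, h1⟩
    · rw [h1]; exact ih
    · rw [h1]; exact List.mem_cons_of_mem _ ih

theorem birth {s : ℕ} {x : Act} (hx : x ∈ st s) : x.2.2.2.2 < s ∧
    st (x.2.2.2.2 + 1) = x :: st x.2.2.2.2 ∧ ∃ w : WB, WeakB c x.2.2.2.2 (st x.2.2.2.2) w ∧
      x.1 = x.2.2.2.2.unpair.1 ∧ x.2.1 = w.2.2.1 ∧ x.2.2.1 = w.2.1 ∧ x.2.2.2.1 = w.2.2.2.1 := by
  induction s with
  | zero => rw [h.init] at hx; simp at hx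
  | succ s ih =>
    rcases h.step s with ⟨-, h1⟩ | ⟨w, hw, h1⟩
    · rw [h1] at hx
      exact ⟨(ih hx).1.trans (Nat.lt_succ_self s), (ih hx).2⟩
    · rw [h1] at hx
      rcases List.mem_cons.1 hx with rfl | hx
      · exact ⟨Nat.lt_succ_self s, h1, w, hw, rfl, rfl, rfl, rfl⟩
      · exact ⟨(ih hx).1.trans (Nat.lt_succ_self s), (ih hx).2⟩

theorem mem_of_lt {s : ℕ} {x : Act} (hx : In st x) (hs : x.2.2.2.2 < s) : x ∈ st s := by
  obtain ⟨t, ht⟩ := hx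
  refine h.mono (s := x.2.2.2.2 + 1) hs ?_
  rw [(h.birth ht).2.1]
  exact List.mem_cons_self

theorem same_stage {x y : Act} (hx : In st x) (hy : In st y) (e : x.2.2.2.2 = y.2.2.2.2) :
    x = y := by
  obtain ⟨s, hs⟩ := hx
  obtain ⟨t, ht⟩ := hy
  have h1 := (h.birth hs).2.1
  have h2 := (h.birth ht).2.1
  rw [e, h2] at h1
  exact (List.cons.inj h1).1.symm

theorem dec {x : Act} (hx : In st x) :
    (¬ ∃ y ∈ st x.2.2.2.2, y.1 = x.1) ∧ 4 ^ x.1 ≤ x.2.1 ∧ x.2.1 < 4 ^ (x.1 + 1) ∧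
    (¬ ∃ y ∈ st x.2.2.2.2, (y.1 + 1) % 2 = x.1 % 2 ∧ y.2.2.2.1 = x.2.1) ∧
    brk (st x.2.2.2.2) x.1 x.2.2.2.1 = true := by
  obtain ⟨s, hs⟩ := hx
  obtain ⟨-, -, w, hw, e1, e2, -, e4⟩ := h.birth hs
  have h1 := decB_iff.1 hw.1
  rw [← e1, ← e2, ← e4] at h1
  exact ⟨h1.1, h1.2.1, h1.2.2.1, h1.2.2.2.1, h1.2.2.2.2.1⟩

theorem uniq {x y : Act} (hx : In st x) (hy : In st y) (e : x.1 = y.1) : x = y := by
  rcases lt_trichotomy x.2.2.2.2 y.2.2.2.2 with h1 | h1 | h1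
  · exact absurd ⟨x, h.mem_of_lt hx h1, e⟩ (h.dec hy).1
  · exact h.same_stage hx hy h1
  · exact absurd ⟨y, h.mem_of_lt hy h1, e.symm⟩ (h.dec hx).1

theorem uniq_col {x y : Act} (hx : In st x) (hy : In st y) (e : x.2.1 = y.2.1) : x = y :=
  h.uniq hx hy (own_unique (h.dec hx).2.1 (h.dec hx).2.2.1 (e ▸ (h.dec hy).2.1)
    (e ▸ (h.dec hy).2.2.1))

theorem kill {x y : Act} (hx : In st x) (hy : In st y) (e1 : y.1 % 2 = (x.1 + 1) % 2)
    (e2 : y.2.1 = x.2.2.2.1) : y.2.2.2.2 < x.2.2.2.2 := by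
  rcases lt_trichotomy x.2.2.2.2 y.2.2.2.2 with h1 | h1 | h1
  · exact absurd ⟨x, h.mem_of_lt hx h1, e1.symm, e2.symm⟩ (h.dec hy).2.2.2.1
  · rw [h.same_stage hx hy h1] at e1
    omega
  · exact h1

theorem xp_eq {s i m : ℕ} (hs : m.unpair.2.unpair.2 ≤ s) : xp (st s) i m = XP st i m := by
  induction s, hs using Nat.le_induction with
  | base => rfl
  | succ t ht ih =>
    rcases h.step t with ⟨-, h1⟩ | ⟨w, -, h1⟩
    · rw [h1, ih]
    · have h2 : hit (t.unpair.1, w.2.2.1, w.2.1, w.2.2.2.1, t) i m = false := by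
        rw [← Bool.not_eq_true, hit_iff]
        rintro ⟨-, -, -, h3⟩
        dsimp only at h3
        omega
      rw [h1, ← ih]
      simp [xp, h2]

omit h in
theorem XP_cases (i m : ℕ) : XP st i m = 0 ∨ ∃ x, In st x ∧ hit x i m = true ∧
    XP st i m = x.2.2.1 + x.2.1 + 4 + m.unpair.2.unpair.1 := by
  rcases xp_spec (st m.unpair.2.unpair.2) i m with h1 | ⟨x, h1, h2⟩
  · exact Or.inl h1.1
  · exact Or.inr ⟨x, ⟨_, h1⟩, h2⟩

theorem XP_hit {i m : ℕ} {x : Act} (hx : In st x) (hh : hit x i m = true) :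
    XP st i m = x.2.2.1 + x.2.1 + 4 + m.unpair.2.unpair.1 := by
  rcases xp_spec (st m.unpair.2.unpair.2) i m with h1 | ⟨y, h1, h2, h3⟩
  · exact absurd hh (h1.2 x (h.mem_of_lt hx (hit_iff.1 hh).2.2.2))
  · rw [h.uniq_col hx ⟨_, h1⟩ ((hit_iff.1 hh).2.1.trans (hit_iff.1 h2).2.1.symm)]
    exact h3

theorem XP_base (i a : ℕ) : XP st i (Nat.pair a 0) = 0 := by
  rcases XP_cases (st := st) i (Nat.pair a 0) with h1 | ⟨x, -, h1, -⟩
  · exact h1
  · have := (hit_iff.1 h1).2.2.2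
    simp at this

omit h in
theorem hgt (i m : ℕ) : q m.unpair.1 ≤ (zz c st i m).2 ∧ (zz c st i m).2 ≤ 5 / 4 * q m.unpair.1 := by
  have h0 := q_pos m.unpair.1
  change _ ≤ q _ + qz _ ∧ q _ + qz _ ≤ _
  rcases XP_cases (st := st) i m with h1 | ⟨x, -, h1, h2⟩
  · rw [h1, qz_zero]
    constructor <;> linarith
  · rw [qz_pos (by omega)]
    have h3 := (hit_iff.1 h1).2.1
    have h4 := q_anti (show m.unpair.1 + 2 ≤ XP st i m by omega)
    rw [q_succ, q_succ] at h4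
    have := q_pos (XP st i m)
    constructor <;> linarith

theorem col_fin (i n : ℕ) : ∃ β τ : ℕ, (∀ x, In st x → (x.1 + 1) % 2 = i → x.2.2.2.1 = n →
    τ ≤ x.2.2.2.2) ∧ ∀ m : ℕ, m.unpair.1 = n → XP st i m = 0 ∨ ∃ u < τ, XP st i m = β + u := by
  by_cases hy : ∃ y, In st y ∧ y.1 % 2 = i ∧ y.2.1 = n
  · obtain ⟨y, hy, e1, e2⟩ := hy
    refine ⟨y.2.2.1 + y.2.1 + 4, y.2.2.2.2 + 1, fun x hx e3 e4 =>
      h.kill hx hy (e1.trans e3.symm) (e2.trans e4.symm), fun m hm => ?_⟩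
    rcases XP_cases (st := st) i m with h1 | ⟨x, hx, h1, h2⟩
    · exact Or.inl h1
    · obtain rfl := h.uniq_col hx hy ((hit_iff.1 h1).2.1.trans (hm.trans e2.symm))
      exact Or.inr ⟨_, Nat.lt_succ_of_le (hit_iff.1 h1).2.2.1, h2⟩
  · refine ⟨0, 0, fun _ _ _ _ => Nat.zero_le _, fun m hm => ?_⟩
    rcases XP_cases (st := st) i m with h1 | ⟨x, hx, h1, -⟩
    · exact Or.inl h1
    · exact absurd ⟨x, hx, (hit_iff.1 h1).1, (hit_iff.1 h1).2.1.trans hm⟩ hy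

theorem dz_eq {s i m n : ℕ} (hm : m ≤ s) (hn : n.unpair.2.unpair.2 ≤ s) :
    dz c (st s) i m n = dist (zz c st i m) (zz c st i n) := by
  have h1 : m.unpair.2.unpair.2 ≤ s :=
    (Nat.unpair_right_le _).trans ((Nat.unpair_right_le _).trans hm)
  unfold dz
  rw [h.xp_eq h1, h.xp_eq hn]
  rfl

theorem lift (hd : DenseRange c) (hi : Function.Injective c) (i : ℕ) : Lift (zz c st i) := by
  have hS : ∀ n : ℕ, {p | ∃ m : ℕ, m.unpair.1 = n ∧ zz c st i m = p}.Finite := by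
    intro n
    obtain ⟨β, τ, -, h1⟩ := h.col_fin i n
    refine (((finite_Iic (β + τ)).image fun k => (c n, q n + qz k))).subset ?_
    rintro _ ⟨m, rfl, rfl⟩
    refine ⟨XP st i m, ?_, rfl⟩
    rcases h1 m rfl with h2 | ⟨u, hu, h2⟩ <;> simp only [mem_Iic] <;> omega
  have hfin : ∀ T : Set ℕ, T.Finite → {p | ∃ m : ℕ, m.unpair.1 ∈ T ∧ zz c st i m = p}.Finite := by
    intro T hT
    refine (hT.biUnion fun n _ => hS n).subset ?_
    rintro _ ⟨m, hm, rfl⟩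
    exact mem_biUnion hm ⟨m, rfl, rfl⟩
  refine ⟨fun n => (q_pos _).trans_le (hgt i n).1, fun ε hε => ?_, fun x => ?_, fun x hx => ?_⟩
  · obtain ⟨k, hk⟩ := exists_q_lt (half_pos hε)
    refine (hfin _ (finite_Iic k)).subset ?_
    rintro _ ⟨⟨n, rfl⟩, hn⟩
    refine ⟨n, ?_, rfl⟩
    by_contra hlt
    have h4 := q_anti (not_le.1 hlt).le
    have h5 := (hgt (c := c) (st := st) i n).2
    linarith [q_pos n.unpair.1]
  · refine (hfin (c ⁻¹' {x}) ((finite_singleton x).preimage hi.injOn)).subset ?_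
    rintro _ ⟨⟨n, rfl⟩, hn⟩
    exact ⟨n, hn, rfl⟩
  · obtain ⟨j, hj⟩ := hd.exists_mem_open hx (singleton_nonempty x)
    exact ⟨Nat.pair j 0, by simpa [zz] using hj⟩

end RunB

theorem hgt_sep {n m : ℕ} {u v : ℝ} (hu : q n ≤ u ∧ u ≤ 5 / 4 * q n)
    (hv : q m ≤ v ∧ v ≤ 5 / 4 * q m) (h : |v - u| ≤ q (n + 3)) : m = n := by
  by_contra hne
  have h1 := abs_le.1 h
  have h2 : q (n + 3) = q n / 8 := by rw [q_succ, q_succ, q_succ]; ring
  have h3 := q_pos n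
  rcases lt_or_gt_of_ne hne with h4 | h4
  · have h5 := q_anti (show m + 1 ≤ n by omega)
    have h6 := q_succ m
    linarith [h1.2, hu.2, hv.1]
  · have h5 := q_anti (show n + 1 ≤ m by omega)
    have h6 := q_succ n
    linarith [h1.1, hu.1, hv.2]

end Pool.Agent.P.MP_fa5791_lc.Two
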