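import Pool.Agent.P.MP_fa5791_lc.Main

namespace Pool.Agent.P.MP_fa5791_lc.Two

/-- two presentations without a computable injective open map in either direction -/
def ConclT (X : Type) [TopologicalSpace X] : Prop :=
  ∃ (Y Z : Type) (_ : MetricSpace Y) (_ : MetricSpace Z) (c0 : ℕ → Y) (c1 : ℕ → Z),
    CompleteSpace Y ∧ CompleteSpace Z ∧ Pres c0 ∧ Pres c1 ∧ Nonempty (Y ≃ₜ X) ∧
    Nonempty (Z ≃ₜ X) ∧
    (∀ f : Y → Z, Function.Injective f → IsOpenMap f → ¬ CompMap c0 c1 f) ∧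
    (∀ g : Z → Y, Function.Injective g → IsOpenMap g → ¬ CompMap c1 c0 g)

end Pool.Agent.P.MP_fa5791_lc.Two
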