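import Pool.Agent.P.MP_fa5791_lc.TMet

namespace Pool.Agent.P.MP_fa5791_lc.Two

open Pool.Agent.Lib.ComputableProp Pool.Agent.P.MP_fa5791_lc

/-- phase, scale, current point, second candidate, `b0`, `b1`, precision -/
abbrev Dt := ℕ × ℕ × ℕ × ℕ × ℕ × ℕ × ℕ

namespace Dt
def ph (d : Dt) : ℕ := d.1
def sc (d : Dt) : ℕ := d.2.1
def z (d : Dt) : ℕ := d.2.2.1
def m1 (d : Dt) : ℕ := d.2.2.2.1
def b0 (d : Dt) : ℕ := d.2.2.2.2.1
def b1 (d : Dt) : ℕ := d.2.2.2.2.2.1
def k (d : Dt) : ℕ := d.2.2.2.2.2.2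

section
variable (a b c d e f g : ℕ)
@[simp] theorem ph_mk : ph (a, b, c, d, e, f, g) = a := rfl
@[simp] theorem sc_mk : sc (a, b, c, d, e, f, g) = b := rfl
@[simp] theorem z_mk : z (a, b, c, d, e, f, g) = c := rfl
@[simp] theorem m1_mk : m1 (a, b, c, d, e, f, g) = d := rfl
@[simp] theorem b0_mk : b0 (a, b, c, d, e, f, g) = e := rfl
@[simp] theorem b1_mk : b1 (a, b, c, d, e, f, g) = f := rfl
@[simp] theorem k_mk : k (a, b, c, d, e, f, g) = g := rfl
end

section
variable {α : Type} [Primcodable α] {d : α → Dt} (h : Computable d)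
include h
@[fun_prop] theorem c_ph : Computable fun a => ph (d a) := by unfold ph; fun_prop
@[fun_prop] theorem c_sc : Computable fun a => sc (d a) := by unfold sc; fun_prop
@[fun_prop] theorem c_z : Computable fun a => z (d a) := by unfold z; fun_prop
@[fun_prop] theorem c_m1 : Computable fun a => m1 (d a) := by unfold m1; fun_prop
@[fun_prop] theorem c_b0 : Computable fun a => b0 (d a) := by unfold b0; fun_prop
@[fun_prop] theorem c_b1 : Computable fun a => b1 (d a) := by unfold b1; fun_prop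
@[fun_prop] theorem c_k : Computable fun a => k (d a) := by unfold k; fun_prop
end
end Dt

/-- key, reset mark (`0` for none), data -/
abbrev Ent := ℕ × ℕ × Dt
/-- frozen bound, geometry of the two sides, log of the requirements -/
abbrev Stt := ℕ × Gm × Gm × List Ent

instance primStt : Primcodable Stt := inferInstance

def fresh (r e t : ℕ) : Dt := (0, e + r + t + 1, 0, 0, 0, 0, 0)

def lookL (r : ℕ) (R : List Ent) (e : ℕ) : Dt :=
  R.foldr (fun x acc => cond (eqb x.1 e) x.2.2
    (cond (leb (x.1 + 1) e && leb 1 x.2.1) (fresh r e x.2.1) acc)) (fresh r e 0)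

def look (r : ℕ) (st : Stt) (e : ℕ) : Dt := lookL r st.2.2.2 e

/-- source side of a requirement -/
def sd (e : ℕ) : Bool := eqb (e % 2) 0

def gm (st : Stt) (b : Bool) : Gm := cond b st.2.1 st.2.2.1

def idle (st : Stt) : Stt := (st.1 + 1, st.2)

/-- new bound, new geometry on side `b`, new entry -/
def mk (st : Stt) (n : ℕ) (b : Bool) (g : Gm) (x : Ent) : Stt :=
  (n, cond b g st.2.1, cond b st.2.2.1 g, x :: st.2.2.2)

abbrev V0 := List ℕ × ℕ × ℕ
/-- choice bit, word at the candidate, its output, its precision, word at `p`, output, precision -/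
abbrev V1 := ℕ × List ℕ × ℕ × ℕ × List ℕ × ℕ × ℕ

def cand (d : Dt) (t : ℕ) : ℕ := cond (eqb t 0) d.z d.m1

def de0 (s e n : ℕ) (d : Dt) (w : V0) : Bool :=
  eqb (com (e / 2) s w.1 (d.sc + 2)) (some w.2.2) && leb (w.2.2 + 1) n && leb (d.sc + 1) w.2.1

def de1 (s e n : ℕ) (L : List (ℕ × ℕ)) (w : V1) : Bool :=
  eqb (com (e / 2) s w.2.1 w.2.2.2.1) (some w.2.2.1) &&
  eqb (com (e / 2) s w.2.2.2.2.1 w.2.2.2.2.2.2) (some w.2.2.2.2.2.1) &&
  leb (w.2.2.1 + 1) n && leb (w.2.2.2.1 + 1) w.2.2.2.2.2.2 && leb w.2.2.2.2.2.2 s &&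
  L.all fun y => leb (w.2.2.2.1 + 1) y.1 || leb (y.2 + 1) w.2.2.2.2.2.2

def de2 (s e l : ℕ) (d : Dt) (w : V0) : Bool :=
  eqb (com (e / 2) s w.1 d.k) (some w.2.2) && leb l w.2.1

variable {X : Type} [MetricSpace X] (c : ℕ → X) (p r : ℕ)

/-- a decidable test and a word valid on a ball of side `b` -/
def Wk (st : Stt) (b t : Bool) (m : ℕ) (w : V0) : Prop :=
  t = true ∧ ValW c (DD c p (gm st b)) st.1 w.1 m w.2.1

def Ns (st : Stt) (b t : Bool) (m : ℕ) (w : V0) : Prop :=
  t = false ∨ NValS c (DD c p (gm st b)) st.1 w.1 m w.2.1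

def Nw (g : Gm) (n τ m m' j l : ℕ) : Prop :=
  rho c p g (c m') (c m) < q τ ∧ (∀ i < n, q j < dist (c m') (c i)) ∧
    (∀ T ∈ g.1, Mg c T m') ∧ lipn g.2.1 ≤ 2 ^ j ∧ l ≤ j

def Wk1 (s e : ℕ) (st : Stt) (d : Dt) (w : V1) : Prop :=
  de1 s e st.1 (gm st (!sd e)).2.2 w = true ∧
    ValW c (DD c p (gm st (sd e))) st.1 w.2.1 (cand d w.1) (w.2.1.length + 2) ∧
    ValW c (DD c p (gm st (sd e))) st.1 w.2.2.2.2.1 p (w.2.2.2.2.1.length + 2) ∧
    q w.2.2.2.1 < FF c p (gm st (!sd e)) (c w.2.2.1) ∧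
    (6 : ℕ) * q w.2.2.2.1 < dist (c w.2.2.1) (c p) ∧
    (6 : ℕ) * q w.2.2.2.1 < dist (c w.2.2.2.2.2.1) (c w.2.2.1)

def Ns1 (s e : ℕ) (st : Stt) (d : Dt) (w : V1) : Prop :=
  de1 s e st.1 (gm st (!sd e)).2.2 w = false ∨
    NValS c (DD c p (gm st (sd e))) st.1 w.2.1 (cand d w.1) (w.2.1.length + 2) ∨
    NValS c (DD c p (gm st (sd e))) st.1 w.2.2.2.2.1 p (w.2.2.2.2.1.length + 2) ∨
    FF c p (gm st (!sd e)) (c w.2.2.1) < (2 : ℕ) * q w.2.2.2.1 ∨
    dist (c w.2.2.1) (c p) < (7 : ℕ) * q w.2.2.2.1 ∨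
    dist (c w.2.2.2.2.2.1) (c w.2.2.1) < (7 : ℕ) * q w.2.2.2.1

def R0 (s e : ℕ) (st : Stt) (d : Dt) (st' : Stt) : Prop :=
  ((∀ w : V0, Encodable.encode w < s → Ns c p st (sd e) (de0 s e st.1 d w) p w) ∧
    st' = idle st) ∨
  ∃ w : V0, ∃ m j m' j' : ℕ, Wk c p st (sd e) (de0 s e st.1 d w) p w ∧
    Nw c p (gm st (sd e)) st.1 (w.2.1 + 1) p m j 0 ∧
    Nw c p (gm st (sd e)) (max st.1 m + 1) (w.2.1 + 1) p m' j' 0 ∧
    st' = mk st (max (max st.1 m) m' + 1) (sd e) (gm st (sd e))
      (e, 0, (1, d.sc, m, m', w.2.1, 0, 0))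

def R1 (s e : ℕ) (st : Stt) (d : Dt) (st' : Stt) : Prop :=
  ((∀ w : V1, Encodable.encode w < s → Ns1 c p s e st d w) ∧ st' = idle st) ∨
  ∃ w : V1, ∃ ρ j : ℕ, Wk1 c p s e st d w ∧ Cut c st.1 w.2.2.1 w.2.2.2.1 ρ j ∧
    st' = mk st (st.1 + 1) (!sd e)
      ((w.2.2.1, ρ, j, d.sc) :: (gm st (!sd e)).1, (gm st (!sd e)).2)
      (e, s + 1, (2, d.sc, cand d w.1, 0, d.b0, 0, w.2.2.2.2.2.2 + d.sc + j + 3))

def R2 (s e : ℕ) (st : Stt) (d : Dt) (st' : Stt) : Prop :=
  ((∀ w : V0, Encodable.encode w < s → Ns c p st (sd e) (de2 s e d.b0 d w) p w) ∧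
    st' = idle st) ∨
  ∃ w : V0, Wk c p st (sd e) (de2 s e d.b0 d w) p w ∧
    st' = mk st (st.1 + 1) (sd e)
      ((gm st (sd e)).1, (gm st (sd e)).2.1, (d.sc, w.2.1 + 3) :: (gm st (sd e)).2.2)
      (e, s + 1, (3, d.sc, d.z, 0, d.b0, w.2.1, d.k))

def R3 (s e : ℕ) (st : Stt) (d : Dt) (st' : Stt) : Prop :=
  (DD c p (gm st (sd e)) (c d.z) (c p) < q d.b1 ∧ st' = idle st) ∨
  ((∀ w : V0, Encodable.encode w < s → Ns c p st (sd e) (de2 s e d.b1 d w) d.z w) ∧
    st' = idle st) ∨
  (q (d.b1 + 1) < DD c p (gm st (sd e)) (c d.z) (c p) ∧ ∃ w : V0, ∃ m j : ℕ,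
    Wk c p st (sd e) (de2 s e d.b1 d w) d.z w ∧
    (∀ w' : V0, Encodable.encode w' < s →
      Ns c p st (sd e) (de2 s e d.b1 d w') d.z w' ∨ w.2.1 ≤ w'.2.1) ∧
    Nw c p (gm st (sd e)) st.1 (w.2.1 + d.b1 + s + 4) d.z m j (d.sc + 1) ∧
    st' = mk st (max st.1 m + 1) (sd e)
      ((gm st (sd e)).1, (m, 0, j, w.2.1 + 2) :: (gm st (sd e)).2.1, (gm st (sd e)).2.2)
      (e, 0, (3, d.sc, m, 0, d.b0, d.b1, d.k)))

def RG (s e : ℕ) (d : Dt) (st st' : Stt) : Prop :=
  (d.ph = 0 ∧ R0 c p s e st d st') ∨ (d.ph = 1 ∧ R1 c p s e st d st') ∨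
  (d.ph = 2 ∧ R2 c p s e st d st') ∨ (3 ≤ d.ph ∧ R3 c p s e st d st')

def Rl (s : ℕ) (st st' : Stt) : Prop :=
  RG c p s s.unpair.1 (look r st s.unpair.1) st st'

section comp
variable {α : Type} [Primcodable α]

@[fun_prop] theorem c_fresh {r : ℕ} {e t : α → ℕ} (he : Computable e) (ht : Computable t) :
    Computable fun a => fresh r (e a) (t a) := by
  unfold fresh; fun_prop

@[fun_prop] theorem c_look {r : ℕ} {st : α → Stt} {e : α → ℕ} (hs : Computable st)
    (he : Computable e) : Computable fun a => look r (st a) (e a) := by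
  unfold look lookL; fun_prop

@[fun_prop] theorem c_sd {e : α → ℕ} (he : Computable e) : Computable fun a => sd (e a) := by
  unfold sd; fun_prop

@[fun_prop] theorem c_gm {st : α → Stt} {b : α → Bool} (hs : Computable st) (hb : Computable b) :
    Computable fun a => gm (st a) (b a) := by
  unfold gm; fun_prop

@[fun_prop] theorem c_idle {st : α → Stt} (h : Computable st) :
    Computable fun a => idle (st a) := by
  unfold idle; fun_prop

@[fun_prop] theorem c_mk {st : α → Stt} {n : α → ℕ} {b : α → Bool} {g : α → Gm} {x : α → Ent}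
    (hs : Computable st) (hn : Computable n) (hb : Computable b) (hg : Computable g)
    (hx : Computable x) : Computable fun a => mk (st a) (n a) (b a) (g a) (x a) := by
  unfold mk; fun_prop

@[fun_prop] theorem c_cand {d : α → Dt} {t : α → ℕ} (hd : Computable d) (ht : Computable t) :
    Computable fun a => cand (d a) (t a) := by
  unfold cand; fun_prop

@[fun_prop] theorem c_lipn {W : α → List Tent} (h : Computable W) :
    Computable fun a => lipn (W a) := by
  unfold lipn; fun_prop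

@[fun_prop] theorem c_de0 {s e n : α → ℕ} {d : α → Dt} {w : α → V0} (hs : Computable s)
    (he : Computable e) (hn : Computable n) (hd : Computable d) (hw : Computable w) :
    Computable fun a => de0 (s a) (e a) (n a) (d a) (w a) := by
  unfold de0; fun_prop

@[fun_prop] theorem c_de1 {s e n : α → ℕ} {L : α → List (ℕ × ℕ)} {w : α → V1} (hs : Computable s)
    (he : Computable e) (hn : Computable n) (hL : Computable L) (hw : Computable w) :
    Computable fun a => de1 (s a) (e a) (n a) (L a) (w a) := by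
  unfold de1; fun_prop

@[fun_prop] theorem c_de2 {s e l : α → ℕ} {d : α → Dt} {w : α → V0} (hs : Computable s)
    (he : Computable e) (hl : Computable l) (hd : Computable d) (hw : Computable w) :
    Computable fun a => de2 (s a) (e a) (l a) (d a) (w a) := by
  unfold de2; fun_prop

end comp

section re
variable {c} {α : Type} [Primcodable α] (hc : CR fun z : ℕ × ℕ => dist (c z.1) (c z.2))
include hc

theorem re_ValW {g : α → Gm} {σ : α → List ℕ} {n m b : α → ℕ} (hg : Computable g)
    (hn : Computable n) (hσ : Computable σ) (hm : Computable m) (hb : Computable b) :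
    RE fun a => ValW c (DD c p (g a)) (n a) (σ a) (m a) (b a) :=
  RE.forall_lt (by fun_prop) ((RE.lt (by fun_prop) (by fun_prop)).and
    (((cr_DD p hc (by fun_prop) (by fun_prop) (by fun_prop)).add (cr_q (by fun_prop))).lt
      (cr_q (by fun_prop))))

theorem re_NValS {g : α → Gm} {σ : α → List ℕ} {n m b : α → ℕ} (hg : Computable g)
    (hn : Computable n) (hσ : Computable σ) (hm : Computable m) (hb : Computable b) :
    RE fun a => NValS c (DD c p (g a)) (n a) (σ a) (m a) (b a) :=
  RE.exists_lt (by fun_prop) ((RE.le (by fun_prop) (by fun_prop)).or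
    ((cr_q (by fun_prop)).lt ((cr_DD p hc (by fun_prop) (by fun_prop) (by fun_prop)).add
      ((cr_q (by fun_prop)).add (cr_q (by fun_prop))))))

theorem re_Wk {st : α → Stt} {b t : α → Bool} {m : α → ℕ} {w : α → V0} (hs : Computable st)
    (hb : Computable b) (ht : Computable t) (hm : Computable m) (hw : Computable w) :
    RE fun a => Wk c p (st a) (b a) (t a) (m a) (w a) :=
  (RE.of_bool ht).and (re_ValW p hc (by fun_prop) (by fun_prop) (by fun_prop) hm (by fun_prop))

theorem re_Ns {st : α → Stt} {b t : α → Bool} {m : α → ℕ} {w : α → V0} (hs : Computable st)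
    (hb : Computable b) (ht : Computable t) (hm : Computable m) (hw : Computable w) :
    RE fun a => Ns c p (st a) (b a) (t a) (m a) (w a) :=
  (RE.eq ht (by fun_prop)).or
    (re_NValS p hc (by fun_prop) (by fun_prop) (by fun_prop) hm (by fun_prop))

theorem re_Nw {g : α → Gm} {n τ m m' j l : α → ℕ} (hg : Computable g) (hn : Computable n)
    (hτ : Computable τ) (hm : Computable m) (hm' : Computable m') (hj : Computable j)
    (hl : Computable l) : RE fun a => Nw c p (g a) (n a) (τ a) (m a) (m' a) (j a) (l a) :=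
  ((cr_rho p hc hg hm' hm).lt (cr_q hτ)).and ((RE.forall_lt hn
    ((cr_q (by fun_prop)).lt (cr_dist hc (by fun_prop) (by fun_prop)))).and
    ((RE.forall_mem (R := fun a T => Mg c T (m' a)) (by fun_prop)
      (re_Mg hc (by fun_prop) (by fun_prop))).and
    ((RE.le (by fun_prop) (by fun_prop)).and (RE.le hl hj))))

theorem re_Wk1 {s e : α → ℕ} {st : α → Stt} {d : α → Dt} {w : α → V1} (hs : Computable s)
    (he : Computable e) (hst : Computable st) (hd : Computable d) (hw : Computable w) :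
    RE fun a => Wk1 c p (s a) (e a) (st a) (d a) (w a) :=
  (RE.of_bool (by fun_prop)).and
    ((re_ValW p hc (by fun_prop) (by fun_prop) (by fun_prop) (by fun_prop) (by fun_prop)).and
    ((re_ValW p hc (by fun_prop) (by fun_prop) (by fun_prop) (by fun_prop) (by fun_prop)).and
    (((cr_q (by fun_prop)).lt (cr_FF p hc (by fun_prop) (by fun_prop))).and
    ((((cr_q (by fun_prop)).nat_mul (f := fun _ => 6) (by fun_prop)).lt
      (cr_dist hc (by fun_prop) (by fun_prop))).and
    (((cr_q (by fun_prop)).nat_mul (f := fun _ => 6) (by fun_prop)).lt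
      (cr_dist hc (by fun_prop) (by fun_prop)))))))

theorem re_Ns1 {s e : α → ℕ} {st : α → Stt} {d : α → Dt} {w : α → V1} (hs : Computable s)
    (he : Computable e) (hst : Computable st) (hd : Computable d) (hw : Computable w) :
    RE fun a => Ns1 c p (s a) (e a) (st a) (d a) (w a) :=
  (RE.eq (by fun_prop) (by fun_prop)).or
    ((re_NValS p hc (by fun_prop) (by fun_prop) (by fun_prop) (by fun_prop) (by fun_prop)).or
    ((re_NValS p hc (by fun_prop) (by fun_prop) (by fun_prop) (by fun_prop) (by fun_prop)).or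
    (((cr_FF p hc (by fun_prop) (by fun_prop)).lt
      ((cr_q (by fun_prop)).nat_mul (f := fun _ => 2) (by fun_prop))).or
    (((cr_dist hc (by fun_prop) (by fun_prop)).lt
      ((cr_q (by fun_prop)).nat_mul (f := fun _ => 7) (by fun_prop))).or
    ((cr_dist hc (by fun_prop) (by fun_prop)).lt
      ((cr_q (by fun_prop)).nat_mul (f := fun _ => 7) (by fun_prop)))))))

theorem re_R0 {s e : α → ℕ} {st st' : α → Stt} {d : α → Dt} (hs : Computable s)
    (he : Computable e) (hst : Computable st) (hd : Computable d) (hst' : Computable st') :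
    RE fun a => R0 c p (s a) (e a) (st a) (d a) (st' a) :=
  ((re_forall_code hs (re_Ns p hc (by fun_prop) (by fun_prop) (by fun_prop) (by fun_prop)
    (by fun_prop))).and (RE.eq hst' (by fun_prop))).or (RE.ex (RE.ex (RE.ex (RE.ex (RE.ex
      ((re_Wk p hc (by fun_prop) (by fun_prop) (by fun_prop) (by fun_prop) (by fun_prop)).and
      ((re_Nw p hc (by fun_prop) (by fun_prop) (by fun_prop) (by fun_prop) (by fun_prop)
        (by fun_prop) (by fun_prop)).and
      ((re_Nw p hc (by fun_prop) (by fun_prop) (by fun_prop) (by fun_prop) (by fun_prop)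
        (by fun_prop) (by fun_prop)).and
      (RE.eq (by fun_prop) (by fun_prop))))))))))

theorem re_R1 {s e : α → ℕ} {st st' : α → Stt} {d : α → Dt} (hs : Computable s)
    (he : Computable e) (hst : Computable st) (hd : Computable d) (hst' : Computable st') :
    RE fun a => R1 c p (s a) (e a) (st a) (d a) (st' a) :=
  ((re_forall_code hs (re_Ns1 p hc (by fun_prop) (by fun_prop) (by fun_prop) (by fun_prop)
    (by fun_prop))).and (RE.eq hst' (by fun_prop))).or (RE.ex (RE.ex (RE.ex
      ((re_Wk1 p hc (by fun_prop) (by fun_prop) (by fun_prop) (by fun_prop) (by fun_prop)).and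
      ((re_Cut hc (by fun_prop) (by fun_prop) (by fun_prop) (by fun_prop) (by fun_prop)).and
      (RE.eq (by fun_prop) (by fun_prop)))))))

theorem re_R2 {s e : α → ℕ} {st st' : α → Stt} {d : α → Dt} (hs : Computable s)
    (he : Computable e) (hst : Computable st) (hd : Computable d) (hst' : Computable st') :
    RE fun a => R2 c p (s a) (e a) (st a) (d a) (st' a) :=
  ((re_forall_code hs (re_Ns p hc (by fun_prop) (by fun_prop) (by fun_prop) (by fun_prop)
    (by fun_prop))).and (RE.eq hst' (by fun_prop))).or (RE.ex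
      ((re_Wk p hc (by fun_prop) (by fun_prop) (by fun_prop) (by fun_prop) (by fun_prop)).and
      (RE.eq (by fun_prop) (by fun_prop))))

theorem re_R3 {s e : α → ℕ} {st st' : α → Stt} {d : α → Dt} (hs : Computable s)
    (he : Computable e) (hst : Computable st) (hd : Computable d) (hst' : Computable st') :
    RE fun a => R3 c p (s a) (e a) (st a) (d a) (st' a) :=
  (((cr_DD p hc (by fun_prop) (by fun_prop) (by fun_prop)).lt (cr_q (by fun_prop))).and
    (RE.eq hst' (by fun_prop))).or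
  (((re_forall_code hs (re_Ns p hc (by fun_prop) (by fun_prop) (by fun_prop) (by fun_prop)
    (by fun_prop))).and (RE.eq hst' (by fun_prop))).or
  (((cr_q (by fun_prop)).lt (cr_DD p hc (by fun_prop) (by fun_prop) (by fun_prop))).and
    (RE.ex (RE.ex (RE.ex
      ((re_Wk p hc (by fun_prop) (by fun_prop) (by fun_prop) (by fun_prop) (by fun_prop)).and
      ((re_forall_code (by fun_prop) ((re_Ns p hc (by fun_prop) (by fun_prop) (by fun_prop)
        (by fun_prop) (by fun_prop)).or (RE.le (by fun_prop) (by fun_prop)))).and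
      ((re_Nw p hc (by fun_prop) (by fun_prop) (by fun_prop) (by fun_prop) (by fun_prop)
        (by fun_prop) (by fun_prop)).and
      (RE.eq (by fun_prop) (by fun_prop))))))))))

theorem re_Rl : RE fun z : (ℕ × Stt) × Stt => Rl c p r z.1.1 z.1.2 z.2 :=
  ((RE.eq (by fun_prop) (by fun_prop)).and
    (re_R0 p hc (by fun_prop) (by fun_prop) (by fun_prop) (by fun_prop) (by fun_prop))).or
  (((RE.eq (by fun_prop) (by fun_prop)).and
    (re_R1 p hc (by fun_prop) (by fun_prop) (by fun_prop) (by fun_prop) (by fun_prop))).or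
  (((RE.eq (by fun_prop) (by fun_prop)).and
    (re_R2 p hc (by fun_prop) (by fun_prop) (by fun_prop) (by fun_prop) (by fun_prop))).or
  ((RE.le (by fun_prop) (by fun_prop)).and
    (re_R3 p hc (by fun_prop) (by fun_prop) (by fun_prop) (by fun_prop) (by fun_prop)))))

end re

/-- a computable run of a c.e. transition relation that is total on an invariant -/
theorem run_inv {α : Type} [Primcodable α] {R : ℕ → α → α → Prop}
    (h : RE fun z : (ℕ × α) × α => R z.1.1 z.1.2 z.2) {I : ℕ → α → Prop}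
    (tot : ∀ s a, I s a → ∃ b, R s a b) (step : ∀ s a b, I s a → R s a b → I (s + 1) b)
    {a0 : α} (h0 : I 0 a0) :
    ∃ st : ℕ → α, Computable st ∧ st 0 = a0 ∧ ∀ s, R s (st s) (st (s + 1)) := by
  obtain ⟨t, ht, H⟩ := h
  let F : ℕ × α → ℕ → Option α := fun a n => (Encodable.decode (α := α) n.unpair.1).bind
    fun b => cond (t ((a, b), n.unpair.2)) (some b) none
  have hF : Computable₂ F := by
    refine Computable.option_bind
      (f := fun z : (ℕ × α) × ℕ => Encodable.decode (α := α) z.2.unpair.1)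
      (g := fun z b => cond (t ((z.1, b), z.2.unpair.2)) (some b) none) (by fun_prop) ?_
    unfold Computable₂
    fun_prop
  have hdom : ∀ s a, I s a → (Nat.rfindOpt (F (s, a))).Dom := by
    intro s a ha
    obtain ⟨b, hb⟩ := tot s a ha
    obtain ⟨k, hk⟩ := (H ((s, a), b)).1 hb
    exact Nat.rfindOpt_dom.2 ⟨Nat.pair (Encodable.encode b) k, b, by simp [F, hk]⟩
  have hspec : ∀ s a b, b ∈ Nat.rfindOpt (F (s, a)) → R s a b := by
    intro s a b hb
    obtain ⟨n, hn⟩ := Nat.rfindOpt_spec hb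
    simp only [F, Option.mem_def, Option.bind_eq_some_iff] at hn
    obtain ⟨b', -, hb'⟩ := hn
    cases ht' : t (((s, a), b'), n.unpair.2)
    · simp [ht'] at hb'
    · simp only [ht', cond_true, Option.some.injEq] at hb'
      exact hb' ▸ (H ((s, a), b')).2 ⟨_, ht'⟩
  let P : ℕ →. α := fun s =>
    Nat.rec (Part.some a0) (fun y IH => IH.bind fun a => Nat.rfindOpt (F (y, a))) s
  have hP : Partrec P :=
    Partrec.nat_rec (f := fun s : ℕ => s) (g := fun _ => Part.some a0)
      (h := fun _ z => Nat.rfindOpt (F z)) Computable.id (Computable.const a0).partrec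
      (((Partrec.rfindOpt hF).comp Computable.snd).to₂)
  have hI : ∀ s, ∃ a ∈ P s, I s a := by
    intro s
    induction s with
    | zero => exact ⟨a0, Part.mem_some _, h0⟩
    | succ s ih =>
      obtain ⟨a, h1, h2⟩ := ih
      have h3 := Part.get_mem (hdom s a h2)
      exact ⟨_, Part.mem_bind h1 h3, step s a _ h2 (hspec s a _ h3)⟩
  choose st h1 h2 using hI
  refine ⟨st, hP.of_eq_tot h1, Part.mem_some_iff.1 (h1 0), fun s => ?_⟩
  obtain ⟨a, h3, h4⟩ := Part.mem_bind_iff.1 (h1 (s + 1))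
  rw [Part.mem_unique (h1 s) h3]
  exact hspec s a _ h4

end Pool.Agent.P.MP_fa5791_lc.Two
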