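import Pool.Agent.P.MP_fa5791_lc.Main

namespace Pool.Agent.P.MP_fa5791_lc.Enum

open Pool.Agent.Lib.ComputableProp Filter Topology Set

variable {X : Type} [MetricSpace X] {c : ℕ → X}

theorem exists_index [Infinite X] (hc : Pres c) : ∃ κ : ℕ → ℕ, Computable κ ∧
    DenseRange (fun n => c (κ n)) ∧ Function.Injective fun n => c (κ n) := by
  let R : ℕ → List ℕ → List ℕ → Prop := fun n l l' => ∃ j, l' = j :: l ∧
    (∀ m ∈ l, ((0 : ℕ) : ℝ) < dist (c j) (c m)) ∧
    ((∃ m ∈ l, dist (c m) (c n.unpair.1) < q n.unpair.2) ∨ j = n.unpair.1)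
  have hR : RE fun z : (ℕ × List ℕ) × List ℕ => R z.1.1 z.1.2 z.2 :=
    RE.ex ((RE.eq (by fun_prop) (by fun_prop)).and ((RE.forall_mem (by fun_prop)
      ((CR.nat (f := fun _ => 0) (by fun_prop)).lt
        (cr_dist hc.2 (by fun_prop) (by fun_prop)))).and
      ((RE.exists_mem (by fun_prop) ((cr_dist hc.2 (by fun_prop) (by fun_prop)).lt
        (cr_q (by fun_prop)))).or (RE.eq (by fun_prop) (by fun_prop)))))
  have hinf : (range c).Infinite := fun hf => by
    have := hc.1.closure_range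
    rw [hf.isClosed.closure_eq] at this
    exact Set.infinite_univ (this ▸ hf)
  have tot : ∀ n l, ∃ l', R n l l' := by
    intro n l
    by_cases h : ∃ m ∈ l, c m = c n.unpair.1
    · obtain ⟨m, hm, h⟩ := h
      obtain ⟨_, ⟨j, rfl⟩, hj⟩ := hinf.exists_notMem_finite ((List.finite_toSet l).image c)
      refine ⟨_, j, rfl, fun k hk => ?_, Or.inl ⟨m, hm, by rw [h, dist_self]; exact q_pos _⟩⟩
      rw [Nat.cast_zero, dist_pos]
      exact fun e => hj ⟨k, hk, e.symm⟩
    · refine ⟨_, _, rfl, fun k hk => ?_, Or.inr rfl⟩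
      rw [Nat.cast_zero, dist_pos]
      exact fun e => h ⟨k, hk, e.symm⟩
  obtain ⟨st, hst, h0, hs⟩ := RE.run hR tot []
  let κ : ℕ → ℕ := fun n => (st (n + 1)).getD 0 0
  have hκ : Computable κ := by fun_prop
  have h1 : ∀ n, st (n + 1) = κ n :: st n ∧ (∀ m ∈ st n, 0 < dist (c (κ n)) (c m)) ∧
      ((∃ m ∈ st n, dist (c m) (c n.unpair.1) < q n.unpair.2) ∨ κ n = n.unpair.1) := by
    intro n
    obtain ⟨j, e, h2, h3⟩ := hs n
    have : κ n = j := by simp [κ, e]
    rw [this]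
    exact ⟨e, by simpa using h2, h3⟩
  have h2 : ∀ n m, m ∈ st n ↔ ∃ k < n, κ k = m := by
    intro n m
    induction n with
    | zero => simp [h0]
    | succ n ih =>
      rw [(h1 n).1, List.mem_cons, ih]
      constructor
      · rintro (rfl | ⟨k, hk, rfl⟩)
        · exact ⟨n, by omega, rfl⟩
        · exact ⟨k, by omega, rfl⟩
      · rintro ⟨k, hk, rfl⟩
        rcases (by omega : k = n ∨ k < n) with rfl | h
        · exact Or.inl rfl
        · exact Or.inr ⟨k, h, rfl⟩
  refine ⟨κ, hκ, ?_, ?_⟩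
  · refine Metric.denseRange_iff.2 fun x ε hε => ?_
    obtain ⟨i, hi⟩ := hc.1.exists_dist_lt x (half_pos hε)
    obtain ⟨k, hk⟩ := exists_q_lt (half_pos hε)
    rcases (h1 (Nat.pair i k)).2.2 with ⟨m, hm, h3⟩ | h3
    · obtain ⟨j, -, rfl⟩ := (h2 _ _).1 hm
      simp only [Nat.unpair_pair] at h3
      refine ⟨j, ?_⟩
      have := dist_triangle_right x (c (κ j)) (c i)
      linarith
    · simp only [Nat.unpair_pair] at h3
      exact ⟨Nat.pair i k, by rw [h3]; linarith⟩
  · refine Function.Injective.of_lt_imp_ne fun a b hab e => ?_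
    have := (h1 b).2.1 (κ a) ((h2 _ _).2 ⟨a, hab, rfl⟩)
    rw [show c (κ a) = c (κ b) from e, dist_self] at this
    exact lt_irrefl _ this

theorem exists_enum (hc : Pres c) (φ : X ≃ₜ ℕ) :
    ∃ (κ : ℕ → ℕ) (h : ℕ ≃ₜ X), Computable κ ∧ ∀ n, h n = c (κ n) := by
  have : Infinite X := Infinite.of_surjective φ φ.surjective
  have : DiscreteTopology X := φ.symm.discreteTopology
  obtain ⟨κ, h1, h2, h3⟩ := exists_index hc
  have h4 : Function.Surjective fun n => c (κ n) := by
    rw [← range_eq_univ, ← h2.closure_range, (isClosed_discrete _).closure_eq]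
  exact ⟨κ, ⟨Equiv.ofBijective _ ⟨h3, h4⟩, continuous_of_discreteTopology,
    continuous_of_discreteTopology⟩, h1, fun _ => rfl⟩

end Pool.Agent.P.MP_fa5791_lc.Enum
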