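import Pool.Agent.P.MP_fa5791_lc.TBMain

namespace Pool.Agent.P.MP_fa5791_lc.Two

open Pool.Agent.Lib.ComputableProp UniformSpace Set

/-- the case of a ball without isolated points -/
def CaseA : Prop :=
  ∀ (X : Type) [MetricSpace X] [CompleteSpace X] (c : ℕ → X), Pres c → ∀ p r : ℕ,
    (∀ x, dist x (c p) < q r → ∀ ε > 0, ∃ y, y ≠ x ∧ dist y x < ε) → ConclT X

theorem concl (hA : CaseA) {X : Type} [MetricSpace X] {c : ℕ → X} [CompleteSpace X] [Infinite X]
    (hc : Pres c) : ConclT X := by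
  obtain ⟨c', hc', hi⟩ := exists_inj hc
  by_cases hI : Dense {x : X | IsOpen {x}}
  · exact caseB hc' hi hI
  · rw [Metric.dense_iff] at hI
    push Not at hI
    obtain ⟨x, ε, hε, hx⟩ := hI
    obtain ⟨p, hp⟩ := hc.1.exists_dist_lt x (half_pos hε)
    obtain ⟨r, hr⟩ := exists_q_lt (half_pos hε)
    refine hA X c hc p r fun y hy δ hδ => ?_
    by_contra hne
    push Not at hne
    have h1 : IsOpen {y} := by
      have : ({y} : Set X) = Metric.ball y δ := by
        ext w
        simp only [mem_singleton_iff, Metric.mem_ball]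
        exact ⟨fun h => by rw [h, dist_self]; exact hδ, fun h => by
          by_contra h2; exact absurd h (not_lt.2 (hne w h2))⟩
      rw [this]
      exact Metric.isOpen_ball
    have h2 : y ∈ Metric.ball x ε ∩ {x : X | IsOpen {x}} := by
      refine ⟨?_, h1⟩
      have := dist_triangle_right y x (c p)
      rw [Metric.mem_ball]
      linarith
    rw [hx] at h2
    exact h2

theorem no_transfer {Y Z Y' Z' : Type} [MetricSpace Y] [MetricSpace Z] [MetricSpace Y']
    [MetricSpace Z'] {c : ℕ → Y} {e : ℕ → Z} {c' : ℕ → Y'} {e' : ℕ → Z'} (j : Y ≃ᵢ Y')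
    (k : Z ≃ᵢ Z') (hj : ∀ i, j (c i) = c' i) (hk : ∀ i, k (e i) = e' i)
    (H : ∀ f : Y' → Z', Function.Injective f → IsOpenMap f → ¬ CompMap c' e' f)
    (f : Y → Z) (hf : Function.Injective f) (ho : IsOpenMap f) : ¬ CompMap c e f := fun h =>
  H (fun x => k (f (j.symm x))) (k.injective.comp (hf.comp j.symm.injective))
    (k.toHomeomorph.isOpenMap.comp (ho.comp j.symm.toHomeomorph.isOpenMap))
    (h.transfer j k hj hk)

theorem main (hA : CaseA) (X : Type) [TopologicalSpace X] [Infinite X]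
    (hX : ∃ (M : Type) (_ : MetricSpace M) (c : ℕ → M),
      IsCompMetric M c ∧ Nonempty (Completion M ≃ₜ X)) :
    ∃ (M N : Type) (_ : MetricSpace M) (_ : MetricSpace N) (c : ℕ → M) (e : ℕ → N),
      IsCompMetric M c ∧ IsCompMetric N e ∧
      Nonempty (Completion M ≃ₜ X) ∧ Nonempty (Completion N ≃ₜ X) ∧
      (∀ f : Completion M → Completion N, Function.Injective f → IsOpenMap f →
        ¬ CompMap (fun n => (c n : Completion M)) (fun n => (e n : Completion N)) f) ∧
      (∀ g : Completion N → Completion M, Function.Injective g → IsOpenMap g →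
        ¬ CompMap (fun n => (e n : Completion N)) (fun n => (c n : Completion M)) g) := by
  obtain ⟨M0, _, c, hc, ⟨φ⟩⟩ := hX
  have : Infinite (Completion M0) := Infinite.of_surjective φ φ.surjective
  obtain ⟨Y, Z, _, _, c0, c1, _, _, P0, P1, ⟨e0⟩, ⟨e1⟩, H1, H2⟩ := concl hA (pres_of_comp hc)
  obtain ⟨M, _, a, ha, j, hj⟩ := exists_model P0
  obtain ⟨N, _, b, hb, k, hk⟩ := exists_model P1
  exact ⟨M, N, inferInstance, inferInstance, a, b, ha, hb,
    ⟨j.toHomeomorph.trans (e0.trans φ)⟩, ⟨k.toHomeomorph.trans (e1.trans φ)⟩,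
    no_transfer j k hj hk H1, no_transfer k j hk hj H2⟩

end Pool.Agent.P.MP_fa5791_lc.Two
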