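import Pool.Agent.P.MP_fa5791_lc.TStep

namespace Pool.Agent.P.MP_fa5791_lc.Two

open Pool.Agent.Lib.ComputableProp Pool.Agent.P.MP_fa5791_lc Filter Topology

variable {X : Type} [MetricSpace X] {c : ℕ → X}

variable (c) in
/-- the limit metric of side `b` -/
structure Lim (p : ℕ) (st : ℕ → Stt) (b : Bool) (D : X → X → ℝ) : Prop where
  ps : PsD D
  fr : ∀ s i j, i < (st s).1 → j < (st s).1 → D (c i) (c j) = DD c p (gm (st s) b) (c i) (c j)
  cut : ∀ s, ∀ T ∈ (gm (st s) b).1, ∀ u, tv c T u = 0 → ∀ y, tv c T y ≤ D u y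
  lowF : ∀ s μ y, (∀ t, s ≤ t → μ ≤ FF c p (gm (st t) b) y) → ∀ x, min (dist x y) μ ≤ D x y
  low : ∀ ε > 0, ∃ K > 0, ∀ x y, D x y < K → dist x y < ε

theorem RG.ph_mono {p r s e : ℕ} {st st' : Stt} (h : RG c p s e (look r st e) st st')
    (h3 : (look r st e).ph ≤ 3) : (look r st e).ph ≤ (look r st' e).ph := by
  rcases h with ⟨hd, ⟨-, rfl⟩ | ⟨w, m, j, m', j', -, -, -, rfl⟩⟩ |
    ⟨hd, ⟨-, rfl⟩ | ⟨w, ρ, j, -, hC, rfl⟩⟩ | ⟨hd, ⟨-, rfl⟩ | ⟨w, -, rfl⟩⟩ |
    ⟨hd, ⟨-, rfl⟩ | ⟨-, rfl⟩ | ⟨-, w, m, j, -, -, hN, rfl⟩⟩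
  all_goals first | exact le_rfl | (simp only [look_mk_self, Dt.ph_mk]; omega)

/-- amount spent by requirement `e` -/
noncomputable def spt (st : ℕ → Stt) (e s : ℕ) : ℝ :=
  ∑ t ∈ Finset.range s, if t.unpair.1 = e then HH (st (t + 1)) - HH (st t) else 0

namespace Rn

variable {p r : ℕ} {st : ℕ → Stt} (h : Rn c p r st)
include h

theorem shp (s : ℕ) : Shp c r s s.unpair.1 (st s) (st (s + 1)) := (h.step s).shp

theorem si (s : ℕ) : SI c p r s (st s) := by
  induction s with
  | zero => rw [h.init]; exact si_zero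
  | succ s ih => exact ih.step (h.step s)

theorem n_mono {s t : ℕ} (hst : s ≤ t) : (st s).1 ≤ (st t).1 :=
  monotone_nat_of_le_succ (f := fun s => (st s).1) (fun s => (h.shp s).n_lt.le) hst

theorem FF_frozen {s t i : ℕ} (hst : s ≤ t) (hi : i < (st s).1) (b : Bool) :
    FF c p (gm (st t) b) (c i) = FF c p (gm (st s) b) (c i) := by
  induction t, hst using Nat.le_induction with
  | base => rfl
  | succ t ht ih => rw [((h.shp t).grow b).FF_frozen p (hi.trans_le (h.n_mono ht)), ih]

theorem DD_frozen {s t i j : ℕ} (hst : s ≤ t) (hi : i < (st s).1) (hj : j < (st s).1) (b : Bool) :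
    DD c p (gm (st t) b) (c i) (c j) = DD c p (gm (st s) b) (c i) (c j) := by
  induction t, hst using Nat.le_induction with
  | base => rfl
  | succ t ht ih =>
    rw [((h.shp t).grow b).DD_frozen p (hi.trans_le (h.n_mono ht)) (hj.trans_le (h.n_mono ht)), ih]

theorem cut_mem {s t : ℕ} (hst : s ≤ t) {b : Bool} {T : Tent} (hT : T ∈ (gm (st s) b).1) :
    T ∈ (gm (st t) b).1 := by
  induction t, hst using Nat.le_induction with
  | base => exact hT
  | succ t ht ih => exact ((h.shp t).grow b).grow.subset T ih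

theorem fl_mem {s t : ℕ} (hst : s ≤ t) {b : Bool} {y : ℕ × ℕ} (hy : y ∈ (gm (st s) b).2.2) :
    y ∈ (gm (st t) b).2.2 := by
  induction t, hst using Nat.le_induction with
  | base => exact hy
  | succ t ht ih => exact (h.shp t).fl_sub b y ih

/-- a requirement that is neither attended nor reset keeps its data -/
theorem keep {s e : ℕ} (he : s.unpair.1 ≠ e)
    (hr : s.unpair.1 < e → ¬ Rs r s.unpair.1 (st s) (st (s + 1))) :
    look r (st (s + 1)) e = look r (st s) e := by
  rcases lt_or_gt_of_ne he with h1 | h1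
  · exact (h.shp s).nr (hr h1) e (Ne.symm he)
  · exact (h.shp s).hi e h1

theorem spent (e s : ℕ) : Spent c p s e (st s) (look r (st s) e) (spt st e s) := by
  induction s with
  | zero => rw [h.init]; exact spent_zero e
  | succ s ih =>
    unfold spt
    rw [Finset.sum_range_succ]
    exact Spent.step (h.si s) (h.step s) ih

theorem summable : Summable fun s => HH (st (s + 1)) - HH (st s) := by
  have h1 := Run.summable_of_sp (st := fun s => ((s, [], [], [], []) : St))
    (H := fun x => HH (st x.1) / 4)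
    (fun s => by have := (h.shp s).HH_le; dsimp only; linarith) (fun e s => by
      have h1 := Spent.le (h.si s) (h.spent e s)
      have h3 : Run.sp (fun x => HH (st x.1) / 4) (fun s => ((s, [], [], [], []) : St)) e s =
          spt st e s / 4 := by
        unfold Run.sp spt
        rw [Finset.sum_div]
        refine Finset.sum_congr rfl fun t _ => ?_
        split_ifs
        · ring
        · simp
      rw [h3]
      linarith)
  refine (h1.mul_left 4).congr fun s => ?_
  ring

/-- scales never decrease -/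
theorem sc_mono (e : ℕ) {s t : ℕ} (hst : s ≤ t) : (look r (st s) e).sc ≤ (look r (st t) e).sc := by
  induction t, hst using Nat.le_induction with
  | base => exact le_rfl
  | succ t ht ih =>
    refine ih.trans ?_
    by_cases he : t.unpair.1 = e
    · have := (h.shp t).sc
      rw [he] at this
      exact this.ge
    · by_cases hr : t.unpair.1 < e → ¬ Rs r t.unpair.1 (st t) (st (t + 1))
      · rw [h.keep he hr]
      · push Not at hr
        rw [(h.shp t).lo hr.2 e hr.1, fresh_sc]
        have := ((h.si t).gi e).2.1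
        omega

theorem ph_mono {s e : ℕ} (hr : s.unpair.1 < e → ¬ Rs r s.unpair.1 (st s) (st (s + 1))) :
    (look r (st s) e).ph ≤ (look r (st (s + 1)) e).ph := by
  by_cases he : s.unpair.1 = e
  · exact ((h.step s).g he).ph_mono ((h.si s).gi e).ph_le
  · rw [h.keep he hr]

/-- finite injury -/
theorem stab (e : ℕ) : ∃ s0, ∀ t, s0 ≤ t → t.unpair.1 < e →
    ¬ Rs r t.unpair.1 (st t) (st (t + 1)) := by
  induction e with
  | zero => exact ⟨0, fun s _ hs => absurd hs (Nat.not_lt_zero _)⟩
  | succ e ih =>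
    obtain ⟨s0, h0⟩ := ih
    have mono : ∀ s, s0 ≤ s → ∀ t, s ≤ t → (look r (st s) e).ph ≤ (look r (st t) e).ph := by
      intro s hs t ht
      induction t, ht using Nat.le_induction with
      | base => exact le_rfl
      | succ t ht ih => exact ih.trans (h.ph_mono (h0 t (by omega)))
    have key : ∀ k s, s0 ≤ s → 3 ≤ (look r (st s) e).ph + k →
        ∃ s1, s0 ≤ s1 ∧ ∀ t, s1 ≤ t → (look r (st (t + 1)) e).ph ≤ (look r (st t) e).ph := by
      intro k
      induction k with
      | zero =>
        intro s hs h3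
        exact ⟨s, hs, fun t ht => by
          have := mono s hs t ht
          have := ((h.si (t + 1)).gi e).ph_le
          omega⟩
      | succ k ih =>
        intro s hs h3
        by_cases hc : ∀ t, s ≤ t → (look r (st (t + 1)) e).ph ≤ (look r (st t) e).ph
        · exact ⟨s, hs, hc⟩
        · push Not at hc
          obtain ⟨t, ht, hlt⟩ := hc
          have := mono s hs t ht
          exact ih (t + 1) (by omega) (by omega)
    obtain ⟨s1, hs1, h1⟩ := key 3 s0 le_rfl (by omega)
    refine ⟨s1, fun s hs hlt hR => ?_⟩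
    rcases (by omega : s.unpair.1 < e ∨ s.unpair.1 = e) with h2 | h2
    · exact h0 s (by omega) h2 hR
    · have h3 := hR.2
      rw [h2] at h3
      exact absurd (h1 s hs) (not_le.2 h3)

/-- the last incarnation -/
theorem last (e : ℕ) : ∃ s1, (look r (st s1) e).ph = 0 ∧ ∀ t, s1 ≤ t → t.unpair.1 < e →
    ¬ Rs r t.unpair.1 (st t) (st (t + 1)) := by
  classical
  have hex := h.stab e
  have h1 := Nat.find_spec hex
  refine ⟨Nat.find hex, ?_, h1⟩
  rcases hn : Nat.find hex with _ | t
  · rw [h.init]; rfl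
  · have h2 := Nat.find_min hex (show t < Nat.find hex by omega)
    push Not at h2
    obtain ⟨s, hs, hlt, hR⟩ := h2
    rcases (by omega : s = t ∨ Nat.find hex ≤ s) with rfl | h3
    · rw [(h.shp s).lo hR e hlt]; rfl
    · exact absurd hR (h1 s h3 hlt)

theorem floors_side (a : ℕ) (b : Bool) :
    ∃ k, ∀ t, ∀ y ∈ (gm (st t) b).2.2, a < y.1 ∨ y.2 < k := by
  obtain ⟨s0, h0⟩ := h.stab a
  have key : ∀ s, s0 ≤ s → ∀ y ∈ (gm (st s) b).2.2, y.1 ≤ a → y ∈ (gm (st s0) b).2.2 := by
    intro s hs
    induction s, hs using Nat.le_induction with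
    | base => exact fun y hy _ => hy
    | succ s hs ih =>
      intro y hy ha
      rcases (h.shp s).fl b with h1 | ⟨hR, -, f, h1⟩ <;> rw [h1] at hy
      · exact ih y hy ha
      · rcases List.mem_cons.1 hy with rfl | hy
        · have := ((h.si s).gi s.unpair.1).1
          exact absurd hR (h0 s hs (by dsimp only at ha; omega))
        · exact ih y hy ha
  refine ⟨((gm (st s0) b).2.2.map fun y => y.2).sum + 1, fun s y hy => ?_⟩
  rcases lt_or_ge a y.1 with ha | ha
  · exact Or.inl ha
  have h1 : y ∈ (gm (st s0) b).2.2 := by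
    rcases le_total s s0 with h2 | h2
    · exact h.fl_mem h2 hy
    · exact key s h2 y hy ha
  exact Or.inr (Nat.lt_succ_of_le (List.single_le_sum (fun _ _ => Nat.zero_le _) _
    (List.mem_map.2 ⟨y, h1, rfl⟩)))

/-- only finitely many floors have a scale at most `a` -/
theorem floors (a : ℕ) : ∃ k, ∀ t b, ∀ y ∈ (gm (st t) b).2.2, a < y.1 ∨ y.2 < k := by
  obtain ⟨k, hk⟩ := h.floors_side a true
  obtain ⟨l, hl⟩ := h.floors_side a false
  refine ⟨k + l, fun t b y hy => ?_⟩
  cases b
  · have := hl t y hy; omega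
  · have := hk t y hy; omega

/-- uniform lower bound away from the base point -/
theorem GG_low (a : ℕ) : ∃ k, ∀ t b x, q a ≤ dist x (c p) → q k ≤ GG c p (gm (st t) b).2.1 x := by
  obtain ⟨k, hk⟩ := h.floors a
  refine ⟨a + k, fun t b x hx => ?_⟩
  rcases (h.si t).low b x with h1 | ⟨y, hy, h1, h2⟩
  · rw [h1]; exact (q_anti (by omega)).trans hx
  · rcases hk t b y hy with h3 | h3
    · have := q_anti h3.le
      linarith
    · exact (q_anti (by omega)).trans h2

/-- floors written on the target side after a resetting action of `e` have a large scale -/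
theorem late {e s : ℕ} (he : s.unpair.1 = e) (hR : Rs r e (st s) (st (s + 1)))
    (hno : ∀ t, s ≤ t → t.unpair.1 < e → ¬ Rs r t.unpair.1 (st t) (st (t + 1)))
    {t : ℕ} (ht : s ≤ t) : ∀ y ∈ (gm (st t) (!sd e)).2.2, y ∈ (gm (st s) (!sd e)).2.2 ∨ s < y.1 := by
  induction t, ht using Nat.le_induction with
  | base => exact fun y hy => Or.inl hy
  | succ t ht ih =>
    intro y hy
    rcases (h.shp t).fl (!sd e) with h1 | ⟨hR', hb, f, h1⟩ <;> rw [h1] at hy
    · exact ih y hy
    · rcases List.mem_cons.1 hy with rfl | hy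
      · right
        have h2 : t.unpair.1 ≠ e := fun h2 => by rw [h2] at hb; simp at hb
        have h3 : e < t.unpair.1 := by
          rcases lt_or_gt_of_ne h2 with h3 | h3
          · exact absurd hR' (hno t ht h3)
          · exact h3
        have h4 : s + 1 ≤ t := by
          rcases eq_or_lt_of_le ht with rfl | h4
          · exact absurd he h2
          · exact h4
        have h5 := h.sc_mono t.unpair.1 h4
        subst he
        rw [(h.shp s).lo hR _ h3, fresh_sc] at h5
        dsimp only
        omega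
      · exact ih y hy

theorem lim (b : Bool) : ∃ D, Lim c p st b D := by
  obtain ⟨D, h1, h2⟩ := PsD.limit (Ds := fun s => DD c p (gm (st s) b)) (fun s => ps_DD c p _)
    (h.summable.mul_left 2) fun s x y => (h.shp s).DD_diff b x y
  have lowF : ∀ s μ y, (∀ t, s ≤ t → μ ≤ FF c p (gm (st t) b) y) →
      ∀ x, min (dist x y) μ ≤ D x y := fun s μ y H x => by
    refine ge_of_tendsto (h2 x y) ?_
    filter_upwards [eventually_ge_atTop s] with t ht
    exact (min_le_min le_rfl (H t ht)).trans (min_le_DD c p _ x y)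
  refine ⟨D, h1, fun s i j hi hj => tendsto_nhds_unique (h2 _ _) ?_, fun s T hT u hu y => ?_,
    lowF, fun ε hε => ?_⟩
  · refine tendsto_const_nhds.congr' ?_
    filter_upwards [eventually_ge_atTop s] with t ht
    exact (h.DD_frozen ht hi hj b).symm
  · refine ge_of_tendsto (h2 u y) ?_
    filter_upwards [eventually_ge_atTop s] with t ht
    exact tv_le_DD c p (h.cut_mem ht hT) hu y
  · obtain ⟨a, ha⟩ := exists_q_lt (half_pos hε)
    obtain ⟨k, H⟩ := h.GG_low a
    have key : ∀ x y, ε ≤ dist x y → ε / 2 ≤ dist y (c p) → min ε (q k) ≤ D x y :=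
      fun x y hxy hy => (min_le_min hxy le_rfl).trans (lowF 0 _ y
        (fun t _ => (H t b y (ha.le.trans hy)).trans (GG_le_FF c p _ y)) x)
    refine ⟨min ε (q k), lt_min hε (q_pos k), fun x y hxy => ?_⟩
    by_contra hc
    have h3 := not_lt.1 hc
    rcases le_or_gt (ε / 2) (dist y (c p)) with h4 | h4
    · exact absurd hxy (not_lt.2 (key x y h3 h4))
    · have h5 := dist_triangle_right x y (c p)
      rw [h1.comm] at hxy
      exact absurd hxy (not_lt.2 (key y x (by rwa [dist_comm]) (by linarith)))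

end Rn

end Pool.Agent.P.MP_fa5791_lc.Two
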