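import Pool.Agent.P.MP_fa5791_lc.TInv
import Pool.Agent.P.MP_fa5791_lc.TConcl

namespace Pool.Agent.P.MP_fa5791_lc.Two

open Pool.Agent.Lib.ComputableProp Pool.Agent.P.MP_fa5791_lc Filter Topology

variable {X : Type} [MetricSpace X] {c : ℕ → X}

theorem ball_snd {D D' Ds : X → X → ℝ} {f : X → X} {e s k w n m b : ℕ} {σ : List ℕ}
    (hD : PsD D) (hs : SoundD c D D' f e) (hc : com e s σ k = some w) (hv : ValW c Ds n σ m b)
    (hm : m < n) (hfr : ∀ i j, i < n → j < n → D (c i) (c j) = Ds (c i) (c j)) (x : X)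
    (hx : D x (c m) ≤ q b) : D' (c w) (f x) ≤ q k := by
  refine hs s σ k w hc x fun i hi => ?_
  have h1 := hv i hi
  have h2 := hD.tri (c (σ.getD i 0)) (c m) x
  rw [hfr _ _ h1.1 hm, hD.comm (c m)] at h2
  change _ ≤ q i
  linarith [h1.2]

theorem not_nval {D Ds : X → X → ℝ} {n m b : ℕ} {σ : List ℕ} {x : X} (hD : PsD D)
    (hσ : ∀ i < σ.length, D (c (σ.getD i 0)) x ≤ 1 / 2 ^ (i + 1))
    (hx : D x (c m) ≤ q (σ.length + 2)) (hb : σ.length + 2 ≤ b) (hn : σ.sum < n) (hm : m < n)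
    (hfr : ∀ i j, i < n → j < n → D (c i) (c j) = Ds (c i) (c j)) : ¬ NValS c Ds n σ m b := by
  rintro ⟨i, hi, h⟩
  have hlt : σ.getD i 0 < n := by
    refine lt_of_le_of_lt ?_ hn
    rw [List.getD_eq_getElem _ _ hi]
    exact List.single_le_sum (fun _ _ => Nat.zero_le _) _ (List.getElem_mem hi)
  rcases h with h | h
  · omega
  · rw [← hfr _ _ hlt hm] at h
    have h1 : D (c (σ.getD i 0)) x ≤ q (i + 1) := hσ i hi
    have h2 := hD.tri (c (σ.getD i 0)) x (c m)
    have h3 := q_anti hb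
    have h4 := q_anti (show i + 3 ≤ σ.length + 2 by omega)
    have h5 : q (i + 3) = q i / 8 := by rw [q_succ, q_succ, q_succ]; ring
    have h6 := q_succ i
    have := q_pos i
    linarith

theorem PsD.self_le {D : X → X → ℝ} (h : PsD D) (x : X) (k : ℕ) : D x x ≤ q k := by
  rw [h.self]; exact (q_pos _).le

variable (c) in
/-- the data of a hypothetical computable injective map, after the last reset -/
structure Cx (p r : ℕ) (st : ℕ → Stt) (D D' : X → X → ℝ) (f : X → X) (e s1 : ℕ) : Prop where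
  run : Rn c p r st
  hD : Lim c p st (sd e) D
  hD' : Lim c p st (!sd e) D'
  inj : Function.Injective f
  so : SoundD c D D' f (e / 2)
  co : ComplD c D (e / 2)
  ph0 : (look r (st s1) e).ph = 0
  nor : ∀ t, s1 ≤ t → t.unpair.1 < e → ¬ Rs r t.unpair.1 (st t) (st (t + 1))

variable (c) in
def T1 (p n : ℕ) (D D' : X → X → ℝ) (f : X → X) (d : Dt) : Prop :=
  ∃ u < n, ∀ x, D x (c p) ≤ q d.b0 → D' (c u) (f x) ≤ q (d.sc + 2)

variable (c) in
/-- semantic invariant after the cut, for the point `z` -/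
def T2 (p : ℕ) (D D' : X → X → ℝ) (f : X → X) (sc b0 k' : ℕ) (z : X) : Prop :=
  ∃ v ρ j a k : ℕ, k' = k + sc + j + 3 ∧
    (∀ x, D x (c p) ≤ q b0 → q (sc + 1) < |2 ^ j * dist (f x) (c v) - ρ|) ∧
    (∀ y y', dist y (c v) ≤ 5 * q a → D' y' y ≤ q k → dist y' y ≤ D' y' y) ∧
    (ρ : ℝ) ≤ 2 ^ j * (4 * q a) ∧ 5 * q a < dist (f (c p)) (c v) ∧ 2 ^ j * dist (f z) (c v) < ρ

variable (c) in
def T3 (p : ℕ) (D D' : X → X → ℝ) (f : X → X) (d : Dt) : Prop :=
  ∃ w, ∀ x, D x (c p) ≤ q d.b1 → D' (c w) (f x) ≤ q d.k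

theorem T2.hop {p sc b0 k' w : ℕ} {D D' : X → X → ℝ} {f : X → X} {z z' : X} (hD' : PsD D')
    (h : T2 c p D D' f sc b0 k' z) (hz : D z (c p) ≤ q b0) (h1 : D' (c w) (f z) ≤ q k')
    (h2 : D' (c w) (f z') ≤ q k') : T2 c p D D' f sc b0 k' z' := by
  obtain ⟨v, ρ, j, a, k, hk, a0, a1, a2, a3, a4⟩ := h
  refine ⟨v, ρ, j, a, k, hk, a0, a1, a2, a3, ?_⟩
  have hj : (0 : ℝ) < 2 ^ j := by positivity
  have b1 := a0 z hz
  rw [abs_of_neg (by linarith)] at b1
  have b2 : dist (f z) (c v) < 4 * q a := lt_of_mul_lt_mul_left (a4.trans_le a2) hj.le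
  have b3 := hD'.tri (f z') (c w) (f z)
  rw [hD'.comm (f z') (c w)] at b3
  have b4 := q_anti (show k + 1 ≤ k' by omega)
  have b5 := q_succ k
  have b6 := a1 (f z) (f z') (by linarith [q_pos a]) (by linarith)
  have b7 := dist_triangle (f z') (f z) (c v)
  have b8 : 2 ^ j * (2 * q k') = q (k + sc + 2) := by
    rw [hk, show k + sc + j + 3 = (k + sc + 2) + (j + 1) by ring, q_add (k + sc + 2), q_succ j]
    have := q_mul_pow j
    linear_combination (q (k + sc + 2)) * this
  have b9 := q_anti (show sc + 1 ≤ k + sc + 2 by omega)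
  have b10 : dist (f z') (c v) ≤ 2 * q k' + dist (f z) (c v) := by linarith
  have b11 := mul_le_mul_of_nonneg_left b10 hj.le
  linarith

theorem T2.not_p {p sc b0 k' : ℕ} {D D' : X → X → ℝ} {f : X → X} :
    ¬ T2 c p D D' f sc b0 k' (c p) := by
  rintro ⟨v, ρ, j, a, k, -, -, -, a2, a3, a4⟩
  have hj : (0 : ℝ) < 2 ^ j := by positivity
  have b2 : dist (f (c p)) (c v) < 4 * q a := lt_of_mul_lt_mul_left (a4.trans_le a2) hj.le
  linarith [q_pos a]

namespace Cx

variable {p r e s1 : ℕ} {st : ℕ → Stt} {D D' : X → X → ℝ} {f : X → X}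
  (h : Cx c p r st D D' f e s1)
include h

theorem p_lt (s : ℕ) : p < (st s).1 := (h.run.si s).p_lt

theorem gi (s : ℕ) : GI c p r s e (st s) (look r (st s) e) := (h.run.si s).gi e

theorem same {t : ℕ} (ht : s1 ≤ t) (he : t.unpair.1 ≠ e) :
    look r (st (t + 1)) e = look r (st t) e := by
  rcases lt_or_gt_of_ne he with h1 | h1
  · exact (h.run.shp t).nr (h.nor t ht h1) e he.symm
  · exact (h.run.shp t).hi e h1

theorem Dp {s : ℕ} (hd : 1 ≤ (look r (st s) e).ph) :
    D (c (look r (st s) e).z) (c p) ≤ q (look r (st s) e).b0 := by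
  obtain ⟨-, h1, h2⟩ := (h.gi s).dist_le hd
  rw [h.hD.fr s _ _ h1.1 (h.p_lt s)]
  exact (DD_p c p ((h.run.si s).mg _) h1.2).trans ((GG_le c p _ _).trans h2)

theorem cut {s ρ j : ℕ} {d : Dt} {w : V1} (hs : s1 ≤ s) (he : s.unpair.1 = e)
    (hR : Rs r e (st s) (st (s + 1))) (hm : cand d w.1 < (st s).1)
    (hS : T1 c p (st s).1 D D' f d) (hw : Wk1 c p s e (st s) d w)
    (hC : Cut c (st s).1 w.2.2.1 w.2.2.2.1 ρ j)
    (hT : (w.2.2.1, ρ, j, d.sc) ∈ (gm (st (s + 1)) (!sd e)).1) :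
    T2 c p D D' f d.sc d.b0 (w.2.2.2.2.2.2 + d.sc + j + 3) (c (cand d w.1)) := by
  obtain ⟨t0, σ, v, a, σ', u, k⟩ := w
  obtain ⟨hdec, v0, v1, hF, hvp, huv⟩ := hw
  simp only [de1, Bool.and_eq_true, eqb_iff, leb_iff, List.all_eq_true, Bool.or_eq_true] at hdec
  obtain ⟨⟨⟨⟨⟨c0, c1⟩, l0⟩, l1⟩, l2⟩, l3⟩ := hdec
  dsimp only at *
  push_cast at hvp huv
  obtain ⟨u0, hu0, a0⟩ := hS
  have b0 := ball_snd h.hD.ps h.so c0 v0 hm (h.hD.fr s) _ (h.hD.ps.self_le _ _)
  have b1 := ball_snd h.hD.ps h.so c1 v1 (h.p_lt s) (h.hD.fr s) _ (h.hD.ps.self_le _ _)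
  have hj : (0 : ℝ) < 2 ^ j := by positivity
  have ha := q_mul_pow a
  have ha' := q_pos a
  have hk := q_pos k
  have hak : 2 * q k ≤ q a := by
    have := q_anti l1
    have := q_succ a
    linarith
  have e1 : (2 : ℝ) * 2 ^ j + 2 ^ a ≤ ρ * 2 ^ a := by exact_mod_cast hC.1
  have e2 : ((ρ : ℝ) + 1) * 2 ^ a ≤ 4 * 2 ^ j := by exact_mod_cast hC.2.1
  have e1' : 2 * 2 ^ j * q a + 1 ≤ ρ := by
    have := mul_le_mul_of_nonneg_right e1 ha'.le
    rw [add_mul, mul_assoc (ρ : ℝ), mul_comm (2 ^ a : ℝ), ha] at this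
    linarith
  have e2' : (ρ : ℝ) + 1 ≤ 4 * 2 ^ j * q a := by
    have := mul_le_mul_of_nonneg_right e2 ha'.le
    rw [mul_assoc, mul_comm (2 ^ a : ℝ), ha] at this
    linarith
  have hlow : ∀ y y', dist y (c v) ≤ 5 * q a → D' y' y ≤ q k → dist y' y ≤ D' y' y := by
    intro y y' hy hy'
    have h1 : q a < dist y (c p) := by
      have := dist_triangle (c v) y (c p)
      rw [dist_comm (c v) y] at this
      linarith
    have h2 := h.hD'.lowF s (2 * q k) y (fun t ht => ?_) y'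
    · rcases min_le_iff.1 h2 with h3 | h3
      · exact h3
      · linarith
    refine le_trans ?_ (GG_le_FF c p _ y)
    rcases (h.run.si t).low (!sd e) y with h3 | ⟨y0, h3, h4, h5⟩
    · rw [h3]; linarith
    · have h6 : ¬ a + 1 ≤ y0.1 := fun h6 => by
        have := q_anti (show a ≤ y0.1 by omega)
        linarith
      rcases h.run.late he hR (fun t' ht' => h.nor t' (hs.trans ht')) ht y0 h3 with h7 | h7
      · have h8 := q_anti ((l3 y0 h7).resolve_left h6)
        have h9 := q_succ y0.2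
        linarith
      · omega
  refine ⟨v, ρ, j, a, k, rfl, fun x hx => ?_, hlow, by linarith, ?_, ?_⟩
  · have h1 := h.hD'.cut _ _ hT (c u0) (hC.van d.sc u0 hu0) (f x)
    have h2 := (le_max_right _ _).trans (h1.trans (a0 x hx))
    have h3 := q_succ (d.sc + 1)
    have h4 := q_succ d.sc
    have := q_pos d.sc
    change q d.sc - _ ≤ _ at h2
    linarith
  · by_contra hle
    have h1 := hlow _ (c u) (not_lt.1 hle) b1
    have h2 := dist_triangle (c u) (f (c p)) (c v)
    linarith [not_lt.1 hle]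
  · have h1 := h.hD'.lowF s _ (c v) (fun t ht => (h.run.FF_frozen ht l0 _).ge) (f (c (cand d t0)))
    rw [h.hD'.ps.comm] at h1
    have h2 : dist (f (c (cand d t0))) (c v) ≤ q a := by
      rcases min_le_iff.1 h1 with h3 | h3 <;> linarith
    have h8 := mul_le_mul_of_nonneg_left h2 hj.le
    have := mul_pos hj ha'
    linarith

theorem not_stop {s : ℕ} (hd : 1 ≤ (look r (st s) e).ph)
    (h2 : T2 c p D D' f (look r (st s) e).sc (look r (st s) e).b0 (look r (st s) e).k
      (c (look r (st s) e).z)) (h3 : T3 c p D D' f (look r (st s) e)) :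
    ¬ DD c p (gm (st s) (sd e)) (c (look r (st s) e).z) (c p) < q (look r (st s) e).b1 := by
  intro hlt
  obtain ⟨w, hw⟩ := h3
  rw [← h.hD.fr s _ _ ((h.gi s).dist_le hd).2.1.1 (h.p_lt s)] at hlt
  exact T2.not_p (h2.hop h.hD'.ps (h.Dp hd) (hw _ hlt.le) (hw _ (h.hD.ps.self_le _ _)))

theorem sinv {s : ℕ} (hs : s1 ≤ s) : (look r (st s) e).ph = 0 ∨
    ((look r (st s) e).ph = 1 ∧ T1 c p (st s).1 D D' f (look r (st s) e)) ∨
    (2 ≤ (look r (st s) e).ph ∧ T2 c p D D' f (look r (st s) e).sc (look r (st s) e).b0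
      (look r (st s) e).k (c (look r (st s) e).z) ∧
      (3 ≤ (look r (st s) e).ph → T3 c p D D' f (look r (st s) e))) := by
  induction s, hs using Nat.le_induction with
  | base => exact Or.inl h.ph0
  | succ s hs ih =>
    by_cases hsame : look r (st (s + 1)) e = look r (st s) e
    · rw [hsame]
      rcases ih with h1 | ⟨h1, u, hu, h2⟩ | h1
      · exact Or.inl h1
      · exact Or.inr (Or.inl ⟨h1, u, hu.trans (h.run.shp s).n_lt, h2⟩)
      · exact Or.inr (Or.inr h1)
    have he : s.unpair.1 = e := by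
      by_contra he
      exact hsame (h.same hs he)
    have hidle : st (s + 1) ≠ idle (st s) := fun h' => hsame (by rw [h']; rfl)
    have hG := h.gi s
    have hP := h.Dp (s := s)
    rcases (h.run.step s).g he with ⟨hd, ⟨-, h'⟩ | ⟨w, m, j, m', j', hw, -, -, h'⟩⟩ |
      ⟨hd, ⟨-, h'⟩ | ⟨w, ρ, j, hw, hC, h'⟩⟩ | ⟨hd, ⟨-, h'⟩ | ⟨w, hw, h'⟩⟩ |
      ⟨hd, ⟨-, h'⟩ | ⟨-, h'⟩ | ⟨-, w, m, j, hw, -, hN, h'⟩⟩
    · exact absurd h' hidle
    · have hdec := hw.1
      simp only [de0, Bool.and_eq_true, eqb_iff, leb_iff] at hdec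
      refine Or.inr (Or.inl ?_)
      have hn := (h.run.shp s).n_lt
      rw [h', look_mk_self]
      rw [h'] at hn
      exact ⟨rfl, w.2.2, by omega,
        ball_snd h.hD.ps h.so hdec.1.1 hw.2 (h.p_lt s) (h.hD.fr s)⟩
    · exact absurd h' hidle
    · have hS : T1 c p (st s).1 D D' f (look r (st s) e) := by
        rcases ih with h1 | h1 | h1
        · omega
        · exact h1.2
        · omega
      have hm : cand (look r (st s) e) w.1 < (st s).1 := by
        rcases hG.2.2 with h1 | ⟨-, h1, h2 | h2 | h2⟩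
        · omega
        · rcases cand_cases (look r (st s) e) w.1 with h3 | h3 <;> rw [h3]
          · exact h1.1
          · exact h2.2.1.1
        · omega
        · omega
      have hR : Rs r e (st s) (st (s + 1)) := by
        rw [Rs, h', look_mk_self, hd]; simp
      have := h.cut hs he hR hm hS hw hC (by rw [h']; simp)
      refine Or.inr (Or.inr ?_)
      rw [h', look_mk_self]
      exact ⟨le_rfl, this, fun h3 => absurd h3 (by simp)⟩
    · exact absurd h' hidle
    · have hdec := hw.1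
      simp only [de2, Bool.and_eq_true, eqb_iff, leb_iff] at hdec
      refine Or.inr (Or.inr ?_)
      rw [h', look_mk_self]
      refine ⟨by simp, ?_, fun _ => ⟨w.2.2,
        ball_snd h.hD.ps h.so hdec.1 hw.2 (h.p_lt s) (h.hD.fr s)⟩⟩
      rcases ih with h1 | h1 | h1
      · omega
      · omega
      · exact h1.2.1
    · exact absurd h' hidle
    · exact absurd h' hidle
    · have hdec := hw.1
      simp only [de2, Bool.and_eq_true, eqb_iff, leb_iff] at hdec
      obtain ⟨h2, h3⟩ : T2 c p D D' f (look r (st s) e).sc (look r (st s) e).b0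
          (look r (st s) e).k (c (look r (st s) e).z) ∧ T3 c p D D' f (look r (st s) e) := by
        rcases ih with h1 | h1 | h1
        · omega
        · omega
        · exact ⟨h1.2.1, h1.2.2 hd⟩
      have hz := (hG.dist_le (by omega)).2.1.1
      have b := ball_snd h.hD.ps h.so hdec.1 hw.2 hz (h.hD.fr s)
      have hH : HH (st (s + 1)) - HH (st s) = q (w.2.1 + 2) := by
        rw [h', HH_mk]; simp [HG]
      have b1 : D (c m) (c (look r (st s) e).z) ≤ q w.2.1 := by
        rw [h.hD.fr (s + 1) _ _ (by rw [h']; simp only [mk_n]; omega)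
          (hz.trans (h.run.shp s).n_lt)]
        have k1 := (abs_le.1 ((h.run.shp s).DD_diff (p := p) (sd e) (c m)
          (c (look r (st s) e).z))).2
        have k2 := (DD_le c p _ _ _).trans_lt hN.1
        have k3 := q_anti (show w.2.1 + 1 ≤ w.2.1 + (look r (st s) e).b1 + s + 4 by omega)
        have k4 := q_succ w.2.1
        have k5 := q_succ (w.2.1 + 1)
        linarith
      refine Or.inr (Or.inr ?_)
      rw [h', look_mk_self]
      exact ⟨by simp, h2.hop h.hD'.ps (hP (by omega)) (b _ (h.hD.ps.self_le _ _)) (b _ b1),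
        fun _ => h3⟩

theorem const {s : ℕ} (hs : s1 ≤ s) (hd : (look r (st s) e).ph ≤ 2)
    (hne : ∀ t, s ≤ t → (look r (st t) e).ph ≠ (look r (st s) e).ph + 1) :
    ∀ t, s ≤ t → look r (st t) e = look r (st s) e := by
  intro t ht
  induction t, ht using Nat.le_induction with
  | base => rfl
  | succ t ht ih =>
    by_cases he : t.unpair.1 = e
    swap
    · rw [h.same (hs.trans ht) he, ih]
    have h1 := hne (t + 1) (by omega)
    rw [← ih] at h1 hd ⊢
    rcases (h.run.step t).g he with ⟨hd', ⟨-, h'⟩ | ⟨w, m, j, m', j', -, -, -, h'⟩⟩ |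
      ⟨hd', ⟨-, h'⟩ | ⟨w, ρ, j, -, -, h'⟩⟩ | ⟨hd', ⟨-, h'⟩ | ⟨w, -, h'⟩⟩ | ⟨hd', -⟩
    · rw [h']; rfl
    · rw [h', look_mk_self, hd'] at h1; simp at h1
    · rw [h']; rfl
    · rw [h', look_mk_self, hd'] at h1; simp at h1
    · rw [h']; rfl
    · rw [h', look_mk_self, hd'] at h1; simp at h1
    · omega

theorem prog0 : ∃ t, s1 ≤ t ∧ (look r (st t) e).ph = 1 := by
  by_contra hne
  push Not at hne
  have hconst := h.const le_rfl (by rw [h.ph0]; omega) (by rw [h.ph0]; exact hne)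
  have hd := h.ph0
  generalize look r (st s1) e = d at hd hconst
  obtain ⟨σ, u, s0, a0, c0⟩ := h.co (c p) (d.sc + 2)
  let w : V0 := (σ, max (σ.length + 2) (d.sc + 1), u)
  obtain ⟨t, ht, he⟩ := exists_att e (Encodable.encode w + 1 + s0 + s1 + σ.sum + u)
  have hn := (h.run.si t).n
  have hR := (h.run.step t).g he
  rw [hconst t (by omega)] at hR
  rcases hR with ⟨-, ⟨h1, -⟩ | ⟨w, m, j, m', j', -, -, -, h'⟩⟩ | ⟨hd', -⟩ | ⟨hd', -⟩ | ⟨hd', -⟩
  · rcases h1 w (by omega) with h2 | h2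
    · have : de0 t e (st t).1 d w = true := by
        simp only [de0, Bool.and_eq_true, eqb_iff, leb_iff, w]
        exact ⟨⟨c0 t (by omega), by omega⟩, le_max_right _ _⟩
      rw [this] at h2
      exact absurd h2 (by simp)
    · exact not_nval h.hD.ps a0 (h.hD.ps.self_le _ _) (le_max_left _ _) (by omega) (h.p_lt t)
        (h.hD.fr t) h2
  · exact hne (t + 1) (by omega) (by rw [h']; simp)
  all_goals omega

theorem prog1 {s : ℕ} (hs : s1 ≤ s) (hd : (look r (st s) e).ph = 1) :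
    ∃ t, s1 ≤ t ∧ (look r (st t) e).ph = 2 := by
  by_contra hne
  push Not at hne
  have hconst := h.const hs (by omega) (by rw [hd]; exact fun t ht => hne t (hs.trans ht))
  have hG := h.gi s
  generalize look r (st s) e = d at hd hconst hG
  obtain ⟨t0, m0, m1, m2⟩ : ∃ t0, cand d t0 < (st s).1 ∧ c (cand d t0) ≠ c p ∧
      f (c (cand d t0)) ≠ c p := by
    rcases hG.2.2 with h1 | ⟨-, h1, h2 | h2 | h2⟩
    · omega
    · by_cases h3 : f (c d.z) = c p
      · exact ⟨1, by simpa using h2.2.1.1, by simpa using h2.2.2.2.2.1,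
          by simpa using fun h4 => h2.2.2.1 (h.inj (h3.trans h4.symm))⟩
      · exact ⟨0, by simpa using h1.1, by simpa using h2.2.2.2.1, by simpa using h3⟩
    · omega
    · omega
  obtain ⟨δ, hδ, d1, d2⟩ : ∃ δ > 0, δ ≤ dist (f (c (cand d t0))) (c p) ∧
      δ ≤ dist (f (c (cand d t0))) (f (c p)) :=
    ⟨_, lt_min (dist_pos.2 m2) (dist_pos.2 fun h4 => m1 (h.inj h4)), min_le_left _ _,
      min_le_right _ _⟩
  obtain ⟨K, hK, H⟩ := h.hD'.low (δ / 4) (by positivity)
  obtain ⟨a0, ha0⟩ := exists_q_lt (show 0 < δ / 2 by positivity)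
  obtain ⟨k0, hk0⟩ := h.run.GG_low a0
  obtain ⟨a, ha⟩ := exists_q_lt (show 0 < min K (min (q k0 / 2) (δ / 14)) from
    lt_min hK (lt_min (half_pos (q_pos _)) (by positivity)))
  have ha1 := ha.trans_le (min_le_left _ _)
  have ha2 := ha.trans_le ((min_le_right _ _).trans (min_le_left _ _))
  have ha3 := ha.trans_le ((min_le_right _ _).trans (min_le_right _ _))
  obtain ⟨k1, hk1⟩ := h.run.floors a
  obtain ⟨σ, v, s0, a1, c1⟩ := h.co (c (cand d t0)) a
  obtain ⟨σ', u, s0', a2, c2⟩ := h.co (c p) (max (a + 1) k1)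
  let w : V1 := (t0, σ, v, a, σ', u, max (a + 1) k1)
  obtain ⟨t, ht, he⟩ := exists_att e
    (Encodable.encode w + 1 + s0 + s0' + s + σ.sum + σ'.sum + v + max (a + 1) k1)
  have hn := (h.run.si t).n
  have g1 : dist (c v) (f (c (cand d t0))) < δ / 4 := H _ _ (lt_of_le_of_lt
    (h.so t σ _ _ (c1 t (by omega)) _ fun i hi => (a1 i hi).trans (q_anti (Nat.le_succ i))) ha1)
  have g2 : dist (c u) (f (c p)) < δ / 4 := H _ _ (lt_of_le_of_lt
    ((h.so t σ' _ _ (c2 t (by omega)) _ fun i hi => (a2 i hi).trans (q_anti (Nat.le_succ i))).trans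
      (q_anti (show a ≤ max (a + 1) k1 by omega))) ha1)
  have g3 := dist_triangle_left (f (c (cand d t0))) (c p) (c v)
  have g4 := dist_triangle4 (f (c (cand d t0))) (c v) (c u) (f (c p))
  rw [dist_comm (f (c (cand d t0))) (c v), dist_comm (c v) (c u)] at g4
  have hR := (h.run.step t).g he
  rw [hconst t (by omega)] at hR
  rcases hR with ⟨hd', -⟩ | ⟨-, ⟨h1, -⟩ | ⟨w, ρ, j, -, -, h'⟩⟩ | ⟨hd', -⟩ | ⟨hd', -⟩
  · omega
  · rcases h1 w (by omega) with h2 | h2 | h2 | h2 | h2 | h2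
    · have : de1 t e (st t).1 (gm (st t) (!sd e)).2.2 w = true := by
        simp only [de1, Bool.and_eq_true, eqb_iff, leb_iff, List.all_eq_true, Bool.or_eq_true, w]
        refine ⟨⟨⟨⟨⟨c1 t (by omega), c2 t (by omega)⟩, by omega⟩, le_max_left _ _⟩, by omega⟩,
          fun y hy => ?_⟩
        have := hk1 t _ y hy
        omega
      rw [this] at h2
      exact absurd h2 (by simp)
    · exact not_nval h.hD.ps a1 (h.hD.ps.self_le _ _) le_rfl (by omega)
        (m0.trans_le (h.run.n_mono (by omega))) (h.hD.fr t) h2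
    · exact not_nval h.hD.ps a2 (h.hD.ps.self_le _ _) le_rfl (by omega) (h.p_lt t) (h.hD.fr t) h2
    · have h3 := (hk0 t (!sd e) (c v) (by linarith)).trans (GG_le_FF c p _ _)
      simp only [w] at h2
      push_cast at h2
      linarith
    · simp only [w] at h2
      push_cast at h2
      linarith
    · simp only [w] at h2
      push_cast at h2
      linarith
  · exact hne (t + 1) (by omega) (by rw [h']; simp)
  · omega
  · omega

theorem prog2 {s : ℕ} (hs : s1 ≤ s) (hd : (look r (st s) e).ph = 2) :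
    ∃ t, s1 ≤ t ∧ (look r (st t) e).ph = 3 := by
  by_contra hne
  push Not at hne
  have hconst := h.const hs (by omega) (by rw [hd]; exact fun t ht => hne t (hs.trans ht))
  generalize look r (st s) e = d at hd hconst
  obtain ⟨σ, u, s0, a0, c0⟩ := h.co (c p) d.k
  let w : V0 := (σ, max (σ.length + 2) d.b0, u)
  obtain ⟨t, ht, he⟩ := exists_att e (Encodable.encode w + 1 + s0 + s + σ.sum + u)
  have hn := (h.run.si t).n
  have hR := (h.run.step t).g he
  rw [hconst t (by omega)] at hR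
  rcases hR with ⟨hd', -⟩ | ⟨hd', -⟩ | ⟨-, ⟨h1, -⟩ | ⟨w, -, h'⟩⟩ | ⟨hd', -⟩
  · omega
  · omega
  · rcases h1 w (by omega) with h2 | h2
    · have : de2 t e d.b0 d w = true := by
        simp only [de2, Bool.and_eq_true, eqb_iff, leb_iff, w]
        exact ⟨c0 t (by omega), le_max_right _ _⟩
      rw [this] at h2
      exact absurd h2 (by simp)
    · exact not_nval h.hD.ps a0 (h.hD.ps.self_le _ _) (le_max_left _ _) (by omega) (h.p_lt t)
        (h.hD.fr t) h2
  · exact hne (t + 1) (by omega) (by rw [h']; simp)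
  · omega

theorem step3 {t : ℕ} (ht : s1 ≤ t) (hd : (look r (st t) e).ph = 3) :
    (look r (st (t + 1)) e).ph = 3 ∧ (look r (st (t + 1)) e).b1 = (look r (st t) e).b1 ∧
    (look r (st (t + 1)) e).k = (look r (st t) e).k ∧
    dist (c (look r (st (t + 1)) e).z) (c (look r (st t) e).z) ≤ q t := by
  by_cases hsame : look r (st (t + 1)) e = look r (st t) e
  · rw [hsame, dist_self]
    exact ⟨hd, rfl, rfl, (q_pos _).le⟩
  have he : t.unpair.1 = e := by
    by_contra he
    exact hsame (h.same ht he)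
  have hidle : st (t + 1) ≠ idle (st t) := fun h' => hsame (by rw [h']; rfl)
  rcases (h.run.step t).g he with ⟨hd', -⟩ | ⟨hd', -⟩ | ⟨hd', -⟩ |
    ⟨-, ⟨-, h'⟩ | ⟨-, h'⟩ | ⟨-, w, m, j, -, -, hN, h'⟩⟩
  · omega
  · omega
  · omega
  · exact absurd h' hidle
  · exact absurd h' hidle
  · rw [h', look_mk_self]
    exact ⟨rfl, rfl, rfl, hN.dist_lt.le.trans (q_anti (by omega))⟩

theorem prog3 [CompleteSpace X] {s : ℕ} (hs : s1 ≤ s) (hd : (look r (st s) e).ph = 3) : False := by
  have hconst : ∀ t, s ≤ t → (look r (st t) e).ph = 3 ∧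
      (look r (st t) e).b1 = (look r (st s) e).b1 ∧ (look r (st t) e).k = (look r (st s) e).k := by
    intro t ht
    induction t, ht using Nat.le_induction with
    | base => exact ⟨hd, rfl, rfl⟩
    | succ t ht ih =>
      obtain ⟨h1, h2, h3, -⟩ := h.step3 (hs.trans ht) ih.1
      exact ⟨h1, h2.trans ih.2.1, h3.trans ih.2.2⟩
  let m : ℕ → X := fun t => c (look r (st t) e).z
  have hq : Summable q := by
    have := summable_geometric_two
    refine this.congr fun n => ?_
    simp [q]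
  have hcs : CauchySeq fun t => m (t + s) := by
    refine cauchySeq_of_dist_le_of_summable (fun t => q (t + s)) (fun t => ?_)
      ((summable_nat_add_iff s).2 hq)
    rw [dist_comm, show t.succ + s = t + s + 1 by omega]
    exact (h.step3 (by omega) (hconst _ (by omega)).1).2.2.2
  obtain ⟨l, hl⟩ := cauchySeq_tendsto_of_complete hcs
  have hl' : Tendsto m atTop (𝓝 l) := (tendsto_add_atTop_iff_nat s).1 hl
  have hDl : Tendsto (fun t => D l (m t)) atTop (𝓝 0) := by
    have : Continuous fun y => D l y := h.hD.ps.cont.comp (continuous_const.prodMk continuous_id)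
    have h2 := (this.tendsto l).comp hl'
    rwa [h.hD.ps.self] at h2
  set d0 := look r (st s) e with hd0
  obtain ⟨σ, w0, s0, a0, c0⟩ := h.co l d0.k
  let w : V0 := (σ, max (σ.length + 2) d0.b1, w0)
  obtain ⟨s2, hs2⟩ := eventually_atTop.1 ((hDl.eventually (gt_mem_nhds (q_pos (σ.length + 2)))).and
    (h.run.summable.tendsto_atTop_zero.eventually (gt_mem_nhds (q_pos (w.2.1 + 2)))))
  obtain ⟨t, ht, he⟩ := exists_att e (Encodable.encode w + 1 + s0 + s2 + s + σ.sum)
  have hn := (h.run.si t).n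
  obtain ⟨hd1, hd2, hd3⟩ := hconst t (by omega)
  have hz := ((h.gi t).dist_le (by omega)).2.1.1
  have hns : ¬ Ns c p (st t) (sd e) (de2 t e (look r (st t) e).b1 (look r (st t) e) w)
      (look r (st t) e).z w := by
    rintro (h2 | h2)
    · have : de2 t e (look r (st t) e).b1 (look r (st t) e) w = true := by
        simp only [de2, Bool.and_eq_true, eqb_iff, leb_iff, w, hd2, hd3]
        exact ⟨c0 t (by omega), le_max_right _ _⟩
      rw [this] at h2
      exact absurd h2 (by simp)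
    · exact not_nval h.hD.ps a0 (hs2 t (by omega)).1.le (le_max_left _ _) (by omega) hz
        (h.hD.fr t) h2
  rcases (h.run.step t).g he with ⟨hd', -⟩ | ⟨hd', -⟩ | ⟨hd', -⟩ |
    ⟨hd', ⟨hst, -⟩ | ⟨h1, -⟩ | ⟨-, w', m', j, -, hopt, -, h'⟩⟩
  · omega
  · omega
  · omega
  · rcases h.sinv (s := t) (by omega) with h1 | h1 | h1
    · omega
    · omega
    · exact h.not_stop (by omega) h1.2.1 (h1.2.2 hd') hst
  · exact hns (h1 w (by omega))
  · have h2 := (hopt w (by omega)).resolve_left hns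
    have h3 := (hs2 t (by omega)).2
    have h4 : HH (st (t + 1)) - HH (st t) = q (w'.2.1 + 2) := by
      rw [h', HH_mk]; simp [HG]
    have h5 := q_anti (show w'.2.1 + 2 ≤ w.2.1 + 2 by omega)
    linarith

theorem false [CompleteSpace X] : False := by
  obtain ⟨t1, h1, g1⟩ := h.prog0
  obtain ⟨t2, h2, g2⟩ := h.prog1 h1 g1
  obtain ⟨t3, h3, g3⟩ := h.prog2 h2 g2
  exact h.prog3 h3 g3

end Cx

theorem no_map {Y Z : Type} [MetricSpace Y] [MetricSpace Z] (hc : DenseRange c)
    {D D' : X → X → ℝ} (e : X ≃ₜ Y) (e' : X ≃ₜ Z) (he : ∀ x y, dist (e x) (e y) = D x y)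
    (he' : ∀ x y, dist (e' x) (e' y) = D' x y)
    (H : ∀ (f : X → X) (k : ℕ), Function.Injective f → SoundD c D D' f k → ComplD c D k → False)
    (h : Y → Z) (hi : Function.Injective h) :
    ¬ CompMap (fun i => e (c i)) (fun i => e' (c i)) h := by
  intro k1
  have d1 : DenseRange (fun i => e (c i)) := e.surjective.denseRange.comp hc e.continuous
  obtain ⟨e1, s1, t1⟩ := exists_com d1 k1
  refine H (fun x => e'.symm (h (e x))) e1 (e'.symm.injective.comp (hi.comp e.injective)) ?_ ?_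
  · intro s σ k w hw x hx
    have := s1 s σ k w hw (e x) (by simpa only [he] using hx)
    rw [← he']
    simpa using this
  · intro x k
    simpa only [he] using t1 (e x) k

theorem caseA [CompleteSpace X] (hc : Pres c) {p r : ℕ}
    (hp : ∀ x, dist x (c p) < q r → ∀ ε > 0, ∃ y, y ≠ x ∧ dist y x < ε) : ConclT X := by
  obtain ⟨st, hst, h0, hR⟩ := run_inv (R := fun s a b => Rl c p r s a b) (re_Rl p r hc.2)
    (I := SI c p r) (rl_total hc.1 hp) (fun _ _ _ h1 h2 => h1.step h2) si_zero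
  have run : Rn c p r st := ⟨h0, hR⟩
  obtain ⟨D, hD⟩ := run.lim true
  obtain ⟨D', hD'⟩ := run.lim false
  have hlt : ∀ z : ℕ × ℕ, z.1 < (st (z.1 + z.2)).1 ∧ z.2 < (st (z.1 + z.2)).1 := fun z => by
    have := (run.si (z.1 + z.2)).n; omega
  have cr : ∀ {b : Bool} {E : X → X → ℝ}, Lim c p st b E →
      CR fun z : ℕ × ℕ => E (c z.1) (c z.2) := fun {b E} hE =>
    (cr_DD p hc.2 (g := fun z : ℕ × ℕ => gm (st (z.1 + z.2)) b) (i := fun z => z.1)
      (j := fun z => z.2) (by fun_prop) (by fun_prop) (by fun_prop)).of_eq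
      fun z => (hE.fr _ _ _ (hlt z).1 (hlt z).2).symm
  obtain ⟨Y, mY, hY, e, he⟩ := hD.ps.exists_space hD.low
  obtain ⟨Z, mZ, hZ, e', he'⟩ := hD'.ps.exists_space hD'.low
  refine ⟨Y, Z, mY, mZ, fun i => e (c i), fun i => e' (c i), hY, hZ,
    ⟨e.surjective.denseRange.comp hc.1 e.continuous, (cr hD).of_eq fun z => (he _ _).symm⟩,
    ⟨e'.surjective.denseRange.comp hc.1 e'.continuous, (cr hD').of_eq fun z => (he' _ _).symm⟩,
    ⟨e.symm⟩, ⟨e'.symm⟩, fun h hi _ => no_map hc.1 e e' he he' ?_ h hi,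
    fun h hi _ => no_map hc.1 e' e he' he ?_ h hi⟩
  · intro f k hf so co
    obtain ⟨s1, h1, h2⟩ := run.last (2 * k)
    have e1 : sd (2 * k) = true := by simp [sd]
    have e2 : 2 * k / 2 = k := by omega
    exact Cx.false (e := 2 * k) ⟨run, e1 ▸ hD, e1 ▸ hD', hf, e2.symm ▸ so, e2.symm ▸ co, h1, h2⟩
  · intro f k hf so co
    obtain ⟨s1, h1, h2⟩ := run.last (2 * k + 1)
    have e1 : sd (2 * k + 1) = false := by simp [sd, eqb]
    have e2 : (2 * k + 1) / 2 = k := by omega
    exact Cx.false (e := 2 * k + 1)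
      ⟨run, e1 ▸ hD', e1 ▸ hD, hf, e2.symm ▸ so, e2.symm ▸ co, h1, h2⟩

end Pool.Agent.P.MP_fa5791_lc.Two
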