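import Pool.Agent.P.MP_fa5791_lc.AMain

namespace Pool.Agent.P.MP_fa5791_lc.Two

open Pool.Agent.Lib.ComputableProp Pool.Agent.P.MP_fa5791_lc Filter Topology

/-- a continuous pseudometric -/
structure PsD {X : Type} [MetricSpace X] (D : X → X → ℝ) : Prop where
  self : ∀ x, D x x = 0
  comm : ∀ x y, D x y = D y x
  tri : ∀ x y z, D x z ≤ D x y + D y z
  cont : Continuous fun z : X × X => D z.1 z.2

variable {X : Type} [MetricSpace X]

theorem PsD.limit {Ds : ℕ → X → X → ℝ} (h : ∀ s, PsD (Ds s))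
    {u : ℕ → ℝ} (hu : Summable u) (hd : ∀ s x y, |Ds (s + 1) x y - Ds s x y| ≤ u s) :
    ∃ D, PsD D ∧ ∀ x y, Tendsto (fun s => Ds s x y) atTop (𝓝 (D x y)) := by
  let D : X → X → ℝ := fun x y => Ds 0 x y + ∑' s, (Ds (s + 1) x y - Ds s x y)
  have hT : ∀ x y, Tendsto (fun s => Ds s x y) atTop (𝓝 (D x y)) := by
    intro x y
    have hs : Summable fun s => Ds (s + 1) x y - Ds s x y :=
      Summable.of_norm_bounded hu fun s => hd s x y
    have := hs.hasSum.tendsto_sum_nat.const_add (Ds 0 x y)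
    refine this.congr fun s => ?_
    rw [Finset.sum_range_sub (fun s => Ds s x y)]
    ring
  refine ⟨D, ⟨fun x => ?_, fun x y => ?_, fun x y z => ?_, ?_⟩, hT⟩
  · refine tendsto_nhds_unique (hT x x) ?_
    simp only [(h _).self]
    exact tendsto_const_nhds
  · refine tendsto_nhds_unique (hT x y) ?_
    simp only [fun s => (h s).comm x y]
    exact hT y x
  · exact le_of_tendsto_of_tendsto' (hT x z) ((hT x y).add (hT y z)) fun s => (h s).tri x y z
  · refine (h 0).cont.add (continuous_tsum (fun s => (h (s + 1)).cont.sub (h s).cont) hu ?_)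
    intro s z
    exact hd s z.1 z.2

theorem PsD.exists_space [CompleteSpace X] {D : X → X → ℝ} (h : PsD D)
    (low : ∀ ε > 0, ∃ K > 0, ∀ x y, D x y < K → dist x y < ε) :
    ∃ (Y : Type) (_ : MetricSpace Y), CompleteSpace Y ∧
      ∃ e : X ≃ₜ Y, ∀ x y, dist (e x) (e y) = D x y := by
  let m : MetricSpace (Syn X) :=
    { dist := fun x y => D x y
      dist_self := h.self
      dist_comm := h.comm
      dist_triangle := h.tri
      eq_of_dist_eq_zero := fun {x y} hxy => by
        have h2 : D x y = 0 := hxy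
        refine @eq_of_forall_dist_le X _ x y fun ε hε => ?_
        obtain ⟨K, hK, H⟩ := low ε hε
        exact (H x y (h2 ▸ hK)).le }
  let e0 : X ≃ Syn X := Equiv.refl X
  have hd : ∀ x y, dist (e0 x) (e0 y) = D x y := fun _ _ => rfl
  have hl : UniformContinuous e0.symm := Metric.uniformContinuous_iff.2 fun ε hε => by
    obtain ⟨K, hK, H⟩ := low ε hε
    exact ⟨K, hK, fun {a b} hab => H a b hab⟩
  have hc : Continuous e0 := by
    refine continuous_iff_continuousAt.2 fun x => ?_
    rw [ContinuousAt, tendsto_iff_dist_tendsto_zero]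
    simp only [hd]
    have : Continuous fun y => D y x := h.cont.comp (continuous_id.prodMk continuous_const)
    have h2 := this.tendsto x
    rwa [h.self] at h2
  refine ⟨Syn X, m, ?_, ⟨e0, hc, hl.continuous⟩, hd⟩
  refine Metric.complete_of_cauchySeq_tendsto fun v hv => ?_
  obtain ⟨a, ha⟩ := cauchySeq_tendsto_of_complete (hl.comp_cauchySeq hv)
  exact ⟨e0 a, (hc.tendsto a).comp ha⟩

/-- geometry of one side: cuts, digs, floors (scale, floor exponent) -/
abbrev Gm := List Tent × List Tent × List (ℕ × ℕ)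

variable (c : ℕ → X) (p : ℕ)

/-- the distance to the base point, lowered by the digs -/
noncomputable def GG (W : List Tent) (x : X) : ℝ := max 0 (dist x (c p) - tsm c W x)

noncomputable def FL (C : List Tent) (a : ℝ) (x : X) : ℝ :=
  C.foldr (fun T acc => max (tv c T x) acc) a

noncomputable def FF (g : Gm) (x : X) : ℝ := FL c g.1 (GG c p g.2.1 x) x

noncomputable def rho (g : Gm) (x y : X) : ℝ :=
  max (DL c g.1 x y) |GG c p g.2.1 x - GG c p g.2.1 y|

noncomputable def DD (g : Gm) (x y : X) : ℝ := min (rho c p g x y) (FF c p g x + FF c p g y)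

/-- a bound for the slope of `GG` -/
def lipn (W : List Tent) : ℕ := 1 + (W.map fun T => 2 ^ T.2.2.1).sum

/-- the point `c m` is off the tent with a margin -/
def Mg (T : Tent) (m : ℕ) : Prop :=
  ((1 : ℕ) : ℝ) < |2 ^ T.2.2.1 * dist (c m) (c T.1) - T.2.1|

/-- total height -/
noncomputable def HG (g : Gm) : ℝ := hts g.1 + hts g.2.1

theorem Mg.tv {T : Tent} {m : ℕ} (h : Mg c T m) : tv c T (c m) = 0 :=
  tv_eq_zero c _ _ (by unfold Mg at h; push_cast at h; exact h.le)

theorem tsm_nonneg (W : List Tent) (x : X) : 0 ≤ tsm c W x := by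
  induction W with
  | nil => simp
  | cons T W ih => rw [tsm_cons]; exact add_nonneg (tv_nonneg c T x) ih

theorem GG_nonneg (W : List Tent) (x : X) : 0 ≤ GG c p W x := le_max_left _ _

theorem GG_le (W : List Tent) (x : X) : GG c p W x ≤ dist x (c p) :=
  max_le dist_nonneg (by linarith [tsm_nonneg c W x])

theorem GG_nil (x : X) : GG c p [] x = dist x (c p) := by simp [GG]

theorem GG_p (W : List Tent) : GG c p W (c p) = 0 :=
  le_antisymm (by simpa using GG_le c p W (c p)) (GG_nonneg c p W _)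

theorem continuous_GG (W : List Tent) : Continuous (GG c p W) := by
  have := continuous_tsm c W
  unfold GG
  fun_prop

theorem GG_cons (T : Tent) (W : List Tent) (x : X) :
    GG c p (T :: W) x = max 0 (GG c p W x - tv c T x) := by
  have := tv_nonneg c T x
  unfold GG
  rw [tsm_cons]
  rcases le_total 0 (dist x (c p) - tsm c W x) with h | h
  · rw [max_eq_right h]; congr 1; ring
  · rw [max_eq_left h, max_eq_left (by linarith), max_eq_left (by linarith)]

theorem tsm_lip (W : List Tent) (x y : X) :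
    |tsm c W x - tsm c W y| ≤ ((W.map fun T => 2 ^ T.2.2.1).sum : ℕ) * dist x y := by
  induction W with
  | nil => simp
  | cons T W ih =>
    have h1 := tv_lip c T x y
    have h2 := abs_add_le (tv c T x - tv c T y) (tsm c W x - tsm c W y)
    rw [tsm_cons, tsm_cons, List.map_cons, List.sum_cons,
      show tv c T x + tsm c W x - (tv c T y + tsm c W y) =
        tv c T x - tv c T y + (tsm c W x - tsm c W y) by ring]
    push_cast at ih ⊢
    linarith

theorem GG_lip (W : List Tent) (x y : X) :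
    |GG c p W x - GG c p W y| ≤ lipn W * dist x y := by
  have h1 := abs_le.1 (tsm_lip c W x y)
  have h2 := abs_le.1 (abs_dist_sub_le x y (c p))
  have h3 : (0 : ℝ) ≤ lipn W * dist x y := by positivity
  unfold GG
  refine (abs_max_sub_max_le_max _ _ _ _).trans (max_le (by simpa using h3) ?_)
  unfold lipn
  push_cast at h1 ⊢
  exact abs_le.2 ⟨by linarith [h1.2, h2.1], by linarith [h1.1, h2.2]⟩

/-- on the support of a steep dig the function stays above its value at the centre -/
theorem dig_low {W : List Tent} {m j h : ℕ} (hj : lipn W ≤ 2 ^ j) (x : X) :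
    GG c p ((m, 0, j, h) :: W) x = GG c p W x ∨
      (dist x (c m) < q j ∧ GG c p W (c m) - q h ≤ GG c p ((m, 0, j, h) :: W) x) := by
  have hd : (0 : ℝ) ≤ 2 ^ j * dist x (c m) := by positivity
  have e : tv c (m, 0, j, h) x = max 0 (q h - 2 ^ j * dist x (c m)) := by
    simp [tv, abs_of_nonneg hd]
  rw [GG_cons, e]
  rcases le_or_gt (q h - 2 ^ j * dist x (c m)) 0 with h1 | h1
  · left
    rw [max_eq_left h1, sub_zero, max_eq_right (GG_nonneg c p W x)]
  · right
    rw [max_eq_right h1.le]
    have h2 := abs_le.1 (GG_lip c p W x (c m))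
    have h3 : (lipn W : ℝ) ≤ 2 ^ j := by exact_mod_cast hj
    have h4 := mul_le_mul_of_nonneg_right h3 (dist_nonneg (x := x) (y := c m))
    refine ⟨?_, le_trans (by linarith [h2.1]) (le_max_right _ _)⟩
    have h5 := q_mul_pow j
    have h6 := q_le_one h
    have h7 : (0 : ℝ) < 2 ^ j := by positivity
    nlinarith

theorem dig_center {W : List Tent} {m j h : ℕ} (hh : q h ≤ GG c p W (c m)) :
    GG c p ((m, 0, j, h) :: W) (c m) = GG c p W (c m) - q h := by
  rw [GG_cons, tv_center, max_eq_right (by linarith)]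

@[simp] theorem FL_nil (a : ℝ) (x : X) : FL c [] a x = a := rfl

@[simp] theorem FL_cons (T : Tent) (C : List Tent) (a : ℝ) (x : X) :
    FL c (T :: C) a x = max (tv c T x) (FL c C a x) := rfl

theorem le_FL (C : List Tent) (a : ℝ) (x : X) : a ≤ FL c C a x := by
  induction C with
  | nil => exact le_rfl
  | cons T C ih => exact ih.trans (le_max_right _ _)

theorem tv_le_FL {C : List Tent} {T : Tent} (hT : T ∈ C) (a : ℝ) (x : X) :
    tv c T x ≤ FL c C a x := by
  induction C with
  | nil => simp at hT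
  | cons T' C ih =>
    rcases List.mem_cons.1 hT with rfl | h
    · exact le_max_left _ _
    · exact (ih h).trans (le_max_right _ _)

theorem FL_eq {C : List Tent} {a : ℝ} {x : X} (ha : 0 ≤ a) (h : ∀ T ∈ C, tv c T x = 0) :
    FL c C a x = a := by
  induction C with
  | nil => rfl
  | cons T C ih =>
    rw [FL_cons, h T List.mem_cons_self, ih fun T' hT => h T' (List.mem_cons_of_mem _ hT),
      max_eq_right ha]

theorem FL_lip (C : List Tent) (a b : ℝ) (x y : X) :
    |FL c C a x - FL c C b y| ≤ max (DL c C x y) |a - b| := by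
  induction C with
  | nil => exact le_max_right _ _
  | cons T C ih =>
    rw [FL_cons, FL_cons, DL_cons]
    refine (abs_max_sub_max_le_max _ _ _ _).trans (max_le ?_ (ih.trans ?_))
    · exact (le_max_left _ _).trans (le_max_left _ _)
    · exact max_le_max (le_max_right _ _) le_rfl

theorem FL_base (C : List Tent) (a b : ℝ) (x : X) : |FL c C a x - FL c C b x| ≤ |a - b| := by
  have := FL_lip c C a b x x
  rwa [(good_DL c C).self, max_eq_right (abs_nonneg _)] at this

theorem GG_le_FF (g : Gm) (x : X) : GG c p g.2.1 x ≤ FF c p g x := le_FL c _ _ _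

theorem FF_nonneg (g : Gm) (x : X) : 0 ≤ FF c p g x :=
  (GG_nonneg c p _ x).trans (GG_le_FF c p g x)

theorem FF_eq {g : Gm} {m : ℕ} (h : ∀ T ∈ g.1, Mg c T m) :
    FF c p g (c m) = GG c p g.2.1 (c m) :=
  FL_eq c (GG_nonneg c p _ _) fun T hT => (h T hT).tv

theorem continuous_FF (g : Gm) : Continuous (FF c p g) := by
  obtain ⟨C, W, L⟩ := g
  unfold FF
  dsimp only
  induction C with
  | nil => exact continuous_GG c p W
  | cons T C ih => exact (continuous_tv c T).max ih

theorem good_rho (g : Gm) : GoodD (rho c p g) := by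
  have h := good_DL c g.1
  refine ⟨fun x => by simp [rho, h.self], fun x y => by rw [rho, rho, h.comm, abs_sub_comm],
    fun x y z => ?_, fun x y => (h.ge x y).trans (le_max_left _ _), ?_⟩
  · exact max_le ((h.tri x y z).trans (add_le_add (le_max_left _ _) (le_max_left _ _)))
      ((abs_sub_le _ (GG c p g.2.1 y) _).trans (add_le_add (le_max_right _ _) (le_max_right _ _)))
  · have h1 := continuous_GG c p g.2.1
    have h2 := h.cont
    unfold rho
    fun_prop

theorem FF_lip (g : Gm) (x y : X) : |FF c p g x - FF c p g y| ≤ rho c p g x y := FL_lip c _ _ _ _ _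

theorem ps_DD (g : Gm) : PsD (DD c p g) := by
  have G := good_rho c p g
  have n := FF_nonneg c p g
  refine ⟨fun x => ?_, fun x y => by rw [DD, DD, G.comm, add_comm], fun x y z => ?_, ?_⟩
  · rw [DD, G.self]
    exact min_eq_left (add_nonneg (n x) (n x))
  · have h1 := G.tri x y z
    have h2 := (abs_le.1 (FF_lip c p g x y)).2
    have h3 := (abs_le.1 (FF_lip c p g y z)).1
    have h4 := n y
    have h5 : DD c p g x z ≤ rho c p g x z := min_le_left _ _
    have h6 : DD c p g x z ≤ FF c p g x + FF c p g z := min_le_right _ _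
    rcases min_choice (rho c p g x y) (FF c p g x + FF c p g y) with a | a <;>
      rcases min_choice (rho c p g y z) (FF c p g y + FF c p g z) with b | b <;>
      rw [DD, DD, DD, a, b] <;> rw [DD] at h5 h6 <;> linarith
  · have h1 := G.cont
    have h2 := continuous_FF c p g
    unfold DD
    fun_prop

theorem DD_le (g : Gm) (x y : X) : DD c p g x y ≤ rho c p g x y := min_le_left _ _

theorem DD_p {g : Gm} (hp : ∀ T ∈ g.1, Mg c T p) {m : ℕ} (hm : ∀ T ∈ g.1, Mg c T m) :
    DD c p g (c m) (c p) ≤ GG c p g.2.1 (c m) := by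
  refine (min_le_right _ _).trans ?_
  rw [FF_eq c p hp, FF_eq c p hm, GG_p, add_zero]

theorem min_le_DD (g : Gm) (x y : X) : min (dist x y) (FF c p g y) ≤ DD c p g x y :=
  min_le_min ((good_rho c p g).ge x y) (by linarith [FF_nonneg c p g x])

theorem tv_le_DD {g : Gm} {T : Tent} (hT : T ∈ g.1) {u : X} (hu : tv c T u = 0) (y : X) :
    tv c T y ≤ DD c p g u y := by
  refine le_min ?_ ?_
  · have := (le_DL c hT u y).trans (le_max_left _ |GG c p g.2.1 u - GG c p g.2.1 y|)
    rwa [hu, zero_sub, abs_neg, abs_of_nonneg (tv_nonneg c T y)] at this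
  · have := tv_le_FL c hT (GG c p g.2.1 y) y
    have := FF_nonneg c p g u
    unfold FF at *
    linarith

/-- growth of the geometry of one side -/
def GrowG (n : ℕ) (g g' : Gm) : Prop :=
  (g'.1 = g.1 ∨ ∃ T, (∀ i < n, Mg c T i) ∧ g'.1 = T :: g.1) ∧ Grow c n g.2.1 g'.2.1

variable {c}

theorem GrowG.grow {n : ℕ} {g g' : Gm} (h : GrowG c n g g') : Grow c n g.1 g'.1 := by
  rcases h.1 with h | ⟨T, h1, h2⟩
  · exact Or.inl h
  · exact Or.inr ⟨T, fun i hi => (h1 i hi).tv, h2⟩

theorem GrowG.refl (n : ℕ) (g : Gm) : GrowG c n g g := ⟨Or.inl rfl, Or.inl rfl⟩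

theorem GrowG.mg {n m : ℕ} {g g' : Gm} (h : GrowG c n g g') (hm : m < n)
    (H : ∀ T ∈ g.1, Mg c T m) : ∀ T ∈ g'.1, Mg c T m := by
  rcases h.1 with h | ⟨T, h1, h2⟩
  · rwa [h]
  · rw [h2]
    intro T' hT
    rcases List.mem_cons.1 hT with rfl | hT
    · exact h1 m hm
    · exact H T' hT

theorem GrowG.GG_frozen {n i : ℕ} {g g' : Gm} (h : GrowG c n g g') (hi : i < n) :
    GG c p g'.2.1 (c i) = GG c p g.2.1 (c i) := by
  unfold GG
  rw [h.2.tsm_frozen hi]

theorem GrowG.FF_frozen {n i : ℕ} {g g' : Gm} (h : GrowG c n g g') (hi : i < n) :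
    FF c p g' (c i) = FF c p g (c i) := by
  unfold FF
  rw [h.GG_frozen p hi]
  rcases h.grow with h1 | ⟨T, h1, h2⟩
  · rw [h1]
  · rw [h2, FL_cons, h1 i hi]
    exact max_eq_right (FF_nonneg c p g _)

theorem GrowG.DD_frozen {n i j : ℕ} {g g' : Gm} (h : GrowG c n g g') (hi : i < n) (hj : j < n) :
    DD c p g' (c i) (c j) = DD c p g (c i) (c j) := by
  unfold DD rho
  rw [h.FF_frozen p hi, h.FF_frozen p hj, h.GG_frozen p hi, h.GG_frozen p hj,
    h.grow.DL_frozen hi hj]

theorem GrowG.HG_le {n : ℕ} {g g' : Gm} (h : GrowG c n g g') : HG g ≤ HG g' :=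
  add_le_add h.grow.hts_le h.2.hts_le

theorem GrowG.GG_diff {n : ℕ} {g g' : Gm} (h : GrowG c n g g') (x : X) :
    |GG c p g'.2.1 x - GG c p g.2.1 x| ≤ hts g'.2.1 - hts g.2.1 := by
  rcases h.2 with h1 | ⟨T, -, h1⟩
  · simp [h1]
  · rw [h1, GG_cons, hts_cons, add_sub_cancel_right]
    have h2 := tv_nonneg c T x
    have h3 := tv_le c T x
    have h4 := GG_nonneg c p g.2.1 x
    have h5 := le_max_right 0 (GG c p g.2.1 x - tv c T x)
    have h6 : max 0 (GG c p g.2.1 x - tv c T x) ≤ GG c p g.2.1 x := max_le h4 (by linarith)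
    exact abs_le.2 ⟨by linarith, by linarith⟩

theorem GrowG.FF_diff {n : ℕ} {g g' : Gm} (h : GrowG c n g g') (x : X) :
    |FF c p g' x - FF c p g x| ≤ HG g' - HG g := by
  have h1 := abs_le.1 ((FL_base c g.1 (GG c p g'.2.1 x) (GG c p g.2.1 x) x).trans (h.GG_diff p x))
  have h0 : 0 ≤ FL c g.1 (GG c p g'.2.1 x) x := (GG_nonneg c p _ x).trans (le_FL c _ _ _)
  unfold FF HG
  rcases h.grow with h2 | ⟨T, -, h2⟩
  · rw [h2]
    exact abs_le.2 ⟨by linarith [h1.1], by linarith [h1.2]⟩
  · rw [h2, FL_cons, hts_cons]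
    have h3 := tv_le c T x
    have h4 := q_pos T.2.2.2
    have h5 := le_max_right (tv c T x) (FL c g.1 (GG c p g'.2.1 x) x)
    have h6 : max (tv c T x) (FL c g.1 (GG c p g'.2.1 x) x) ≤
        q T.2.2.2 + FL c g.1 (GG c p g'.2.1 x) x := max_le (by linarith) (by linarith)
    exact abs_le.2 ⟨by linarith [h1.1], by linarith [h1.2]⟩

theorem GrowG.DD_diff {n : ℕ} {g g' : Gm} (h : GrowG c n g g') (x y : X) :
    |DD c p g' x y - DD c p g x y| ≤ 2 * (HG g' - HG g) := by
  have h1 := abs_le.1 (h.FF_diff p x)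
  have h2 := abs_le.1 (h.FF_diff p y)
  have h3 := abs_le.1 (h.GG_diff p x)
  have h4 := abs_le.1 (h.GG_diff p y)
  have h5 := h.grow.DL_diff x y
  have h6 := h.grow.hts_le
  have h7 := h.2.hts_le
  unfold DD
  refine (abs_min_sub_min_le_max _ _ _ _).trans (max_le ?_
    (abs_le.2 ⟨by linarith [h1.1, h2.1], by linarith [h1.2, h2.2]⟩))
  unfold rho HG
  refine (abs_max_sub_max_le_max _ _ _ _).trans (max_le (by linarith) ?_)
  refine (abs_abs_sub_abs_le_abs_sub _ _).trans
    (abs_le.2 ⟨by linarith [h3.1, h4.2], by linarith [h3.2, h4.1]⟩)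

section re
variable {α : Type} [Primcodable α] (hc : CR fun z : ℕ × ℕ => dist (c z.1) (c z.2))
include hc

theorem cr_GG {W : α → List Tent} {i : α → ℕ} (hW : Computable W) (hi : Computable i) :
    CR fun a => GG c p (W a) (c (i a)) :=
  (cr_dist hc hi (j := fun _ => p) (by fun_prop)).tsub (cr_tsm hc hW hi)

theorem cr_FF {g : α → Gm} {i : α → ℕ} (hg : Computable g) (hi : Computable i) :
    CR fun a => FF c p (g a) (c (i a)) :=
  CR.list_max (F := fun a T => tv c T (c (i a))) (by fun_prop)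
    (cr_tv hc (by fun_prop) (by fun_prop)) (cr_GG p hc (by fun_prop) hi)

theorem cr_rho {g : α → Gm} {i j : α → ℕ} (hg : Computable g) (hi : Computable i)
    (hj : Computable j) : CR fun a => rho c p (g a) (c (i a)) (c (j a)) :=
  (CR.list_max (F := fun a T => |tv c T (c (i a)) - tv c T (c (j a))|) (by fun_prop)
    ((cr_tv hc (by fun_prop) (by fun_prop)).abs_sub (cr_tv hc (by fun_prop) (by fun_prop)))
    (cr_dist hc hi hj)).max ((cr_GG p hc (by fun_prop) hi).abs_sub (cr_GG p hc (by fun_prop) hj))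

theorem cr_DD {g : α → Gm} {i j : α → ℕ} (hg : Computable g) (hi : Computable i)
    (hj : Computable j) : CR fun a => DD c p (g a) (c (i a)) (c (j a)) := by
  have h1 := cr_rho p hc hg hi hj
  have h2 := (cr_FF p hc hg hi).add (cr_FF p hc hg hj)
  refine (h1.tsub (h1.tsub h2)).of_eq fun a => ?_
  have h3 : 0 ≤ rho c p (g a) (c (i a)) (c (j a)) := dist_nonneg.trans ((good_rho c p _).ge _ _)
  have h4 := add_nonneg (FF_nonneg c p (g a) (c (i a))) (FF_nonneg c p (g a) (c (j a)))
  unfold DD
  rcases le_total (rho c p (g a) (c (i a)) (c (j a)))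
    (FF c p (g a) (c (i a)) + FF c p (g a) (c (j a))) with h | h
  · rw [min_eq_left h, max_eq_left (sub_nonpos.2 h), sub_zero, max_eq_right h3]
  · rw [min_eq_right h, max_eq_right (sub_nonneg.2 h), sub_sub_cancel, max_eq_right h4]

theorem re_Mg {T : α → Tent} {m : α → ℕ} (hT : Computable T) (hm : Computable m) :
    RE fun a => Mg c (T a) (m a) :=
  (CR.nat (f := fun _ => 1) (by fun_prop)).lt
    (((cr_dist hc hm (by fun_prop)).pow_mul (by fun_prop)).abs_sub (CR.nat (by fun_prop)))

end re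

end Pool.Agent.P.MP_fa5791_lc.Two
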