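import Pool.Agent.P.MP_fa5791_lc.TDefs

namespace Pool.Agent.P.MP_fa5791_lc.Two

open Pool.Agent.Lib.ComputableProp Pool.Agent.P.MP_fa5791_lc

@[simp] theorem fresh_ph (r e t : ℕ) : (fresh r e t).ph = 0 := rfl
@[simp] theorem fresh_sc (r e t : ℕ) : (fresh r e t).sc = e + r + t + 1 := rfl

@[simp] theorem idle_n (st : Stt) : (idle st).1 = st.1 + 1 := rfl
@[simp] theorem gm_idle (st : Stt) (b : Bool) : gm (idle st) b = gm st b := rfl
@[simp] theorem look_idle (r : ℕ) (st : Stt) (e : ℕ) : look r (idle st) e = look r st e := rfl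
@[simp] theorem mk_n (st : Stt) (n : ℕ) (b : Bool) (g : Gm) (x : Ent) : (mk st n b g x).1 = n := rfl

theorem gm_mk (st : Stt) (n : ℕ) (b b' : Bool) (g : Gm) (x : Ent) :
    gm (mk st n b g x) b' = if b' = b then g else gm st b' := by
  cases b <;> cases b' <;> rfl

@[simp] theorem gm_mk_self (st : Stt) (n : ℕ) (b : Bool) (g : Gm) (x : Ent) :
    gm (mk st n b g x) b = g := by simp [gm_mk]

@[simp] theorem gm_mk_not (st : Stt) (n : ℕ) (b : Bool) (g : Gm) (x : Ent) :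
    gm (mk st n b g x) (!b) = gm st (!b) := by simp [gm_mk]

@[simp] theorem gm_mk_not' (st : Stt) (n : ℕ) (b : Bool) (g : Gm) (x : Ent) :
    gm (mk st n (!b) g x) b = gm st b := by simp [gm_mk]

theorem look_mk (r : ℕ) (st : Stt) (n : ℕ) (b : Bool) (g : Gm) (e t : ℕ) (d : Dt) (e' : ℕ) :
    look r (mk st n b g (e, t, d)) e' =
      if e = e' then d else if e < e' ∧ 1 ≤ t then fresh r e' t else look r st e' := by
  unfold look lookL mk
  by_cases h : e = e'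
  · simp [h, eqb]
  · by_cases h2 : e < e' ∧ 1 ≤ t
    · simp [h, eqb, leb, h2.1, h2.2]
    · rw [if_neg h, if_neg h2]
      have h3 : (leb (e + 1) e' && leb 1 t) = false := by
        rw [← Bool.not_eq_true, Bool.and_eq_true, leb_iff, leb_iff]
        exact h2
      simp [h, eqb, h3]

@[simp] theorem look_mk_self (r : ℕ) (st : Stt) (n : ℕ) (b : Bool) (g : Gm) (e t : ℕ) (d : Dt) :
    look r (mk st n b g (e, t, d)) e = d := by simp [look_mk]

theorem cand_cases (d : Dt) (t : ℕ) : cand d t = d.z ∨ cand d t = d.m1 := by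
  unfold cand
  cases eqb t 0 <;> simp

@[simp] theorem cand_zero (d : Dt) : cand d 0 = d.z := by simp [cand, eqb]
@[simp] theorem cand_one (d : Dt) : cand d 1 = d.m1 := by simp [cand, eqb]

variable {X : Type} [MetricSpace X] (c : ℕ → X) (p r : ℕ)

/-- the step of requirement `e` from `st` to `st'` resets the requirements of lower priority -/
def Rs (e : ℕ) (st st' : Stt) : Prop :=
  1 ≤ (look r st e).ph ∧ (look r st e).ph < (look r st' e).ph

/-- shape of a transition at stage `s`, attending requirement `e` -/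
structure Shp (s e : ℕ) (st st' : Stt) : Prop where
  n_lt : st.1 < st'.1
  grow : ∀ b, GrowG c st.1 (gm st b) (gm st' b)
  fl : ∀ b, (gm st' b).2.2 = (gm st b).2.2 ∨ (Rs r e st st' ∧ b = sd e ∧
    ∃ f, (gm st' b).2.2 = ((look r st e).sc, f) :: (gm st b).2.2)
  sc : (look r st' e).sc = (look r st e).sc
  ph : (look r st e).ph ≤ (look r st' e).ph ∨ 3 ≤ (look r st e).ph
  hi : ∀ e' < e, look r st' e' = look r st e'
  lo : Rs r e st st' → ∀ e', e < e' → look r st' e' = fresh r e' (s + 1)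
  nr : ¬ Rs r e st st' → ∀ e', e' ≠ e → look r st' e' = look r st e'

/-- a frozen point off all the cuts of the source side -/
def Pt (st : Stt) (e m : ℕ) : Prop := m < st.1 ∧ ∀ T ∈ (gm st (sd e)).1, Mg c T m

/-- history-free invariant of one requirement -/
def GI (s e : ℕ) (st : Stt) (d : Dt) : Prop :=
  e + r + 1 ≤ d.sc ∧ d.sc ≤ e + r + s + 1 ∧ (d.ph = 0 ∨ (d.sc + 1 ≤ d.b0 ∧ Pt c st e d.z ∧
    ((d.ph = 1 ∧ Pt c st e d.m1 ∧ c d.z ≠ c d.m1 ∧ c d.z ≠ c p ∧ c d.m1 ≠ c p ∧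
        dist (c d.z) (c p) ≤ q (d.b0 + 1) ∧ dist (c d.m1) (c p) ≤ q (d.b0 + 1)) ∨
      (d.ph = 2 ∧ dist (c d.z) (c p) ≤ q (d.b0 + 1)) ∨
      (d.ph = 3 ∧ d.b0 ≤ d.b1 ∧ dist (c d.z) (c p) ≤ q (d.b0 + 1) + Eb d.b1 s ∧
        (d.sc, d.b1 + 3) ∈ (gm st (sd e)).2.2))))

/-- history-free invariant of the state -/
structure SI (s : ℕ) (st : Stt) : Prop where
  n : p + s < st.1
  mg : ∀ b, ∀ T ∈ (gm st b).1, Mg c T p
  low : ∀ b x, GG c p (gm st b).2.1 x = dist x (c p) ∨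
    ∃ y ∈ (gm st b).2.2, dist x (c p) < q y.1 ∧ q y.2 ≤ GG c p (gm st b).2.1 x
  gi : ∀ e, GI c p r s e st (look r st e)

/-- total height of the tents -/
noncomputable def HH (st : Stt) : ℝ := HG (gm st true) + HG (gm st false)

/-- bound for the height `a` spent by a requirement -/
def Spent (s e : ℕ) (st : Stt) (d : Dt) (a : ℝ) : Prop :=
  (d.ph ≤ 1 ∧ a ≤ 8 * (q e - q d.sc)) ∨ (d.ph = 2 ∧ a ≤ 8 * (q e - q d.sc) + q d.sc) ∨
    (3 ≤ d.ph ∧ a + GG c p (gm st (sd e)).2.1 (c d.z) ≤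
      8 * (q e - q d.sc) + q d.sc + q (d.b0 + 1) + Eb d.b1 s)

/-- the initial state -/
def st0 (p : ℕ) : Stt := (p + 1, ([], [], []), ([], [], []), [])

/-- a run of the construction -/
structure Rn (st : ℕ → Stt) : Prop where
  init : st 0 = st0 p
  step : ∀ s, Rl c p r s (st s) (st (s + 1))

theorem HH_idle (st : Stt) : HH (idle st) = HH st := rfl

theorem HH_mk (st : Stt) (n : ℕ) (b : Bool) (g : Gm) (x : Ent) :
    HH (mk st n b g x) - HH st = HG g - HG (gm st b) := by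
  cases b <;> simp [HH, gm_mk]

variable {c p r}

theorem Nw.van {g : Gm} {n τ m m' j l : ℕ} (h : Nw c p g n τ m m' j l) (k : ℕ) :
    Van c n (m', 0, j, k) := by
  intro i hi
  refine tv_eq_zero c _ _ ?_
  have := h.2.1 i hi
  have h2 := q_mul_pow j
  have h3 : (0 : ℝ) < 2 ^ j := by positivity
  simp only [Nat.cast_zero, sub_zero]
  rw [abs_of_nonneg (by positivity), dist_comm]
  nlinarith

theorem Nw.dist_lt {g : Gm} {n τ m m' j l : ℕ} (h : Nw c p g n τ m m' j l) :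
    dist (c m') (c m) < q τ := ((good_rho c p g).ge _ _).trans_lt h.1

theorem Nw.abs_GG {g : Gm} {n τ m m' j l : ℕ} (h : Nw c p g n τ m m' j l) :
    |GG c p g.2.1 (c m') - GG c p g.2.1 (c m)| < q τ := (le_max_right _ _).trans_lt h.1

theorem Nw.ne {g : Gm} {n τ m m' j l i : ℕ} (h : Nw c p g n τ m m' j l) (hi : i < n) :
    c m' ≠ c i := fun e => by
  have := h.2.1 i hi
  rw [e, dist_self] at this
  exact absurd this (not_lt.2 (q_pos j).le)

theorem shp_idle (s e : ℕ) (st : Stt) : Shp c r s e st (idle st) :=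
  ⟨Nat.lt_succ_self _, fun _ => GrowG.refl _ _, fun _ => Or.inl rfl, rfl, Or.inl le_rfl,
    fun _ _ => rfl, fun h => absurd h.2 (lt_irrefl _), fun _ _ _ => rfl⟩

theorem shp_mk {s e n t : ℕ} {st : Stt} {b : Bool} {g : Gm} {d : Dt} (hn : st.1 < n)
    (hg : GrowG c st.1 (gm st b) g) (hsc : d.sc = (look r st e).sc)
    (hph : (look r st e).ph ≤ d.ph ∨ 3 ≤ (look r st e).ph)
    (ht : (t = 0 ∧ ¬ (1 ≤ (look r st e).ph ∧ (look r st e).ph < d.ph) ∧ g.2.2 = (gm st b).2.2) ∨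
      (t = s + 1 ∧ (1 ≤ (look r st e).ph ∧ (look r st e).ph < d.ph) ∧
        (g.2.2 = (gm st b).2.2 ∨ (b = sd e ∧ ∃ f, g.2.2 = ((look r st e).sc, f) :: (gm st b).2.2)))) :
    Shp c r s e st (mk st n b g (e, t, d)) := by
  have hR : Rs r e st (mk st n b g (e, t, d)) ↔
      (1 ≤ (look r st e).ph ∧ (look r st e).ph < d.ph) := by simp [Rs]
  refine ⟨hn, fun b' => ?_, fun b' => ?_, by simpa using hsc, by simpa using hph,
    fun e' he => ?_, fun h e' he => ?_, fun h e' he => ?_⟩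
  · rw [gm_mk]
    split_ifs with h
    · rw [h]; exact hg
    · exact GrowG.refl _ _
  · rw [gm_mk]
    split_ifs with h
    · subst h
      rcases ht with ⟨-, -, h⟩ | ⟨-, h1, h | h⟩
      · exact Or.inl h
      · exact Or.inl h
      · exact Or.inr ⟨hR.2 h1, h⟩
    · exact Or.inl rfl
  · rw [look_mk, if_neg (by omega), if_neg (by omega)]
  · rcases ht with ⟨-, h1, -⟩ | ⟨rfl, -, -⟩
    · exact absurd (hR.1 h) h1
    · rw [look_mk, if_neg (by omega), if_pos ⟨he, by omega⟩]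
  · rcases ht with ⟨rfl, -, -⟩ | ⟨-, h1, -⟩
    · rw [look_mk, if_neg (Ne.symm he), if_neg (by omega)]
    · exact absurd (hR.2 h1) h

theorem RG.shp {s e : ℕ} {st st' : Stt} (h : RG c p s e (look r st e) st st') :
    Shp c r s e st st' := by
  rcases h with ⟨hd, ⟨-, rfl⟩ | ⟨w, m, j, m', j', -, -, -, rfl⟩⟩ |
    ⟨hd, ⟨-, rfl⟩ | ⟨w, ρ, j, -, hC, rfl⟩⟩ | ⟨hd, ⟨-, rfl⟩ | ⟨w, -, rfl⟩⟩ |
    ⟨hd, ⟨-, rfl⟩ | ⟨-, rfl⟩ | ⟨-, w, m, j, -, -, hN, rfl⟩⟩
  · exact shp_idle _ _ _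
  · exact shp_mk (by omega) (GrowG.refl _ _) rfl (by simp [hd]) (Or.inl ⟨rfl, by omega, rfl⟩)
  · exact shp_idle _ _ _
  · exact shp_mk (by omega) ⟨Or.inr ⟨(w.2.2.1, ρ, j, _), hC.2.2, rfl⟩, Or.inl rfl⟩ rfl (by simp [hd])
      (Or.inr ⟨rfl, by simp [hd], Or.inl rfl⟩)
  · exact shp_idle _ _ _
  · exact shp_mk (by omega) ⟨Or.inl rfl, Or.inl rfl⟩ rfl (by simp [hd])
      (Or.inr ⟨rfl, by simp [hd], Or.inr ⟨rfl, _, rfl⟩⟩)
  · exact shp_idle _ _ _
  · exact shp_idle _ _ _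
  · exact shp_mk (by omega) ⟨Or.inl rfl, Or.inr ⟨_, hN.van _, rfl⟩⟩ rfl (Or.inr hd)
      (Or.inl ⟨rfl, by simp only [Dt.ph_mk]; omega, rfl⟩)

theorem Rl.shp {s : ℕ} {st st' : Stt} (h : Rl c p r s st st') :
    Shp c r s s.unpair.1 st st' := RG.shp h

theorem Rl.g {s e : ℕ} {st st' : Stt} (h : Rl c p r s st st') (he : s.unpair.1 = e) :
    RG c p s e (look r st e) st st' := by
  subst he; exact h

theorem Shp.fl_sub {s e : ℕ} {st st' : Stt} (h : Shp c r s e st st') (b : Bool) :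
    ∀ y ∈ (gm st b).2.2, y ∈ (gm st' b).2.2 := by
  intro y hy
  rcases h.fl b with h1 | ⟨-, -, f, h1⟩ <;> rw [h1]
  · exact hy
  · exact List.mem_cons_of_mem _ hy

theorem Shp.HH_le {s e : ℕ} {st st' : Stt} (h : Shp c r s e st st') : HH st ≤ HH st' :=
  add_le_add (h.grow true).HG_le (h.grow false).HG_le

theorem Shp.DD_diff {s e : ℕ} {st st' : Stt} (h : Shp c r s e st st') (b : Bool) (x y : X) :
    |DD c p (gm st' b) x y - DD c p (gm st b) x y| ≤ 2 * (HH st' - HH st) := by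
  have h1 := (h.grow true).HG_le
  have h2 := (h.grow false).HG_le
  refine ((h.grow b).DD_diff p x y).trans ?_
  unfold HH
  cases b <;> linarith

theorem Pt.step {s e e' m : ℕ} {st st' : Stt} (h : Pt c st e m) (hs : Shp c r s e' st st') :
    Pt c st' e m := ⟨h.1.trans hs.n_lt, (hs.grow _).mg h.1 h.2⟩

theorem GI.ph_le {s e : ℕ} {st : Stt} {d : Dt} (h : GI c p r s e st d) : d.ph ≤ 3 := by
  rcases h.2.2 with h | ⟨-, -, h | h | h⟩ <;> omega

theorem GI.dist_le {s e : ℕ} {st : Stt} {d : Dt} (h : GI c p r s e st d) (hd : 1 ≤ d.ph) :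
    d.sc + 1 ≤ d.b0 ∧ Pt c st e d.z ∧ dist (c d.z) (c p) ≤ q d.b0 := by
  have h1 := q_succ d.b0
  have h2 := q_pos d.b0
  rcases h.2.2 with h | ⟨a, b, h | h | h⟩
  · omega
  · exact ⟨a, b, by linarith [h.2.2.2.2.2.1]⟩
  · exact ⟨a, b, by linarith [h.2]⟩
  · have := Eb_le d.b1 s
    have := q_anti h.2.1
    exact ⟨a, b, by linarith [h.2.2.1]⟩

theorem SI.p_lt {s : ℕ} {st : Stt} (h : SI c p r s st) : p < st.1 := by
  have := h.n; omega

end Pool.Agent.P.MP_fa5791_lc.Two
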