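import Pool.Agent.P.MP_fa5791_lc.TShape

namespace Pool.Agent.P.MP_fa5791_lc.Two

open Pool.Agent.Lib.ComputableProp Pool.Agent.P.MP_fa5791_lc

variable {X : Type} [MetricSpace X] {c : ℕ → X} {p r : ℕ}

theorem exists_Nw (hc : DenseRange c) {m : ℕ} (hm : ∀ ε > 0, ∃ y, y ≠ c m ∧ dist y (c m) < ε)
    {g : Gm} (hg : ∀ T ∈ g.1, Mg c T m) (n τ l : ℕ) : ∃ m' j, Nw c p g n τ m m' j l := by
  classical
  have hcont : Continuous fun y => rho c p g y (c m) :=
    (good_rho c p g).cont.comp (continuous_id.prodMk continuous_const)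
  have hV : ∀ L : List Tent, IsOpen {y | ∀ T ∈ L,
      ((1 : ℕ) : ℝ) < |2 ^ T.2.2.1 * dist y (c T.1) - T.2.1|} := by
    intro L
    induction L with
    | nil => simp
    | cons T L ih =>
      simp only [List.forall_mem_cons, Set.ofPred_and]
      exact (isOpen_lt continuous_const (by fun_prop)).inter ih
  have hU := (isOpen_lt hcont (continuous_const (y := q τ))).inter (hV g.1)
  have hF : (c '' Set.Iio n).Finite := (Set.finite_Iio _).image _
  have hU2 := hU.sdiff (hF.subset (Set.sdiff_subset (t := {c m}))).isClosed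
  obtain ⟨ε, hε, hb⟩ := Metric.isOpen_iff.1 hU2 (c m)
    ⟨⟨by simp [(good_rho c p g).self, q_pos], hg⟩, by simp⟩
  obtain ⟨y, hy, hyd⟩ := hm ε hε
  have hy2 := hb hyd
  obtain ⟨m', hm'⟩ := hc.exists_mem_open (hU.sdiff hF.isClosed)
    ⟨y, hy2.1, fun h => hy2.2 ⟨h, hy⟩⟩
  have : ∀ k ≤ n, ∃ j, ∀ i < k, q j < dist (c m') (c i) := by
    intro k
    induction k with
    | zero => intro _; exact ⟨0, by simp⟩
    | succ k ih =>
      intro hn
      obtain ⟨j, hj⟩ := ih (by omega)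
      have hne : c m' ≠ c k := fun h => hm'.2 ⟨k, show k < n by omega, h.symm⟩
      obtain ⟨j', hj'⟩ := exists_q_lt (dist_pos.2 hne)
      refine ⟨max j j', fun i hi => ?_⟩
      rcases (by omega : i < k ∨ i = k) with h | rfl
      · exact (q_anti (le_max_left _ _)).trans_lt (hj i h)
      · exact (q_anti (le_max_right _ _)).trans_lt hj'
  obtain ⟨j, hj⟩ := this _ le_rfl
  refine ⟨m', j + lipn g.2.1 + l, hm'.1.1, fun i hi => (q_anti (by omega)).trans_lt (hj i hi),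
    hm'.1.2, ?_, by omega⟩
  have := @Nat.lt_two_pow_self (j + lipn g.2.1 + l)
  omega

theorem wk_of_not {st : Stt} {b t : Bool} {m : ℕ} {w : V0} (h : ¬ Ns c p st b t m w) :
    Wk c p st b t m w := by
  unfold Ns at h
  push Not at h
  exact ⟨by simpa using h.1, valW_of_not h.2⟩

theorem rl_total (hc : DenseRange c)
    (hp : ∀ x, dist x (c p) < q r → ∀ ε > 0, ∃ y, y ≠ x ∧ dist y x < ε) (s : ℕ) (st : Stt)
    (h : SI c p r s st) : ∃ st', Rl c p r s st st' := by
  unfold Rl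
  generalize s.unpair.1 = e
  have g := h.gi e
  generalize look r st e = d at g
  have hpp := hp (c p) (by simp [q_pos])
  rcases (by omega : d.ph = 0 ∨ d.ph = 1 ∨ d.ph = 2 ∨ 3 ≤ d.ph) with hd | hd | hd | hd
  · by_cases h0 : ∀ w : V0, Encodable.encode w < s → Ns c p st (sd e) (de0 s e st.1 d w) p w
    · exact ⟨_, Or.inl ⟨hd, Or.inl ⟨h0, rfl⟩⟩⟩
    · push Not at h0
      obtain ⟨w, -, hw⟩ := h0
      obtain ⟨m, j, hN⟩ := exists_Nw (p := p) hc hpp (h.mg (sd e)) st.1 (w.2.1 + 1) 0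
      obtain ⟨m', j', hN'⟩ := exists_Nw (p := p) hc hpp (h.mg (sd e)) (max st.1 m + 1) (w.2.1 + 1) 0
      exact ⟨_, Or.inl ⟨hd, Or.inr ⟨w, m, j, m', j', wk_of_not hw, hN, hN', rfl⟩⟩⟩
  · by_cases h0 : ∀ w : V1, Encodable.encode w < s → Ns1 c p s e st d w
    · exact ⟨_, Or.inr (Or.inl ⟨hd, Or.inl ⟨h0, rfl⟩⟩)⟩
    · push Not at h0
      obtain ⟨w, -, hw⟩ := h0
      unfold Ns1 at hw
      push Not at hw
      obtain ⟨ρ, j, hN⟩ := exists_Cut (c := c) st.1 w.2.2.1 w.2.2.2.1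
      obtain ⟨a1, a2, a3, a4, a5, a6⟩ := hw
      have := q_pos w.2.2.2.1
      push_cast at a4 a5 a6
      exact ⟨_, Or.inr (Or.inl ⟨hd, Or.inr ⟨w, ρ, j, ⟨by simpa using a1, valW_of_not a2,
        valW_of_not a3, by linarith, by push_cast; linarith, by push_cast; linarith⟩, hN, rfl⟩⟩)⟩
  · by_cases h0 : ∀ w : V0, Encodable.encode w < s → Ns c p st (sd e) (de2 s e d.b0 d w) p w
    · exact ⟨_, Or.inr (Or.inr (Or.inl ⟨hd, Or.inl ⟨h0, rfl⟩⟩))⟩
    · push Not at h0
      obtain ⟨w, -, hw⟩ := h0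
      exact ⟨_, Or.inr (Or.inr (Or.inl ⟨hd, Or.inr ⟨w, wk_of_not hw, rfl⟩⟩))⟩
  · by_cases h1 : DD c p (gm st (sd e)) (c d.z) (c p) < q d.b1
    · exact ⟨_, Or.inr (Or.inr (Or.inr ⟨hd, Or.inl ⟨h1, rfl⟩⟩))⟩
    by_cases h0 : ∀ w : V0, Encodable.encode w < s → Ns c p st (sd e) (de2 s e d.b1 d w) d.z w
    · exact ⟨_, Or.inr (Or.inr (Or.inr ⟨hd, Or.inr (Or.inl ⟨h0, rfl⟩)⟩))⟩
    push Not at h0
    classical
    have hex : ∃ b, ∃ w : V0, Encodable.encode w < s ∧
        ¬ Ns c p st (sd e) (de2 s e d.b1 d w) d.z w ∧ w.2.1 = b := by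
      obtain ⟨w, h1, h2⟩ := h0
      exact ⟨_, w, h1, h2, rfl⟩
    obtain ⟨w, -, hw, hb⟩ := Nat.find_spec hex
    obtain ⟨g1, g2, g3⟩ := g.dist_le (by omega)
    have hm : dist (c d.z) (c p) < q r := by
      have := q_succ r
      have := q_pos r
      have := q_anti (show r + 1 ≤ d.b0 by have := g.1; omega)
      linarith
    obtain ⟨m, j, hN⟩ := exists_Nw (p := p) hc (hp _ hm) g2.2 st.1 (w.2.1 + d.b1 + s + 4) (d.sc + 1)
    refine ⟨_, Or.inr (Or.inr (Or.inr ⟨hd, Or.inr (Or.inr ⟨?_, w, m, j, wk_of_not hw,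
      fun w' hw' => ?_, hN, rfl⟩)⟩))⟩
    · have := q_succ d.b1
      have := q_pos d.b1
      linarith [not_lt.1 h1]
    · by_cases h3 : Ns c p st (sd e) (de2 s e d.b1 d w') d.z w'
      · exact Or.inl h3
      · right
        rw [hb]
        exact Nat.find_min' hex ⟨w', hw', h3, rfl⟩

theorem si_zero : SI c p r 0 (st0 p) := by
  refine ⟨Nat.lt_succ_self _, fun b T hT => ?_, fun b x => Or.inl ?_, fun e => ?_⟩
  · cases b <;> exact absurd hT List.not_mem_nil
  · cases b <;> exact GG_nil c p x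
  · exact ⟨le_rfl, le_rfl, Or.inl rfl⟩

theorem GI.same {s e e' : ℕ} {st st' : Stt} {d : Dt} (g : GI c p r s e st d)
    (hs : Shp c r s e' st st') : GI c p r (s + 1) e st' d := by
  obtain ⟨g1, g2, g3⟩ := g
  refine ⟨g1, by omega, ?_⟩
  rcases g3 with g | ⟨a, b, g | g | g⟩
  · exact Or.inl g
  · exact Or.inr ⟨a, b.step hs, Or.inl ⟨g.1, g.2.1.step hs, g.2.2⟩⟩
  · exact Or.inr ⟨a, b.step hs, Or.inr (Or.inl g)⟩
  · refine Or.inr ⟨a, b.step hs, Or.inr (Or.inr ⟨g.1, g.2.1, ?_, hs.fl_sub _ _ g.2.2.2⟩)⟩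
    rw [Eb_succ]
    linarith [g.2.2.1, q_pos (d.b1 + s + 4)]

theorem GI.att {s e : ℕ} {st st' : Stt} (hR : RG c p s e (look r st e) st st')
    (si : SI c p r s st) : GI c p r (s + 1) e st' (look r st' e) := by
  have g := si.gi e
  have hsh := hR.shp
  have hp := si.p_lt
  have hidle : st' = idle st → GI c p r (s + 1) e st' (look r st' e) := by
    rintro rfl
    exact g.same hsh
  generalize hd0 : look r st e = d at hR g
  have g1 := g.1
  have g2 := g.2.1
  rcases hR with ⟨hd, ⟨-, h'⟩ | ⟨w, m, j, m', j', hw, hN, hN', h'⟩⟩ |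
    ⟨hd, ⟨-, h'⟩ | ⟨w, ρ, j, -, hC, h'⟩⟩ | ⟨hd, ⟨-, h'⟩ | ⟨w, hw, h'⟩⟩ |
    ⟨hd, ⟨-, h'⟩ | ⟨-, h'⟩ | ⟨hgt, w, m, j, hw, -, hN, h'⟩⟩
  · exact hidle h'
  · have hdec := hw.1
    simp only [de0, Bool.and_eq_true, eqb_iff, leb_iff] at hdec
    subst h'
    rw [look_mk_self]
    refine ⟨g1, by simp only [Dt.sc_mk]; omega, Or.inr ⟨hdec.2, ⟨by simp, ?_⟩,
      Or.inl ⟨rfl, ⟨by simp, ?_⟩, (hN'.ne (i := m) (by omega)).symm, hN.ne hp,
        hN'.ne (by omega), hN.dist_lt.le, hN'.dist_lt.le⟩⟩⟩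
    · rw [gm_mk_self]; exact hN.2.2.1
    · rw [gm_mk_self]; exact hN'.2.2.1
  · exact hidle h'
  · rcases g.2.2 with g | ⟨a, b, g | g | g⟩
    · omega
    · have e5 : look r st' e = (2, d.sc, cand d w.1, 0, d.b0, 0, w.2.2.2.2.2.2 + d.sc + j + 3) := by
        rw [h', look_mk_self]
      rw [e5]
      refine ⟨g1, by simp only [Dt.sc_mk]; omega, Or.inr ⟨a, ?_, Or.inr (Or.inl ⟨rfl, ?_⟩)⟩⟩
      · rcases cand_cases d w.1 with h | h <;> rw [Dt.z_mk, h]
        · exact b.step hsh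
        · exact g.2.1.step hsh
      · rcases cand_cases d w.1 with h | h <;> rw [Dt.z_mk, h]
        · exact g.2.2.2.2.2.1
        · exact g.2.2.2.2.2.2
    · omega
    · omega
  · exact hidle h'
  · have hdec := hw.1
    simp only [de2, Bool.and_eq_true, eqb_iff, leb_iff] at hdec
    rcases g.2.2 with g | ⟨a, b, g | g | g⟩
    · omega
    · omega
    · have e5 : look r st' e = (3, d.sc, d.z, 0, d.b0, w.2.1, d.k) := by rw [h', look_mk_self]
      rw [e5]
      refine ⟨g1, by simp only [Dt.sc_mk]; omega, Or.inr ⟨a, b.step hsh,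
        Or.inr (Or.inr ⟨rfl, hdec.2, ?_, by rw [h']; simp⟩)⟩⟩
      have := (q_pos _).le.trans (le_Eb w.2.1 (s + 1))
      simp only [Dt.z_mk, Dt.b0_mk, Dt.b1_mk]
      linarith [g.2]
    · omega
  · exact hidle h'
  · exact hidle h'
  · rcases g.2.2 with g | ⟨a, b, g | g | g⟩
    · omega
    · omega
    · omega
    · have e5 : look r st' e = (3, d.sc, m, 0, d.b0, d.b1, d.k) := by rw [h', look_mk_self]
      rw [e5]
      refine ⟨g1, by simp only [Dt.sc_mk]; omega, Or.inr ⟨a, ⟨by rw [h']; simp, ?_⟩,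
        Or.inr (Or.inr ⟨rfl, g.2.1, ?_, hsh.fl_sub _ _ g.2.2.2⟩)⟩⟩
      · rw [h', gm_mk_self]; exact hN.2.2.1
      · have h1 := hN.dist_lt
        have h2 := q_anti (show d.b1 + s + 4 ≤ w.2.1 + d.b1 + s + 4 by omega)
        have h3 := dist_triangle (c m) (c d.z) (c p)
        simp only [Dt.z_mk, Dt.b0_mk, Dt.b1_mk]
        rw [Eb_succ]
        linarith [g.2.2.1]

theorem SI.low_att {s e : ℕ} {st st' : Stt} (hR : RG c p s e (look r st e) st st')
    (si : SI c p r s st) (b : Bool) (x : X) : GG c p (gm st' b).2.1 x = dist x (c p) ∨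
      ∃ y ∈ (gm st' b).2.2, dist x (c p) < q y.1 ∧ q y.2 ≤ GG c p (gm st' b).2.1 x := by
  have g := si.gi e
  have hsh := hR.shp
  have old : GG c p (gm st' b).2.1 x = GG c p (gm st b).2.1 x →
      GG c p (gm st' b).2.1 x = dist x (c p) ∨
      ∃ y ∈ (gm st' b).2.2, dist x (c p) < q y.1 ∧ q y.2 ≤ GG c p (gm st' b).2.1 x := by
    intro h
    rw [h]
    rcases si.low b x with h1 | ⟨y, hy, h1⟩
    · exact Or.inl h1
    · exact Or.inr ⟨y, hsh.fl_sub b y hy, h1⟩
  generalize hd0 : look r st e = d at hR g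
  rcases hR with ⟨hd, ⟨-, h'⟩ | ⟨w, m, j, m', j', hw, hN, hN', h'⟩⟩ |
    ⟨hd, ⟨-, h'⟩ | ⟨w, ρ, j, -, hC, h'⟩⟩ | ⟨hd, ⟨-, h'⟩ | ⟨w, hw, h'⟩⟩ |
    ⟨hd, ⟨-, h'⟩ | ⟨-, h'⟩ | ⟨hgt, w, m, j, hw, -, hN, h'⟩⟩
  · exact old (by rw [h']; rfl)
  · exact old (by rw [h', gm_mk]; split_ifs with h <;> simp [h])
  · exact old (by rw [h']; rfl)
  · exact old (by rw [h', gm_mk]; split_ifs with h <;> simp [h])
  · exact old (by rw [h']; rfl)
  · exact old (by rw [h', gm_mk]; split_ifs with h <;> simp [h])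
  · exact old (by rw [h']; rfl)
  · exact old (by rw [h']; rfl)
  · by_cases hb : b = sd e
    swap
    · exact old (by rw [h', gm_mk, if_neg hb])
    subst hb
    have e1 : (gm st' (sd e)).2.1 = (m, 0, j, w.2.1 + 2) :: (gm st (sd e)).2.1 := by
      rw [h', gm_mk_self]
    rcases dig_low c p (m := m) (h := w.2.1 + 2) hN.2.2.2.1 x with h1 | ⟨h1, h2⟩
    · exact old (by rw [e1, h1])
    · have hdec := hw.1
      simp only [de2, Bool.and_eq_true, eqb_iff, leb_iff] at hdec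
      rcases g.2.2 with g' | ⟨a, b, g' | g' | g'⟩
      · omega
      · omega
      · omega
      refine Or.inr ⟨(d.sc, d.b1 + 3), hsh.fl_sub _ _ g'.2.2.2, ?_, ?_⟩
      · have k1 := hN.dist_lt
        have k2 := dist_triangle4 x (c m) (c d.z) (c p)
        have k3 := q_anti hN.2.2.2.2
        have k4 := q_anti (show d.sc + 1 + 1 + 1 ≤ w.2.1 + d.b1 + s + 4 by omega)
        have k5 := q_anti (show d.sc + 1 + 1 ≤ d.b0 + 1 by omega)
        have k6 := Eb_le d.b1 s
        have k7 := q_anti (show d.sc + 1 ≤ d.b1 by omega)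
        have k8 := q_succ d.sc
        have k9 := q_succ (d.sc + 1)
        have k10 := q_succ (d.sc + 1 + 1)
        change _ < q d.sc
        linarith [g'.2.2.1]
      · have k1 := abs_lt.1 hN.abs_GG
        have k2 := DD_p c p (si.mg (sd e)) b.2
        have k4 := q_anti (show d.b1 + 3 + 1 ≤ w.2.1 + d.b1 + s + 4 by omega)
        have k5 := q_anti (show d.b1 + 1 + 1 ≤ w.2.1 + 2 by omega)
        have k6 := q_succ (d.b1 + 1)
        have k7 := q_succ (d.b1 + 2)
        have k8 := q_succ (d.b1 + 3)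
        have k9 := q_pos (d.b1 + 3)
        rw [e1]
        change q (d.b1 + 3) ≤ _
        linarith

theorem SI.step {s : ℕ} {st st' : Stt} (h : SI c p r s st) (hR : Rl c p r s st st') :
    SI c p r (s + 1) st' := by
  have hsh := hR.shp
  refine ⟨by have := h.n; have := hsh.n_lt; omega, fun b => (hsh.grow b).mg h.p_lt (h.mg b),
    SI.low_att (hR.g rfl) h, fun e => ?_⟩
  by_cases he : s.unpair.1 = e
  · exact GI.att (hR.g he) h
  · by_cases hr : s.unpair.1 < e ∧ Rs r s.unpair.1 st st'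
    · rw [hsh.lo hr.2 e hr.1]
      exact ⟨by simp only [fresh_sc]; omega, le_rfl, Or.inl rfl⟩
    · have hk : look r st' e = look r st e := by
        rcases lt_or_gt_of_ne he with h1 | h1
        · exact hsh.nr (fun h2 => hr ⟨h1, h2⟩) e (Ne.symm he)
        · exact hsh.hi e h1
      rw [hk]
      exact (h.gi e).same hsh

theorem Eb_nonneg (b s : ℕ) : 0 ≤ Eb b s := (q_pos _).le.trans (le_Eb b s)

theorem Spent.le4 {s e : ℕ} {st : Stt} {d : Dt} {a : ℝ} (h : Spent c p s e st d a)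
    (g : GI c p r s e st d) : a ≤ 8 * q e - 4 * q d.sc := by
  have h0 := q_pos d.sc
  rcases h with ⟨-, h⟩ | ⟨-, h⟩ | ⟨hd, h⟩
  · linarith
  · linarith
  · rcases g.2.2 with g | ⟨g1, -, g | g | g⟩
    · omega
    · omega
    · omega
    · have h1 := Eb_le d.b1 s
      have h2 := q_anti (show d.sc ≤ d.b1 by omega)
      have h3 := q_anti (show d.sc ≤ d.b0 + 1 by omega)
      have h4 := GG_nonneg c p (gm st (sd e)).2.1 (c d.z)
      linarith

theorem Spent.same {s e e' : ℕ} {st st' : Stt} {d : Dt} {a : ℝ} (h : Spent c p s e st d a)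
    (g : GI c p r s e st d) (hs : Shp c r s e' st st') : Spent c p (s + 1) e st' d a := by
  rcases h with h | h | ⟨hd, h⟩
  · exact Or.inl h
  · exact Or.inr (Or.inl h)
  · refine Or.inr (Or.inr ⟨hd, ?_⟩)
    rw [(hs.grow _).GG_frozen p (g.dist_le (by omega)).2.1.1, Eb_succ]
    linarith [q_pos (d.b1 + s + 4)]

theorem Spent.att {s e : ℕ} {st st' : Stt} {a : ℝ} (hR : RG c p s e (look r st e) st st')
    (si : SI c p r s st) (h : Spent c p s e st (look r st e) a) :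
    Spent c p (s + 1) e st' (look r st' e) (a + (HH st' - HH st)) := by
  have g := si.gi e
  have hsh := hR.shp
  have hidle : st' = idle st → Spent c p (s + 1) e st' (look r st' e) (a + (HH st' - HH st)) := by
    rintro rfl
    rw [HH_idle, sub_self, add_zero]
    exact h.same g hsh
  generalize hd0 : look r st e = d at hR g h
  rcases hR with ⟨hd, ⟨-, h'⟩ | ⟨w, m, j, m', j', -, -, -, h'⟩⟩ |
    ⟨hd, ⟨-, h'⟩ | ⟨w, ρ, j, -, hC, h'⟩⟩ | ⟨hd, ⟨-, h'⟩ | ⟨w, -, h'⟩⟩ |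
    ⟨hd, ⟨-, h'⟩ | ⟨-, h'⟩ | ⟨hgt, w, m, j, hw, -, hN, h'⟩⟩
  · exact hidle h'
  · subst h'
    rw [HH_mk, look_mk_self, sub_self, add_zero]
    rcases h with h | h | h
    · exact Or.inl ⟨by simp, h.2⟩
    all_goals omega
  · exact hidle h'
  · subst h'
    rw [HH_mk, look_mk_self]
    rcases h with h | h | h
    · refine Or.inr (Or.inl ⟨rfl, ?_⟩)
      simp only [HG, hts_cons, Dt.sc_mk]
      linarith [h.2]
    all_goals omega
  · exact hidle h'
  · subst h'
    rw [HH_mk, look_mk_self]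
    rcases h with h | h | h
    · omega
    · refine Or.inr (Or.inr ⟨le_rfl, ?_⟩)
      simp only [HG, Dt.sc_mk, Dt.z_mk, Dt.b0_mk, Dt.b1_mk, gm_mk_self]
      have h1 := GG_le c p (gm st (sd e)).2.1 (c d.z)
      have h2 := Eb_nonneg w.2.1 (s + 1)
      rcases g.2.2 with g | ⟨-, -, g | g | g⟩
      · omega
      · omega
      · linarith [h.2, g.2]
      · omega
    · omega
  · exact hidle h'
  · exact hidle h'
  · subst h'
    rw [HH_mk, look_mk_self]
    rcases h with h | h | h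
    · omega
    · omega
    · refine Or.inr (Or.inr ⟨le_rfl, ?_⟩)
      have hdec := hw.1
      simp only [de2, Bool.and_eq_true, eqb_iff, leb_iff] at hdec
      have h1 := abs_lt.1 hN.abs_GG
      have h2 := DD_p c p (si.mg (sd e)) (g.dist_le (by omega)).2.1.2
      have h3 := q_anti (show d.b1 + s + 4 ≤ w.2.1 + d.b1 + s + 4 by omega)
      have h4 := q_anti (show d.b1 + 1 + 1 + 1 ≤ d.b1 + s + 4 by omega)
      have h5 := q_anti (show d.b1 + 1 + 1 ≤ w.2.1 + 2 by omega)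
      have h6 := q_succ (d.b1 + 1)
      have h7 := q_succ (d.b1 + 1 + 1)
      have h8 := q_pos (d.b1 + 1)
      simp only [HG, hts_cons, Dt.sc_mk, Dt.z_mk, Dt.b0_mk, Dt.b1_mk, gm_mk_self]
      rw [dig_center c p (by linarith), Eb_succ]
      linarith [h.2]

theorem spent_zero (e : ℕ) : Spent c p 0 e (st0 p) (look r (st0 p) e) 0 := by
  refine Or.inl ⟨Nat.zero_le 1, ?_⟩
  have := q_anti (show e ≤ e + r + 0 + 1 by omega)
  change 0 ≤ 8 * (q e - q (e + r + 0 + 1))
  linarith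

theorem Spent.step {s e : ℕ} {st st' : Stt} {a : ℝ} (h : SI c p r s st) (hR : Rl c p r s st st')
    (ha : Spent c p s e st (look r st e) a) :
    Spent c p (s + 1) e st' (look r st' e)
      (a + if s.unpair.1 = e then HH st' - HH st else 0) := by
  by_cases he : s.unpair.1 = e
  · rw [if_pos he]
    exact Spent.att (hR.g he) h ha
  · rw [if_neg he, add_zero]
    by_cases hr : s.unpair.1 < e ∧ Rs r s.unpair.1 st st'
    · rw [hR.shp.lo hr.2 e hr.1]
      refine Or.inl ⟨by simp, ?_⟩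
      have h1 := ha.le4 (h.gi e)
      have h2 := q_anti (show (look r st e).sc + 1 ≤ e + r + (s + 1) + 1 by
        have := (h.gi e).2.1; omega)
      have h3 := q_succ (look r st e).sc
      rw [fresh_sc]
      linarith
    · have hk : look r st' e = look r st e := by
        rcases lt_or_gt_of_ne he with h1 | h1
        · exact hR.shp.nr (fun h2 => hr ⟨h1, h2⟩) e (Ne.symm he)
        · exact hR.shp.hi e h1
      rw [hk]
      exact ha.same (h.gi e) hR.shp

theorem Spent.le {s e : ℕ} {st : Stt} {a : ℝ} (h : SI c p r s st)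
    (ha : Spent c p s e st (look r st e) a) : a ≤ 8 * q e := by
  have := ha.le4 (h.gi e)
  have := q_pos (look r st e).sc
  linarith

end Pool.Agent.P.MP_fa5791_lc.Two
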